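import Pool.Agent.Work.MP_6d7bb4_S.Interface2

set_option autoImplicit false

/-! # MP_6d7bb4, block MIN: the span of the centres is a minimal invariant subgroup (helper89) -/

namespace Pool.Agent.Work.MP_6d7bb4.helper94.Sol

open MulAction Tv Ff Ps

namespace X_MIN

variable {U : Type} [AddCommGroup U] {p : ℕ} [Fact p.Prime] [Module (ZMod p) U]

theorem ap_one (v : U) : ((1 : Un U) : AddMonoid.End U) v = v := rfl

theorem inv_Sc (Z : Subgroup (Un U)) (e : U) : Iv Z (Sc Z e) := by
  intro g hg u hu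
  unfold Sc at hu ⊢
  induction hu using AddSubgroup.closure_induction with
  | mem u hu =>
    obtain ⟨h, hh, rfl⟩ := hu
    exact AddSubgroup.subset_closure ⟨g * h, Z.mul_mem hg hh, by rw [mul_ap]⟩
  | zero => rw [map_zero]; exact AddSubgroup.zero_mem _
  | add a b _ _ ha hb => rw [map_add]; exact AddSubgroup.add_mem _ ha hb
  | neg a _ ha => rw [map_neg]; exact AddSubgroup.neg_mem _ ha

theorem mem_Sc {Z : Subgroup (Un U)} (e : U) {g : Un U} (hg : g ∈ Z) :
    (g : AddMonoid.End U) e ∈ Sc Z e := AddSubgroup.subset_closure ⟨g, hg, rfl⟩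

/-- the elements moving everything inside an invariant subgroup -/
theorem clos {Z : Subgroup (Un U)} {S : AddSubgroup U} (hS : Iv Z S) {T : Set (Un U)}
    (hT : ∀ s ∈ T, s ∈ Z ∧ ∀ u : U, (s : AddMonoid.End U) u - u ∈ S) :
    ∀ a ∈ Subgroup.closure T, a ∈ Z ∧ ∀ u : U, (a : AddMonoid.End U) u - u ∈ S := by
  intro a ha
  induction ha using Subgroup.closure_induction with
  | mem a ha => exact hT a ha
  | one =>
    refine ⟨Z.one_mem, fun u => ?_⟩
    rw [ap_one, sub_self]
    exact S.zero_mem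
  | mul a b _ _ ha hb =>
    refine ⟨Z.mul_mem ha.1 hb.1, fun u => ?_⟩
    have h1 : ((a * b : Un U) : AddMonoid.End U) u - u
        = (a : AddMonoid.End U) ((b : AddMonoid.End U) u - u)
          + ((a : AddMonoid.End U) u - u) := by
      rw [mul_ap, map_sub]
      abel
    rw [h1]
    exact S.add_mem (hS a ha.1 _ (hb.2 u)) (ha.2 u)
  | inv a _ ha =>
    refine ⟨Z.inv_mem ha.1, fun u => ?_⟩
    have h1 : ((a⁻¹ : Un U) : AddMonoid.End U) u - u
        = -((a : AddMonoid.End U) (((a⁻¹ : Un U) : AddMonoid.End U) u)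
          - ((a⁻¹ : Un U) : AddMonoid.End U) u) := by
      rw [ap_inv]
      abel
    rw [h1]
    exact S.neg_mem (ha.2 _)

omit [Module (ZMod p) U] in
theorem cop {E : Subgroup (Un U)} [Finite E] (hco : Co p E) : (Nat.card E).Coprime p := by
  have hp : p.Prime := Fact.out
  rw [Nat.coprime_comm, hp.coprime_iff_not_dvd]
  intro hdvd
  obtain ⟨x, hx⟩ := exists_prime_orderOf_dvd_card' p hdvd
  obtain ⟨n, hn, hxn⟩ := hco x.1 x.2
  have h1 : x ^ n = 1 := Subtype.ext hxn
  have h2 := orderOf_dvd_of_pow_eq_one h1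
  rw [hx] at h2
  have h3 : p ∣ 1 := by
    rw [← hn]
    exact Nat.dvd_gcd h2 dvd_rfl
  exact hp.one_lt.ne' (Nat.dvd_one.mp h3)

end X_MIN

open X_MIN in
theorem s_MIN (hTCE : Stmt_TCE) (_hTCP : Stmt_TCP) (hTCN : Stmt_TCN) (hTCL : Stmt_TCL)
    (hMEL : Stmt_MEL) : Stmt_MIN := by
  intro U _ p _ _ Y Z E D t e f hME
  obtain ⟨hEn, htE, hEc, hcl⟩ := hMEL U p Y Z E D t e f hME
  obtain ⟨c1, c2, c3, c4, c5, c6, c7, c8⟩ := hTCE U p Z E hEn
  have hS := inv_Sc Z e
  have htZ : t ∈ Z := hME.YZ hME.tY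
  have heS : e ∈ Sc Z e := by
    have h1 := mem_Sc (Z := Z) e Z.one_mem
    rwa [ap_one] at h1
  refine ⟨hS, ?_, ?_⟩
  · intro S' hS'le hS'
    by_cases hex : ∃ u ∈ S', ∃ g ∈ Z, f (((g⁻¹ : Un U) : AddMonoid.End U) u) ≠ 0
    · right
      obtain ⟨u, hu, g, hg, hfu⟩ := hex
      have h1 := hME.tv.conj g
      have h2 : ((g * t * g⁻¹ : Un U) : AddMonoid.End U) u - u ∈ S' :=
        S'.sub_mem (hS' _ (Z.mul_mem (Z.mul_mem hg htZ) (Z.inv_mem hg)) u hu) hu
      rw [h1.ap u, add_sub_cancel_left] at h2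
      have h3 : (g : AddMonoid.End U) e ∈ S' := by
        have h4 := ZMod.smul_mem h2 (f (((g⁻¹ : Un U) : AddMonoid.End U) u))⁻¹
        rw [← mul_smul] at h4
        have h5 : (f (((g⁻¹ : Un U) : AddMonoid.End U) u))⁻¹ *
            (f.comp ((g⁻¹ : Un U) : AddMonoid.End U)) u = 1 := inv_mul_cancel₀ hfu
        rw [h5, one_smul] at h4
        exact h4
      have h6 : e ∈ S' := by
        have h7 := hS' g⁻¹ (Z.inv_mem hg) _ h3
        rwa [inv_ap] at h7
      refine le_antisymm hS'le ?_
      unfold Sc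
      rw [AddSubgroup.closure_le]
      rintro _ ⟨h, hh, rfl⟩
      exact hS' h hh e h6
    · left
      push Not at hex
      -- E fixes S'
      have hfix : ∀ x ∈ E, ∀ u ∈ S', (x : AddMonoid.End U) u = u := by
        intro x hx
        have h1 : ∀ a ∈ Subgroup.closure {s | ∃ g ∈ Z, s = g * t * g⁻¹},
            ∀ u ∈ S', (a : AddMonoid.End U) u = u := by
          intro a ha
          induction ha using Subgroup.closure_induction with
          | mem a ha =>
            obtain ⟨g, hg, rfl⟩ := ha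
            intro u hu
            rw [(hME.tv.conj g).ap u]
            have h2 : (f.comp ((g⁻¹ : Un U) : AddMonoid.End U)) u = 0 := hex u hu g hg
            rw [h2, zero_smul, add_zero]
          | one => intro u _; rfl
          | mul a b _ _ ha hb =>
            intro u hu
            rw [mul_ap, hb u hu, ha u hu]
          | inv a _ ha =>
            intro u hu
            have h2 := inv_ap a u
            rw [ha u hu] at h2
            exact h2
        exact h1 x (hEc hx)
      have : Finite U := hME.fin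
      have : Finite (AddMonoid.End U) := Finite.of_injective (fun g : AddMonoid.End U =>
        (g : U → U)) (fun a b h => AddMonoidHom.ext (fun v => congrFun h v))
      have : Finite (Un U) := Finite.of_injective (fun g : Un U => (g : AddMonoid.End U))
        Units.val_injective
      have : Finite E := inferInstance
      have : Fintype E := Fintype.ofFinite E
      obtain ⟨N, hN⟩ : ∃ N : AddMonoid.End U, ∀ v, N v
          = ∑ x : E, ((x.1 : Un U) : AddMonoid.End U) v :=
        ⟨∑ x : E, ((x.1 : Un U) : AddMonoid.End U), fun v =>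
          AddMonoidHom.finsetSum_apply _ _ _⟩
      have hNx : ∀ x ∈ E, ∀ v, N ((x : AddMonoid.End U) v) = N v := by
        intro x hx v
        rw [hN, hN]
        refine Fintype.sum_equiv (Equiv.mulRight (⟨x, hx⟩ : E)) _ _ (fun y => ?_)
        rfl
      -- the group generated by the commutators
      obtain ⟨A, hA⟩ : ∃ A : AddSubgroup U, A = AddSubgroup.closure
          {w | ∃ x ∈ E, ∃ v : U, w = (x : AddMonoid.End U) v - v} := ⟨_, rfl⟩
      have hNA : ∀ u ∈ A, N u = 0 := by
        intro u hu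
        rw [hA] at hu
        induction hu using AddSubgroup.closure_induction with
        | mem u hu =>
          obtain ⟨x, hx, v, rfl⟩ := hu
          rw [map_sub, hNx x hx, sub_self]
        | zero => exact map_zero _
        | add a b _ _ ha hb => rw [map_add, ha, hb, add_zero]
        | neg a _ ha => rw [map_neg, ha, neg_zero]
      have hAi : Iv Z A := by
        intro g hg u hu
        rw [hA] at hu ⊢
        induction hu using AddSubgroup.closure_induction with
        | mem u hu =>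
          obtain ⟨x, hx, v, rfl⟩ := hu
          refine AddSubgroup.subset_closure ⟨g * x * g⁻¹, hEn.nE g hg x hx,
            (g : AddMonoid.End U) v, ?_⟩
          rw [map_sub, mul_ap, mul_ap, inv_ap]
        | zero => rw [map_zero]; exact AddSubgroup.zero_mem _
        | add a b _ _ ha hb => rw [map_add]; exact AddSubgroup.add_mem _ ha hb
        | neg a _ ha => rw [map_neg]; exact AddSubgroup.neg_mem _ ha
      have heA : e ∈ A := by
        obtain ⟨x, hx, hfx, -⟩ := hTCN U p Z E hEn t e f hME.tv htZ htE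
        have h1 : (x : AddMonoid.End U) e - e ∈ A := by
          rw [hA]
          exact AddSubgroup.subset_closure ⟨x, hx, e, rfl⟩
        have h2 : (t : AddMonoid.End U) ((x : AddMonoid.End U) e - e)
            - ((x : AddMonoid.End U) e - e) ∈ A := A.sub_mem (hAi t htZ _ h1) h1
        rw [hME.tv.ap, add_sub_cancel_left, map_sub, hME.tv.fe, sub_zero] at h2
        have h3 := ZMod.smul_mem h2 (f ((x : AddMonoid.End U) e))⁻¹
        rw [← mul_smul, inv_mul_cancel₀ hfx, one_smul] at h3
        exact h3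
      have hSA : Sc Z e ≤ A := by
        unfold Sc
        rw [AddSubgroup.closure_le]
        rintro _ ⟨h, hh, rfl⟩
        exact hAi h hh e heA
      rw [eq_bot_iff]
      intro u hu
      have h1 : N u = 0 := hNA u (hSA (hS'le hu))
      rw [hN, Finset.sum_congr rfl (fun x _ => hfix x.1 x.2 u hu), Finset.sum_const,
        Finset.card_univ, ← Nat.card_eq_fintype_card] at h1
      have h2 : p • u = 0 := by
        rw [← Nat.cast_smul_eq_nsmul (ZMod p), ZMod.natCast_self, zero_smul]
      have h3 : addOrderOf u ∣ Nat.gcd (Nat.card E) p :=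
        Nat.dvd_gcd (addOrderOf_dvd_of_nsmul_eq_zero h1) (addOrderOf_dvd_of_nsmul_eq_zero h2)
      rw [show Nat.gcd (Nat.card E) p = 1 from cop hME.co] at h3
      rw [AddSubgroup.mem_bot]
      exact AddMonoid.addOrderOf_eq_one_iff.mp (Nat.dvd_one.mp h3)
  · intro T hT a ha
    refine (clos hS (T := T) ?_ a ha).2
    intro s hs
    obtain ⟨hsZ, ⟨e3, f3, h3⟩, hsE⟩ := hT s hs
    refine ⟨hsZ, fun u => ?_⟩
    rw [h3.ap, add_sub_cancel_left]
    refine ZMod.smul_mem ?_ _
    obtain ⟨g, hg, hgc⟩ := hcl s hsZ ⟨e3, f3, h3⟩ hsE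
    have hr := hME.tv.conj g
    have hrZ : g * t * g⁻¹ ∈ Z := Z.mul_mem (Z.mul_mem hg htZ) (Z.inv_mem hg)
    have hrE : ¬ Cn E (g * t * g⁻¹) := c7 g hg t htZ htE
    obtain ⟨x, hx, hfx, -⟩ := hTCN U p Z E hEn _ _ _ hr hrZ hrE
    have hxZ : x ∈ Z := hEn.EZ hx
    have hr' := hr.conj x
    have hrZ' : x * (g * t * g⁻¹) * x⁻¹ ∈ Z := Z.mul_mem (Z.mul_mem hxZ hrZ) (Z.inv_mem hxZ)
    have hrE' : ¬ Cn E (x * (g * t * g⁻¹) * x⁻¹) := c7 x hxZ _ hrZ hrE
    obtain ⟨⟨a, b, hab⟩, -⟩ := hTCL U p Z E hEn _ _ s _ _ e3 _ _ f3 hr hr' h3 hrZ hrZ' hsZ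
      hrE hrE' hsE (c2 _ hrZ' _ hrZ (c6 x hx _ hrZ)) (c2 _ hsZ _ hrZ hgc) hfx
    rw [hab]
    have h4 : (g : AddMonoid.End U) e ∈ Sc Z e := mem_Sc e hg
    exact AddSubgroup.add_mem _ (ZMod.smul_mem h4 _) (ZMod.smul_mem (hS x hxZ _ h4) _)

end Pool.Agent.Work.MP_6d7bb4.helper94.Sol
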