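import Pool.Agent.Work.MP_6d7bb4_S.Interface2

set_option autoImplicit false
set_option linter.unusedSectionVars false

/-!
# MP_6d7bb4: all soluble semiprimitive groups; block SEM (helper53), the extended semisimplification
-/

namespace Pool.Agent.Work.MP_6d7bb4.helper94.Sol

open MulAction Tv Ff Ps
open scoped commutatorElement

namespace X_SEM

open Qd

section step

variable {X V U : Type} [Group X] [AddCommGroup V] [Finite V] [AddCommGroup U] [Finite U]
  {φ : X →* AddMonoid.End V} {ψ : X →* AddMonoid.End U} {W : AddSubgroup V} (hWi : Inv φ W)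
  {χ : X →* AddMonoid.End (U × (V ⧸ W))}

include hWi in
theorem tight (hχ : ∀ x u, χ x u = (ψ x u.1, qa hWi x u.2))
    (A : Subgroup X)
    (hcd : Nat.card U * Nat.card (Fx (ra hWi) A) ≤ Nat.card W * Nat.card (Fx ψ A))
    (ht : Nat.card V * Nat.card (Fx χ A) ≤ Nat.card (U × (V ⧸ W)) * Nat.card (Fx φ A)) :
    (∀ y ∈ Fx (qa hWi) A, ∃ v ∈ Fx φ A, (QuotientAddGroup.mk v : V ⧸ W) = y) ∧
      Nat.card W * Nat.card (Fx ψ A) ≤ Nat.card U * Nat.card (Fx (ra hWi) A) := by
  obtain ⟨f, hf⟩ : ∃ f : Fx φ A →+ Fx (qa hWi) A, ∀ v, (f v).1 = QuotientAddGroup.mk v.1 :=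
    ⟨{ toFun := fun v => ⟨QuotientAddGroup.mk v.1, fun a ha => by
         rw [qa_mk, v.2 a ha]⟩
       map_zero' := rfl
       map_add' := fun _ _ => rfl }, fun v => rfl⟩
  have h1 : Nat.card (Fx φ A) ≤ Nat.card (Fx (ra hWi) A) * Nat.card f.range := by
    refine (card_le_ker f.rangeRestrict).trans (Nat.mul_le_mul_right _ ?_)
    rw [AddMonoidHom.ker_rangeRestrict]
    have h2 : ∀ v : f.ker, v.1.1 ∈ W := by
      intro v
      rw [← QuotientAddGroup.eq_zero_iff, ← hf, (AddMonoidHom.mem_ker).mp v.2]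
      rfl
    refine Nat.card_le_card_of_injective (fun v : f.ker =>
      (⟨⟨v.1.1, h2 v⟩, fun a ha => Subtype.ext (v.1.2 a ha)⟩ : Fx (ra hWi) A)) ?_
    intro v v' h
    have h3 := congrArg (fun z : Fx (ra hWi) A => z.1.1) h
    exact Subtype.ext (Subtype.ext h3)
  have h2 : Nat.card (Fx ψ A) * Nat.card (Fx (qa hWi) A) ≤ Nat.card (Fx χ A) := by
    rw [← Nat.card_prod]
    refine Nat.card_le_card_of_injective (fun z : Fx ψ A × Fx (qa hWi) A =>
      (⟨(z.1.1, z.2.1), fun a ha => by
        rw [hχ]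
        exact Prod.ext (z.1.2 a ha) (z.2.2 a ha)⟩ : Fx χ A)) ?_
    intro z z' h
    have h3 := congrArg (fun z : Fx χ A => z.1) h
    exact Prod.ext (Subtype.ext (congrArg Prod.fst h3)) (Subtype.ext (congrArg Prod.snd h3))
  have h4 : Nat.card V = Nat.card (V ⧸ W) * Nat.card W :=
    AddSubgroup.card_eq_card_quotient_mul_card_addSubgroup W
  have hi : Nat.card f.range ≤ Nat.card (Fx (qa hWi) A) :=
    Nat.card_le_card_of_injective _ Subtype.val_injective
  have pa : 0 < Nat.card (V ⧸ W) := Nat.card_pos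
  have pb : 0 < Nat.card W := Nat.card_pos
  have pψ : 0 < Nat.card (Fx ψ A) := Nat.card_pos
  have pq : 0 < Nat.card (Fx (qa hWi) A) := Nat.card_pos
  rw [Nat.card_prod, h4] at ht
  obtain ⟨a, ea⟩ : ∃ a, a = Nat.card (V ⧸ W) := ⟨_, rfl⟩
  obtain ⟨b, eb⟩ : ∃ b, b = Nat.card W := ⟨_, rfl⟩
  obtain ⟨u, eu⟩ : ∃ u, u = Nat.card U := ⟨_, rfl⟩
  obtain ⟨gψ, eψ⟩ : ∃ g, g = Nat.card (Fx ψ A) := ⟨_, rfl⟩
  obtain ⟨gq, eq⟩ : ∃ g, g = Nat.card (Fx (qa hWi) A) := ⟨_, rfl⟩
  obtain ⟨gχ, eχ⟩ : ∃ g, g = Nat.card (Fx χ A) := ⟨_, rfl⟩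
  obtain ⟨gφ, eφ⟩ : ∃ g, g = Nat.card (Fx φ A) := ⟨_, rfl⟩
  obtain ⟨gr, er⟩ : ∃ g, g = Nat.card (Fx (ra hWi) A) := ⟨_, rfl⟩
  obtain ⟨i, ei⟩ : ∃ g, g = Nat.card f.range := ⟨_, rfl⟩
  rw [← ea, ← eb, ← eu, ← eχ, ← eφ] at ht
  rw [← eu, ← er, ← eb, ← eψ] at hcd
  rw [← eφ, ← er, ← ei] at h1
  rw [← eψ, ← eq, ← eχ] at h2
  rw [← ei, ← eq] at hi
  rw [← ea] at pa
  rw [← eb] at pb
  rw [← eψ] at pψ
  rw [← eq] at pq
  rw [← eb, ← eψ, ← eu, ← er]
  have k1 : a * b * (gψ * gq) ≤ u * a * (gr * i) :=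
    (Nat.mul_le_mul_left _ h2).trans (ht.trans (Nat.mul_le_mul_left _ h1))
  have k2 : gq ≤ i := by
    refine le_of_mul_le_mul_left (a := a * b * gψ) ?_ (Nat.mul_pos (Nat.mul_pos pa pb) pψ)
    calc a * b * gψ * gq = a * b * (gψ * gq) := by ring
      _ ≤ u * a * (gr * i) := k1
      _ = a * i * (u * gr) := by ring
      _ ≤ a * i * (b * gψ) := Nat.mul_le_mul_left _ hcd
      _ = a * b * gψ * i := by ring
  have k3 : b * gψ ≤ u * gr := by
    refine le_of_mul_le_mul_left (a := a * gq) ?_ (Nat.mul_pos pa pq)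
    calc a * gq * (b * gψ) = a * b * (gψ * gq) := by ring
      _ ≤ u * a * (gr * i) := k1
      _ ≤ u * a * (gr * gq) := Nat.mul_le_mul_left _ (Nat.mul_le_mul_left _ hi)
      _ = a * gq * (u * gr) := by ring
  refine ⟨?_, k3⟩
  have k4 : f.range = ⊤ := by
    refine AddSubgroup.eq_top_of_le_card _ ?_
    rw [← ei, ← eq]
    exact k2
  intro y hy
  have k5 : (⟨y, hy⟩ : Fx (qa hWi) A) ∈ f.range := by
    rw [k4]
    exact AddSubgroup.mem_top _
  obtain ⟨v, hv⟩ := k5
  refine ⟨v.1, v.2, ?_⟩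
  rw [← hf, hv]

theorem tl_step {p : ℕ} (hχ : ∀ x u, χ x u = (ψ x u.1, qa hWi x u.2))
    (hψ : Ss2 p (ra hWi) ψ) : ∀ A : Subgroup X,
    Nat.card V * Nat.card (Fx χ A) ≤ Nat.card (U × (V ⧸ W)) * Nat.card (Fx φ A) →
    ∀ b : X, (∀ v ∈ Fx φ A, φ b v = v) → ∀ u ∈ Fx χ A, χ b u = u := by
  intro A hA b hb u hu
  obtain ⟨h1, h2⟩ := tight hWi hχ A (hψ.cd A) hA
  have hu1 : u.1 ∈ Fx ψ A := by
    intro a ha
    have h := hu a ha
    rw [hχ] at h
    exact congrArg Prod.fst h
  have hu2 : u.2 ∈ Fx (qa hWi) A := by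
    intro a ha
    have h := hu a ha
    rw [hχ] at h
    exact congrArg Prod.snd h
  rw [hχ]
  refine Prod.ext ?_ ?_
  · refine hψ.tl A h2 b (fun w hw => Subtype.ext ?_) u.1 hu1
    refine hb w.1 (fun a ha => ?_)
    exact congrArg Subtype.val (hw a ha)
  · obtain ⟨v, hv, hvu⟩ := h1 u.2 hu2
    show qa hWi b u.2 = u.2
    rw [← hvu, qa_mk, hb v hv]

theorem tt_step {p : ℕ} (hχ : ∀ x u, χ x u = (ψ x u.1, qa hWi x u.2))
    (hψ : Ss2 p (ra hWi) ψ) : ∀ A A' : Subgroup X,
    Nat.card V * Nat.card (Fx χ A) ≤ Nat.card (U × (V ⧸ W)) * Nat.card (Fx φ A) →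
    Nat.card V * Nat.card (Fx χ A') ≤ Nat.card (U × (V ⧸ W)) * Nat.card (Fx φ A') →
    ∀ S : AddSubgroup (U × (V ⧸ W)), Inv χ S →
    (∀ S' : AddSubgroup (U × (V ⧸ W)), S' ≤ S → Inv χ S' → S' = ⊥ ∨ S' = S) →
    (∀ a ∈ A, ∀ u : U × (V ⧸ W), χ a u - u ∈ S) → (∀ b ∈ A', ∀ u : U × (V ⧸ W), χ b u - u ∈ S) →
    (∀ a ∈ A, ∀ b ∈ A', ∀ u : U × (V ⧸ W), χ b (χ a u - u) = χ a u - u) →
    ∀ a ∈ A, ∀ b ∈ A', ∀ v : V, φ b (φ a v - v) = φ a v - v := by
  intro A A' hA hA' S hS hmin hAS hAS' hq
  obtain ⟨h1, h2⟩ := tight hWi hχ A (hψ.cd A) hA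
  obtain ⟨h1', h2'⟩ := tight hWi hχ A' (hψ.cd A') hA'
  by_cases hcase : ∀ a ∈ A, ∀ y : V ⧸ W, qa hWi a y = y
  · -- the claim for `W`
    have hmem : ∀ (u : U), u ∈ S.comap (AddMonoidHom.inl U (V ⧸ W)) ↔ (u, (0 : V ⧸ W)) ∈ S :=
      fun u => Iff.rfl
    have key : ∀ a ∈ A, ∀ b ∈ A', ∀ w : W, ra hWi b (ra hWi a w - w) = ra hWi a w - w := by
      refine hψ.tt A A' h2 h2' (S.comap (AddMonoidHom.inl U (V ⧸ W))) ?_ ?_ ?_ ?_ ?_
      · intro x u hu
        rw [hmem] at hu ⊢
        have h3 := hS x _ hu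
        rw [hχ] at h3
        have h4 : qa hWi x (0 : V ⧸ W) = 0 := map_zero _
        simpa only [h4] using h3
      · intro S' hS' hiS'
        have h3 : S'.map (AddMonoidHom.inl U (V ⧸ W)) ≤ S := by
          rintro _ ⟨u, hu, rfl⟩
          exact hS' hu
        have h4 : Inv χ (S'.map (AddMonoidHom.inl U (V ⧸ W))) := by
          rintro x _ ⟨u, hu, rfl⟩
          refine ⟨ψ x u, hiS' x u hu, ?_⟩
          rw [hχ]
          exact Prod.ext rfl (map_zero (qa hWi x)).symm
        rcases hmin _ h3 h4 with h5 | h5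
        · left
          rw [AddSubgroup.eq_bot_iff_forall]
          intro u hu
          have h6 : AddMonoidHom.inl U (V ⧸ W) u ∈ S'.map (AddMonoidHom.inl U (V ⧸ W)) :=
            ⟨u, hu, rfl⟩
          rw [h5, AddSubgroup.mem_bot] at h6
          exact congrArg Prod.fst h6
        · right
          refine le_antisymm hS' (fun u hu => ?_)
          have h6 : ((u, 0) : U × (V ⧸ W)) ∈ S := hu
          rw [← h5] at h6
          obtain ⟨u', hu', h7⟩ := h6
          have h8 : u' = u := congrArg Prod.fst h7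
          rw [← h8]
          exact hu'
      · intro a ha u
        rw [hmem]
        have h3 := hAS a ha (u, 0)
        rw [hχ] at h3
        have h4 : ((ψ a u, qa hWi a 0) : U × (V ⧸ W)) - (u, 0) = (ψ a u - u, 0) := by
          refine Prod.ext rfl ?_
          show qa hWi a 0 - 0 = 0
          rw [map_zero, sub_zero]
        rw [← h4]
        exact h3
      · intro a ha u
        rw [hmem]
        have h3 := hAS' a ha (u, 0)
        rw [hχ] at h3
        have h4 : ((ψ a u, qa hWi a 0) : U × (V ⧸ W)) - (u, 0) = (ψ a u - u, 0) := by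
          refine Prod.ext rfl ?_
          show qa hWi a 0 - 0 = 0
          rw [map_zero, sub_zero]
        rw [← h4]
        exact h3
      · intro a ha b hb u
        have h3 := hq a ha b hb (u, 0)
        rw [hχ b, hχ a] at h3
        exact congrArg Prod.fst h3
    intro a ha b hb v
    obtain ⟨v0, hv0, hvv⟩ := h1 (QuotientAddGroup.mk v) (fun a' ha' => hcase a' ha' _)
    have hw : v - v0 ∈ W := by
      rw [QuotientAddGroup.eq] at hvv
      have h3 : v - v0 = -v0 + v := by abel
      rw [h3]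
      exact hvv
    have h3 : φ a v - v = φ a (v - v0) - (v - v0) := by
      rw [map_sub, hv0 a ha]
      abel
    have h4 := congrArg Subtype.val (key a ha b hb ⟨v - v0, hw⟩)
    rw [h3]
    exact h4
  · push Not at hcase
    obtain ⟨a0, ha0, y, hy⟩ := hcase
    -- the first components of the elements of `S` are zero
    have hS2 : ∀ s ∈ S, s.1 = 0 := by
      have h3 : S ⊓ (AddMonoidHom.fst U (V ⧸ W)).ker ≤ S := inf_le_left
      have h4 : Inv χ (S ⊓ (AddMonoidHom.fst U (V ⧸ W)).ker) := by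
        rintro x s ⟨hs1, hs2⟩
        refine ⟨hS x s hs1, ?_⟩
        have hs3 : s.1 = 0 := hs2
        show (χ x s).1 = 0
        rw [hχ]
        show ψ x s.1 = 0
        rw [hs3, map_zero]
      rcases hmin _ h3 h4 with h5 | h5
      · exfalso
        have h6 : χ a0 (0, y) - (0, y) ∈ S ⊓ (AddMonoidHom.fst U (V ⧸ W)).ker := by
          refine ⟨hAS a0 ha0 _, ?_⟩
          show (χ a0 (0, y) - (0, y)).1 = 0
          rw [hχ]
          show ψ a0 0 - 0 = 0
          rw [map_zero, sub_zero]
        rw [h5, AddSubgroup.mem_bot, hχ] at h6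
        have h7 : qa hWi a0 y - y = 0 := congrArg Prod.snd h6
        exact hy (sub_eq_zero.1 h7)
      · intro s hs
        rw [← h5] at hs
        exact hs.2
    have hψ' : ∀ b ∈ A', ∀ u : U, ψ b u = u := by
      intro b hb u
      have h3 := hS2 _ (hAS' b hb (u, 0))
      rw [hχ] at h3
      exact sub_eq_zero.1 h3
    have hW' : ∀ b ∈ A', ∀ w ∈ W, φ b w = w := by
      have h3 : Fx ψ A' = ⊤ := by
        rw [eq_top_iff]
        intro u _ b hb
        exact hψ' b hb u
      have h4 : Nat.card (Fx ψ A') = Nat.card U := by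
        rw [h3]
        exact AddSubgroup.card_top
      rw [h4, mul_comm] at h2'
      have h5 : Nat.card W ≤ Nat.card (Fx (ra hWi) A') :=
        Nat.le_of_mul_le_mul_left h2' Nat.card_pos
      have h6 := AddSubgroup.eq_top_of_le_card _ h5
      intro b hb w hw
      have h7 : (⟨w, hw⟩ : W) ∈ Fx (ra hWi) A' := by
        rw [h6]
        exact AddSubgroup.mem_top _
      exact congrArg Subtype.val (h7 b hb)
    intro a ha b hb v
    have h3 : (QuotientAddGroup.mk (φ a v - v) : V ⧸ W) ∈ Fx (qa hWi) A' := by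
      intro b' hb'
      have h4 := hq a ha b' hb' (0, QuotientAddGroup.mk v)
      rw [hχ b', hχ a] at h4
      have h5 : qa hWi b' (qa hWi a (QuotientAddGroup.mk v) - QuotientAddGroup.mk v) =
          qa hWi a (QuotientAddGroup.mk v) - QuotientAddGroup.mk v := congrArg Prod.snd h4
      rw [qa_mk, ← QuotientAddGroup.mk_sub] at h5
      exact h5
    obtain ⟨v0, hv0, hvv⟩ := h1' _ h3
    rw [QuotientAddGroup.eq] at hvv
    have h4 := hW' b hb _ hvv
    have h5 : φ a v - v = v0 + (-v0 + (φ a v - v)) := by abel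
    rw [h5, map_add, hv0 b hb, h4]

end step

theorem semi2 {X : Type} [Group X] {p : ℕ} (hp : p.Prime) [Finite X] : ∀ n : ℕ,
    ∀ (V : Type) [AddCommGroup V]
    [Finite V] (φ : X →* AddMonoid.End V), Nat.card V ≤ n → (∀ v : V, p • v = 0) →
    ∃ (U : Type) (_ : AddCommGroup U) (_ : Finite U) (ψ : X →* AddMonoid.End U),
      Ss2 p φ ψ := by
  intro n
  induction n with
  | zero =>
    intro V _ _ φ h
    have := Nat.card_pos (α := V)
    omega
  | succ n ih =>
    intro V _ _ φ hV hpV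
    rcases subsingleton_or_nontrivial V with hs | hne
    · refine ⟨V, inferInstance, inferInstance, φ, ⟨hpV, ?_, ?_, fun x h => h, fun a b h => h,
        fun A => le_refl _⟩, fun A _ b h => h, ?_⟩
      · intro N _ _ n _
        refine AddMonoidHom.ext (fun v => ?_)
        exact Subsingleton.elim _ _
      · intro x _
        refine ⟨0, AddMonoidHom.ext (fun v => ?_)⟩
        exact Subsingleton.elim _ _
      · intro A A' _ _ S _ _ _ _ _ a _ b _ v
        exact Subsingleton.elim _ _
    · have hfin : {W : AddSubgroup V | Inv φ W ∧ W ≠ ⊤}.Finite := Set.toFinite _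
      obtain ⟨W, hW⟩ := hfin.exists_maximal ⟨⊥, inv_bot, bot_ne_top⟩
      obtain ⟨⟨hWi, hWne⟩, hmax⟩ := hW
      have hcardW : Nat.card W < Nat.card V := by
        refine lt_of_le_of_ne (AddSubgroup.card_le_card_addGroup W) ?_
        intro h
        exact hWne (AddSubgroup.eq_top_of_card_eq W h)
      have hpW : ∀ w : W, p • w = 0 := by
        intro w
        apply Subtype.ext
        rw [AddSubgroup.coe_nsmul]
        exact hpV w.1
      have hpQ : ∀ w : V ⧸ W, p • w = 0 := by
        intro w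
        obtain ⟨v, rfl⟩ := QuotientAddGroup.mk_surjective w
        rw [← QuotientAddGroup.mk_nsmul, hpV v]
        rfl
      obtain ⟨U, iU, fU, ψ, hψ⟩ := ih W (ra hWi) (by omega) hpW
      have hirr : ∀ W' : AddSubgroup (V ⧸ W), Inv (qa hWi) W' → W' = ⊥ ∨ W' = ⊤ := by
        intro W' hW'
        obtain ⟨W3, hW3⟩ : ∃ W3 : AddSubgroup V, ∀ v, v ∈ W3 ↔
            (QuotientAddGroup.mk v : V ⧸ W) ∈ W' :=
          ⟨W'.comap (QuotientAddGroup.mk' W), fun v => Iff.rfl⟩
        have hle : W ≤ W3 := by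
          intro v hv
          rw [hW3, (QuotientAddGroup.eq_zero_iff v).mpr hv]
          exact W'.zero_mem
        have hi3 : Inv φ W3 := by
          intro x v hv
          rw [hW3] at hv ⊢
          exact hW' x _ hv
        by_cases h3 : W3 = ⊤
        · right
          rw [eq_top_iff]
          intro y _
          obtain ⟨v, rfl⟩ := QuotientAddGroup.mk_surjective y
          rw [← hW3, h3]
          exact AddSubgroup.mem_top v
        · left
          have h4 := hmax ⟨hi3, h3⟩ hle
          rw [AddSubgroup.eq_bot_iff_forall]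
          intro y hy
          obtain ⟨v, rfl⟩ := QuotientAddGroup.mk_surjective y
          rw [QuotientAddGroup.eq_zero_iff]
          exact h4 ((hW3 v).mpr hy)
      obtain ⟨χ, hχ⟩ : ∃ χ : X →* AddMonoid.End (U × (V ⧸ W)),
          ∀ x u, χ x u = (ψ x u.1, qa hWi x u.2) :=
        ⟨{ toFun := fun x => (ψ x).prodMap (qa hWi x)
           map_one' := by
             rw [map_one, map_one]
             rfl
           map_mul' := by
             intro x y
             rw [map_mul, map_mul]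
             rfl }, fun x u => rfl⟩
      have hχ1 : ∀ x, χ x = 1 ↔ ψ x = 1 ∧ qa hWi x = 1 := by
        intro x
        constructor
        · intro h
          constructor
          · refine AddMonoidHom.ext (fun u => ?_)
            have h1 := hχ x (u, 0)
            rw [h] at h1
            exact (congrArg Prod.fst h1).symm
          · refine AddMonoidHom.ext (fun u => ?_)
            have h1 := hχ x (0, u)
            rw [h] at h1
            exact (congrArg Prod.snd h1).symm
        · rintro ⟨h1, h2⟩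
          refine AddMonoidHom.ext (fun u => ?_)
          show χ x u = u
          rw [hχ, h1, h2]
          rfl
      refine ⟨U × (V ⧸ W), inferInstance, inferInstance, χ, ⟨?_, ?_, ?_, ?_, ?_, ?_⟩,
        tl_step hWi hχ hψ, tt_step hWi hχ hψ⟩
      · intro u
        exact Prod.ext (hψ.ex u.1) (hpQ u.2)
      · intro N hN hNp n hn
        rw [hχ1]
        constructor
        · refine hψ.np N hN (fun n hn => ?_) n hn
          obtain ⟨k, hk⟩ := hNp n hn
          exact ⟨k, ((hχ1 _).mp hk).1⟩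
        · refine irr_act hp hpQ (qa hWi) hirr N hN (fun n hn => ?_) n hn
          obtain ⟨k, hk⟩ := hNp n hn
          exact ⟨k, ((hχ1 _).mp hk).2⟩
      · intro x hx
        obtain ⟨h1, h2⟩ := (hχ1 x).mp hx
        obtain ⟨k, hk⟩ := hψ.kp x h1
        refine ⟨k + 1, ?_⟩
        rw [pow_succ, pow_mul]
        refine two_step hpV φ (W := W) ?_ ?_
        · intro w hw
          have h3 : ra hWi (x ^ p ^ k) ⟨w, hw⟩ = ⟨w, hw⟩ := by
            rw [hk]
            rfl
          exact congrArg Subtype.val h3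
        · intro v
          have h3 : qa hWi (x ^ p ^ k) (QuotientAddGroup.mk v) = QuotientAddGroup.mk v := by
            rw [map_pow, h2, one_pow]
            rfl
          rw [qa_mk, QuotientAddGroup.eq] at h3
          have h4 : φ (x ^ p ^ k) v - v = -(-φ (x ^ p ^ k) v + v) := by abel
          rw [h4]
          exact W.neg_mem h3
      · intro x hx
        rw [hχ1]
        constructor
        · refine hψ.k1 x (AddMonoidHom.ext (fun w => Subtype.ext ?_))
          show φ x w.1 = w.1
          rw [hx]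
          rfl
        · refine AddMonoidHom.ext (fun w => ?_)
          obtain ⟨v, rfl⟩ := QuotientAddGroup.mk_surjective w
          show qa hWi x (QuotientAddGroup.mk v) = QuotientAddGroup.mk v
          rw [qa_mk, hx]
          rfl
      · intro a b hab u
        rw [hχ b, hχ a]
        refine Prod.ext ?_ ?_
        · refine hψ.qd a b (fun w => Subtype.ext ?_) u.1
          exact hab w.1
        · obtain ⟨v, hv⟩ := QuotientAddGroup.mk_surjective u.2
          show qa hWi a (qa hWi b u.2 - u.2) = qa hWi b u.2 - u.2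
          rw [← hv, qa_mk, ← QuotientAddGroup.mk_sub, qa_mk, hab v]
      · intro A
        -- fixed points on `V`
        have h1 : Nat.card (Fx φ A) ≤ Nat.card (Fx (ra hWi) A) * Nat.card (Fx (qa hWi) A) := by
          obtain ⟨f, hf⟩ : ∃ f : Fx φ A →+ Fx (qa hWi) A, ∀ v, (f v).1 = QuotientAddGroup.mk v.1 :=
            ⟨{ toFun := fun v => ⟨QuotientAddGroup.mk v.1, fun a ha => by
                 rw [qa_mk, v.2 a ha]⟩
               map_zero' := rfl
               map_add' := fun _ _ => rfl }, fun v => rfl⟩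
          refine (card_le_ker f).trans (Nat.mul_le_mul_right _ ?_)
          have h2 : ∀ v : f.ker, v.1.1 ∈ W := by
            intro v
            rw [← QuotientAddGroup.eq_zero_iff, ← hf, (AddMonoidHom.mem_ker).mp v.2]
            rfl
          refine Nat.card_le_card_of_injective (fun v : f.ker =>
            (⟨⟨v.1.1, h2 v⟩, fun a ha => Subtype.ext (v.1.2 a ha)⟩ : Fx (ra hWi) A)) ?_
          intro v v' h
          have h3 := congrArg (fun z : Fx (ra hWi) A => z.1.1) h
          exact Subtype.ext (Subtype.ext h3)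
        have h2 : Nat.card (Fx ψ A) * Nat.card (Fx (qa hWi) A) ≤ Nat.card (Fx χ A) := by
          rw [← Nat.card_prod]
          refine Nat.card_le_card_of_injective (fun z : Fx ψ A × Fx (qa hWi) A =>
            (⟨(z.1.1, z.2.1), fun a ha => by
              rw [hχ]
              exact Prod.ext (z.1.2 a ha) (z.2.2 a ha)⟩ : Fx χ A)) ?_
          intro z z' h
          have h3 := congrArg (fun z : Fx χ A => z.1) h
          exact Prod.ext (Subtype.ext (congrArg Prod.fst h3)) (Subtype.ext (congrArg Prod.snd h3))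
        have h3 := hψ.cd A
        have h4 : Nat.card V = Nat.card (V ⧸ W) * Nat.card W :=
          AddSubgroup.card_eq_card_quotient_mul_card_addSubgroup W
        rw [Nat.card_prod, h4]
        calc Nat.card U * Nat.card (V ⧸ W) * Nat.card (Fx φ A)
            ≤ Nat.card U * Nat.card (V ⧸ W) *
              (Nat.card (Fx (ra hWi) A) * Nat.card (Fx (qa hWi) A)) :=
              Nat.mul_le_mul_left _ h1
          _ = Nat.card (V ⧸ W) * Nat.card (Fx (qa hWi) A) *
              (Nat.card U * Nat.card (Fx (ra hWi) A)) := by ring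
          _ ≤ Nat.card (V ⧸ W) * Nat.card (Fx (qa hWi) A) *
              (Nat.card W * Nat.card (Fx ψ A)) := Nat.mul_le_mul_left _ h3
          _ = Nat.card (V ⧸ W) * Nat.card W *
              (Nat.card (Fx ψ A) * Nat.card (Fx (qa hWi) A)) := by ring
          _ ≤ _ := Nat.mul_le_mul_left _ h2

end X_SEM

theorem s_SEM : Stmt_SEM := by
  intro X _ _ p hp V _ _ φ hpV
  exact X_SEM.semi2 hp.out _ V φ le_rfl hpV

end Pool.Agent.Work.MP_6d7bb4.helper94.Sol
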