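import Pool.Agent.Work.MP_6d7bb4_S.Interface2

set_option autoImplicit false
set_option linter.unusedSectionVars false

/-!
# MP_6d7bb4: all soluble semiprimitive groups; interface, part 3

Part G: finite groups, counting. Part H: the Baumann system `Wp`, `Sp`, `Zp`, `Bp`. Part I: the vertex
system. Part J: assembly.

The file of block `X` is `Pool/Agent/Work/MP_6d7bb4_S/B_X.lean`: `import` this file, namespace
`Pool.Agent.Work.MP_6d7bb4.helper94.Sol`, `theorem s_X (hA : Stmt_A) (hB : Stmt_B) .. : Stmt_X` with the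
blocks of the column uses as hypotheses in that order; private lemmas in `namespace X_X`.

USEFUL. `Qv = Qe ⊓ K` is `Qv_eq h hxy`; `h.fin_le`, `Qe_le`, `Qe_le_st`, `Qv_le`, `Qv_le_st`, `Qv_le_Qe`, `nm_Qe`,
`nm_Qv`, `nm_Vv`, `Qe_cj`, `Qv_cj`, `OZ_cj`, `OZ_le`, `mem_OZ`, `z_le_VZ`, `mem_im'`, `mem_Cw`, `mem_sup_nm`
(`A ⊔ N = A N` if `A` normalises `N`). For `h : ME p Y Z E D t e f`: `En p Z E` is
`⟨h.p23, h.ed.EY.trans h.YZ, h.ed.nE, h.co⟩`, and `U` is finite by `h.fin`.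
-/

namespace Pool.Agent.Work.MP_6d7bb4.helper94.Sol

open MulAction Tv Ff Ps
open scoped commutatorElement

/-! ## Definitions -/

/-- the hypotheses -/
structure Hy {V : Type} (G : Type) [Group G] [MulAction G V] (Γ : SimpleGraph V) (d p : ℕ) :
    Prop where
  loc : Loc G Γ d
  cb : CB0 G Γ p
  p23 : p = 2 ∨ p = 3
  ps : ∀ w, PSol p (Nh Γ p w : Subgroup G)

/-- a vertex system together with its module -/
structure VB {V G : Type} [Group G] [MulAction G V] (Γ : SimpleGraph V) (d p : ℕ)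
    [Fact p.Prime] (x : V) (W S R : Subgroup G) (Bm : V → Subgroup G) {U : Type}
    [AddCommGroup U] [Module (ZMod p) U] (ψ : stabilizer G x →* Un U) (E D : Subgroup (Un U))
    (t : Un U) (e : U) (f : U →+ ZMod p) : Prop where
  loc : Loc G Γ d
  vs : VS Γ p x W S R Bm ψ E D t e f
  md : Md2 p (stabilizer G x) W R ψ

/-- the elements of `B0` whose image lies in the subgroup generated by `T` -/
def Py {G : Type} [Group G] {X : Subgroup G} (B0 : Subgroup G) {U : Type} [AddCommGroup U]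
    (ψ : X →* Un U) (T : Set (Un U)) : Subgroup G :=
  B0 ⊓ ((Subgroup.closure T).comap ψ).map X.subtype

theorem mem_Py {G : Type} [Group G] {X : Subgroup G} {B0 : Subgroup G} {U : Type}
    [AddCommGroup U] {ψ : X →* Un U} {T : Set (Un U)} {g : G} (hg : g ∈ X) :
    g ∈ Py B0 ψ T ↔ g ∈ B0 ∧ ψ ⟨g, hg⟩ ∈ Subgroup.closure T := by
  unfold Py
  rw [Subgroup.mem_inf]
  refine and_congr_right (fun _ => ?_)
  constructor
  · rintro ⟨g', hg', h⟩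
    have h1 : g' = ⟨g, hg⟩ := Subtype.ext h
    rw [← h1]
    exact hg'
  · intro h
    exact ⟨⟨g, hg⟩, h, rfl⟩

/-- the elements of `Bm y` whose image is generated by transvections in `C` -/
def Pf {V G : Type} [Group G] [MulAction G V] (p : ℕ) [Fact p.Prime] {x : V}
    (Bm : V → Subgroup G) {U : Type} [AddCommGroup U] [Module (ZMod p) U]
    (ψ : stabilizer G x →* Un U) (C : Set (Un U)) (y : V) : Subgroup G :=
  Py (Bm y) ψ (C ∩ Tq p (im ψ (Qe p x y)))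

section
variable {U : Type*} [AddCommGroup U]

/-- `C` is closed under the equivalence of transvections -/
def Cc (p : ℕ) [Fact p.Prime] [Module (ZMod p) U] (Z E : Subgroup (Un U)) (C : Set (Un U)) :
    Prop :=
  ∀ s ∈ Z, IsT p s → ¬ Cn E s → ∀ s' ∈ Z, IsT p s' → ¬ Cn E s' → Tc E s s' → s ∈ C → s' ∈ C

/-- `a` preserves the classes of transvections -/
def Pc (p : ℕ) [Fact p.Prime] [Module (ZMod p) U] (Z E : Subgroup (Un U)) (a : Un U) : Prop :=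
  ∀ s ∈ Z, IsT p s → ¬ Cn E s → Tc E (a * s * a⁻¹) s

/-- `C` contains a transvection which does not centralise `E` -/
def Ct (p : ℕ) [Fact p.Prime] [Module (ZMod p) U] (Z E : Subgroup (Un U)) (C : Set (Un U)) :
    Prop := ∃ s ∈ C, s ∈ Z ∧ IsT p s ∧ ¬ Cn E s

end

/-! ## G. Finite groups, counting -/

/-- BLOCK QIX (uses nothing): index.
PROOF. `Qe p x y` acts on the at most `d` neighbours of `x` (`h.adj`; `Qe_le_st`), an element acts trivially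
iff it is in `K Γ x`, so iff it is in `Qe ⊓ K = Qv` (`Qv_eq`). So the index is at most the order of the
symmetric group: `Fintype.card_perm`, `Nat.factorial_le`, `h.ncard`. (`Subgroup.relIndex` is the index of
`subgroupOf`, which is the kernel of the action `Qe →* Equiv.Perm {z // Γ.Adj x z}`: `Subgroup.index_ker`.) -/
def Stmt_QIX : Prop := ∀ (V G : Type) [Group G] [MulAction G V] (Γ : SimpleGraph V) (d p : ℕ)
  [Fact p.Prime], Loc G Γ d → ∀ x y, Γ.Adj x y →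
  (Qv Γ p x : Subgroup G).relIndex (Qe p x y) ≤ d.factorial

/-- BLOCK LAT (uses nothing): tight subgroups form a lattice.
PROOF. (1) `|B| = |A ⊓ B| * A.relIndex B` and `A.relIndex B ≤ A.relIndex (A ⊔ B) = |A ⊔ B| / |A|`
(`Subgroup.relIndex_le_of_le_right`, `Subgroup.card_mul_index` ...), or: the map ` (a, b) ↦ a * b` has fibres
of size `|A ⊓ B|`. (2) Put `M = |W| * |S|`; it is positive by `Tg W S P1` (`P1` is finite as a subgroup of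
`P1 ⊔ P2`). `Cw W P1 ⊓ Cw W P2 = Cw W (P1 ⊔ P2)` (`Subgroup.closure_union` or `sup_le` into a centraliser)
and `Cw W P1 ⊔ Cw W P2 ≤ Cw W (P1 ⊓ P2)`. By (1) twice
`M * M = |P1| |Cw W P1| |P2| |Cw W P2| ≤ (|P1 ⊔ P2| |P1 ⊓ P2|) (|Cw W (P1 ⊓ P2)| |Cw W (P1 ⊔ P2)|) ≤ M * M`,
so both inequalities of the hypothesis are equalities. -/
def Stmt_LAT : Prop := ∀ (G : Type) [Group G],
  (∀ A B : Subgroup G, Finite (A ⊔ B : Subgroup G) →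
    Nat.card A * Nat.card B ≤ Nat.card (A ⊔ B : Subgroup G) * Nat.card (A ⊓ B : Subgroup G)) ∧
  ∀ W S P1 P2 : Subgroup G, Finite W → Finite (P1 ⊔ P2 : Subgroup G) → Tg W S P1 → Tg W S P2 →
  Nat.card (P1 ⊔ P2 : Subgroup G) * Nat.card (Cw W (P1 ⊔ P2)) ≤ Nat.card W * Nat.card S →
  Nat.card (P1 ⊓ P2 : Subgroup G) * Nat.card (Cw W (P1 ⊓ P2)) ≤ Nat.card W * Nat.card S →
  Tg W S (P1 ⊔ P2) ∧ Tg W S (P1 ⊓ P2)

/-- BLOCK LTC (uses nothing): a transitive lattice of sets is closed under complements.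
PROOF. For `a ∈ T` let `cl a` be the intersection of all `X ∈ F` with `a ∈ X`; `cl a ∈ F` (finitely many sets,
closed under intersection; `T ∈ F` contains `a`; induction, or take an element of `F` containing `a` of
minimal cardinality: it is contained in every other one). For `a`, `b ∈ T` let `m` be as in the hypothesis:
`m '' cl a ∈ F` contains `m a`, so contains `b`, so `cl b ⊆ m '' cl a` and `|cl b| ≤ |cl a|`. So all `cl a` have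
the same cardinality, and `b ∈ cl a` implies `cl b ⊆ cl a`, so `cl b = cl a ∋ a`. Now let `X ∈ F`, `b ∈ T`,
`b ∉ X`. Then `cl b` and `X` are disjoint: `a ∈ cl b`, `a ∈ X` would give `b ∈ cl a ⊆ X`. So `T \ X` is the union
of the `cl b` (`b ∈ T \ X`), which is in `F` (finite union, `∅ ∈ F`). -/
def Stmt_LTC : Prop := ∀ (Ω : Type) [Finite Ω] (T : Set Ω) (F : Set (Set Ω)),
  (∀ X ∈ F, X ⊆ T) → ∅ ∈ F → T ∈ F → (∀ X ∈ F, ∀ Y ∈ F, X ∪ Y ∈ F) →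
  (∀ X ∈ F, ∀ Y ∈ F, X ∩ Y ∈ F) →
  (∀ a ∈ T, ∀ b ∈ T, ∃ m : Ω → Ω, Function.Injective m ∧ (∀ X ∈ F, m a ∈ X → b ∈ X) ∧
    ∀ X ∈ F, m '' X ∈ F) → ∀ X ∈ F, T \ X ∈ F

/-- BLOCK LBI (uses OFF, VMQ): the basic inequality at a vertex.
PROOF. `P ≤ stabilizer G x` is finite. Let `A' = im ψ P`. `|P| = |A'| |S|`: the kernel of `P → A'` is
`P ⊓ R = S` (`VE.ker`; compare `h4` in the proof of `mod_ex`, `Md.lean`). VMQ and OFF for `A' ≤ im ψ (Qe p x y)`: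
`|A'| |FxU A'| ≤ |U|`. `Md2.cd`: `|U| |Cw W P| ≤ |W| |FxU A'|`. So
`|P| |Cw W P| |U| = |A'| |S| |Cw W P| |U| ≤ |A'| |S| |W| |FxU A'| ≤ |S| |W| |U|`; cancel `|U|` (`me.fin`). If
`|W| |S| ≤ |P| |Cw W P|` then all these are equalities; cancel `|S|`, `|W|`: `|A'| |FxU A'| = |U|`, so
`A' = Pq p A'` by OFF, and `|W| |U| ≤ |A'| |Cw W P| |U|` with `|U| = |A'| |FxU A'|` gives
`|W| |FxU A'| ≤ |U| |Cw W P|`. -/
def Stmt_LBI : Prop := ∀ (V G : Type) [Group G] [MulAction G V] (Γ : SimpleGraph V) (d p : ℕ)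
  [Fact p.Prime], Loc G Γ d → ∀ (x : V) (W R : Subgroup G) (U : Type) [AddCommGroup U]
  [Module (ZMod p) U] (ψ : stabilizer G x →* Un U) (E D : Subgroup (Un U)) (t : Un U) (e : U)
  (f : U →+ ZMod p), VE Γ p x R ψ E D t e f → Md2 p (stabilizer G x) W R ψ → Finite W →
  ∀ y, Γ.Adj x y → ∀ S P : Subgroup G, S ≤ R → S ≤ P → P ⊓ R ≤ S → P ≤ Qe p x y →
  (∀ a ∈ im ψ P, ∀ b ∈ im ψ P, a * b = b * a) →
  Nat.card P * Nat.card (Cw W P) ≤ Nat.card W * Nat.card S ∧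
  (Nat.card W * Nat.card S ≤ Nat.card P * Nat.card (Cw W P) → im ψ P = Pq p (im ψ P) ∧
    Nat.card W * Nat.card (FxU (im ψ P)) ≤ Nat.card U * Nat.card (Cw W P))

/-! ## H. The Baumann system -/

/-- BLOCK BAU1 (uses TH1): first properties.
PROOF. (2) TH1 (3), `Qe_cj`. (3) `OZ_cj`. (4) (6) `Qe_comm`. (5) `cj g (Cw A B) = Cw (cj g A) (cj g B)`. (7) Let
`z ∈ Zz p x y = OZ p (Qe p x y)`. TH1 (1) gives `A` with `Am p (Qe p x y) A`; `z ∈ A ≤ Jt` by TH1 (4);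
`z` commutes with `Jt p (Qe p x y) ≤ Qe p x y`. (8) `Zz_cj`, `Zz_comm`, `OZ_le`, `Zz_ne`; `el`: `VZ Γ (Zz p) x` is
`Vv Γ p x`, contained in `OZ p (Qv Γ p x)` as in `Vv_le_OZ` (only `zq` is used). (1) Suppose
`Jt p (Qe p x y) ≤ Qv Γ p x`. Every `A` with `Am p (Qe p x y) A` lies in `Qv`, so (there is such an `A`)
`Am p (Qe p x y) A ↔ Am p (Qv Γ p x) A`, and `Jt p (Qe p x y) = Jt p (Qv Γ p x)`. It is normalised by
`stabilizer G x` (TH1 (3), `Qv_cj`, `nm_of_equiv`) and by an inversion `σ` (part (2), `Qe_comm`), so it is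
trivial (`P1`). But `Qe p x y ≠ ⊥` (`CB0.ne`) is a `p`-group and contains an element `z` of order `p`
(`exists_central`), `Subgroup.zpowers z` is elementary abelian, so `|A| ≥ p` for `Am p (Qe p x y) A`. -/
def Stmt_BAU1 : Prop := ∀ (V G : Type) [Group G] [MulAction G V] (Γ : SimpleGraph V) (d p : ℕ)
  [Fact p.Prime], Hy G Γ d p →
  (∀ x y, Γ.Adj x y → ¬ Jt p (Qe p x y : Subgroup G) ≤ Qv Γ p x) ∧
  (∀ (g : G) (x y : V), Jt p (Qe p (g • x) (g • y)) = cj g (Jt p (Qe p x y))) ∧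
  (∀ (g : G) (x y : V), Zp p (g • x) (g • y) = cj g (Zp p x y)) ∧
  (∀ x y : V, Zp (G := G) p x y = Zp p y x) ∧
  (∀ (g : G) (x y : V), Bp p (g • x) (g • y) = cj g (Bp p x y)) ∧
  (∀ x y : V, Bp (G := G) p x y = Bp p y x) ∧
  (∀ x y, Γ.Adj x y → Zz (G := G) p x y ≤ Zp p x y) ∧
  Fm (G := G) Γ p (Zz p)

/-- BLOCK BAU2 (uses TH1, LBG, BAU1): Thompson subgroups of `Qe` and `Qv`.
PROOF. (1) Let `V0 = Vv Γ p x = VZ Γ (Zz p) x` and `A1 = V0 ⊔ (A ⊓ Qv Γ p x)`. `V0 ≤ OZ p (Qv Γ p x)` (from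
`CB0.zq`, as `Vv_le_OZ`), so `A1` is elementary abelian (TH1 (5)), `A1 ≤ Qv ≤ Qe`. By TH1 (6)
`|A1| |V0 ⊓ (A ⊓ Qv)| = |V0| |A ⊓ Qv|` and `V0 ⊓ (A ⊓ Qv) ≤ Cw V0 A`. LBG for `ζ = Zz p`:
`|A| |Cw V0 A| ≤ |V0| |A ⊓ Qv| ≤ |A1| |Cw V0 A|`, so `|A| ≤ |A1|`. So `A1` is of maximal order in `Qe`, and
so also in `Qv`. (2) Let `A0` with `Am p (Qe p x y) A0` (TH1 (1)) and `A1` for `A0` as in (1). `|A| = |A1|` by
`mx`, and `A ≤ Qv ≤ Qe`. (3) `iSup_le`. -/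
def Stmt_BAU2 : Prop := ∀ (V G : Type) [Group G] [MulAction G V] (Γ : SimpleGraph V) (d p : ℕ)
  [Fact p.Prime], Hy G Γ d p → ∀ x y, Γ.Adj x y →
  (∀ A : Subgroup G, Am p (Qe p x y) A → Am p (Qe p x y) (Vv Γ p x ⊔ (A ⊓ Qv Γ p x)) ∧
    Am p (Qv Γ p x) (Vv Γ p x ⊔ (A ⊓ Qv Γ p x))) ∧
  (∀ A : Subgroup G, Am p (Qv Γ p x) A → Am p (Qe p x y) A) ∧
  Jt p (Qv Γ p x : Subgroup G) ≤ Jt p (Qe p x y)

/-- BLOCK BAU3 (uses TH1, BAU1, BAU2): the group `Z0 = OZ p (Jt p (Qv Γ p x))`.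
PROOF. (1) `v ∈ Vv`: there is `A` with `Am p (Qv Γ p x) A` (TH1 (1)); `v` commutes with `Qv` and `v ^ p = 1`, so
`v ∈ A ≤ Jt` (TH1 (4)). (2) `z ∈ Zp p x y`: `A` as before; BAU2: `Am p (Qe p x y) A`, so `z` commutes with
`A ≤ Jt p (Qe p x y)` and `z ∈ A` by TH1 (4) in `Qe p x y`; `z` commutes with `Jt p (Qv Γ p x)` by BAU2 (3).
(3) The set of all `b ∈ stabilizer G x` with `b z b⁻¹ z⁻¹ ∈ Vv Γ p x` for all `z ∈ Z0` is a subgroup (`Z0` and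
`Vv` are normalised by `stabilizer G x`; ` (a b) z (a b)⁻¹ z⁻¹ = (a z' a⁻¹ z'⁻¹) (b z b⁻¹ z⁻¹)` with
`z' = b z b⁻¹ ∈ Z0`). It contains every `A` with `Am p (Qe p x y) A`: `A1 = Vv ⊔ (A ⊓ Qv)` satisfies
`Am p (Qv Γ p x) A1` (BAU2), so `z ∈ A1` (TH1 (4)), `z = v * a` with `v ∈ Vv`, `a ∈ A ⊓ Qv`, and
`b z b⁻¹ z⁻¹ = b v b⁻¹ v⁻¹` for `b ∈ A`. (4) `z ∈ Jt p (Qv) ≤ Jt p (Qe)`. (5) Let
`J = ⨆ z : {z // Γ.Adj x z}, Jt p (Qe p x z)`, normalised by `stabilizer G x` (BAU1 (2), as `Nh_cj`). By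
`h.sp` it is transitive on the neighbours (otherwise `Jt p (Qe p x y) ≤ Qe ⊓ K = Qv`, against BAU1 (1)). For a
neighbour `y'` take `g ∈ J` with `g y = y'`; `Zp p x y' = cj g (Zp p x y)` and
`g z g⁻¹ = (g z g⁻¹ z⁻¹) z ∈ Vv ⊔ Zp p x y` for `z ∈ Zp p x y`, because by (3) (for all neighbours) all
elements of `J` lie in the subgroup of (3). (6) BAU1 (7). (7) (2) for all neighbours. -/
def Stmt_BAU3 : Prop := ∀ (V G : Type) [Group G] [MulAction G V] (Γ : SimpleGraph V) (d p : ℕ)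
  [Fact p.Prime], Hy G Γ d p → ∀ x y, Γ.Adj x y →
  Vv (G := G) Γ p x ≤ OZ p (Jt p (Qv Γ p x)) ∧
  Zp (G := G) p x y ≤ OZ p (Jt p (Qv Γ p x)) ∧
  (∀ z ∈ OZ p (Jt p (Qv Γ p x : Subgroup G)), ∀ b ∈ Jt p (Qe p x y),
    b * z * b⁻¹ * z⁻¹ ∈ Vv Γ p x) ∧
  (∀ z ∈ OZ p (Jt p (Qv Γ p x : Subgroup G)), (∀ b ∈ Jt p (Qe p x y), b * z = z * b) →
    z ∈ Zp p x y) ∧
  Wp (G := G) Γ p x ≤ Vv Γ p x ⊔ Zp p x y ∧
  Vv (G := G) Γ p x ≤ Wp Γ p x ∧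
  Wp (G := G) Γ p x ≤ OZ p (Jt p (Qv Γ p x))

/-- BLOCK BAU4 (uses FMB, BAU1, BAU3): the Baumann system.
PROOF. (1) `Fm`: BAU1 (3), (4); `le`: `OZ_le` and `Jt p Q ≤ Q`; `ne`: `Zz_ne`, BAU1 (7); `el`: BAU3 (7) if `x` has
a neighbour; otherwise `VZ Γ _ x = ⊥`. (2) FMB (1). (3) `cj g (Cw A B) = Cw (cj g A) (cj g B)`, `Qv_cj`. (4)
BAU3 (7): `Wp` is abelian and lies in `Jt p (Qv) ≤ Qv` (trivial if `x` has no neighbour). (5) For adjacent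
`x`, `y`: `Sp ≤ Qv ≤ Qe`, and `Sp` commutes with `Zp p x y ≤ Wp Γ p x` (`z_le_VZ`). (6) `b ∈ Bp ⊓ K` lies in
`Qe ⊓ K = Qv`, so commutes with `Vv` (`Vv ≤ OZ p (Qv)`) and with `Zp p x y`, so with `Wp` (BAU3 (5)).
(7) `Zp = OZ p (Jt)`. (8) `≤`: BAU3 (7), (4); `≥`: `z_le_VZ`. (9) `A ≤ Jt p (Qe)` commutes with
`Zp p x y`, and `Qv` with `Vv`. (10) `Jt p (Qe) ≤ Bp`; if `Jt p (Qe) ≤ K` then `Jt p (Qe) ≤ Qe ⊓ K = Qv`, against
BAU1 (1). (11) FMB (5) for `ζ = Zp p` gives `b ∈ K Γ x`, then (6). -/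
def Stmt_BAU4 : Prop := ∀ (V G : Type) [Group G] [MulAction G V] (Γ : SimpleGraph V) (d p : ℕ)
  [Fact p.Prime], Hy G Γ d p →
  Fm (G := G) Γ p (Zp p) ∧
  (∀ (g : G) x, Wp Γ p (g • x) = cj g (Wp Γ p x)) ∧
  (∀ (g : G) x, Sp Γ p (g • x) = cj g (Sp Γ p x)) ∧
  (∀ x, Wp (G := G) Γ p x ≤ Sp Γ p x) ∧
  ∀ x y, Γ.Adj x y →
  Sp (G := G) Γ p x ≤ Bp p x y ∧
  Bp (G := G) p x y ⊓ K Γ x ≤ Sp Γ p x ∧
  Jt p (Qe p x y : Subgroup G) ≤ Bp p x y ∧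
  Cw (Wp (G := G) Γ p x) (Jt p (Qe p x y)) = Zp p x y ∧
  (∀ A : Subgroup G, Am p (Qe p x y) A → A ⊓ Qv Γ p x ≤ Sp Γ p x) ∧
  ¬ Bp (G := G) p x y ≤ K Γ x ∧
  ∀ b ∈ Bp (G := G) p x y, (∀ v ∈ Wp Γ p x, b * v = v * b) → b ∈ Sp Γ p x

/-- BLOCK TJ1 (uses OTV, BST, FMB, VEX, BAU1, BAU4): the vertex environment of the Baumann system.
PROOF. By BAU1 (1) there is `A` with `Am p (Qe p x y) A`, `¬ A ≤ Qv Γ p x`. Let `W = Wp Γ p x ≤ Sp ≤ Qv ≤ Qe` and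
`C = Cw A W`. BST: `|C| |Cw W C| ≤ |A| |Cw W A|`, and `Cw W C = W`. So `Md.of` applies to `A` (`Cw A W` is
`A ⊓ Subgroup.centralizer W`): an element of `A ⊓ R` lies in `R ⊓ B x y ≤ K Γ x` (FMB (4) for `Zp p`, with
`isR.le`, `isR.nm`, `isR.pa`), so in `A ⊓ Qv ≤ Sp` (BAU4 (9)), and commutes with `W`. So with `A' = im ψ A`:
`|U| ≤ |A'| |FxU A'|`. `A' ≠ ⊥`: otherwise `A ≤ R` (`Md.ker`) and `A ≤ Qv`. `A'` is abelian and a `p`-group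
(`Am.el`). OTV with `Y = im ψ (Nh Γ p x)`, `Z = ψ.range` (`A' ≤ Y`: `Qe_le_Nh`; `Nm Z Y`, `PSol p Y`, `np` as in
the proof of VEX / in `cfg_ex` of `Lc3.lean`) and `tv_of_rank` give `t ∈ A'` with `TV t e f`, and
`t ∈ im ψ (Qe p x y)`. VEX for `ζ = Zp p`. -/
def Stmt_TJ1 : Prop := ∀ (V G : Type) [Group G] [MulAction G V] (Γ : SimpleGraph V) (d p : ℕ)
  [Fact p.Prime], Hy G Γ d p → ∀ x y, Γ.Adj x y → ∀ (R : Subgroup G) (U : Type)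
  [AddCommGroup U] [Finite U] [Module (ZMod p) U] (ψ : stabilizer G x →* Un U),
  Md2 p (stabilizer G x) (Wp Γ p x) R ψ →
  ∃ (E D : Subgroup (Un U)) (t : Un U) (e : U) (f : U →+ ZMod p), VE Γ p x R ψ E D t e f

/-- BLOCK TJ2 (uses BST, MQU, VMQ, LAT, LBI, BAU1, BAU4): elementary abelian subgroups of maximal order.
PROOF. Write `W = Wp Γ p x`, `S = Sp Γ p x`, `Q = im ψ (Qe p x y)`. (1) Let `P = A ⊔ S`. `S ≤ Qv ≤ R` (`VE.QR`), so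
`im ψ P = im ψ A` (`S` is normalised by `A`: `mem_sup_nm`; BAU4 (3), `nm_of_equiv`), abelian. `P ⊓ R ≤ S`: if
`a * s ∈ R` then `a ∈ A ⊓ R ≤ R ⊓ B x y ≤ K Γ x` (`VE.RK`), `a ∈ A ⊓ Qv ≤ S` (BAU4 (9)). BST for `C = Cw A W`:
`|Cw A W| |W| ≤ |A| |Cw W A|`. `A ⊓ S = Cw A W` (`≥`: BAU4 (11), `A ≤ Jt ≤ Bp`). By LAT (1)
`|A| |S| ≤ |P| |A ⊓ S|`, so `|Cw A W| |W| |S| ≤ |A| |S| |Cw W A| ≤ |P| |Cw A W| |Cw W A|`; cancel `|Cw A W|`: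
`|W| |S| ≤ |P| |Cw W A|`, and `Cw W A = Cw W P` (`S` commutes with `W`). Now LBI. (2) `≤`: `im ψ A = Pq p (im ψ A)
≤ Pq p Q` for all `A` (`Jt` is the supremum of the `A`; use the subgroup
` ((Pq p Q).comap ψ).map (stabilizer G x).subtype`). `≥`: by BAU1 (1) some `A` is not contained in `Qv`, so not in
`R` (`VE.RK`), so `im ψ A = Pq p (im ψ A) ≠ ⊥` and there is `s0 ∈ Tq p (im ψ A)`. For `s' ∈ Tq p Q` MQU (6) (with
VMQ) gives `b ∈ im ψ (B x y)` with `b s0 b⁻¹ = s'` or `s'⁻¹`; `Jt p (Qe p x y)` is normalised by `B x y` (BAU1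
(2)), so `s' ∈ im ψ (Jt)`. -/
def Stmt_TJ2 : Prop := ∀ (V G : Type) [Group G] [MulAction G V] (Γ : SimpleGraph V) (d p : ℕ)
  [Fact p.Prime], Hy G Γ d p → ∀ (x : V) (R : Subgroup G) (U : Type) [AddCommGroup U]
  [Module (ZMod p) U] (ψ : stabilizer G x →* Un U) (E D : Subgroup (Un U)) (t : Un U) (e : U)
  (f : U →+ ZMod p), VE Γ p x R ψ E D t e f → Md2 p (stabilizer G x) (Wp Γ p x) R ψ →
  ∀ y, Γ.Adj x y →
  (∀ A : Subgroup G, Am p (Qe p x y) A → im ψ A = Pq p (im ψ A) ∧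
    im ψ (A ⊔ Sp Γ p x) = im ψ A ∧ Tg (Wp Γ p x) (Sp Γ p x) (A ⊔ Sp Γ p x)) ∧
  im ψ (Jt p (Qe p x y)) = Pq p (im ψ (Qe p x y))

/-- BLOCK TJ3 (uses GTR, CEN, VMQ, LAT, LBI, BAU4, TJ2): the structure of `Bp`.
PROOF. `W`, `S`, `Q` as in TJ2, `J = Jt p (Qe p x y)`. For `S ≤ P ≤ J ⊔ S`: `im ψ P ≤ im ψ J = Pq p Q` (`S ≤ R`) is
abelian (GTR), and `P ⊓ R ≤ Bp ⊓ R ≤ Bp ⊓ K ≤ S` (`VE.RK`, BAU4), so LBI applies:
`|P| |Cw W P| ≤ |W| |S|`. Among the tight `P` with `S ≤ P ≤ J ⊔ S` (`S` is one: `Cw W S = W`; finitely many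
subgroups, `finite_Iic`) take a maximal one. For every `A` with `Am p (Qe p x y) A` the group
`P ⊔ (A ⊔ S)` is tight by TJ2 (1) and LAT (2), so `A ≤ P`. So `J ≤ P` and `P = J ⊔ S` is tight. (1) `≥`: BAU4.
`≤`: let `b ∈ Bp p x y`; it commutes with `Zp p x y = Cw W J = Cw W (J ⊔ S)` (BAU4 (8)). `Md2.tl` for `J ⊔ S`
(with the second part of LBI): `ψ b` fixes `FxU (im ψ (J ⊔ S)) = FxU (Pq p Q)`, so `ψ b ∈ Pq p Q = im ψ J` by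
CEN; `ψ b = ψ j`, `j⁻¹ b ∈ R ⊓ Bp ≤ S`. (2) (3) follow. -/
def Stmt_TJ3 : Prop := ∀ (V G : Type) [Group G] [MulAction G V] (Γ : SimpleGraph V) (d p : ℕ)
  [Fact p.Prime], Hy G Γ d p → ∀ (x : V) (R : Subgroup G) (U : Type) [AddCommGroup U]
  [Module (ZMod p) U] (ψ : stabilizer G x →* Un U) (E D : Subgroup (Un U)) (t : Un U) (e : U)
  (f : U →+ ZMod p), VE Γ p x R ψ E D t e f → Md2 p (stabilizer G x) (Wp Γ p x) R ψ →
  ∀ y, Γ.Adj x y → Bp (G := G) p x y = Jt p (Qe p x y) ⊔ Sp Γ p x ∧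
  im ψ (Bp p x y) = Pq p (im ψ (Qe p x y)) ∧ Tg (G := G) (Wp Γ p x) (Sp Γ p x) (Bp p x y)

/-- BLOCK VSX (uses FMB, BAU1, BAU4, TJ3): the vertex system of the Baumann system.
PROOF. `Wel`, `Wn`, `Wf`: BAU4 (1), FMB (2). `Sn`: BAU4 (3). `SR`: `Sp ≤ Qv ≤ R` (`VE.QR`). `SW`, `BQ`: definition.
`SB`: BAU4. `BR`: `Bp ⊓ R ≤ Bp ⊓ K ≤ Sp` (`VE.RK`, BAU4). `Bcj`: BAU1 (5). `BT`, `tg`: TJ3. -/
def Stmt_VSX : Prop := ∀ (V G : Type) [Group G] [MulAction G V] (Γ : SimpleGraph V) (d p : ℕ)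
  [Fact p.Prime], Hy G Γ d p → ∀ (x : V) (R : Subgroup G) (U : Type) [AddCommGroup U]
  [Module (ZMod p) U] (ψ : stabilizer G x →* Un U) (E D : Subgroup (Un U)) (t : Un U) (e : U)
  (f : U →+ ZMod p), VE Γ p x R ψ E D t e f → Md2 p (stabilizer G x) (Wp Γ p x) R ψ →
  VB Γ d p x (Wp Γ p x) (Sp Γ p x) R (Bp p x) ψ E D t e f

/-! ## I. The vertex system -/

/-- BLOCK PY1 (uses GTR, INT, VMQ): the groups `Py`.
PROOF. Write `Q = im ψ (Qe p x y)`; `Bm y ≤ Qe p x y ≤ stabilizer G x`, `mem_Py`. (1) For `s ∈ S`: `s ∈ R`, so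
`ψ s = 1` (`VE.ker`). (2) `≤` clear. `≥`: `closure T ≤ Pq p Q = im ψ (Bm y)` (`BT`). (3) `P ≤ Py T` clear. Let
`g ∈ Py T`: `ψ g ∈ closure T = im ψ P`, `ψ g = ψ a` with `a ∈ P`, `a⁻¹ g ∈ Bm y ⊓ R ≤ S ≤ P`. (4) (3) for `P = S`,
`T = ∅`. (5) (3) for `P = Bm y`. (6) (3) for `P = Py T ⊔ Py T'`: `im ψ P = closure T ⊔ closure T' =
closure (T ∪ T')` (image of a supremum: `Subgroup.map_sup` after `subgroupOf`; or directly by closure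
induction). (7) (3) for `P = Py T ⊓ Py T'`: `im ψ P = closure T ⊓ closure T'` (`≥`: an element of both is `ψ g`,
`g ∈ Bm y`). And `closure T ⊓ closure T' = closure (T ∩ T')`: let `a` be in both. `T = (T ∩ T') ∪ (T \ T')`, all
elements commute (GTR with `Tq p Q`), so `a = b * c` with `b ∈ closure (T ∩ T')`, `c ∈ closure (T \ T')`;
`c = b⁻¹ a ∈ closure T'`, and `closure (T \ T') ⊓ closure T' = ⊥` by INT. So `a = b`. -/
def Stmt_PY1 : Prop := ∀ (V G : Type) [Group G] [MulAction G V] (Γ : SimpleGraph V) (d p : ℕ)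
  [Fact p.Prime] (x : V) (W S R : Subgroup G) (Bm : V → Subgroup G) (U : Type)
  [AddCommGroup U] [Module (ZMod p) U] (ψ : stabilizer G x →* Un U) (E D : Subgroup (Un U))
  (t : Un U) (e : U) (f : U →+ ZMod p), VB Γ d p x W S R Bm ψ E D t e f → ∀ y, Γ.Adj x y →
  (∀ T : Set (Un U), S ≤ Py (Bm y) ψ T ∧ Py (Bm y) ψ T ≤ Bm y) ∧
  (∀ T : Set (Un U), T ⊆ Tq p (im ψ (Qe p x y)) →
    im ψ (Py (Bm y) ψ T) = Subgroup.closure T) ∧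
  (∀ P : Subgroup G, S ≤ P → P ≤ Bm y → ∀ T : Set (Un U), im ψ P = Subgroup.closure T →
    P = Py (Bm y) ψ T) ∧
  Py (Bm y) ψ ∅ = S ∧
  Py (Bm y) ψ (Tq p (im ψ (Qe p x y))) = Bm y ∧
  (∀ T T' : Set (Un U), T ⊆ Tq p (im ψ (Qe p x y)) → T' ⊆ Tq p (im ψ (Qe p x y)) →
    Py (Bm y) ψ (T ∪ T') = Py (Bm y) ψ T ⊔ Py (Bm y) ψ T') ∧
  (∀ T T' : Set (Un U), T ⊆ Tq p (im ψ (Qe p x y)) → T' ⊆ Tq p (im ψ (Qe p x y)) →
    (∀ s ∈ T, s⁻¹ ∈ T) → (∀ s ∈ T', s⁻¹ ∈ T') →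
    Py (Bm y) ψ (T ∩ T') = Py (Bm y) ψ T ⊓ Py (Bm y) ψ T')

/-- BLOCK PY2 (uses TCE, CLS, MQU, VMQ): equivariance.
PROOF. (1) `Bcj`, `mem_cj`, and `closure` of the image under conjugation is the conjugate of the closure (in
both directions by `Subgroup.closure_induction`, or `MonoidHom.map_closure` for `MulAut.conj (ψ g)`). (2) VMQ
(second part) and `TV.conj`. (3) `|cj g P| = |P|`, `Cw W (cj g P) = cj g (Cw W P)` by `Wn`. (4) `C ∩ Tq p (Q y)` is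
mapped by conjugation with `ψ g` onto `C ∩ Tq p (Q (g y))`: by (2), and `s ∈ C ↔ ψ g s (ψ g)⁻¹ ∈ C` for
`s ∈ Tq p (Q y)` by `Pc`, symmetry (TCE) and `Cc` (`s ∈ Z`, `¬ Cn E s` by MQU (1); the conjugate by TCE (7),
`TV.conj`); then (1). (5) `ψ g ∈ im ψ (Bm z) = Pq p (im ψ (Qe p x z))` and CLS. (6) TCE (6). (7) TCE (1). (8) by
symmetry of `Tc` (TCE (2)). (9) for `s ∈ C ∩ Tq p (Q y)`: `s⁻¹ ∈ Tq p (Q y)` (MQU (1)), `Tc E s s⁻¹` (TCE (5)). -/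
def Stmt_PY2 : Prop := ∀ (V G : Type) [Group G] [MulAction G V] (Γ : SimpleGraph V) (d p : ℕ)
  [Fact p.Prime] (x : V) (W S R : Subgroup G) (Bm : V → Subgroup G) (U : Type)
  [AddCommGroup U] [Module (ZMod p) U] (ψ : stabilizer G x →* Un U) (E D : Subgroup (Un U))
  (t : Un U) (e : U) (f : U →+ ZMod p), VB Γ d p x W S R Bm ψ E D t e f →
  (∀ y, Γ.Adj x y → ∀ (g : stabilizer G x) (T : Set (Un U)),
    Py (Bm (g.1 • y)) ψ ((fun s => ψ g * s * (ψ g)⁻¹) '' T) = cj g.1 (Py (Bm y) ψ T)) ∧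
  (∀ y, Γ.Adj x y → ∀ g : stabilizer G x, Tq p (im ψ (Qe p x (g.1 • y))) =
    (fun s => ψ g * s * (ψ g)⁻¹) '' Tq p (im ψ (Qe p x y))) ∧
  (∀ (g : stabilizer G x) (P : Subgroup G), Tg W S P → Tg W S (cj g.1 P)) ∧
  (∀ C : Set (Un U), Cc p ψ.range E C → ∀ g : stabilizer G x, Pc p ψ.range E (ψ g) →
    ∀ y, Γ.Adj x y → Pf p Bm ψ C (g.1 • y) = cj g.1 (Pf p Bm ψ C y)) ∧
  (∀ z, Γ.Adj x z → ∀ g : stabilizer G x, g.1 ∈ Bm z → Pc p ψ.range E (ψ g)) ∧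
  (∀ a ∈ E, Pc p ψ.range E a) ∧
  Pc p ψ.range E 1 ∧
  (∀ C : Set (Un U), Cc p ψ.range E C → Cc p ψ.range E Cᶜ) ∧
  (∀ C : Set (Un U), Cc p ψ.range E C → ∀ y, Γ.Adj x y →
    ∀ s ∈ C ∩ Tq p (im ψ (Qe p x y)), s⁻¹ ∈ C ∩ Tq p (im ψ (Qe p x y)))

/-- BLOCK TG1 (uses GTR, VMQ, LBI, PY1): tight subgroups.
PROOF. Let `S ≤ P ≤ Bm y`. `P ⊓ R ≤ Bm y ⊓ R ≤ S` (`BR`), `P ≤ Bm y ≤ Qe p x y` (`BQ`), and
`im ψ P ≤ im ψ (Bm y) = Pq p (im ψ (Qe p x y))` is abelian (GTR). So LBI applies to `P` (`SR`, `Wf`). (1) is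
clear. (2) is the second part; `im ψ P = Pq p (im ψ P) = closure (Tq p (im ψ P))` and PY1 (3). -/
def Stmt_TG1 : Prop := ∀ (V G : Type) [Group G] [MulAction G V] (Γ : SimpleGraph V) (d p : ℕ)
  [Fact p.Prime] (x : V) (W S R : Subgroup G) (Bm : V → Subgroup G) (U : Type)
  [AddCommGroup U] [Module (ZMod p) U] (ψ : stabilizer G x →* Un U) (E D : Subgroup (Un U))
  (t : Un U) (e : U) (f : U →+ ZMod p), VB Γ d p x W S R Bm ψ E D t e f → ∀ y, Γ.Adj x y →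
  ∀ P : Subgroup G, S ≤ P → P ≤ Bm y →
  Nat.card P * Nat.card (Cw W P) ≤ Nat.card W * Nat.card S ∧
  (Tg W S P → P = Py (Bm y) ψ (Tq p (im ψ P)) ∧ Tq p (im ψ P) ⊆ Tq p (im ψ (Qe p x y)) ∧
    Nat.card W * Nat.card (FxU (im ψ P)) ≤ Nat.card U * Nat.card (Cw W P))

/-- BLOCK VS2 (uses MQU, VMQ, LAT, LTC, PY1, PY2, TG1): complements of tight subgroups are tight.
PROOF. LTC with `Ω = Un U` (finite: `me.fin`), `T0 = Tq p Q`, `Q = im ψ (Qe p x y)`, and `F` the set of all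
`X ⊆ T0` which are closed under inverses and such that `Py (Bm y) ψ X` is tight. `∅ ∈ F`: PY1 (4),
`Cw W S = W` (`SW`). `T0 ∈ F`: PY1 (5), `VS.tg`; closed under inverses by MQU (1). Unions and intersections: PY1
(6), (7), LAT (2), TG1 (for the two inequalities). Transitivity: for `a`, `b ∈ T0` MQU (6) gives
`z ∈ im ψ (B x y)`, `z = ψ g`, with `z a z⁻¹ = b` or `b⁻¹`; `m s = z s z⁻¹`; `g y = y`, so PY2 (1), (2), (3) show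
`m '' X ∈ F` for `X ∈ F`. -/
def Stmt_VS2 : Prop := ∀ (V G : Type) [Group G] [MulAction G V] (Γ : SimpleGraph V) (d p : ℕ)
  [Fact p.Prime] (x : V) (W S R : Subgroup G) (Bm : V → Subgroup G) (U : Type)
  [AddCommGroup U] [Module (ZMod p) U] (ψ : stabilizer G x →* Un U) (E D : Subgroup (Un U))
  (t : Un U) (e : U) (f : U →+ ZMod p), VB Γ d p x W S R Bm ψ E D t e f → ∀ y, Γ.Adj x y →
  ∀ T : Set (Un U), T ⊆ Tq p (im ψ (Qe p x y)) → (∀ s ∈ T, s⁻¹ ∈ T) →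
  Tg W S (Py (Bm y) ψ T) → Tg W S (Py (Bm y) ψ (Tq p (im ψ (Qe p x y)) \ T))

/-- BLOCK VSC (uses TCE, MQU, VMQ, PY1, PY2, TG1, VS2): from a tight subgroup to a set of classes.
PROOF. Let `T = Tq p (im ψ P)`, `Q = im ψ (Qe p x y)`; TG1: `P = Py (Bm y) ψ T`, `T ⊆ Tq p Q`. Let `C` be the set
of all `s ∈ ψ.range` with `Tc E s' s` for some `s' ∈ T`. `Cc`: transitivity (TCE (3); `T ⊆ Z` by MQU (1)).
`T` is closed under inverses (MQU (1): `s⁻¹ ∈ im ψ P` is a transvection), and `C ∩ Tq p Q = T` (`⊇`: TCE (1);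
`⊆`: MQU (2)). So `Pf C y = P` and `Pf Cᶜ y = Py (Bm y) ψ (Tq p Q \ T)` is tight by VS2. `Ct`: `T ≠ ∅`, since
otherwise `P = Py ∅ = S` (PY1 (4)); MQU (1). For another neighbour `y'`: `VE.Et` gives `g` with `ψ g ∈ E`,
`g y = y'`; PY2 (4), (6), (8) for `C` and `Cᶜ`, and PY2 (3). -/
def Stmt_VSC : Prop := ∀ (V G : Type) [Group G] [MulAction G V] (Γ : SimpleGraph V) (d p : ℕ)
  [Fact p.Prime] (x : V) (W S R : Subgroup G) (Bm : V → Subgroup G) (U : Type)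
  [AddCommGroup U] [Module (ZMod p) U] (ψ : stabilizer G x →* Un U) (E D : Subgroup (Un U))
  (t : Un U) (e : U) (f : U →+ ZMod p), VB Γ d p x W S R Bm ψ E D t e f → ∀ y, Γ.Adj x y →
  ∀ P : Subgroup G, S ≤ P → P ≤ Bm y → Tg W S P → ¬ P ≤ S →
  ∃ C : Set (Un U), Cc p ψ.range E C ∧ Ct p ψ.range E C ∧ Pf p Bm ψ C y = P ∧
    ∀ y', Γ.Adj x y' → Tg W S (Pf p Bm ψ C y') ∧ Tg W S (Pf p Bm ψ Cᶜ y')

/-- BLOCK CMV (uses TCE, TCP, MQU, QDC, MIN, VMQ, PY1, TG1): the two groups of a block commute on `W`.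
PROOF. Let `A = Pf C y`, `A' = Pf Cᶜ y'`, both tight. `Md2.tt` for `A`, `A'` and the subgroup
`Sc ψ.range e` (MIN (1), (2)): the first two hypotheses are TG1; for `a ∈ A`: `ψ a` is generated by
`C ∩ Tq p (Q y)` (`mem_Py`), so `ψ a u - u ∈ Sc` by MIN (3) (MQU (1)), the same for `A'`; and
`ψ b (ψ a u - u) = ψ a u - u` by QDC: transvections `s ∈ C`, `s' ∉ C` in `Z` which do not centralise `E`
satisfy `¬ Tc E s s'` (`Cc`), so TCP (c). This gives: `b [a, v] b⁻¹ = [a, v]` for `a ∈ A`, `b ∈ A'`, `v ∈ W`,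
where `[a, v] = a v a⁻¹ v⁻¹`. Exchanging the roles of `A` and `A'` (QDC with the roles exchanged):
`a [b, v] a⁻¹ = [b, v]`. So `a (b v b⁻¹) a⁻¹ = a ([b, v] v) a⁻¹ = [b, v] (a v a⁻¹) = [b, v] [a, v] v`, and
`b (a v a⁻¹) b⁻¹ = [a, v] [b, v] v`; `W` is abelian and contains the commutators (`Wn`). -/
def Stmt_CMV : Prop := ∀ (V G : Type) [Group G] [MulAction G V] (Γ : SimpleGraph V) (d p : ℕ)
  [Fact p.Prime] (x : V) (W S R : Subgroup G) (Bm : V → Subgroup G) (U : Type)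
  [AddCommGroup U] [Module (ZMod p) U] (ψ : stabilizer G x →* Un U) (E D : Subgroup (Un U))
  (t : Un U) (e : U) (f : U →+ ZMod p), VB Γ d p x W S R Bm ψ E D t e f →
  ∀ C : Set (Un U), Cc p ψ.range E C →
  (∀ y, Γ.Adj x y → Tg W S (Pf p Bm ψ C y) ∧ Tg W S (Pf p Bm ψ Cᶜ y)) →
  ∀ y y', Γ.Adj x y → Γ.Adj x y' → ∀ a ∈ Pf p Bm ψ C y, ∀ b ∈ Pf p Bm ψ Cᶜ y', ∀ v ∈ W,
  a * (b * v * b⁻¹) * a⁻¹ = b * (a * v * a⁻¹) * b⁻¹

/-- BLOCK GNV (uses LAT, PY1, PY2): centralisers generate `W`.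
PROOF. Let `P = Pf C y`, `P' = Pf Cᶜ y`. `Tq p Q` is the union of the disjoint sets `C ∩ Tq p Q`, `Cᶜ ∩ Tq p Q`,
closed under inverses (PY2 (8), (9)), so by PY1 `P ⊔ P' = Bm y`, `P ⊓ P' = S`. LAT (1):
`|P| |P'| ≤ |Bm y| |S|` and, with `c = Cw W P`, `c' = Cw W P'`,
`|c| |c'| ≤ |c ⊔ c'| |c ⊓ c'| = |c ⊔ c'| |Cw W (Bm y)|`. With `M = |W| |S|`: `M * M = |P| |c| |P'| |c'| ≤
|Bm y| |S| |c ⊔ c'| |Cw W (Bm y)| = |S| |c ⊔ c'| M` (`VS.tg`), so `|W| ≤ |c ⊔ c'|`, and `c ⊔ c' ≤ W`: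
`Subgroup.eq_of_le_of_card_ge`. -/
def Stmt_GNV : Prop := ∀ (V G : Type) [Group G] [MulAction G V] (Γ : SimpleGraph V) (d p : ℕ)
  [Fact p.Prime] (x : V) (W S R : Subgroup G) (Bm : V → Subgroup G) (U : Type)
  [AddCommGroup U] [Module (ZMod p) U] (ψ : stabilizer G x →* Un U) (E D : Subgroup (Un U))
  (t : Un U) (e : U) (f : U →+ ZMod p), VB Γ d p x W S R Bm ψ E D t e f →
  ∀ C : Set (Un U), Cc p ψ.range E C → ∀ y, Γ.Adj x y →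
  Tg W S (Pf p Bm ψ C y) → Tg W S (Pf p Bm ψ Cᶜ y) →
  Bm y ≤ Pf p Bm ψ C y ⊔ Pf p Bm ψ Cᶜ y ∧
  W ≤ Cw W (Pf p Bm ψ C y) ⊔ Cw W (Pf p Bm ψ Cᶜ y)

/-- BLOCK TRV (uses TCE, MQU, VMQ, PY1, PY2): the conjugates of a block generate `Bm`.
PROOF. Let `M` be the supremum. For `b ∈ B x y` put `y1 = b⁻¹ y'` (a neighbour of `x`). By PY2 (1) (for `y1`, `b`)
`cj b (Pf C y1) = Py (Bm y') ψ (ψ b (C ∩ Tq p (Q y1)) (ψ b)⁻¹)`, so `S ≤ M ≤ Bm y'` (PY1 (1)). Let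
`s' ∈ Tq p (Q y')`. `Ct` and MQU (4) (for `Q y`) and `Cc` give `s ∈ C ∩ Tq p (Q y)`; MQU (5) gives
`b ∈ B x y` with `Tc E (ψ b s (ψ b)⁻¹) s'`. Then `s'' = (ψ b)⁻¹ s' ψ b` is in `Tq p (Q y1)` (PY2 (2)) and
`Tc E s s''` (TCE (4)), so `s'' ∈ C` and `s' ∈ ψ b (C ∩ Tq p (Q y1)) (ψ b)⁻¹ ⊆ im ψ M` (PY1 (2)). So
`im ψ M ≥ closure (Tq p (Q y')) = im ψ (Bm y') ≥ im ψ M` and PY1 (3), (5) give `M = Bm y'`. -/
def Stmt_TRV : Prop := ∀ (V G : Type) [Group G] [MulAction G V] (Γ : SimpleGraph V) (d p : ℕ)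
  [Fact p.Prime] (x : V) (W S R : Subgroup G) (Bm : V → Subgroup G) (U : Type)
  [AddCommGroup U] [Module (ZMod p) U] (ψ : stabilizer G x →* Un U) (E D : Subgroup (Un U))
  (t : Un U) (e : U) (f : U →+ ZMod p), VB Γ d p x W S R Bm ψ E D t e f →
  ∀ C : Set (Un U), Cc p ψ.range E C → Ct p ψ.range E C → ∀ y y', Γ.Adj x y → Γ.Adj x y' →
  Bm y' ≤ ⨆ b : (B x y : Subgroup G), cj b.1 (Pf p Bm ψ C (b.1⁻¹ • y'))

/-- BLOCK NCV (uses TCE, TCN, MQU, VMQ, PY1, PY2): a block is not commutative.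
PROOF. `Ct`, MQU (4) and `Cc` give `s ∈ C ∩ Tq p (Q y)` with `TV s e1 f1`. TCN: `x0 ∈ E` with `f1 (x0 e1) ≠ 0` and
`f1 (x0⁻¹ e1) ≠ 0`; `x0 = ψ g` (`E ≤ Z = ψ.range`, `me.ed.EY`, `me.YZ`). Let `y' = g y`, `s' = x0 s x0⁻¹`: in
`Tq p (Q y')` (PY2 (2)), in `C` (TCE (6)). By PY1 (2) `s = ψ a`, `s' = ψ b` with `a ∈ Pf C y`, `b ∈ Pf C y'`. If
`a b a⁻¹ b⁻¹ ∈ R` then `s s' = s' s`. But `s (s' e1) = s' (s e1) = s' e1` gives `f1 (s' e1) • e1 = 0`, and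
`s' e1 = e1 + f1 (x0⁻¹ e1) • x0 e1`, so `f1 (x0⁻¹ e1) * f1 (x0 e1) = 0`: contradiction. -/
def Stmt_NCV : Prop := ∀ (V G : Type) [Group G] [MulAction G V] (Γ : SimpleGraph V) (d p : ℕ)
  [Fact p.Prime] (x : V) (W S R : Subgroup G) (Bm : V → Subgroup G) (U : Type)
  [AddCommGroup U] [Module (ZMod p) U] (ψ : stabilizer G x →* Un U) (E D : Subgroup (Un U))
  (t : Un U) (e : U) (f : U →+ ZMod p), VB Γ d p x W S R Bm ψ E D t e f →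
  ∀ C : Set (Un U), Cc p ψ.range E C → Ct p ψ.range E C → ∀ y, Γ.Adj x y →
  ∃ y', Γ.Adj x y' ∧ Nr R (Pf p Bm ψ C) y y'

/-- BLOCK NZV (uses TCP, MQU, VMQ, PY1): noncommuting groups.
PROOF. Suppose that all `a v a⁻¹ v⁻¹` (`a ∈ Pf C y`, `v ∈ W`) lie in `Cw W (Bm y')`, so commute with all
`b ∈ Pf C y' ≤ Bm y'`. `Md2.qp` (for `b`, `a`): `ψ b (ψ a u - u) = ψ a u - u` for all `u : U`. There are
`s1 ∈ C ∩ Tq p (Q y)`, `s2 ∈ C ∩ Tq p (Q y')` which do not commute: otherwise the groups generated by these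
sets commute (`Subgroup.closure_induction` twice), so `ψ a`, `ψ b` commute for all `a ∈ Pf C y`,
`b ∈ Pf C y'` (`mem_Py`), and `a b a⁻¹ b⁻¹ ∈ R` (`VE.ker`). By PY1 (2) `s1 = ψ a`, `s2 = ψ b` with `a`, `b` in these
groups. TCP (d): `f2 e1 ≠ 0` (`TV s1 e1 f1`, `TV s2 e2 f2`). Take `u` with `f1 u ≠ 0` (`TV.f0`):
`s1 u - u = f1 u • e1` and `s2 (f1 u • e1) - f1 u • e1 = (f1 u * f2 e1) • e2 ≠ 0`: contradiction. -/
def Stmt_NZV : Prop := ∀ (V G : Type) [Group G] [MulAction G V] (Γ : SimpleGraph V) (d p : ℕ)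
  [Fact p.Prime] (x : V) (W S R : Subgroup G) (Bm : V → Subgroup G) (U : Type)
  [AddCommGroup U] [Module (ZMod p) U] (ψ : stabilizer G x →* Un U) (E D : Subgroup (Un U))
  (t : Un U) (e : U) (f : U →+ ZMod p), VB Γ d p x W S R Bm ψ E D t e f →
  ∀ (C : Set (Un U)) (y y' : V), Γ.Adj x y → Γ.Adj x y' → Nr R (Pf p Bm ψ C) y y' →
  ∃ a ∈ Pf p Bm ψ C y, ∃ v ∈ W, a * v * a⁻¹ * v⁻¹ ∉ Cw W (Bm y')

/-- BLOCK BLK (uses PY1, PY2, CMV, GNV, TRV, NCV, NZV): blocks.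
PROOF. `SP`, `PB`, `SPc`, `PcB`: PY1 (1). `sup`, `gen`: GNV. `cjJ`: PY2 (4), (5), (8). `cjC`: for `g ∈ Cg x W` one
has `ψ g = 1` (`Md.cen`), PY2 (4), (7), (8). `cmV`: CMV. `tr`: TRV. `nc`: NCV. `nz`: NZV. -/
def Stmt_BLK : Prop := ∀ (V G : Type) [Group G] [MulAction G V] (Γ : SimpleGraph V) (d p : ℕ)
  [Fact p.Prime] (x : V) (W S R : Subgroup G) (Bm : V → Subgroup G) (U : Type)
  [AddCommGroup U] [Module (ZMod p) U] (ψ : stabilizer G x →* Un U) (E D : Subgroup (Un U))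
  (t : Un U) (e : U) (f : U →+ ZMod p), VB Γ d p x W S R Bm ψ E D t e f →
  ∀ C : Set (Un U), Cc p ψ.range E C → Ct p ψ.range E C →
  (∀ y, Γ.Adj x y → Tg W S (Pf p Bm ψ C y) ∧ Tg W S (Pf p Bm ψ Cᶜ y)) →
  ∀ Z : V → Subgroup G, (∀ y, Γ.Adj x y → Z y = Cw W (Bm y)) →
  Bl Γ x W S R Z Bm (Pf p Bm ψ C) (Pf p Bm ψ Cᶜ)

/-! ## J. Assembly -/

/-- BLOCK LNK (uses MDX, FMB, LAT, LBI, BAU1, BAU4, TJ1): the group of a link is tight.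
PROOF. Write `W x = Wp Γ p x`, `S x = Sp Γ p x`, `a = |W x|`, `b = |W w|`, `α = |Cw (W x) (W w)|`,
`β = |Cw (W w) (W x)|`. (2) `W w ≤ S x' ≤ Bp p x' x = Bp p x x'` (BAU4, BAU1 (6)). (3) If `W w ≤ S x` then
`W w` and `W x` commute, and `W x ≤ S w' ≤ Bp p w w'`, so `W x ≤ S w` by BAU4 (11) at ` (w, w')`, against `cr`.
(1) MDX (with FMB (2), BAU4 (1)) and TJ1 give `R`, `U`, `ψ`, `VE` at `x` (`AddCommGroup.zmodModule` for the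
module structure). Let `P = W w ⊔ S x`. LBI: `S x ≤ Qv ≤ R`; `P ⊓ R ≤ Bp ⊓ R ≤ Bp ⊓ K ≤ S x` (`VE.RK`); `im ψ P =
im ψ (W w)` is abelian. So `|P| |Cw (W x) P| ≤ |W x| |S x|`, and `Cw (W x) P = Cw (W x) (W w)`: `|P| α ≤ a |S x|`.
`W w ⊓ S x = Cw (W w) (W x)` (`≥`: BAU4 (11) at ` (x, x')`), so LAT (1): `b |S x| ≤ |P| β`. Hence
`b |S x| α ≤ |P| α β ≤ a |S x| β`, so `b α ≤ a β`. The same argument at `w` (the hypotheses are symmetric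
except `cr`; use it for ` (w, w')`, `W x ≤ S w'`) gives `a β ≤ b α`. So equality everywhere, and
`|P| α = a |S x|`. -/
def Stmt_LNK : Prop := ∀ (V G : Type) [Group G] [MulAction G V] (Γ : SimpleGraph V) (d p : ℕ)
  [Fact p.Prime], Hy G Γ d p → ∀ x x' w' w, Lw (G := G) Γ (Wp Γ p) (Sp Γ p) x x' w' w →
  Tg (G := G) (Wp Γ p x) (Sp Γ p x) (Wp Γ p w ⊔ Sp Γ p x) ∧
  Wp (G := G) Γ p w ⊔ Sp Γ p x ≤ Bp p x x' ∧ ¬ Wp (G := G) Γ p w ⊔ Sp Γ p x ≤ Sp Γ p x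

/-- BLOCK SYS (uses QDC, MIN, GTR, MQU, VMQ, MDX, FMB, QIX, TG1, VSC, BLK, BAU1, BAU4, TJ1, VSX, LNK): the
system.
PROOF. For every vertex `x` MDX (`h.fin x`, FMB (2), BAU4 (1)) gives `R x`, `U`, `ψ` with `Md2` (`choose R`). For a
vertex `x` with a neighbour TJ1 and VSX give `VB Γ d p x (Wp Γ p x) (Sp Γ p x) (R x) (Bp p x) ψ E D t e f`.
`Cw (Wp x) (Bp x y) = Zp p x y` (`≤`: `Jt ≤ Bp`, BAU4 (8); `≥`: definition of `Bp`). FIELDS. `Wcj`, `Scj`, `Zcj`,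
`Bcj`, `Zcm`, `Bcm`: BAU1, BAU4. `Rs`, `Rn`: `isR`. `RC`: `Md.cen`, `Md.ker`. `SQ`, `SW`, `BQ`, `ZB`: definition.
`WS`, `SB`, `BK`, `ct`, `ne`: BAU4. `ZW`: `z_le_VZ`. `BZ`, `Zn`: above, `Fm.ne`. `qd`: `Md2.tt` with
`A = A' = Bp p x y` (tight: `VS.tg`; TG1 gives the second form), the subgroup `Sc ψ.range e` (MIN), QDC with
`T = T' = Tq p (im ψ (Qe p x y))` (`f2 e1 = 0` by MQU (7)): so every commutator `b v b⁻¹ v⁻¹` is centralised by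
`Bp p x y`, and lies in `Wp`. `ab`: `im ψ (Bp) = Pq p _` is abelian (GTR), so
`a b a⁻¹ b⁻¹ ∈ Bp ⊓ R ≤ Sp` (`BR`). `ix`: by `tg` `|Zp| |Bp| = |Wp| |Sp|`, so `Zp.relIndex Wp = Sp.relIndex Bp`,
and `Sp.relIndex Bp ≤ (Qv ⊓ Bp).relIndex Bp = Qv.relIndex Bp ≤ Qv.relIndex Qe ≤ d!` (`Bp ⊓ Qv ≤ Sp` by BAU4; QIX).
`lk`: LNK gives a tight `P = Wp w ⊔ Sp x ≤ Bp x x'`, `¬ P ≤ Sp x`; VSC gives `C` with `Pf C x' = P`; BLK. -/
def Stmt_SYS : Prop := ∀ (V G : Type) [Group G] [MulAction G V] (Γ : SimpleGraph V) (d p : ℕ)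
  [Fact p.Prime], Hy G Γ d p →
  ∃ R : V → Subgroup G, Sy Γ d p (Wp Γ p) (Sp Γ p) R (Zp p) (Bp p)

end Pool.Agent.Work.MP_6d7bb4.helper94.Sol
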