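import Pool.Agent.Work.MP_6d7bb4_S.Interface1

set_option autoImplicit false
set_option linter.unusedSectionVars false

/-!
# MP_6d7bb4: all soluble semiprimitive groups; block BAS (first properties of the system)
-/

namespace Pool.Agent.Work.MP_6d7bb4.helper94.Sol

open MulAction Tv Ff Ps
open scoped commutatorElement

namespace X_BAS

variable {V G : Type} [Group G] [MulAction G V] {Γ : SimpleGraph V} {d p : ℕ} [Fact p.Prime]
  {W S R : V → Subgroup G} {Z Bm : V → V → Subgroup G}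

theorem symm (hS : Sy Γ d p W S R Z Bm) {x x' w' w : V} (l : Lw Γ W S x x' w' w) :
    Lw Γ W S w w' x' x where
  xx := l.ww
  ww := l.xx
  xw := l.wx
  wx := l.xw
  cr := by
    intro hcon
    apply l.cr
    intro v hv
    refine hS.ct w w' l.ww v ?_ ?_
    · rw [hS.Bcm w w']
      exact hS.SB w' w l.ww.symm (l.xw hv)
    · intro u hu
      exact (hS.SW x u (hcon hu) v hv).symm

theorem conj (h : Loc G Γ d) (hS : Sy Γ d p W S R Z Bm) (g : G) {x x' w' w : V}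
    (l : Lw Γ W S x x' w' w) : Lw Γ W S (g • x) (g • x') (g • w') (g • w) where
  xx := h.adj g _ _ l.xx
  ww := h.adj g _ _ l.ww
  xw := by
    rw [hS.Wcj, hS.Scj]
    exact cj_mono g l.xw
  wx := by
    rw [hS.Wcj, hS.Scj]
    exact cj_mono g l.wx
  cr := by
    intro hcon
    rw [hS.Wcj, hS.Scj] at hcon
    apply l.cr
    have := cj_mono g⁻¹ hcon
    rwa [cj_cj_inv, cj_cj_inv] at this

theorem le_J {x z : V} (hz : Γ.Adj x z) : Bm x z ≤ ⨆ z : {z // Γ.Adj x z}, Bm x z.1 :=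
  le_iSup (fun z : {z // Γ.Adj x z} => Bm x z.1) ⟨z, hz⟩

theorem J_cj (h : Loc G Γ d) (hS : Sy Γ d p W S R Z Bm) (g : G) (x : V) :
    (⨆ z : {z // Γ.Adj (g • x) z}, Bm (g • x) z.1) = cj g (⨆ z : {z // Γ.Adj x z}, Bm x z.1) := by
  have key : ∀ (g : G) (x : V), (⨆ z : {z // Γ.Adj (g • x) z}, Bm (g • x) z.1) ≤
      cj g (⨆ z : {z // Γ.Adj x z}, Bm x z.1) := by
    intro g x
    refine iSup_le (fun y => ?_)
    have h1 : Γ.Adj x (g⁻¹ • y.1) := by
      rw [← h.adj_iff g, smul_inv_smul]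
      exact y.2
    have h2 : Bm (g • x) y.1 = cj g (Bm x (g⁻¹ • y.1)) := by
      rw [← hS.Bcj, smul_inv_smul]
    rw [h2]
    exact cj_mono g (le_J h1)
  refine le_antisymm (key g x) ?_
  have h1 := cj_mono g (key g⁻¹ (g • x))
  rw [cj_inv_cj] at h1
  refine le_trans (cj_mono g (le_of_eq ?_)) h1
  rw [inv_smul_smul]

theorem J_le (hS : Sy Γ d p W S R Z Bm) (x : V) :
    (⨆ z : {z // Γ.Adj x z}, Bm x z.1) ≤ stabilizer G x :=
  iSup_le (fun y => (hS.BQ x y.1 y.2).trans (Qe_le_st x y.1))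

theorem J_tr (h : Loc G Γ d) (hS : Sy Γ d p W S R Z Bm) (x : V) :
    ∀ y y', Γ.Adj x y → Γ.Adj x y' → ∃ g ∈ (⨆ z : {z // Γ.Adj x z}, Bm x z.1), g • y = y' := by
  have hn : Nm (stabilizer G x) (⨆ z : {z // Γ.Adj x z}, Bm x z.1) := by
    refine nm_of_cj (fun g hg => ?_)
    have h1 := J_cj h hS g x
    have h2 : g • x = x := mem_stabilizer_iff.mp hg
    rw [← h1]
    rw [h2]
  rcases h.sp x _ (J_le hS x) hn with h1 | h1
  · exact h1
  · intro y y' hy _
    exfalso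
    apply hS.ne x y hy
    intro q hq
    exact h1 q (le_J hy hq) y hy (Qe_le x y (hS.BQ x y hy hq)).2

end X_BAS

theorem s_BAS : Stmt_BAS := by
  intro V G _ _ Γ d p _ W S R Z Bm h hS
  refine ⟨fun x => ?_, fun x => ⟨nm_of_equiv hS.Wcj x, nm_of_equiv hS.Scj x⟩, fun x y _ => ?_,
    fun x x' w' w l => X_BAS.symm hS l, fun g x x' w' w l => X_BAS.conj h hS g l,
    fun x y y' hy hy' => X_BAS.J_tr h hS x y y' hy hy'⟩
  · have h1 : S x ≤ K Γ x := (hS.SQ x).trans (Qv_le x)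
    exact ⟨(hS.WS x).trans h1, h1⟩
  · refine ⟨nm_of_cj (fun g hg => ?_), nm_of_cj (fun g hg => ?_)⟩
    · rw [← hS.Bcj, (mem_B.mp hg).1, (mem_B.mp hg).2]
    · rw [← hS.Zcj, (mem_B.mp hg).1, (mem_B.mp hg).2]

end Pool.Agent.Work.MP_6d7bb4.helper94.Sol
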