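import Pool.Agent.Work.MP_6d7bb4_S.Interface3

set_option autoImplicit false
set_option linter.unusedSectionVars false

/-! # MP_6d7bb4: block BAU1 (helper27) -/

namespace Pool.Agent.Work.MP_6d7bb4.helper94.Sol

open MulAction Tv Ff Ps
open scoped commutatorElement

namespace X_BAU1

variable {G : Type} [Group G]

theorem el_OZ {p : ℕ} (Q : Subgroup G) : El p (OZ p Q) :=
  ⟨fun _ ha _ hb => hb.2.2 _ ha.1, fun _ ha => ha.2.1⟩

theorem el_mono {p : ℕ} {A B : Subgroup G} (h : A ≤ B) (hB : El p B) : El p A :=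
  ⟨fun a ha b hb => hB.cm a (h ha) b (h hb), fun a ha => hB.ex a (h ha)⟩

theorem cj_centralizer (g : G) (A : Subgroup G) :
    Subgroup.centralizer ((cj g A : Subgroup G) : Set G) =
      cj g (Subgroup.centralizer (A : Set G)) := by
  ext k
  rw [mem_cj, Subgroup.mem_centralizer_iff, Subgroup.mem_centralizer_iff]
  constructor
  · intro h a ha
    have h1 := h (g * a * g⁻¹) (conj_mem_cj ha)
    calc a * (g⁻¹ * k * g) = g⁻¹ * (g * a * g⁻¹ * k) * g := by group
      _ = g⁻¹ * (k * (g * a * g⁻¹)) * g := by rw [h1]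
      _ = g⁻¹ * k * g * a := by group
  · intro h a ha
    have h1 := h (g⁻¹ * a * g) (mem_cj.mp ha)
    calc a * k = g * (g⁻¹ * a * g * (g⁻¹ * k * g)) * g⁻¹ := by group
      _ = g * (g⁻¹ * k * g * (g⁻¹ * a * g)) * g⁻¹ := by rw [h1]
      _ = k * a := by group

theorem cj_inf (g : G) (A B : Subgroup G) : cj g (A ⊓ B) = cj g A ⊓ cj g B := by
  ext k
  rw [Subgroup.mem_inf, mem_cj, mem_cj, mem_cj, Subgroup.mem_inf]

theorem cj_Cw (g : G) (A B : Subgroup G) : Cw (cj g A) (cj g B) = cj g (Cw A B) := by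
  unfold Cw
  rw [cj_centralizer, cj_inf]

theorem Jt_le {p : ℕ} (Q : Subgroup G) : Jt p Q ≤ Q := iSup_le (fun A => A.2.le)

theorem le_Jt {p : ℕ} {Q A : Subgroup G} (h : Am p Q A) : A ≤ Jt p Q :=
  le_iSup (fun A : {A : Subgroup G // Am p Q A} => A.1) ⟨A, h⟩

end X_BAU1

open X_BAU1

theorem s_BAU1 (hTH1 : Stmt_TH1) : Stmt_BAU1 := by
  intro V G _ _ Γ d p _ hy
  obtain ⟨t1, t2, t3, t4, t5, t6⟩ := hTH1 G p
  have h := hy.loc
  have hB := hy.cb
  have hJ : ∀ (g : G) (x y : V), Jt p (Qe p (g • x) (g • y)) = cj g (Jt p (Qe p x y)) := by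
    intro g x y
    rw [Qe_cj, t3]
  have hZ : ∀ (g : G) (x y : V), Zp p (g • x) (g • y) = cj g (Zp p x y) := by
    intro g x y
    unfold Zp
    rw [hJ, OZ_cj]
  refine ⟨?_, hJ, hZ, ?_, ?_, ?_, ?_, ?_⟩
  · -- (1)
    intro x y hxy hle
    have hfin : Finite (Qe p x y : Subgroup G) := finQe h x y
    have hfv : Finite (Qv Γ p x : Subgroup G) := h.fin_le (Qv_le_st x)
    have hvQ : (Qv Γ p x : Subgroup G) ≤ Qe p x y := Qv_le_Qe h hxy
    obtain ⟨A0, hA0⟩ := t1 (Qe p x y) hfin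
    have hin : ∀ A : Subgroup G, Am p (Qe p x y) A ↔ Am p (Qv Γ p x) A := by
      intro A
      constructor
      · intro hA
        exact ⟨(le_Jt hA).trans hle, hA.el, fun B hBl hBe => hA.mx B (hBl.trans hvQ) hBe⟩
      · intro hA
        refine ⟨hA.le.trans hvQ, hA.el, fun B hBl hBe => ?_⟩
        have h1 := hA0.mx B hBl hBe
        have h2 := hA.mx A0 ((le_Jt hA0).trans hle) hA0.el
        exact h1.trans h2
    have hJJ : Jt p (Qe p x y : Subgroup G) = Jt p (Qv Γ p x) := by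
      refine le_antisymm (iSup_le fun A => ?_) (iSup_le fun A => ?_)
      · exact le_Jt ((hin A.1).mp A.2)
      · exact le_Jt ((hin A.1).mpr A.2)
    have hbot : Jt p (Qe p x y : Subgroup G) = ⊥ := by
      obtain ⟨σ, h1, h2⟩ := h.inv hxy
      refine P1 h hxy ((Jt_le _).trans (Qe_le_st x y)) ?_ h1 h2 ?_
      · rw [hJJ]
        exact nm_of_equiv (D := fun x => Jt p (Qv Γ p x : Subgroup G))
          (fun g x => by rw [Qv_cj h, t3]) x
      · intro n hn
        have h3 := conj_mem_cj (g := σ) hn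
        rw [← hJ, h1, h2, Qe_comm] at h3
        exact h3
    have hne : (Qe p x y : Subgroup G) ≠ ⊥ := by
      intro h1
      apply hB.ne x y hxy
      rw [h1]
      exact bot_le
    obtain ⟨z, hz, hz1, hzp, hzc⟩ := exists_central (Qe_isP h x y) (le_refl _) hne (nm_self _)
    have hzA : z ∈ A0 := t4 _ A0 hfin hA0 z hz hzp (fun a ha => hzc a (hA0.le ha))
    have h3 := le_Jt hA0 hzA
    rw [hbot, Subgroup.mem_bot] at h3
    exact hz1 h3
  · -- (4)
    intro x y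
    unfold Zp
    rw [Qe_comm]
  · -- (5)
    intro g x y
    unfold Bp
    rw [hZ, Qe_cj, cj_Cw]
  · -- (6)
    intro x y
    unfold Bp Zp
    rw [Qe_comm]
  · -- (7)
    intro x y hxy z hz
    have hfin : Finite (Qe p x y : Subgroup G) := finQe h x y
    obtain ⟨A0, hA0⟩ := t1 (Qe p x y) hfin
    refine ⟨?_, hz.2.1, fun q hq => hz.2.2 q (Jt_le _ hq)⟩
    exact le_Jt hA0 (t4 _ A0 hfin hA0 z hz.1 hz.2.1 (fun a ha => hz.2.2 a (hA0.le ha)))
  · -- (8)
    refine ⟨Zz_cj, Zz_comm, fun x y _ => OZ_le _ _, fun x y hxy => Zz_ne h hB hxy, fun x => ?_⟩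
    refine el_mono (iSup_le (fun y => ?_)) (el_OZ (p := p) (Qv Γ p x : Subgroup G))
    intro z hz
    exact ⟨hB.zq x y.1 y.2 hz, hz.2.1, fun q hq => hz.2.2 q (Qv_le_Qe h y.2 hq)⟩

end Pool.Agent.Work.MP_6d7bb4.helper94.Sol
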