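import Pool.Agent.Work.MP_6d7bb4_S.Interface3

set_option autoImplicit false
set_option linter.unusedSectionVars false

/-!
# MP_6d7bb4: block BAU2 (Thompson subgroups of `Qe` and `Qv`)
-/

namespace Pool.Agent.Work.MP_6d7bb4.helper94.Sol

open MulAction Tv Ff Ps
open scoped commutatorElement

namespace X_BAU2

theorem Vv_OZ {V G : Type} [Group G] [MulAction G V] {Γ : SimpleGraph V} {d p : ℕ}
    [Fact p.Prime] (h : Loc G Γ d) (hB : CB0 G Γ p) (x : V) :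
    (Vv Γ p x : Subgroup G) ≤ OZ p (Qv Γ p x) := by
  refine iSup_le (fun y => ?_)
  intro z hz
  exact ⟨hB.zq x y.1 y.2 hz, hz.2.1, fun q hq => hz.2.2 q (Qv_le_Qe h y.2 hq)⟩

end X_BAU2

open X_BAU2 in
theorem s_BAU2 (hTH1 : Stmt_TH1) (hLBG : Stmt_LBG) (hBAU1 : Stmt_BAU1) : Stmt_BAU2 := by
  intro V G _ _ Γ d p _ h x y hxy
  obtain ⟨t1, -, -, -, t5, t6⟩ := hTH1 G p
  obtain ⟨-, -, -, -, -, -, -, hFm⟩ := hBAU1 V G Γ d p h
  have hV : (Vv Γ p x : Subgroup G) ≤ OZ p (Qv Γ p x) := Vv_OZ h.loc h.cb x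
  have hVQ : (Vv Γ p x : Subgroup G) ≤ Qv Γ p x := hV.trans (OZ_le _ _)
  have hVel : El p (Vv Γ p x : Subgroup G) :=
    ⟨fun a ha b hb => (hV hb).2.2 a (hVQ ha), fun a ha => (hV ha).2.1⟩
  have hQ : (Qv Γ p x : Subgroup G) ≤ Qe p x y := Qv_le_Qe h.loc hxy
  have key : ∀ A : Subgroup G, Am p (Qe p x y) A →
      Am p (Qe p x y) (Vv Γ p x ⊔ (A ⊓ Qv Γ p x)) ∧
      Am p (Qv Γ p x) (Vv Γ p x ⊔ (A ⊓ Qv Γ p x)) := by
    intro A hA
    have hAQ : El p (A ⊓ Qv Γ p x) :=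
      ⟨fun a ha b hb => hA.el.cm a ha.1 b hb.1, fun a ha => hA.el.ex a ha.1⟩
    have hcomm : ∀ a ∈ (Vv Γ p x : Subgroup G), ∀ b ∈ A ⊓ Qv Γ p x, a * b = b * a :=
      fun a ha b hb => ((hV ha).2.2 b hb.2).symm
    have hel : El p (Vv Γ p x ⊔ (A ⊓ Qv Γ p x)) := t5 _ _ hVel hAQ hcomm
    have hle : Vv Γ p x ⊔ (A ⊓ Qv Γ p x) ≤ Qv Γ p x := sup_le hVQ inf_le_right
    have hf1 : Finite (Vv Γ p x : Subgroup G) := h.loc.fin_le (hVQ.trans (Qv_le_st x))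
    have hf2 : Finite (A ⊓ Qv Γ p x : Subgroup G) :=
      h.loc.fin_le (inf_le_right.trans (Qv_le_st x))
    have h6 := t6 (Vv Γ p x) (A ⊓ Qv Γ p x) hf1 hf2 hcomm
    have hcw : (Vv Γ p x : Subgroup G) ⊓ (A ⊓ Qv Γ p x) ≤ Cw (Vv Γ p x) A :=
      fun v hv => mem_Cw.2 ⟨hv.1, fun a ha => hA.el.cm a ha v hv.2.1⟩
    have hf3 : Finite (Cw (Vv Γ p x) A : Subgroup G) :=
      h.loc.fin_le ((inf_le_left.trans hVQ).trans (Qv_le_st x))
    have hc : Nat.card (Vv Γ p x ⊓ (A ⊓ Qv Γ p x) : Subgroup G) ≤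
        Nat.card (Cw (Vv Γ p x) A : Subgroup G) := Subgroup.card_le_of_le hcw
    have hL : Nat.card A * Nat.card (Cw (Vv Γ p x) A : Subgroup G) ≤
        Nat.card (Vv Γ p x : Subgroup G) * Nat.card (A ⊓ Qv Γ p x : Subgroup G) :=
      hLBG V G Γ d p (Zz p) h.loc h.p23 h.ps hFm x y hxy A hA.le hA.el.cm
    have hpos : 0 < Nat.card (Cw (Vv Γ p x) A : Subgroup G) := Nat.card_pos
    have hcard : Nat.card A ≤ Nat.card (Vv Γ p x ⊔ (A ⊓ Qv Γ p x) : Subgroup G) := by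
      refine Nat.le_of_mul_le_mul_right ?_ hpos
      rw [← h6] at hL
      exact hL.trans (Nat.mul_le_mul_left _ hc)
    exact ⟨⟨hle.trans hQ, hel, fun B hB hBe => (hA.mx B hB hBe).trans hcard⟩,
      ⟨hle, hel, fun B hB hBe => (hA.mx B (hB.trans hQ) hBe).trans hcard⟩⟩
  have key2 : ∀ A : Subgroup G, Am p (Qv Γ p x) A → Am p (Qe p x y) A := by
    intro A hA
    obtain ⟨A0, hA0⟩ := t1 (Qe p x y) (finQe h.loc x y)
    obtain ⟨k1, k2⟩ := key A0 hA0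
    refine ⟨hA.le.trans hQ, hA.el, fun B hB hBe => ?_⟩
    exact (k1.mx B hB hBe).trans (hA.mx _ k2.le k2.el)
  refine ⟨key, key2, ?_⟩
  exact iSup_le fun A => le_iSup (fun A : {A : Subgroup G // Am p (Qe p x y) A} => A.1)
    ⟨A.1, key2 A.1 A.2⟩

end Pool.Agent.Work.MP_6d7bb4.helper94.Sol
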