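import Pool.Agent.Work.MP_6d7bb4_S.Interface3

set_option autoImplicit false
set_option linter.unusedSectionVars false

/-! # MP_6d7bb4: block BAU4, the Baumann system -/

namespace Pool.Agent.Work.MP_6d7bb4.helper94.Sol

open MulAction Tv Ff Ps
open scoped commutatorElement

namespace BAU4_X

theorem Jt_le {G : Type} [Group G] (p : ℕ) (Q : Subgroup G) : Jt p Q ≤ Q :=
  iSup_le (fun A => A.2.le)

theorem le_Jt {G : Type} [Group G] {p : ℕ} {Q A : Subgroup G} (hA : Am p Q A) : A ≤ Jt p Q :=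
  le_iSup (fun A : {A : Subgroup G // Am p Q A} => A.1) ⟨A, hA⟩

theorem Cw_cj {G : Type} [Group G] (g : G) (A C : Subgroup G) :
    Cw (cj g A) (cj g C) = cj g (Cw A C) := by
  ext v
  rw [mem_cj, mem_Cw, mem_Cw, mem_cj]
  refine and_congr_right (fun _ => ?_)
  constructor
  · intro h c hc
    have h1 := h (g * c * g⁻¹) (conj_mem_cj hc)
    calc c * (g⁻¹ * v * g) = g⁻¹ * (g * c * g⁻¹ * v) * g := by group
      _ = g⁻¹ * (v * (g * c * g⁻¹)) * g := by rw [h1]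
      _ = g⁻¹ * v * g * c := by group
  · intro h c hc
    have h1 := h _ (mem_cj.mp hc)
    calc c * v = g * (g⁻¹ * c * g * (g⁻¹ * v * g)) * g⁻¹ := by group
      _ = g * (g⁻¹ * v * g * (g⁻¹ * c * g)) * g⁻¹ := by rw [h1]
      _ = v * c := by group

theorem VZ_bot {V G : Type} [Group G] {Γ : SimpleGraph V} {ζ : V → V → Subgroup G} {x : V}
    (hx : ¬ ∃ y, Γ.Adj x y) : VZ Γ ζ x = ⊥ := by
  haveI : IsEmpty {y // Γ.Adj x y} := ⟨fun y => hx ⟨y.1, y.2⟩⟩
  unfold VZ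
  exact iSup_of_empty _

end BAU4_X

theorem s_BAU4 (hFMB : Stmt_FMB) (hBAU1 : Stmt_BAU1) (hBAU3 : Stmt_BAU3) : Stmt_BAU4 := by
  intro V G _ _ Γ d p _ hy
  have h := hy.loc
  obtain ⟨b1, b2, b3, b4, b5, b6, b7, b8⟩ := hBAU1 V G Γ d p hy
  have h3 := hBAU3 V G Γ d p hy
  have hWOZ : ∀ x, (∃ y, Γ.Adj x y) → Wp (G := G) Γ p x ≤ OZ p (Jt p (Qv Γ p x)) := by
    rintro x ⟨y, hxy⟩
    exact (h3 x y hxy).2.2.2.2.2.2
  have hFm : Fm (G := G) Γ p (Zp p) := by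
    refine ⟨b3, b4, fun x y hxy => (OZ_le _ _).trans (BAU4_X.Jt_le _ _), fun x y hxy hb => ?_,
      fun x => ?_⟩
    · apply Zz_ne h hy.cb hxy
      have h1 := b7 x y hxy
      rw [hb] at h1
      exact le_bot_iff.mp h1
    · by_cases hx : ∃ y, Γ.Adj x y
      · have h1 := hWOZ x hx
        exact ⟨fun a ha b hb => (h1 hb).2.2 a (h1 ha).1, fun a ha => (h1 ha).2.1⟩
      · rw [BAU4_X.VZ_bot hx]
        refine ⟨fun a ha b hb => ?_, fun a ha => ?_⟩
        · rw [Subgroup.mem_bot] at ha hb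
          rw [ha, hb]
        · rw [Subgroup.mem_bot] at ha
          rw [ha, one_pow]
  obtain ⟨f1, f2, f3, f4, f5⟩ := hFMB V G Γ d p (Zp p) h hFm
  have hWcj : ∀ (g : G) x, Wp Γ p (g • x) = cj g (Wp Γ p x) := f1
  -- elements of `Qv` commuting with `Zp`
  have hSp : ∀ x y, Γ.Adj x y → ∀ b ∈ (Qv Γ p x : Subgroup G),
      (∀ z ∈ Zp (G := G) p x y, z * b = b * z) → b ∈ Sp (G := G) Γ p x := by
    intro x y hxy b hb hz
    unfold Sp
    rw [mem_Cw]
    refine ⟨hb, ?_⟩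
    have hV : (Vv Γ p x : Subgroup G) ≤ Subgroup.centralizer ({b} : Set G) := by
      refine iSup_le (fun y' => ?_)
      intro v hv
      rw [Subgroup.mem_centralizer_iff]
      rintro c rfl
      exact hv.2.2 c (Qv_le_Qe h y'.2 hb)
    have hZ : Zp (G := G) p x y ≤ Subgroup.centralizer ({b} : Set G) := by
      intro v hv
      rw [Subgroup.mem_centralizer_iff]
      rintro c rfl
      exact (hz v hv).symm
    intro w hw
    have h1 := (h3 x y hxy).2.2.2.2.1 hw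
    have h2 := sup_le hV hZ h1
    rw [Subgroup.mem_centralizer_iff] at h2
    exact (h2 b rfl).symm
  have hBK : ∀ x y, Γ.Adj x y → Bp (G := G) p x y ⊓ K Γ x ≤ Sp Γ p x := by
    rintro x y hxy b ⟨hb, hbK⟩
    have hb' : b ∈ Bp (G := G) p x y := hb
    unfold Bp at hb'
    rw [mem_Cw] at hb'
    refine hSp x y hxy b ?_ hb'.2
    rw [Qv_eq h hxy]
    exact ⟨hb'.1, hbK⟩
  have hJB : ∀ x y : V, Jt p (Qe p x y : Subgroup G) ≤ Bp p x y := by
    intro x y b hb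
    unfold Bp
    rw [mem_Cw]
    exact ⟨BAU4_X.Jt_le _ _ hb, fun a ha => (ha.2.2 b hb).symm⟩
  refine ⟨hFm, hWcj, ?_, ?_, ?_⟩
  · intro g x
    unfold Sp
    rw [hWcj, Qv_cj h, BAU4_X.Cw_cj]
  · intro x
    by_cases hx : ∃ y, Γ.Adj x y
    · intro v hv
      have h1 := hWOZ x hx
      unfold Sp
      rw [mem_Cw]
      exact ⟨BAU4_X.Jt_le _ _ (h1 hv).1, fun a ha => (h1 hv).2.2 a (h1 ha).1⟩
    · have h1 : Wp (G := G) Γ p x = ⊥ := BAU4_X.VZ_bot hx
      rw [h1]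
      exact bot_le
  · intro x y hxy
    refine ⟨?_, hBK x y hxy, hJB x y, ?_, ?_, ?_, ?_⟩
    · intro b hb
      unfold Sp at hb
      rw [mem_Cw] at hb
      unfold Bp
      rw [mem_Cw]
      exact ⟨Qv_le_Qe h hxy hb.1, fun a ha => hb.2 a (z_le_VZ hxy ha)⟩
    · refine le_antisymm ?_ ?_
      · intro v hv
        rw [mem_Cw] at hv
        exact (h3 x y hxy).2.2.2.1 v (hWOZ x ⟨y, hxy⟩ hv.1) hv.2
      · intro z hz
        rw [mem_Cw]
        exact ⟨z_le_VZ hxy hz, hz.2.2⟩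
    · rintro A hA b ⟨hb, hbQ⟩
      exact hSp x y hxy b hbQ (fun z hz => (hz.2.2 b (BAU4_X.le_Jt hA hb)).symm)
    · intro hc
      apply b1 x y hxy
      intro b hb
      rw [Qv_eq h hxy]
      exact ⟨BAU4_X.Jt_le _ _ hb, hc (hJB x y hb)⟩
    · intro b hb hc
      have hb' := hb
      unfold Bp at hb'
      rw [mem_Cw] at hb'
      exact hBK x y hxy ⟨hb, f5 x y hxy b (Qe_le x y hb'.1) hc⟩

end Pool.Agent.Work.MP_6d7bb4.helper94.Sol
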