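import Pool.Agent.Work.MP_6d7bb4_S.Interface1

set_option autoImplicit false
set_option linter.unusedSectionVars false

/-! # MP_6d7bb4, BLOCK BDW: the critical distance is bounded -/

namespace Pool.Agent.Work.MP_6d7bb4.helper94.Sol

open MulAction Tv Ff Ps
open scoped commutatorElement

theorem s_BDW (hBAS : Stmt_BAS) (hCNV : Stmt_CNV) : Stmt_BDW := by
  intro V G _ _ Γ d p _ W S R Z Bm h sy c s mn P M hM
  classical
  obtain ⟨b1, b2, -, -, -, -⟩ := hBAS V G Γ d p W S R Z Bm h sy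
  have cnv := hCNV V G Γ d p W S R Z Bm h sy c (2 * c + 2) s mn P
  have hfin : Finite (W (s (2 * c + 1))) := h.fin_le ((b1 _).1.trans (K_le _))
  have hex : ∀ k, ∃ a : G, k < 2 * c + 2 → a ∈ ⁅W (s (k + c + 1)), W (s k)⁆ ∧
      a ∉ Z (s (k + c + 1)) (s (k + c + 2)) := by
    intro k
    by_cases hk : k < 2 * c + 2
    · obtain ⟨Pp, Pc, hb, hP, hN, -⟩ := P.bl k hk
      have ad1 : Γ.Adj (s (k + c)) (s (k + c + 1)) := P.ad (k + c) (by omega)
      have ad2 : Γ.Adj (s (k + c + 1)) (s (k + c + 2)) := P.ad (k + c + 1) (by omega)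
      obtain ⟨q, hq, v, hv, hnot⟩ := hb.nz _ _ ad1.symm ad2 hN
      rw [hP] at hq
      have hle : W (s k) ≤ stabilizer G (s (k + c + 1)) := by
        intro g hg
        have h1 : g ∈ S (s (k + c)) :=
          mn _ _ (dist_path h.conn P.ad k c (by omega)) hg
        exact ((b1 (s (k + c))).2 h1).2 _ ad1
      have hnm : Nm (W (s k)) (S (s (k + c + 1))) := (b2 (s (k + c + 1))).2.mono hle
      obtain ⟨u, hu, t, ht, rfl⟩ := mem_sup_nm hnm hq
      have htv := sy.SW _ t ht v hv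
      have heq : u * t * v * (u * t)⁻¹ * v⁻¹ = ⁅u, v⁆ := by
        rw [commutatorElement_def, mul_inv_rev]
        calc u * t * v * (t⁻¹ * u⁻¹) * v⁻¹ = u * (t * v) * t⁻¹ * u⁻¹ * v⁻¹ := by group
          _ = u * (v * t) * t⁻¹ * u⁻¹ * v⁻¹ := by rw [htv]
          _ = u * v * u⁻¹ * v⁻¹ := by group
      rw [heq] at hnot
      refine ⟨⁅u, v⁆, fun _ => ⟨?_, hnot⟩⟩
      rw [Subgroup.commutator_comm]
      exact Subgroup.commutator_mem_commutator hu hv
    · exact ⟨1, fun hk' => absurd hk' hk⟩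
  choose a ha using hex
  have h3 := chain_min (V0 := W (s (2 * c + 1))) (Finset.Icc c (2 * c + 1)) a
    (fun k => Z (s (k + c + 1)) (s (k + c + 2))) ?_ ?_ ?_
  · rw [Nat.card_Icc] at h3
    have h4 : 2 * c + 1 + 1 - c = c + 2 := by omega
    rw [h4] at h3
    exact h3.trans (hM _)
  · intro k hk
    rw [Finset.mem_Icc] at hk
    have hak := (ha k (by omega)).1
    by_cases hkc : k = c
    · have h5 := cnv k hk.1 (by omega) (a k) hak (2 * c) (by omega) (by omega)
      exact sy.ZW _ _ (P.ad (2 * c) (by omega)).symm h5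
    · have h5 := cnv k hk.1 (by omega) (a k) hak (2 * c + 1) (by omega) (by omega)
      rw [sy.Zcm] at h5
      exact sy.ZW _ _ (P.ad (2 * c + 1) (by omega)) h5
  · intro k hk
    rw [Finset.mem_Icc] at hk
    exact (ha k (by omega)).2
  · intro k hk k' hk' hlt
    rw [Finset.mem_Icc] at hk hk'
    have h5 := cnv k' hk'.1 (by omega) (a k') (ha k' (by omega)).1 (k + c + 1) (by omega) (by omega)
    rw [sy.Zcm] at h5
    exact h5

end Pool.Agent.Work.MP_6d7bb4.helper94.Sol
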