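import Pool.Agent.Work.MP_6d7bb4_S.Interface3

set_option autoImplicit false
set_option linter.unusedSectionVars false

/-! # MP_6d7bb4, block BLK (helper58) -/

namespace Pool.Agent.Work.MP_6d7bb4.helper94.Sol

open MulAction Tv Ff Ps
open scoped commutatorElement

theorem s_BLK (hPY1 : Stmt_PY1) (hPY2 : Stmt_PY2) (hCMV : Stmt_CMV) (hGNV : Stmt_GNV)
    (hTRV : Stmt_TRV) (hNCV : Stmt_NCV) (hNZV : Stmt_NZV) : Stmt_BLK := by
  intro V G _ _ Γ d p _ x W S R Bm U _ _ ψ E D t e f hVB C hC hCt htg Z hZ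
  obtain ⟨q1, q2, q3, q4, q5, q6, q7, q8, q9⟩ := hPY2 V G Γ d p x W S R Bm U ψ E D t e f hVB
  have r1 : ∀ y, Γ.Adj x y → ∀ T : Set (Un U), S ≤ Py (Bm y) ψ T ∧ Py (Bm y) ψ T ≤ Bm y :=
    fun y hy => (hPY1 V G Γ d p x W S R Bm U ψ E D t e f hVB y hy).1
  have hcjP : ∀ g : stabilizer G x, Pc p ψ.range E (ψ g) → ∀ y, Γ.Adj x y →
      Pf p Bm ψ C (g.1 • y) = cj g.1 (Pf p Bm ψ C y) ∧
      Pf p Bm ψ Cᶜ (g.1 • y) = cj g.1 (Pf p Bm ψ Cᶜ y) :=
    fun g hg y hy => ⟨q4 C hC g hg y hy, q4 Cᶜ (q8 C hC) g hg y hy⟩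
  have hgen := fun (y : V) (hy : Γ.Adj x y) =>
    hGNV V G Γ d p x W S R Bm U ψ E D t e f hVB C hC y hy (htg y hy).1 (htg y hy).2
  exact {
    SP := fun y hy => (r1 y hy _).1
    PB := fun y hy => (r1 y hy _).2
    SPc := fun y hy => (r1 y hy _).1
    PcB := fun y hy => (r1 y hy _).2
    sup := fun y hy => (hgen y hy).1
    cjJ := by
      intro z hz g hg y hy
      have hgx : g ∈ stabilizer G x := Qe_le_st x z (hVB.vs.BQ z hz hg)
      exact hcjP ⟨g, hgx⟩ (q5 z hz ⟨g, hgx⟩ hg) y hy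
    cjC := by
      intro g hg y hy
      obtain ⟨hgx, hgW⟩ := mem_Cg.mp hg
      have h1 : ψ ⟨g, hgx⟩ = 1 := hVB.md.cen ⟨g, hgx⟩ hgW
      refine hcjP ⟨g, hgx⟩ ?_ y hy
      rw [h1]
      exact q7
    cmV := fun y y' hy hy' a ha b hb v hv =>
      hCMV V G Γ d p x W S R Bm U ψ E D t e f hVB C hC htg y y' hy hy' a ha b hb v hv
    gen := fun y hy => (hgen y hy).2
    tr := fun y y' hy hy' =>
      hTRV V G Γ d p x W S R Bm U ψ E D t e f hVB C hC hCt y y' hy hy'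
    nc := fun y hy => hNCV V G Γ d p x W S R Bm U ψ E D t e f hVB C hC hCt y hy
    nz := by
      intro y y' hy hy' hN
      obtain ⟨a, ha, v, hv, h1⟩ :=
        hNZV V G Γ d p x W S R Bm U ψ E D t e f hVB C y y' hy hy' hN
      refine ⟨a, ha, v, hv, ?_⟩
      rw [hZ y' hy']
      exact h1 }

end Pool.Agent.Work.MP_6d7bb4.helper94.Sol
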