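import Pool.Agent.Work.MP_6d7bb4_S.Interface1

/-! # MP_6d7bb4: all soluble semiprimitive groups; block BST -/

set_option autoImplicit false
set_option linter.unusedSectionVars false

namespace Pool.Agent.Work.MP_6d7bb4.helper94.Sol

/-- BST. -/
theorem s_BST (hTH1 : Stmt_TH1) : Stmt_BST := by
  intro G _ p _ Q A W C hQ hA hWQ hW hCA
  obtain ⟨-, -, -, -, h5, h6⟩ := hTH1 G p
  have fin : ∀ L : Subgroup G, L ≤ Q → Finite L := fun L hL =>
    Finite.of_injective _ (Subgroup.inclusion_injective hL)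
  have hW1W : Cw W C ≤ W := fun v hv => (mem_Cw.1 hv).1
  have hW1Q : Cw W C ≤ Q := hW1W.trans hWQ
  have hCQ : C ≤ Q := hCA.trans hA.le
  have := fin _ hW1Q
  have := fin _ hCQ
  have hcm : ∀ a ∈ Cw W C, ∀ b ∈ C, a * b = b * a := fun a ha b hb =>
    ((mem_Cw.1 ha).2 b hb).symm
  have e1 : El p (Cw W C) := ⟨fun a ha b hb => hW.cm a (hW1W ha) b (hW1W hb),
    fun a ha => hW.ex a (hW1W ha)⟩
  have e2 : El p C := ⟨fun a ha b hb => hA.el.cm a (hCA ha) b (hCA hb),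
    fun a ha => hA.el.ex a (hCA ha)⟩
  have e3 : El p (Cw W C ⊔ C) := h5 _ _ e1 e2 hcm
  have c1 : Nat.card (Cw W C ⊔ C : Subgroup G) ≤ Nat.card A :=
    hA.mx _ (sup_le hW1Q hCQ) e3
  have c2 := h6 (Cw W C) C inferInstance inferInstance hcm
  have hle : Cw W C ⊓ C ≤ Cw W A := by
    intro x hx
    rw [mem_Cw]
    exact ⟨hW1W hx.1, fun a ha => hA.el.cm a ha x (hCA hx.2)⟩
  have hWA : Cw W A ≤ Q := fun v hv => hWQ (mem_Cw.1 hv).1
  have := fin _ hWA
  have c3 : Nat.card (Cw W C ⊓ C : Subgroup G) ≤ Nat.card (Cw W A) :=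
    Nat.card_le_card_of_injective _ (Subgroup.inclusion_injective hle)
  calc Nat.card C * Nat.card (Cw W C) = Nat.card (Cw W C) * Nat.card C := mul_comm _ _
    _ = Nat.card (Cw W C ⊔ C : Subgroup G) * Nat.card (Cw W C ⊓ C : Subgroup G) := c2.symm
    _ ≤ Nat.card A * Nat.card (Cw W A) := Nat.mul_le_mul c1 c3

end Pool.Agent.Work.MP_6d7bb4.helper94.Sol
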