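import Pool.Agent.Work.MP_6d7bb4_S.Interface2

set_option autoImplicit false
set_option linter.unusedSectionVars false

/-!
# MP_6d7bb4, block CEN: elements of `Q` which fix the fixed points of the transvections
-/

namespace Pool.Agent.Work.MP_6d7bb4.helper94.Sol

open MulAction Tv Ff Ps
open scoped commutatorElement

namespace X_CEN

variable {U : Type} [AddCommGroup U]

/-- a vector fixed by a set is fixed by the generated group -/
theorem fix_closure (S : Set (Un U)) (u : U) (h : ∀ s ∈ S, (s : AddMonoid.End U) u = u) :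
    ∀ a ∈ Subgroup.closure S, (a : AddMonoid.End U) u = u := by
  intro a ha
  induction ha using Subgroup.closure_induction with
  | mem x hx => exact h x hx
  | one => rfl
  | mul x y _ _ hx hy => rw [mul_ap, hy, hx]
  | inv x _ hx =>
    have h1 := inv_ap x u
    rw [hx] at h1
    exact h1

end X_CEN

theorem s_CEN (hTCE : Stmt_TCE) (hTCP : Stmt_TCP) (hTCN : Stmt_TCN) (hTCF : Stmt_TCF)
    (hMQU : Stmt_MQU) (hOFF : Stmt_OFF) (hGTR : Stmt_GTR) : Stmt_CEN := by
  intro U _ p _ _ Y Z E D t e f Q Zq h hq b hb hfix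
  have hfin : Finite U := h.fin
  have en : En p Z E := ⟨h.p23, h.ed.EY.trans h.YZ, h.ed.nE, h.co⟩
  obtain ⟨m1, m2, m3, m4, m5, m6, m7, m8⟩ := hMQU U p Y Z E D t e f Q Zq h hq
  obtain ⟨c1, c2, c3, c4, c5, c6, c7, c8⟩ := hTCE U p Z E en
  obtain ⟨g1, g2⟩ := hGTR U p Y Z E D t e f Q Zq h hq (Tq p Q) (le_refl _)
  -- (i) centres are fixed
  have hcen : ∀ (s : Un U) (e1 : U) (f1 : U →+ ZMod p), s ∈ Q → TV s e1 f1 →
      (b : AddMonoid.End U) e1 = e1 := by
    intro s e1 f1 hs hTV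
    apply hfix
    apply X_CEN.fix_closure
    rintro s' ⟨hs', e2, f2, hTV'⟩
    have h1 := (m7 s' hs' s hs e2 e1 f2 f1 hTV' hTV).1
    rw [hTV'.ap, h1, zero_smul, add_zero]
  -- (ii) `b` commutes with the transvections
  have hcomT : ∀ s ∈ Tq p Q, b * s = s * b := by
    rintro s ⟨hs, e1, f1, hTV⟩
    have hsT : s ∈ Tq p Q := ⟨hs, e1, f1, hTV⟩
    have hbe := hcen s e1 f1 hs hTV
    have hTV1 := hTV.conj b
    have hs1T : b * s * b⁻¹ ∈ Tq p Q := ⟨Q.mul_mem (Q.mul_mem hb hs) (Q.inv_mem hb), _, _, hTV1⟩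
    obtain ⟨hsZ, hsC, -⟩ := m1 s hsT
    obtain ⟨hs1Z, hs1C, -⟩ := m1 _ hs1T
    have hbZ : b ∈ Z := h.YZ (hq.QY hb)
    obtain ⟨k, hk⟩ := hq.Qp ⟨b, hb⟩
    have hk' : b ^ p ^ k = 1 := by
      have := congrArg Subtype.val hk
      simpa using this
    refine hTCF U p Z E en s b e1 f1 hTV hsZ hbZ hsC k hk' hbe ?_
    by_contra hcon
    obtain ⟨x, hx, hx1, hx2⟩ := hTCN U p Z E en s e1 f1 hTV hsZ hsC
    have hxZ : x ∈ Z := en.EZ hx
    have hTV2 := hTV.conj x
    have hs2Z : x * s * x⁻¹ ∈ Z := Z.mul_mem (Z.mul_mem hxZ hsZ) (Z.inv_mem hxZ)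
    have hs2C : ¬ Cn E (x * s * x⁻¹) := c7 x hxZ s hsZ hsC
    have hs2T : Tc E (x * s * x⁻¹) s := c6 x hx s hsZ
    have hnT : ¬ Tc E (b * s * b⁻¹) (x * s * x⁻¹) := fun hT =>
      hcon (c3 _ hs1Z _ hs2Z _ hsZ hT hs2T)
    have h3 := ((hTCP U p Z E en (b * s * b⁻¹) (x * s * x⁻¹) _ _ _ _ hTV1 hTV2 hs1Z hs2Z hs1C
      hs2C).2.2.1 hnT).2.1
    rw [hbe] at h3
    exact hx2 h3
  -- (iii)
  have hPQ : Pq p Q ≤ Q := (Subgroup.closure_le Q).2 (fun s hs => hs.1)
  have hbP : ∀ a ∈ Pq p Q, b * a = a * b := by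
    intro a ha
    have h1 : Pq p Q ≤ Subgroup.centralizer {b} :=
      (Subgroup.closure_le _).2 (fun s hs => by
        show s ∈ Subgroup.centralizer {b}
        rw [Subgroup.mem_centralizer_iff]
        intro y hy
        rw [Set.mem_singleton_iff.1 hy]
        exact hcomT s hs)
    have h2 := h1 ha
    rw [Subgroup.mem_centralizer_iff] at h2
    exact h2 b (Set.mem_singleton b)
  obtain ⟨A, hA⟩ : ∃ A : Subgroup (Un U), A = Pq p Q ⊔ Subgroup.zpowers b := ⟨_, rfl⟩
  have hPA : Pq p Q ≤ A := hA ▸ le_sup_left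
  have hbA : b ∈ A := hA ▸ (le_sup_right : _ ≤ Pq p Q ⊔ Subgroup.zpowers b)
    (Subgroup.mem_zpowers b)
  have hAQ : A ≤ Q := by
    rw [hA]
    exact sup_le hPQ ((Subgroup.zpowers_le).2 hb)
  have hstep1 : A ≤ Subgroup.centralizer (Pq p Q : Set (Un U)) := by
    rw [hA]
    refine sup_le ?_ ((Subgroup.zpowers_le).2 ?_)
    · intro a ha
      rw [Subgroup.mem_centralizer_iff]
      intro y hy
      exact g1 y hy a ha
    · rw [Subgroup.mem_centralizer_iff]
      intro y hy
      exact (hbP y hy).symm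
  have hstep2 : A ≤ Subgroup.centralizer {b} := by
    rw [hA]
    refine sup_le ?_ ((Subgroup.zpowers_le).2 ?_)
    · intro a ha
      rw [Subgroup.mem_centralizer_iff]
      intro y hy
      rw [Set.mem_singleton_iff.1 hy]
      exact hbP a ha
    · rw [Subgroup.mem_centralizer_iff]
      intro y hy
      rw [Set.mem_singleton_iff.1 hy]
  have hstep3 : A ≤ Subgroup.centralizer (A : Set (Un U)) := by
    have h1 : Pq p Q ⊔ Subgroup.zpowers b ≤ Subgroup.centralizer (A : Set (Un U)) := by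
      refine sup_le ?_ ((Subgroup.zpowers_le).2 ?_)
      · intro a ha
        rw [Subgroup.mem_centralizer_iff]
        intro y hy
        have h2 := hstep1 hy
        rw [Subgroup.mem_centralizer_iff] at h2
        exact (h2 a ha).symm
      · rw [Subgroup.mem_centralizer_iff]
        intro y hy
        have h2 := hstep2 hy
        rw [Subgroup.mem_centralizer_iff] at h2
        exact (h2 b (Set.mem_singleton b)).symm
    rwa [← hA] at h1
  have hcomm : ∀ a ∈ A, ∀ c ∈ A, a * c = c * a := by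
    intro a ha c hc
    have h2 := hstep3 hc
    rw [Subgroup.mem_centralizer_iff] at h2
    exact h2 a ha
  have hFx : FxU A = FxU (Pq p Q) := by
    apply le_antisymm (FxU_anti hPA)
    intro u hu
    have h1 : A ≤ Subgroup.closure ((Pq p Q : Set (Un U)) ∪ {b}) := by
      rw [hA]
      refine sup_le ?_ ((Subgroup.zpowers_le).2 ?_)
      · exact fun a ha => Subgroup.subset_closure (Or.inl ha)
      · exact Subgroup.subset_closure (Or.inr rfl)
    intro a ha
    refine X_CEN.fix_closure _ u ?_ a (h1 ha)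
    rintro s (hs | hs)
    · exact hu s hs
    · rw [Set.mem_singleton_iff.1 hs]
      exact hfix u hu
  have h1 := (hOFF U p Y Z E D t e f Q Zq h hq A hAQ hcomm).1
  rw [hFx] at h1
  have h2 : Nat.card (Pq p Q) * Nat.card (FxU (Pq p Q)) = Nat.card U := g2
  have hpos : 0 < Nat.card (FxU (Pq p Q)) := Nat.card_pos
  have h3 : Nat.card A ≤ Nat.card (Pq p Q) :=
    Nat.le_of_mul_le_mul_right (h1.trans h2.ge) hpos
  have hfE : Finite (AddMonoid.End U) :=
    Finite.of_injective (fun φ : AddMonoid.End U => (φ : U → U)) DFunLike.coe_injective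
  have hfU : Finite (Un U) := inferInstance
  have hfinA : Finite A := inferInstance
  have h4 : Pq p Q = A := Subgroup.eq_of_le_of_card_ge hPA h3
  rw [h4]
  exact hbA

end Pool.Agent.Work.MP_6d7bb4.helper94.Sol
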