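import Pool.Agent.Work.MP_6d7bb4_S.Interface2

set_option autoImplicit false
set_option linter.unusedSectionVars false

/-! # MP_6d7bb4: all soluble semiprimitive groups; block CLS (helper22) -/

namespace Pool.Agent.Work.MP_6d7bb4.helper94.Sol

open MulAction Tv Ff Ps

/-- CLS -/
theorem s_CLS (hTCE : Stmt_TCE) (hTCP : Stmt_TCP) (hMQU : Stmt_MQU) : Stmt_CLS := by
  intro U _ p _ _ Y Z E D t e f Q Zq hME hMQ
  have hEn : En p Z E := ⟨hME.p23, hME.ed.EY.trans hME.YZ, hME.ed.nE, hME.co⟩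
  obtain ⟨k1, k2, k3, k4, -, -, k7, -⟩ := hTCE U p Z E hEn
  have hQ := (hMQU U p Y Z E D t e f Q Zq hME hMQ).1
  have key : ∀ a ∈ Pq p Q, a ∈ Z ∧ ∀ s ∈ Z, IsT p s → ¬ Cn E s → Tc E (a * s * a⁻¹) s := by
    intro a ha
    unfold Pq at ha
    refine Subgroup.closure_induction (p := fun a _ => a ∈ Z ∧ ∀ s ∈ Z, IsT p s → ¬ Cn E s →
      Tc E (a * s * a⁻¹) s) ?_ ?_ ?_ ?_ ha
    · intro s1 hs1
      obtain ⟨hZ1, hC1, -⟩ := hQ s1 hs1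
      refine ⟨hZ1, fun s hs hT hC => ?_⟩
      obtain ⟨e1, f1, h1⟩ := hs1.2
      obtain ⟨e2, f2, h2⟩ := hT
      by_cases hc : Tc E s1 s
      · have h3 := k4 s1 hZ1 s hs s1 hZ1 (k2 s1 hZ1 s hs hc)
        have h4 : s1 * s1 * s1⁻¹ = s1 := by group
        rw [h4] at h3
        exact k3 _ (Z.mul_mem (Z.mul_mem hZ1 hs) (Z.inv_mem hZ1)) _ hZ1 _ hs h3 hc
      · have h3 := ((hTCP U p Z E hEn s1 s e1 e2 f1 f2 h1 h2 hZ1 hs hC1 hC).2.2.1 hc).2.2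
        have h4 : s1 * s * s1⁻¹ = s := by rw [h3]; group
        rw [h4]
        exact k1 s hs
    · refine ⟨Z.one_mem, fun s hs _ _ => ?_⟩
      have h4 : 1 * s * 1⁻¹ = s := by group
      rw [h4]
      exact k1 s hs
    · intro a b _ _ ha hb
      refine ⟨Z.mul_mem ha.1 hb.1, fun s hs hT hC => ?_⟩
      have h4 : a * b * s * (a * b)⁻¹ = a * (b * s * b⁻¹) * a⁻¹ := by group
      have hs' : b * s * b⁻¹ ∈ Z := Z.mul_mem (Z.mul_mem hb.1 hs) (Z.inv_mem hb.1)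
      have hT' : IsT p (b * s * b⁻¹) := by
        obtain ⟨e2, f2, h2⟩ := hT
        exact ⟨_, _, h2.conj b⟩
      rw [h4]
      exact k3 _ (Z.mul_mem (Z.mul_mem ha.1 hs') (Z.inv_mem ha.1)) _ hs' _ hs
        (ha.2 _ hs' hT' (k7 b hb.1 s hs hC)) (hb.2 s hs hT hC)
    · intro a _ ha
      refine ⟨Z.inv_mem ha.1, fun s hs hT hC => ?_⟩
      have hs' : a⁻¹ * s * a⁻¹⁻¹ ∈ Z := Z.mul_mem (Z.mul_mem (Z.inv_mem ha.1) hs)
        (Z.inv_mem (Z.inv_mem ha.1))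
      have hT' : IsT p (a⁻¹ * s * a⁻¹⁻¹) := by
        obtain ⟨e2, f2, h2⟩ := hT
        exact ⟨_, _, h2.conj a⁻¹⟩
      have h3 := ha.2 _ hs' hT' (k7 a⁻¹ (Z.inv_mem ha.1) s hs hC)
      have h4 : a * (a⁻¹ * s * a⁻¹⁻¹) * a⁻¹ = s := by group
      rw [h4] at h3
      exact k2 _ hs _ hs' h3
  intro a ha s hs hT hC
  exact (key a ha).2 s hs hT hC

end Pool.Agent.Work.MP_6d7bb4.helper94.Sol
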