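import Pool.Agent.Work.MP_6d7bb4_S.Interface3

set_option autoImplicit false
set_option linter.unusedSectionVars false

/-!
# MP_6d7bb4: all soluble semiprimitive groups; block CMV

The two groups of a block commute on `W`.
-/

namespace Pool.Agent.Work.MP_6d7bb4.helper94.Sol

open MulAction Tv Ff Ps
open scoped commutatorElement

namespace X_CMV

/-- one half: the commutators of `Pf C₁ y₁` with `W` are fixed by `Pf C₂ y₂` -/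
theorem half (hTCE : Stmt_TCE) (hTCP : Stmt_TCP) (hMQU : Stmt_MQU) (hQDC : Stmt_QDC)
    (hMIN : Stmt_MIN) (hVMQ : Stmt_VMQ) (hPY1 : Stmt_PY1) (hTG1 : Stmt_TG1)
    (V G : Type) [Group G] [MulAction G V] (Γ : SimpleGraph V) (d p : ℕ)
    [Fact p.Prime] (x : V) (W S R : Subgroup G) (Bm : V → Subgroup G) (U : Type)
    [AddCommGroup U] [Module (ZMod p) U] (ψ : stabilizer G x →* Un U) (E D : Subgroup (Un U))
    (t : Un U) (e : U) (f : U →+ ZMod p) (h : VB Γ d p x W S R Bm ψ E D t e f)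
    (C₁ C₂ : Set (Un U))
    (hC : ∀ s ∈ ψ.range, IsT p s → ¬ Cn E s → ∀ s' ∈ ψ.range, IsT p s' → ¬ Cn E s' →
      s ∈ C₁ → s' ∈ C₂ → ¬ Tc E s s') (y₁ y₂ : V) (hy₁ : Γ.Adj x y₁) (hy₂ : Γ.Adj x y₂)
    (ht₁ : Tg W S (Pf p Bm ψ C₁ y₁)) (ht₂ : Tg W S (Pf p Bm ψ C₂ y₂)) :
    ∀ a ∈ Pf p Bm ψ C₁ y₁, ∀ b ∈ Pf p Bm ψ C₂ y₂, ∀ v ∈ W,
      b * (a * v * a⁻¹ * v⁻¹) * b⁻¹ = a * v * a⁻¹ * v⁻¹ := by
  have hme := h.vs.ve.me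
  have hEn : En p ψ.range E := ⟨hme.p23, hme.ed.EY.trans hme.YZ, hme.ed.nE, hme.co⟩
  have hmq : ∀ y, Γ.Adj x y →
      MQ p (im ψ (Nh Γ p x)) ψ.range E t (im ψ (Qe p x y)) (im ψ (B x y)) := fun y hy =>
    (hVMQ V G Γ d p h.loc x R U ψ E D t e f h.vs.ve y hy).1
  have hq : ∀ y, Γ.Adj x y → ∀ s ∈ Tq p (im ψ (Qe p x y)), s ∈ ψ.range ∧ IsT p s ∧ ¬ Cn E s :=
    fun y hy s hs => by
      have h1 := (hMQU U p _ _ E D t e f _ _ hme (hmq y hy)).1 s hs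
      exact ⟨h1.1, hs.2, h1.2.1⟩
  have hle : ∀ (C : Set (Un U)) (y : V), Γ.Adj x y →
      S ≤ Pf p Bm ψ C y ∧ Pf p Bm ψ C y ≤ Bm y := fun C y hy =>
    (hPY1 V G Γ d p x W S R Bm U ψ E D t e f h y hy).1 _
  have hst : ∀ (C : Set (Un U)) (y : V), Γ.Adj x y → Pf p Bm ψ C y ≤ stabilizer G x :=
    fun C y hy => ((hle C y hy).2.trans (h.vs.BQ y hy)).trans (Qe_le_st x y)
  have htg : ∀ (C : Set (Un U)) (y : V), Γ.Adj x y → Tg W S (Pf p Bm ψ C y) →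
      Nat.card W * Nat.card (FxU (im ψ (Pf p Bm ψ C y))) ≤
        Nat.card U * Nat.card (Cw W (Pf p Bm ψ C y)) := fun C y hy ht =>
    ((hTG1 V G Γ d p x W S R Bm U ψ E D t e f h y hy _ (hle C y hy).1 (hle C y hy).2).2 ht).2.2
  have hmem : ∀ (C : Set (Un U)) (y : V), ∀ a : stabilizer G x, a.1 ∈ Pf p Bm ψ C y →
      ψ a ∈ Subgroup.closure (C ∩ Tq p (im ψ (Qe p x y))) := fun C y a ha =>
    ((mem_Py a.2).1 ha).2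
  obtain ⟨hm1, hm2, hm3⟩ := hMIN U p _ _ E D t e f hme
  have hsc : ∀ (C : Set (Un U)) (y : V), Γ.Adj x y → ∀ a : stabilizer G x,
      a.1 ∈ Pf p Bm ψ C y → ∀ u : U, (ψ a : AddMonoid.End U) u - u ∈ Sc ψ.range e :=
    fun C y hy a ha u => hm3 _ (fun s hs => hq y hy s hs.2) (ψ a) (hmem C y a ha) u
  refine h.md.tt (Pf p Bm ψ C₁ y₁) (Pf p Bm ψ C₂ y₂) (hst C₁ y₁ hy₁) (hst C₂ y₂ hy₂)
    (htg C₁ y₁ hy₁ ht₁) (htg C₂ y₂ hy₂ ht₂) (Sc ψ.range e) hm1 hm2 (hsc C₁ y₁ hy₁)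
    (hsc C₂ y₂ hy₂) ?_
  intro a b ha hb u
  refine hQDC U p (C₁ ∩ Tq p (im ψ (Qe p x y₁))) (C₂ ∩ Tq p (im ψ (Qe p x y₂)))
    (fun s hs => hs.2.2) (fun s hs => hs.2.2) ?_ (ψ a) (hmem C₁ y₁ a ha) (ψ b)
    (hmem C₂ y₂ b hb) u
  intro s hs s' hs' e1 e2 f1 f2 htv htv'
  obtain ⟨hz, hT, hn⟩ := hq y₁ hy₁ s hs.2
  obtain ⟨hz', hT', hn'⟩ := hq y₂ hy₂ s' hs'.2
  exact ((hTCP U p ψ.range E hEn s s' e1 e2 f1 f2 htv htv' hz hz' hn hn').2.2.1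
    (hC s hz hT hn s' hz' hT' hn' hs.1 hs'.1)).2.1

end X_CMV

theorem s_CMV (hTCE : Stmt_TCE) (hTCP : Stmt_TCP) (hMQU : Stmt_MQU) (hQDC : Stmt_QDC)
    (hMIN : Stmt_MIN) (hVMQ : Stmt_VMQ) (hPY1 : Stmt_PY1) (hTG1 : Stmt_TG1) : Stmt_CMV := by
  intro V G _ _ Γ d p _ x W S R Bm U _ _ ψ E D t e f h C hC hT y y' hy hy' a ha b hb v hv
  have hme := h.vs.ve.me
  have hEn : En p ψ.range E := ⟨hme.p23, hme.ed.EY.trans hme.YZ, hme.ed.nE, hme.co⟩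
  have h1 := X_CMV.half hTCE hTCP hMQU hQDC hMIN hVMQ hPY1 hTG1 V G Γ d p x W S R Bm U ψ E D t e
    f h C Cᶜ (fun s hs hs1 hs2 s' hs' hs1' hs2' hsC hsC' hTc =>
      hsC' (hC s hs hs1 hs2 s' hs' hs1' hs2' hTc hsC)) y y' hy hy' (hT y hy).1 (hT y' hy').2
    a ha b hb v hv
  have h2 := X_CMV.half hTCE hTCP hMQU hQDC hMIN hVMQ hPY1 hTG1 V G Γ d p x W S R Bm U ψ E D t e
    f h Cᶜ C (fun s hs hs1 hs2 s' hs' hs1' hs2' hsC hsC' hTc =>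
      hsC (hC s' hs' hs1' hs2' s hs hs1 hs2
        ((hTCE U p ψ.range E hEn).2.1 s hs s' hs' hTc) hsC')) y' y hy' hy (hT y' hy').2
    (hT y hy).1 b hb a ha v hv
  have hle : ∀ (C : Set (Un U)) (y : V), Γ.Adj x y →
      S ≤ Pf p Bm ψ C y ∧ Pf p Bm ψ C y ≤ Bm y := fun C y hy =>
    (hPY1 V G Γ d p x W S R Bm U ψ E D t e f h y hy).1 _
  have hst : ∀ (C : Set (Un U)) (y : V), Γ.Adj x y → Pf p Bm ψ C y ≤ stabilizer G x :=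
    fun C y hy => ((hle C y hy).2.trans (h.vs.BQ y hy)).trans (Qe_le_st x y)
  have hW : ∀ g ∈ stabilizer G x, g * v * g⁻¹ * v⁻¹ ∈ W := fun g hg =>
    W.mul_mem (h.vs.Wn g hg v hv) (W.inv_mem hv)
  have hcm := h.vs.Wel.cm _ (hW a (hst C y hy ha)) _ (hW b (hst Cᶜ y' hy' hb))
  calc a * (b * v * b⁻¹) * a⁻¹
      = (a * (b * v * b⁻¹ * v⁻¹) * a⁻¹) * (a * v * a⁻¹ * v⁻¹) * v := by group
    _ = (b * v * b⁻¹ * v⁻¹) * (a * v * a⁻¹ * v⁻¹) * v := by rw [h2]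
    _ = (a * v * a⁻¹ * v⁻¹) * (b * v * b⁻¹ * v⁻¹) * v := by rw [hcm]
    _ = (b * (a * v * a⁻¹ * v⁻¹) * b⁻¹) * (b * v * b⁻¹ * v⁻¹) * v := by rw [h1]
    _ = b * (a * v * a⁻¹) * b⁻¹ := by group

end Pool.Agent.Work.MP_6d7bb4.helper94.Sol
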