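import Pool.Agent.Work.MP_6d7bb4_S.Interface2

set_option autoImplicit false
set_option linter.unusedSectionVars false

/-! # MP_6d7bb4: block FMB, families of subgroups (copies of lemmas of `Zeta.lean`) -/

namespace Pool.Agent.Work.MP_6d7bb4.helper94.Sol

open MulAction Tv Ff Ps
open scoped commutatorElement

namespace FMB_X

variable {V G : Type*} [Group G] [MulAction G V] {Γ : SimpleGraph V} {d p : ℕ}

theorem VZ_cj (h : Loc G Γ d) {ζ : V → V → Subgroup G} (hz : Fm Γ p ζ) (g : G) (x : V) :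
    VZ Γ ζ (g • x) = cj g (VZ Γ ζ x) := by
  have key : ∀ (g : G) (x : V), VZ Γ ζ (g • x) ≤ cj g (VZ Γ ζ x) := by
    intro g x
    refine iSup_le (fun y => ?_)
    have h1 : Γ.Adj x (g⁻¹ • y.1) := by
      rw [← h.adj_iff g, smul_inv_smul]
      exact y.2
    have h2 : ζ (g • x) y.1 = cj g (ζ x (g⁻¹ • y.1)) := by
      rw [← hz.cj, smul_inv_smul]
    rw [h2]
    exact cj_mono g (z_le_VZ h1)
  refine le_antisymm (key g x) ?_
  have h1 := cj_mono g (key g⁻¹ (g • x))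
  rw [inv_smul_smul, cj_inv_cj] at h1
  exact h1

variable [Fact p.Prime]

theorem nm_VZ (h : Loc G Γ d) {ζ : V → V → Subgroup G} (hz : Fm Γ p ζ) (x : V) :
    Nm (stabilizer G x) (VZ Γ ζ x) :=
  nm_of_equiv (VZ_cj h hz) x

theorem nm_z {ζ : V → V → Subgroup G} (hz : Fm Γ p ζ) (x y : V) : Nm (B x y) (ζ x y) := by
  refine nm_of_cj (fun g hg => ?_)
  rw [← hz.cj, hg.1, hg.2]

/-- the centraliser of `VZ x` is not transitive -/
theorem centZ_not_tr (h : Loc G Γ d) {ζ : V → V → Subgroup G} (hz : Fm Γ p ζ) {x y : V}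
    (hxy : Γ.Adj x y) {C : Subgroup G} (hCs : C ≤ stabilizer G x)
    (hC : ∀ g ∈ C, ∀ v ∈ VZ Γ ζ x, g * v = v * g)
    (ht : ∀ y y', Γ.Adj x y → Γ.Adj x y' → ∃ n ∈ C, n • y = y') : False := by
  apply hz.ne x y hxy
  obtain ⟨σ, h1, h2⟩ := h.inv hxy
  refine P1 h hxy ((hz.le x y hxy).trans (Qe_le_st x y)) ?_ h1 h2 ?_
  · refine nm_st hCs ht h hxy ?_ (nm_z hz x y)
    exact nm_of_comm (fun n hn m hm => hC n hn m (z_le_VZ hxy hm))
  · intro n hn
    have h3 := conj_mem_cj (g := σ) hn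
    rw [← hz.cj, h1, h2, hz.cm] at h3
    exact h3

/-- elements of an arc stabiliser which centralise `VZ x` are in the kernel -/
theorem centZ_K (h : Loc G Γ d) {ζ : V → V → Subgroup G} (hz : Fm Γ p ζ)
    {x y : V} (hxy : Γ.Adj x y) {g : G} (hg : g ∈ B x y)
    (hc : ∀ v ∈ VZ Γ ζ x, g * v = v * g) : g ∈ K Γ x := by
  obtain ⟨C, hC⟩ : ∃ C : Subgroup G, ∀ g, g ∈ C ↔ g ∈ stabilizer G x ∧
      ∀ k ∈ VZ Γ ζ x, g * k = k * g :=
    ⟨stabilizer G x ⊓ Subgroup.centralizer (VZ Γ ζ x : Subgroup G), fun g => by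
      rw [Subgroup.mem_inf, Subgroup.mem_centralizer_iff]
      exact and_congr_right (fun _ => forall₂_congr (fun k _ => eq_comm))⟩
  have hCs : C ≤ stabilizer G x := fun g hg => ((hC g).mp hg).1
  have hCn : Nm (stabilizer G x) C := by
    intro a ha c hc
    rw [hC] at hc ⊢
    refine ⟨(stabilizer G x).mul_mem ((stabilizer G x).mul_mem ha hc.1)
      ((stabilizer G x).inv_mem ha), fun k hk => ?_⟩
    have h1 := nm_VZ h hz x a⁻¹ ((stabilizer G x).inv_mem ha) k hk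
    rw [inv_inv] at h1
    have h2 := hc.2 _ h1
    calc a * c * a⁻¹ * k = a * (c * (a⁻¹ * k * a)) * a⁻¹ := by group
      _ = a * (a⁻¹ * k * a * c) * a⁻¹ := by rw [h2]
      _ = k * (a * c * a⁻¹) := by group
  rcases h.sp x C hCs hCn with ht | h1
  · exfalso
    exact centZ_not_tr h hz hxy hCs (fun g hg => ((hC g).mp hg).2) ht
  · exact h1 g ((hC g).mpr ⟨hg.1, hc⟩) y hxy hg.2

/-- a normal subgroup of a vertex stabiliser which acts on `VZ x` as a `p`-group acts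
semiregularly at the neighbours -/
theorem nc_lem (h : Loc G Γ d) {ζ : V → V → Subgroup G} (hz : Fm Γ p ζ)
    {x y : V} (hxy : Γ.Adj x y) {R : Subgroup G} (hR : R ≤ stabilizer G x)
    (hRn : Nm (stabilizer G x) R) (hRp : PAct p R (VZ Γ ζ x)) {a : G} (ha : a ∈ R)
    (haB : a ∈ B x y) : a ∈ K Γ x := by
  by_contra haK
  have hfs := h.fin x
  have hfin : {J : Subgroup G | J ≤ R ∧ Nm (stabilizer G x) J ∧ ¬ J ⊓ B x y ≤ K Γ x}.Finite :=
    (finite_Iic (stabilizer G x)).subset (fun J hJ => hJ.1.trans hR)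
  obtain ⟨J, hJ⟩ := hfin.exists_minimal ⟨R, le_refl R, hRn, fun hcon => haK (hcon ⟨ha, haB⟩)⟩
  obtain ⟨⟨hJR, hJn, hJK⟩, hJm⟩ := hJ
  have hJs := hJR.trans hR
  have hJf := h.fin_le hJs
  have ht : ∀ y y', Γ.Adj x y → Γ.Adj x y' → ∃ n ∈ J, n • y = y' := by
    rcases h.sp x J hJs hJn with h1 | h1
    · exact h1
    · exfalso
      exact hJK (fun g hg => h1 g hg.1 y hxy hg.2.2)
  obtain ⟨P, hP⟩ : ∃ P, P = J ⊓ B x y := ⟨_, rfl⟩
  have hPJ : P ≤ J := by
    rw [hP]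
    exact inf_le_left
  have hPB : Nm (B x y) P := by
    rw [hP]
    exact (hJn.mono (B_le x y)).inf (nm_self _)
  -- proper normal subgroups of `J` do not contain `P`
  have hno : ∀ M : Subgroup G, M ≤ J → M ≠ J → Nm J M → P ≤ M → False := by
    intro M hMJ hMne hMn hPM
    obtain ⟨J1, hJ1⟩ : ∃ J1 : Subgroup G, J1 = ⨆ j : J, cj j.1 P := ⟨_, rfl⟩
    have hJ1M : J1 ≤ M := by
      rw [hJ1]
      refine iSup_le (fun j => ?_)
      intro g hg
      rw [mem_cj] at hg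
      have h1 := hMn j.1 j.2 _ (hPM hg)
      have e : j.1 * (j.1⁻¹ * g * j.1) * j.1⁻¹ = g := by group
      rwa [e] at h1
    have hPJ1 : P ≤ J1 := by
      rw [hJ1]
      have h1 := le_iSup (fun j : J => cj j.1 P) 1
      have h2 : cj (1 : J).1 P = P := by
        ext z
        rw [mem_cj]
        show (1 : G)⁻¹ * z * 1 ∈ P ↔ z ∈ P
        rw [inv_one, one_mul, mul_one]
      rw [h2] at h1
      exact h1
    have hJ1J : Nm J J1 := by
      rw [hJ1]
      refine Nm.iSup ?_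
      intro b hb j n hn
      have h1 : b * n * b⁻¹ ∈ cj (⟨b, hb⟩ * j : J).1 P := by
        show b * n * b⁻¹ ∈ cj (b * j.1) P
        rw [cj_mul]
        exact conj_mem_cj hn
      have h3 := le_iSup (fun j : J => cj j.1 P) (⟨b, hb⟩ * j)
      exact h3 h1
    have hJ1B : Nm (B x y) J1 := by
      rw [hJ1]
      refine Nm.iSup ?_
      intro b hb j n hn
      have hj : b * j.1 * b⁻¹ ∈ J := hJn b (B_le x y hb) j.1 j.2
      have h1 : b * n * b⁻¹ ∈ cj (b * j.1 * b⁻¹) P := by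
        rw [mem_cj] at hn ⊢
        have h2 := hPB b hb _ hn
        have e : b * (j.1⁻¹ * n * j.1) * b⁻¹ =
            (b * j.1 * b⁻¹)⁻¹ * (b * n * b⁻¹) * (b * j.1 * b⁻¹) := by group
        rwa [e] at h2
      have h3 := le_iSup (fun j : J => cj j.1 P) ⟨b * j.1 * b⁻¹, hj⟩
      exact h3 h1
    have hJ1s : Nm (stabilizer G x) J1 := nm_st hJs ht h hxy hJ1J hJ1B
    have h1 : J ≤ J1 := by
      refine hJm ⟨(hJ1M.trans hMJ).trans hJR, hJ1s, ?_⟩ (hJ1M.trans hMJ)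
      intro hcon
      apply hJK
      rw [← hP]
      exact (le_inf hPJ1 (by rw [hP]; exact inf_le_right)).trans hcon
    exact hMne (le_antisymm hMJ (h1.trans hJ1M))
  -- the centraliser
  obtain ⟨D, hD⟩ : ∃ D : Subgroup G, ∀ g, g ∈ D ↔ g ∈ J ∧
      ∀ k ∈ VZ Γ ζ x, g * k = k * g :=
    ⟨J ⊓ Subgroup.centralizer (VZ Γ ζ x : Subgroup G), fun g => by
      rw [Subgroup.mem_inf, Subgroup.mem_centralizer_iff]
      exact and_congr_right (fun _ => forall₂_congr (fun k _ => eq_comm))⟩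
  have hDJ : D ≤ J := fun g hg => ((hD g).mp hg).1
  have hDn : Nm J D := by
    intro a ha c hc
    rw [hD] at hc ⊢
    refine ⟨J.mul_mem (J.mul_mem ha hc.1) (J.inv_mem ha), fun k hk => ?_⟩
    have h1 := nm_VZ h hz x a⁻¹ ((stabilizer G x).inv_mem (hJs ha)) k hk
    rw [inv_inv] at h1
    have h2 := hc.2 _ h1
    calc a * c * a⁻¹ * k = a * (c * (a⁻¹ * k * a)) * a⁻¹ := by group
      _ = a * (a⁻¹ * k * a * c) * a⁻¹ := by rw [h2]
      _ = k * (a * c * a⁻¹) := by group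
  have hfac : ∀ j ∈ J, ∃ a ∈ P, ∃ b ∈ D, j = a * b := by
    by_contra hcon
    push Not at hcon
    obtain ⟨M, hM1, hM2, hM3, hM4⟩ := pq (Fact.out : p.Prime) hJf hDJ hDn hPJ (by
      intro j hj
      obtain ⟨k, hk⟩ := hRp j (hJR hj)
      exact ⟨k, (hD _).mpr ⟨J.pow_mem hj _, hk⟩⟩) hcon
    exact hno M hM1 hM2 hM3 hM4
  refine centZ_not_tr h hz hxy (hDJ.trans hJs) (fun g hg => ((hD g).mp hg).2) ?_
  have hfix : ∀ y', Γ.Adj x y' → ∃ n ∈ D, n • y = y' := by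
    intro y' hy'
    obtain ⟨n, hn, hn'⟩ := ht y y' hxy hy'
    obtain ⟨a, ha, b, hb, hab⟩ := hfac n⁻¹ (J.inv_mem hn)
    refine ⟨b⁻¹, D.inv_mem hb, ?_⟩
    have h1 : b⁻¹ = n * a := by
      have : n = (a * b)⁻¹ := by
        rw [← hab, inv_inv]
      rw [this]
      group
    rw [hP] at ha
    rw [h1, mul_smul, (ha.2).2, hn']
  intro y1 y2 hy1 hy2
  obtain ⟨n1, hn1, hn1'⟩ := hfix y1 hy1
  obtain ⟨n2, hn2, hn2'⟩ := hfix y2 hy2
  refine ⟨n2 * n1⁻¹, D.mul_mem hn2 (D.inv_mem hn1), ?_⟩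
  rw [mul_smul, ← hn1', inv_smul_smul, hn2']

end FMB_X

theorem s_FMB : Stmt_FMB := by
  intro V G _ _ Γ d p _ ζ h hz
  refine ⟨FMB_X.VZ_cj h hz, ?_, ?_, ?_, ?_⟩
  · intro x
    have h1 : VZ Γ ζ x ≤ stabilizer G x :=
      iSup_le (fun y => (hz.le x y.1 y.2).trans (Qe_le_st x y.1))
    exact ⟨h1, FMB_X.nm_VZ h hz x, h.fin_le h1⟩
  · intro x y hxy C hC hc ht
    exact FMB_X.centZ_not_tr h hz hxy hC hc ht
  · rintro x y hxy R hR hRn hRp a ⟨ha, haB⟩
    exact FMB_X.nc_lem h hz hxy hR hRn hRp ha haB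
  · intro x y hxy b hb hc
    exact FMB_X.centZ_K h hz hxy hb hc

end Pool.Agent.Work.MP_6d7bb4.helper94.Sol
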