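import Pool.Agent.Work.MP_6d7bb4_S.Interface3

set_option autoImplicit false

namespace Pool.Agent.Work.MP_6d7bb4.helper94.Sol

open MulAction Tv Ff Ps
open scoped commutatorElement

theorem s_GNV (hLAT : Stmt_LAT) (hPY1 : Stmt_PY1) (hPY2 : Stmt_PY2) : Stmt_GNV := by
  intro V G _ _ Γ d p _ x W S R Bm U _ _ ψ E D t e f h C hC y hxy hP hP'
  obtain ⟨a1, a2, a3, a4, a5, a6, a7⟩ := hPY1 V G Γ d p x W S R Bm U ψ E D t e f h y hxy
  obtain ⟨b1, b2, b3, b4, b5, b6, b7, b8, b9⟩ := hPY2 V G Γ d p x W S R Bm U ψ E D t e f h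
  have hC' := b8 C hC
  have hs : Pf p Bm ψ C y ⊔ Pf p Bm ψ Cᶜ y = Bm y := by
    have h6 := a6 (C ∩ Tq p (im ψ (Qe p x y))) (Cᶜ ∩ Tq p (im ψ (Qe p x y)))
      Set.inter_subset_right Set.inter_subset_right
    rw [← Set.union_inter_distrib_right, Set.union_compl_self, Set.univ_inter, a5] at h6
    exact h6.symm
  have hi : Pf p Bm ψ C y ⊓ Pf p Bm ψ Cᶜ y = S := by
    have h7 := a7 (C ∩ Tq p (im ψ (Qe p x y))) (Cᶜ ∩ Tq p (im ψ (Qe p x y)))
      Set.inter_subset_right Set.inter_subset_right (b9 C hC y hxy) (b9 Cᶜ hC' y hxy)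
    have h8 : C ∩ Tq p (im ψ (Qe p x y)) ∩ (Cᶜ ∩ Tq p (im ψ (Qe p x y))) = ∅ := by
      ext s
      simp only [Set.mem_inter_iff, Set.mem_compl_iff, Set.mem_empty_iff_false, iff_false]
      tauto
    rw [h8, a4] at h7
    exact h7.symm
  refine ⟨hs.ge, ?_⟩
  have hWf : Finite W := h.vs.Wf
  have hBf : Finite (Bm y) := h.loc.fin_le ((h.vs.BQ y hxy).trans (Qe_le_st x y))
  have hSf : Finite S := Finite.Set.subset (Bm y : Set G) (h.vs.SB y hxy)
  have hle : Cw W (Pf p Bm ψ C y) ⊔ Cw W (Pf p Bm ψ Cᶜ y) ≤ W :=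
    sup_le inf_le_left inf_le_left
  have hcf : Finite (Cw W (Pf p Bm ψ C y) ⊔ Cw W (Pf p Bm ψ Cᶜ y) : Subgroup G) :=
    Finite.Set.subset (W : Set G) hle
  have hci : Cw W (Pf p Bm ψ C y) ⊓ Cw W (Pf p Bm ψ Cᶜ y) = Cw W (Bm y) := by
    apply le_antisymm
    · intro v hv
      have h1 := mem_Cw.1 hv.1
      have h2 := mem_Cw.1 hv.2
      refine mem_Cw.2 ⟨h1.1, ?_⟩
      have h3 : Bm y ≤ Subgroup.centralizer {v} := by
        rw [← hs]
        refine sup_le (fun a ha => ?_) (fun a ha => ?_)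
        · exact Subgroup.mem_centralizer_singleton_iff.2 (h1.2 a ha)
        · exact Subgroup.mem_centralizer_singleton_iff.2 (h2.2 a ha)
      intro a ha
      exact Subgroup.mem_centralizer_singleton_iff.1 (h3 ha)
    · intro v hv
      have h1 := mem_Cw.1 hv
      exact ⟨mem_Cw.2 ⟨h1.1, fun a ha => h1.2 a (hs ▸ (le_sup_left : Pf p Bm ψ C y ≤ _) ha)⟩,
        mem_Cw.2 ⟨h1.1, fun a ha => h1.2 a (hs ▸ (le_sup_right : Pf p Bm ψ Cᶜ y ≤ _) ha)⟩⟩
  have hf1 : Finite (Pf p Bm ψ C y ⊔ Pf p Bm ψ Cᶜ y : Subgroup G) := by rw [hs]; exact hBf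
  have k1 := hLAT G |>.1 (Pf p Bm ψ C y) (Pf p Bm ψ Cᶜ y) hf1
  have k2 := hLAT G |>.1 (Cw W (Pf p Bm ψ C y)) (Cw W (Pf p Bm ψ Cᶜ y)) hcf
  rw [hs, hi] at k1
  rw [hci] at k2
  have k3 := h.vs.tg y hxy
  unfold Tg at hP hP'
  have hWp : 0 < Nat.card W := Nat.card_pos
  have hSp : 0 < Nat.card S := Nat.card_pos
  have k4 : Nat.card W ≤ Nat.card (Cw W (Pf p Bm ψ C y) ⊔ Cw W (Pf p Bm ψ Cᶜ y) : Subgroup G) := by
    set P := Nat.card (Pf p Bm ψ C y)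
    set P' := Nat.card (Pf p Bm ψ Cᶜ y)
    set c := Nat.card (Cw W (Pf p Bm ψ C y))
    set c' := Nat.card (Cw W (Pf p Bm ψ Cᶜ y))
    set J := Nat.card (Cw W (Pf p Bm ψ C y) ⊔ Cw W (Pf p Bm ψ Cᶜ y) : Subgroup G)
    have e1 : (Nat.card W * Nat.card S) * (Nat.card W * Nat.card S) ≤
        (Nat.card W * Nat.card S) * (J * Nat.card S) := by
      calc (Nat.card W * Nat.card S) * (Nat.card W * Nat.card S) = (P * c) * (P' * c') := by
            rw [hP, hP']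
        _ = (P * P') * (c * c') := by ring
        _ ≤ (Nat.card (Bm y) * Nat.card S) * (J * Nat.card (Cw W (Bm y))) :=
            Nat.mul_le_mul k1 k2
        _ = (Nat.card (Bm y) * Nat.card (Cw W (Bm y))) * (J * Nat.card S) := by ring
        _ = _ := by rw [k3]
    have e2 := Nat.le_of_mul_le_mul_left e1 (Nat.mul_pos hWp hSp)
    exact Nat.le_of_mul_le_mul_right e2 hSp
  exact (Subgroup.eq_of_le_of_card_ge hle k4).ge

end Pool.Agent.Work.MP_6d7bb4.helper94.Sol
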