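import Pool.Agent.Work.MP_6d7bb4_S.Interface2

set_option autoImplicit false
set_option linter.unusedSectionVars false

/-! # MP_6d7bb4, block GTR (helper58) -/

namespace Pool.Agent.Work.MP_6d7bb4.helper94.Sol

open MulAction Tv Ff Ps
open scoped commutatorElement

namespace X_GTR

theorem cm_closure {G : Type} [Group G] {T : Set G} (h : ∀ a ∈ T, ∀ b ∈ T, a * b = b * a) :
    ∀ a ∈ Subgroup.closure T, ∀ b ∈ Subgroup.closure T, a * b = b * a := by
  have h1 : Subgroup.closure T ≤ Subgroup.centralizer T := by
    rw [Subgroup.closure_le]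
    intro a ha
    show a ∈ Subgroup.centralizer T
    rw [Subgroup.mem_centralizer_iff]
    intro b hb
    exact h b hb a ha
  have h2 : Subgroup.closure T ≤ Subgroup.centralizer (Subgroup.closure T : Set G) := by
    rw [Subgroup.closure_le]
    intro b hb
    show b ∈ Subgroup.centralizer (Subgroup.closure T : Set G)
    rw [Subgroup.mem_centralizer_iff]
    intro a ha
    exact ((Subgroup.mem_centralizer_iff.mp (h1 ha)) b hb).symm
  intro a ha b hb
  exact (Subgroup.mem_centralizer_iff.mp (h2 hb)) a ha

/-- the index of a proper subgroup of a finite `p`-group is at least `p` -/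
theorem card_lt {G : Type} [Group G] {p : ℕ} [Fact p.Prime] {A B : Subgroup G} [Finite B]
    (hB : IsPGroup p B) (hAB : A ≤ B) {s : G} (hs : s ∈ B) (hsA : s ∉ A) :
    p * Nat.card A ≤ Nat.card B := by
  have hp : p.Prime := Fact.out
  obtain ⟨n, hn⟩ := hB.index (A.subgroupOf B)
  have h1 : n ≠ 0 := by
    rintro rfl
    rw [pow_zero, Subgroup.index_eq_one, Subgroup.subgroupOf_eq_top] at hn
    exact hsA (hn hs)
  have h2 : Nat.card (A.subgroupOf B) * (A.subgroupOf B).index = Nat.card B :=
    Subgroup.card_mul_index _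
  have h3 : Nat.card (A.subgroupOf B) = Nat.card A :=
    Nat.card_congr (Subgroup.subgroupOfEquivOfLe hAB).toEquiv
  rw [h3, hn] at h2
  rw [← h2, mul_comm]
  refine Nat.mul_le_mul_left _ ?_
  calc p = p ^ 1 := (pow_one p).symm
    _ ≤ p ^ n := Nat.pow_le_pow_right hp.pos (by omega)

variable {U : Type} [AddCommGroup U]

theorem fix_closure {T : Set (Un U)} {u : U} (h : ∀ a ∈ T, (a : AddMonoid.End U) u = u) :
    u ∈ FxU (Subgroup.closure T) := by
  intro a ha
  induction ha using Subgroup.closure_induction with
  | mem x hx => exact h x hx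
  | one => rfl
  | mul x y _ _ hx hy => rw [mul_ap, hy, hx]
  | inv x _ hx =>
    have h1 := inv_ap x u
    rw [hx] at h1
    exact h1

theorem card_fix {p : ℕ} [Fact p.Prime] [Module (ZMod p) U] [Finite U] {T : Set (Un U)}
    {s : Un U} {e : U} {f : U →+ ZMod p} (hs : TV s e f) :
    Nat.card (FxU (Subgroup.closure T)) ≤ Nat.card (FxU (Subgroup.closure (insert s T))) * p := by
  have h1 := card_le_ker (f.comp (FxU (Subgroup.closure T)).subtype)
  rw [Nat.card_zmod] at h1
  refine h1.trans (Nat.mul_le_mul_right _ ?_)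
  refine Nat.card_le_card_of_injective
    (fun u : (f.comp (FxU (Subgroup.closure T)).subtype).ker =>
      (⟨u.1.1, ?_⟩ : FxU (Subgroup.closure (insert s T)))) ?_
  · refine fix_closure (fun a ha => ?_)
    rcases ha with rfl | ha
    · have h2 : f u.1.1 = 0 := u.2
      rw [hs.ap, h2, zero_smul, add_zero]
    · exact u.1.2 a (Subgroup.subset_closure ha)
  · intro u v huv
    have h2 : u.1.1 = v.1.1 :=
      congrArg (fun w : FxU (Subgroup.closure (insert s T)) => (w : U)) huv
    exact Subtype.ext (Subtype.ext h2)

theorem fin_Un (hU : Finite U) : Finite (Un U) := by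
  refine Finite.of_injective (fun (x : Un U) => (fun u : U => (x : AddMonoid.End U) u)) ?_
  intro x y hxy
  refine Units.ext (AddMonoidHom.ext (fun u => ?_))
  exact congrFun hxy u

end X_GTR

open X_GTR in
theorem s_GTR (hMQU : Stmt_MQU) (hOFF : Stmt_OFF) : Stmt_GTR := by
  intro U _ p _ _ Y Z E D t e f Q Zq hME hMQ
  have hfin : Finite U := hME.fin
  have hfU : Finite (Un U) := fin_Un hfin
  obtain ⟨-, -, -, -, -, -, m7, -⟩ := hMQU U p Y Z E D t e f Q Zq hME hMQ
  have hcm : ∀ T : Set (Un U), T ⊆ Tq p Q → ∀ a ∈ Subgroup.closure T,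
      ∀ b ∈ Subgroup.closure T, a * b = b * a := by
    intro T hT
    refine cm_closure (fun a ha b hb => ?_)
    obtain ⟨haQ, e1, f1, hv1⟩ := hT ha
    obtain ⟨hbQ, e2, f2, hv2⟩ := hT hb
    exact (m7 a haQ b hbQ e1 e2 f1 f2 hv1 hv2).2
  have hle : ∀ T : Set (Un U), T ⊆ Tq p Q → Subgroup.closure T ≤ Q := by
    intro T hT
    rw [Subgroup.closure_le]
    exact fun a ha => (hT ha).1
  have hge : ∀ T : Set (Un U), T ⊆ Tq p Q →
      Nat.card U ≤ Nat.card (Subgroup.closure T) * Nat.card (FxU (Subgroup.closure T)) := by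
    intro T hT
    have hTf : T.Finite := Set.toFinite T
    induction T, hTf using Set.Finite.induction_on with
    | empty =>
      rw [Subgroup.closure_empty, Subgroup.card_bot, one_mul]
      refine Nat.card_le_card_of_injective
        (fun u : U => (⟨u, ?_⟩ : FxU (⊥ : Subgroup (Un U)))) ?_
      · intro a ha
        rw [Subgroup.mem_bot] at ha
        rw [ha]
        rfl
      · intro u v huv
        exact congrArg Subtype.val huv
    | @insert s T _ _ ih =>
      have hTT : T ⊆ Tq p Q := (Set.subset_insert s T).trans hT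
      have ih1 := ih hTT
      by_cases hs : s ∈ Subgroup.closure T
      · have h1 : Subgroup.closure (insert s T) = Subgroup.closure T := by
          refine le_antisymm ?_ (Subgroup.closure_mono (Set.subset_insert s T))
          rw [Subgroup.closure_le]
          rintro a (rfl | ha)
          · exact hs
          · exact Subgroup.subset_closure ha
        rw [h1]
        exact ih1
      · obtain ⟨_, e1, f1, hv1⟩ := hT (Set.mem_insert s T)
        have hp1 : IsPGroup p (Subgroup.closure (insert s T)) := hMQ.Qp.to_le (hle _ hT)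
        have h1 := card_lt hp1 (Subgroup.closure_mono (Set.subset_insert s T))
          (Subgroup.subset_closure (Set.mem_insert s T)) hs
        have h2 := card_fix (T := T) hv1
        calc Nat.card U ≤ Nat.card (Subgroup.closure T) * Nat.card (FxU (Subgroup.closure T)) := ih1
          _ ≤ Nat.card (Subgroup.closure T) *
              (Nat.card (FxU (Subgroup.closure (insert s T))) * p) := Nat.mul_le_mul_left _ h2
          _ = p * Nat.card (Subgroup.closure T) *
              Nat.card (FxU (Subgroup.closure (insert s T))) := by ring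
          _ ≤ _ := Nat.mul_le_mul_right _ h1
  intro T hT
  refine ⟨hcm T hT, le_antisymm ?_ (hge T hT)⟩
  exact (hOFF U p Y Z E D t e f Q Zq hME hMQ (Subgroup.closure T) (hle T hT) (hcm T hT)).1

end Pool.Agent.Work.MP_6d7bb4.helper94.Sol
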