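import Pool.Agent.Work.MP_6d7bb4_S.Interface2

set_option autoImplicit false
set_option linter.unusedSectionVars false

/-! # MP_6d7bb4, soluble groups: block INT -/

namespace Pool.Agent.Work.MP_6d7bb4.helper94.Sol

open MulAction Tv Ff Ps
open scoped commutatorElement

theorem s_INT (hTCE : Stmt_TCE) (hTCP : Stmt_TCP) (hMEL : Stmt_MEL) (hMQU : Stmt_MQU) :
    Stmt_INT := by
  intro U _ p _ _ Y Z E D t e f Q Zq me mq T T' hT hT' hTi hTi' hTT
  obtain ⟨m1, m2, m3, -, -, -, -, -⟩ := hMQU U p Y Z E D t e f Q Zq me mq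
  obtain ⟨en, ht, hE, -⟩ := hMEL U p Y Z E D t e f me
  obtain ⟨-, c2, c3, -, c5, -, c7, -⟩ := hTCE U p Z E en
  have htZ : t ∈ Z := me.YZ me.tY
  rw [eq_bot_iff]
  intro a ha
  -- the main step
  have sub : ∀ T0 : Set (Un U), T0 ⊆ Tq p Q → (∀ s ∈ T0, s⁻¹ ∈ T0) → a ∈ Subgroup.closure T0 →
      ∀ g ∈ Z, ∀ s ∈ Tq p Q, Tc E s (g * t * g⁻¹) → s ∉ T0 →
        (g * t * g⁻¹) * a = a * (g * t * g⁻¹) := by
    intro T0 h0 h0i ha0 g hg s hs hsc hsT
    have hcZ : g * t * g⁻¹ ∈ Z := Z.mul_mem (Z.mul_mem hg htZ) (Z.inv_mem hg)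
    have hct : IsT p (g * t * g⁻¹) := ⟨_, _, me.tv.conj g⟩
    have hcE : ¬ Cn E (g * t * g⁻¹) := c7 g hg t htZ ht
    have hle : Subgroup.closure T0 ≤ Subgroup.centralizer {g * t * g⁻¹} := by
      rw [Subgroup.closure_le]
      intro s1 hs1
      rw [SetLike.mem_coe, Subgroup.mem_centralizer_iff]
      intro c hc
      rw [Set.mem_singleton_iff] at hc
      rw [hc]
      have hs1q := h0 hs1
      have hn : ¬ Tc E s1 s := by
        intro h1
        rcases m2 s1 hs1q s hs h1 with h2 | h2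
        · exact hsT (by rw [h2]; exact hs1)
        · exact hsT (by rw [h2]; exact h0i s1 hs1)
      have hn' : ¬ Tc E s1 (g * t * g⁻¹) := by
        intro h1
        exact hn (c3 s1 (m1 s1 hs1q).1 _ hcZ s (m1 s hs).1 h1
          (c2 s (m1 s hs).1 _ hcZ hsc))
      obtain ⟨e1, f1, h1⟩ := hs1q.2
      obtain ⟨e2, f2, h2⟩ := hct
      have h3 := (hTCP U p Z E en s1 (g * t * g⁻¹) e1 e2 f1 f2 h1 h2 (m1 s1 hs1q).1 hcZ
        (m1 s1 hs1q).2.1 hcE).2.2.1 hn'
      exact h3.2.2.symm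
    have h1 := hle ha0
    rw [Subgroup.mem_centralizer_iff] at h1
    exact h1 _ rfl
  have hcomm : ∀ g ∈ Z, (g * t * g⁻¹) * a = a * (g * t * g⁻¹) := by
    intro g hg
    obtain ⟨s, hs, hsc⟩ := m3 g hg
    by_cases h1 : s ∈ T
    · exact sub T' hT' hTi' ha.2 g hg s hs hsc (hTT s h1)
    · exact sub T hT hTi ha.1 g hg s hs hsc h1
  have hcn : Cn E a := by
    intro x hx
    have hle : Subgroup.closure {s | ∃ g ∈ Z, s = g * t * g⁻¹} ≤ Subgroup.centralizer {a} := by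
      rw [Subgroup.closure_le]
      rintro s ⟨g, hg, rfl⟩
      rw [SetLike.mem_coe, Subgroup.mem_centralizer_iff]
      intro c hc
      rw [Set.mem_singleton_iff] at hc
      rw [hc]
      exact (hcomm g hg).symm
    have h1 := hle (hE hx)
    rw [Subgroup.mem_centralizer_iff] at h1
    exact h1 a rfl
  have haQ : a ∈ Q := by
    have hle : Subgroup.closure T ≤ Q := by
      rw [Subgroup.closure_le]
      exact fun s hs => (hT hs).1
    exact hle ha.1
  rw [Subgroup.mem_bot]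
  exact mq.fa a haQ hcn

end Pool.Agent.Work.MP_6d7bb4.helper94.Sol
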