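import Pool.Agent.Work.MP_6d7bb4_S.Interface3

set_option autoImplicit false
set_option linter.unusedSectionVars false

/-!
# MP_6d7bb4, block LAT: tight subgroups form a lattice
-/

namespace Pool.Agent.Work.MP_6d7bb4.helper94.Sol

open MulAction Tv Ff Ps
open scoped commutatorElement

namespace X_LAT

variable {G : Type} [Group G]

theorem card_mul {K L : Subgroup G} (h : K ≤ L) : Nat.card K * K.relIndex L = Nat.card L := by
  have h1 := Subgroup.relIndex_mul_relIndex (⊥ : Subgroup G) K L bot_le h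
  rwa [Subgroup.relIndex_bot_left, Subgroup.relIndex_bot_left] at h1

theorem prod_le (A B : Subgroup G) (hf : Finite (A ⊔ B : Subgroup G)) :
    Nat.card A * Nat.card B ≤ Nat.card (A ⊔ B : Subgroup G) * Nat.card (A ⊓ B : Subgroup G) := by
  have h1 := card_mul (inf_le_right : A ⊓ B ≤ B)
  rw [Subgroup.inf_relIndex_right] at h1
  have h2 := card_mul (le_sup_left : A ≤ A ⊔ B)
  have h3 : A.relIndex (A ⊔ B) ≠ 0 := by
    intro h0
    rw [h0, mul_zero] at h2
    have h4 : 0 < Nat.card (A ⊔ B : Subgroup G) := Nat.card_pos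
    omega
  have h4 : A.relIndex B ≤ A.relIndex (A ⊔ B) :=
    Subgroup.relIndex_le_of_le_right le_sup_right h3
  calc Nat.card A * Nat.card B
      = Nat.card A * Nat.card (A ⊓ B : Subgroup G) * A.relIndex B := by rw [← h1, mul_assoc]
    _ ≤ Nat.card A * Nat.card (A ⊓ B : Subgroup G) * A.relIndex (A ⊔ B) :=
        Nat.mul_le_mul_left _ h4
    _ = Nat.card (A ⊔ B : Subgroup G) * Nat.card (A ⊓ B : Subgroup G) := by
        rw [← h2]
        ring

theorem fin_sub {A B : Subgroup G} (h : A ≤ B) (hf : Finite B) : Finite A :=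
  Finite.of_injective (Subgroup.inclusion h) (Subgroup.inclusion_injective h)

theorem card_mono {A B : Subgroup G} (h : A ≤ B) (hf : Finite B) : Nat.card A ≤ Nat.card B :=
  Nat.card_le_card_of_injective (Subgroup.inclusion h) (Subgroup.inclusion_injective h)

theorem Cw_inf (W A B : Subgroup G) : Cw W A ⊓ Cw W B = Cw W (A ⊔ B) := by
  ext v
  rw [Subgroup.mem_inf, mem_Cw, mem_Cw]
  constructor
  · rintro ⟨⟨h1, h2⟩, -, h3⟩
    unfold Cw
    rw [Subgroup.mem_inf]
    refine ⟨h1, ?_⟩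
    have h4 : A ⊔ B ≤ Subgroup.centralizer {v} := by
      apply sup_le
      · intro a ha
        rw [Subgroup.mem_centralizer_iff]
        intro w hw
        rw [Set.mem_singleton_iff] at hw
        rw [hw]
        exact (h2 a ha).symm
      · intro a ha
        rw [Subgroup.mem_centralizer_iff]
        intro w hw
        rw [Set.mem_singleton_iff] at hw
        rw [hw]
        exact (h3 a ha).symm
    rw [Subgroup.mem_centralizer_iff]
    intro a ha
    have h5 := h4 ha
    rw [Subgroup.mem_centralizer_iff] at h5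
    exact (h5 v (Set.mem_singleton v)).symm
  · intro h
    rw [mem_Cw] at h
    exact ⟨⟨h.1, fun a ha => h.2 a (Subgroup.mem_sup_left ha)⟩, h.1,
      fun a ha => h.2 a (Subgroup.mem_sup_right ha)⟩

theorem Cw_anti (W : Subgroup G) {A B : Subgroup G} (h : A ≤ B) : Cw W B ≤ Cw W A := by
  intro v hv
  rw [mem_Cw] at hv ⊢
  exact ⟨hv.1, fun a ha => hv.2 a (h ha)⟩

theorem Cw_le (W A : Subgroup G) : Cw W A ≤ W := inf_le_left

end X_LAT

open X_LAT in
theorem s_LAT : Stmt_LAT := by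
  intro G _
  refine ⟨prod_le, ?_⟩
  intro W S P1 P2 hW hP hT1 hT2 ha hb
  unfold Tg at hT1 hT2 ⊢
  have f1 : Finite P1 := fin_sub le_sup_left hP
  have g1 : Finite (Cw W P1) := fin_sub (Cw_le W P1) hW
  have c1 : 0 < Nat.card P1 := Nat.card_pos
  have c2 : 0 < Nat.card (Cw W P1) := Nat.card_pos
  have hM : 0 < Nat.card W * Nat.card S := by
    rw [← hT1]
    exact Nat.mul_pos c1 c2
  have h1 := prod_le P1 P2 hP
  have hsup : Cw W P1 ⊔ Cw W P2 ≤ W := sup_le (Cw_le W P1) (Cw_le W P2)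
  have h2 := prod_le (Cw W P1) (Cw W P2) (fin_sub hsup hW)
  rw [Cw_inf] at h2
  have h3 : Nat.card (Cw W P1 ⊔ Cw W P2 : Subgroup G) ≤ Nat.card (Cw W (P1 ⊓ P2)) :=
    card_mono (sup_le (Cw_anti W inf_le_left) (Cw_anti W inf_le_right))
      (fin_sub (Cw_le W _) hW)
  have h4 : (Nat.card W * Nat.card S) * (Nat.card W * Nat.card S) ≤
      (Nat.card (P1 ⊔ P2 : Subgroup G) * Nat.card (Cw W (P1 ⊔ P2))) *
        (Nat.card (P1 ⊓ P2 : Subgroup G) * Nat.card (Cw W (P1 ⊓ P2))) := by
    calc (Nat.card W * Nat.card S) * (Nat.card W * Nat.card S)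
        = (Nat.card P1 * Nat.card (Cw W P1)) * (Nat.card P2 * Nat.card (Cw W P2)) := by
          rw [hT1, hT2]
      _ = (Nat.card P1 * Nat.card P2) * (Nat.card (Cw W P1) * Nat.card (Cw W P2)) := by ring
      _ ≤ (Nat.card (P1 ⊔ P2 : Subgroup G) * Nat.card (P1 ⊓ P2 : Subgroup G)) *
            (Nat.card (Cw W P1 ⊔ Cw W P2 : Subgroup G) * Nat.card (Cw W (P1 ⊔ P2))) :=
          Nat.mul_le_mul h1 h2
      _ ≤ (Nat.card (P1 ⊔ P2 : Subgroup G) * Nat.card (P1 ⊓ P2 : Subgroup G)) *
            (Nat.card (Cw W (P1 ⊓ P2)) * Nat.card (Cw W (P1 ⊔ P2))) :=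
          Nat.mul_le_mul_left _ (Nat.mul_le_mul_right _ h3)
      _ = _ := by ring
  generalize Nat.card W * Nat.card S = M at hM ha hb h4 ⊢
  generalize Nat.card (P1 ⊔ P2 : Subgroup G) * Nat.card (Cw W (P1 ⊔ P2)) = a at ha h4 ⊢
  generalize Nat.card (P1 ⊓ P2 : Subgroup G) * Nat.card (Cw W (P1 ⊓ P2)) = b at hb h4 ⊢
  constructor
  · apply le_antisymm ha
    by_contra hlt
    push Not at hlt
    have h5 : a * b ≤ a * M := Nat.mul_le_mul_left _ hb
    have h6 : a * M < M * M := Nat.mul_lt_mul_of_pos_right hlt hM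
    omega
  · apply le_antisymm hb
    by_contra hlt
    push Not at hlt
    have h5 : a * b ≤ M * b := Nat.mul_le_mul_right _ ha
    have h6 : M * b < M * M := Nat.mul_lt_mul_of_pos_left hlt hM
    omega

end Pool.Agent.Work.MP_6d7bb4.helper94.Sol
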