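import Pool.Agent.Work.MP_6d7bb4_S.Interface1

set_option autoImplicit false
set_option linter.unusedSectionVars false

/-! Block MEL (helper41). -/

namespace Pool.Agent.Work.MP_6d7bb4.helper94.Sol

open MulAction Tv Ff Ps
open scoped commutatorElement

namespace X_MEL

/-- the join of the conjugates of `t` is normalised by `Z` -/
theorem nm_L {G : Type*} [Group G] (Z : Subgroup G) (t : G) :
    Nm Z (Subgroup.closure {s : G | ∃ g ∈ Z, s = g * t * g⁻¹}) := by
  intro b hb n hn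
  have h1 : Subgroup.closure {s : G | ∃ g ∈ Z, s = g * t * g⁻¹} ≤
      (Subgroup.closure {s : G | ∃ g ∈ Z, s = g * t * g⁻¹}).comap
        (MulAut.conj b).toMonoidHom := by
    rw [Subgroup.closure_le]
    rintro s ⟨g, hg, rfl⟩
    refine Subgroup.subset_closure ⟨b * g, Z.mul_mem hb hg, ?_⟩
    simp only [MulEquiv.toMonoidHom_eq_coe, MonoidHom.coe_coe, MulAut.conj_apply]
    group
  exact h1 hn

end X_MEL

open X_MEL in
theorem s_MEL (hTCE : Stmt_TCE) (hTCP : Stmt_TCP) : Stmt_MEL := by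
  intro U _ p _ _ Y Z E D t e f h
  have hEn : En p Z E := ⟨h.p23, h.ed.EY.trans h.YZ, h.ed.nE, h.co⟩
  have htZ : t ∈ Z := h.YZ h.tY
  have hnt : ¬ Cn E t := by
    intro hc
    apply h.ed.nt
    intro x hx
    have : t * x * t⁻¹ * x⁻¹ = 1 := by
      rw [hc x hx]; group
    rw [this]
    exact D.one_mem
  have hL := nm_L Z t
  have htL : t ∈ Subgroup.closure {s : Un U | ∃ g ∈ Z, s = g * t * g⁻¹} :=
    Subgroup.subset_closure ⟨1, Z.one_mem, by group⟩
  have hEL : E ≤ Subgroup.closure {s : Un U | ∃ g ∈ Z, s = g * t * g⁻¹} := by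
    rcases h.ed.mn (E ⊓ Subgroup.closure {s : Un U | ∃ g ∈ Z, s = g * t * g⁻¹}) inf_le_left
      (h.ed.nE.inf hL) with h1 | h1
    · exact inf_eq_left.mp h1
    · exfalso
      apply h.ed.nt
      intro x hx
      apply h1
      refine ⟨E.mul_mem (h.ed.nE t htZ x hx) (E.inv_mem hx), ?_⟩
      have h2 : t * x * t⁻¹ * x⁻¹ = t * (x * t⁻¹ * x⁻¹) := by group
      rw [h2]
      exact Subgroup.mul_mem _ htL (hL x (hEn.EZ hx) _ (Subgroup.inv_mem _ htL))
  refine ⟨hEn, hnt, hEL, ?_⟩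
  intro s hs hT hns
  by_contra hcon
  push Not at hcon
  obtain ⟨e1, f1, h1⟩ := hT
  obtain ⟨-, -, -, -, -, -, hcn, -⟩ := hTCE U p Z E hEn
  have hcomm : ∀ g ∈ Z, s * (g * t * g⁻¹) = (g * t * g⁻¹) * s := by
    intro g hg
    by_contra hne
    obtain ⟨-, -, -, h4⟩ := hTCP U p Z E hEn s (g * t * g⁻¹) e1 _ f1 _ h1 (h.tv.conj g) hs
      (Z.mul_mem (Z.mul_mem hg htZ) (Z.inv_mem hg)) hns (hcn g hg t htZ hnt)
    exact hcon g hg (h4 hne).1
  apply hns
  have h2 : Subgroup.closure {s : Un U | ∃ g ∈ Z, s = g * t * g⁻¹} ≤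
      Subgroup.centralizer {s} := by
    rw [Subgroup.closure_le]
    rintro k ⟨g, hg, rfl⟩
    rw [SetLike.mem_coe, Subgroup.mem_centralizer_iff]
    intro m hm
    rw [Set.mem_singleton_iff] at hm
    rw [hm]
    exact hcomm g hg
  intro x hx
  have h3 := h2 (hEL hx)
  rw [Subgroup.mem_centralizer_iff] at h3
  exact h3 s rfl

end Pool.Agent.Work.MP_6d7bb4.helper94.Sol
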