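import Pool.Agent.Work.MP_6d7bb4_S.Interface1

set_option autoImplicit false
set_option linter.unusedSectionVars false

/-! # MP_6d7bb4: block MQU, transvections in a good `p`-subgroup -/

namespace Pool.Agent.Work.MP_6d7bb4.helper94.Sol

open MulAction Tv Ff Ps
open scoped commutatorElement

theorem s_MQU (hTCE : Stmt_TCE) (hTCP : Stmt_TCP) (hTCN : Stmt_TCN) (hMEL : Stmt_MEL) :
    Stmt_MQU := by
  intro U _ p _ _ Y Z E D t e f Q Zq hME hMQ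
  obtain ⟨hEn, hCt, -, hm4⟩ := hMEL U p Y Z E D t e f hME
  obtain ⟨c1, c2, c3, c4, c5, c6, c7, c8⟩ := hTCE U p Z E hEn
  have hEZ : ∀ x ∈ E, x ∈ Z := fun x hx => hEn.EZ hx
  have hQZ : ∀ s ∈ Q, s ∈ Z := fun s hs => hME.YZ (hMQ.QY hs)
  -- (0)
  have p0 : ∀ s ∈ Tq p Q, s ∈ Z ∧ ¬ Cn E s ∧ s⁻¹ ∈ Tq p Q := by
    rintro s ⟨hsQ, e1, f1, hs⟩
    exact ⟨hQZ s hsQ, fun hc => hs.ne1 (hMQ.fa s hsQ hc), Q.inv_mem hsQ, e1, -f1, hs.inv⟩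
  -- (1)
  have hone : ∀ z ∈ E, z ∈ Q → z = 1 := by
    intro z hzE hzQ
    obtain ⟨n, hn, hn1⟩ := hEn.co z hzE
    obtain ⟨k, hk⟩ := hMQ.Qp ⟨z, hzQ⟩
    have hk' : z ^ p ^ k = 1 := congrArg Subtype.val hk
    exact Qd.one_of_coprime hn1 hk' (Nat.Coprime.pow_right k hn)
  have p1 : ∀ s ∈ Tq p Q, ∀ s' ∈ Tq p Q, Tc E s s' → s' = s ∨ s' = s⁻¹ := by
    rintro s ⟨hsQ, -⟩ s' ⟨hsQ', -⟩ (h | h)
    · left
      have := hone _ h (Q.mul_mem hsQ (Q.inv_mem hsQ'))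
      exact (mul_inv_eq_one.mp this).symm
    · right
      have := hone _ h (Q.mul_mem hsQ hsQ')
      exact (inv_eq_of_mul_eq_one_right this).symm
  -- (2)
  have p2 : ∀ g ∈ Z, ∃ s ∈ Tq p Q, Tc E s (g * t * g⁻¹) := by
    intro g hg
    obtain ⟨g0, hg0, hg0Q⟩ := hMQ.tQ
    obtain ⟨x, hx, b, hb, hxb⟩ := hMQ.fc (g * g0⁻¹) (Z.mul_mem hg (Z.inv_mem hg0))
    have hsQ : b * (g0 * t * g0⁻¹) * b⁻¹ ∈ Q := hMQ.Zn b hb _ hg0Q
    have hsT : IsT p (b * (g0 * t * g0⁻¹) * b⁻¹) := ⟨_, _, (hME.tv.conj g0).conj b⟩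
    have he : g * t * g⁻¹ = x * (b * (g0 * t * g0⁻¹) * b⁻¹) * x⁻¹ := by
      have h1 : g = x * b * g0 := by
        rw [← hxb]
        group
      rw [h1]
      group
    refine ⟨_, ⟨hsQ, hsT⟩, ?_⟩
    rw [he]
    have h2 := c6 x hx _ (hQZ _ hsQ)
    refine c2 _ ?_ _ (hQZ _ hsQ) h2
    exact Z.mul_mem (Z.mul_mem (hEZ x hx) (hQZ _ hsQ)) (Z.inv_mem (hEZ x hx))
  have htZ : t ∈ Z := hME.YZ hME.tY
  have hcj : ∀ g ∈ Z, ∀ s ∈ Z, g * s * g⁻¹ ∈ Z := fun g hg s hs =>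
    Z.mul_mem (Z.mul_mem hg hs) (Z.inv_mem hg)
  -- (3)
  have p3 : ∀ s ∈ Z, IsT p s → ¬ Cn E s → ∃ s' ∈ Tq p Q, Tc E s s' := by
    intro s hs hsT hsC
    obtain ⟨g, hg, h1⟩ := hm4 s hs hsT hsC
    obtain ⟨s', hs', h2⟩ := p2 g hg
    have hs'Z := (p0 s' hs').1
    exact ⟨s', hs', c3 s hs _ (hcj g hg t htZ) s' hs'Z h1 (c2 s' hs'Z _ (hcj g hg t htZ) h2)⟩
  have hZqZ : ∀ b ∈ Zq, b ∈ Z := fun b hb => hMQ.ZZ hb
  -- (4)
  have p4 : ∀ s ∈ Tq p Q, ∀ s' ∈ Z, IsT p s' → ¬ Cn E s' →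
      ∃ b ∈ Zq, Tc E (b * s * b⁻¹) s' := by
    intro s hs s' hs' hsT' hsC'
    obtain ⟨hsZ, hsC, -⟩ := p0 s hs
    obtain ⟨g, hg, h1⟩ := hm4 s hsZ hs.2 hsC
    obtain ⟨k, hk, h2⟩ := hm4 s' hs' hsT' hsC'
    obtain ⟨x, hx, b, hb, hxb⟩ := hMQ.fc (k * g⁻¹) (Z.mul_mem hk (Z.inv_mem hg))
    have hbZ := hZqZ b hb
    have hhZ : k * g⁻¹ ∈ Z := Z.mul_mem hk (Z.inv_mem hg)
    refine ⟨b, hb, ?_⟩
    -- `h s h⁻¹ ~ k t k⁻¹`
    have h3 := c4 (k * g⁻¹) hhZ s hsZ _ (hcj g hg t htZ) h1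
    have e3 : k * g⁻¹ * (g * t * g⁻¹) * (k * g⁻¹)⁻¹ = k * t * k⁻¹ := by group
    rw [e3] at h3
    have e4 : k * g⁻¹ * s * (k * g⁻¹)⁻¹ = x * (b * s * b⁻¹) * x⁻¹ := by
      rw [hxb]
      group
    rw [e4] at h3
    have hbs := hcj b hbZ s hsZ
    have h4 := c6 x hx (b * s * b⁻¹) hbs
    have hxbs := hcj x (hEZ x hx) _ hbs
    have hktk := hcj k hk t htZ
    have h5 := c3 _ hbs _ hxbs _ hktk (c2 _ hxbs _ hbs h4) h3
    exact c3 _ hbs _ hktk s' hs' h5 (c2 s' hs' _ hktk h2)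
  -- (5)
  have p5 : ∀ s ∈ Tq p Q, ∀ s' ∈ Tq p Q, ∃ b ∈ Zq, b * s * b⁻¹ = s' ∨ b * s * b⁻¹ = s'⁻¹ := by
    intro s hs s' hs'
    obtain ⟨hsZ', hsC', -⟩ := p0 s' hs'
    obtain ⟨b, hb, h1⟩ := p4 s hs s' hsZ' hs'.2 hsC'
    have h2 : b * s * b⁻¹ ∈ Tq p Q := by
      obtain ⟨e1, f1, h⟩ := hs.2
      exact ⟨hMQ.Zn b hb s hs.1, _, _, h.conj b⟩
    rcases p1 _ h2 s' hs' h1 with h3 | h3
    · exact ⟨b, hb, Or.inl h3.symm⟩
    · exact ⟨b, hb, Or.inr (by rw [h3, inv_inv])⟩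
  -- (6)
  have p6 : ∀ s ∈ Q, ∀ s' ∈ Q, ∀ (e1 e2 : U) (f1 f2 : U →+ ZMod p), TV s e1 f1 → TV s' e2 f2 →
      f1 e2 = 0 ∧ s * s' = s' * s := by
    intro s hs s' hs' e1 e2 f1 f2 h h'
    by_cases h1 : s' = s
    · subst h1
      obtain ⟨c, -, h2, -⟩ := h.uniq h'
      refine ⟨?_, rfl⟩
      rw [h2, f_smul, h.fe, mul_zero]
    · by_cases h2 : s' = s⁻¹
      · subst h2
        obtain ⟨c, -, h3, -⟩ := h.inv.uniq h'
        refine ⟨?_, ?_⟩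
        · rw [h3, f_smul, h.fe, mul_zero]
        · rw [mul_inv_cancel, inv_mul_cancel]
      · have hsT : s ∈ Tq p Q := ⟨hs, e1, f1, h⟩
        have hsT' : s' ∈ Tq p Q := ⟨hs', e2, f2, h'⟩
        have h3 : ¬ Tc E s s' := by
          intro hc
          rcases p1 s hsT s' hsT' hc with h4 | h4
          · exact h1 h4
          · exact h2 h4
        obtain ⟨-, -, h5, -⟩ := hTCP U p Z E hEn s s' e1 e2 f1 f2 h h' (p0 s hsT).1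
          (p0 s' hsT').1 (p0 s hsT).2.1 (p0 s' hsT').2.1
        obtain ⟨h6, -, h7⟩ := h5 h3
        exact ⟨h6, h7⟩
  -- (7)
  have p7 : ∀ T : Set (Un U), T ⊆ Tq p Q → (∀ s ∈ T, s⁻¹ ∈ T) → ∀ s ∈ Tq p Q,
      s ∈ Subgroup.closure T → s ∈ T := by
    intro T hT hTi s hs hcl
    by_contra hsT
    obtain ⟨hsZ, hsC, -⟩ := p0 s hs
    obtain ⟨hsQ, e1, f1, h⟩ := hs
    have hs : s ∈ Tq p Q := ⟨hsQ, e1, f1, h⟩
    obtain ⟨x, hx, hx1, hx2⟩ := hTCN U p Z E hEn s e1 f1 h hsZ hsC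
    obtain ⟨s', hs'⟩ : ∃ s', s' = x * s * x⁻¹ := ⟨_, rfl⟩
    have h' := h.conj x
    rw [← hs'] at h'
    have hsZ' : s' ∈ Z := by
      rw [hs']
      exact hcj x (hEZ x hx) s hsZ
    have hsC' : ¬ Cn E s' := by
      rw [hs']
      exact c7 x (hEZ x hx) s hsZ hsC
    have hss : Tc E s' s := by
      rw [hs']
      exact c6 x hx s hsZ
    have hcm : ∀ s1 ∈ T, s1 * s' = s' * s1 := by
      intro s1 hs1
      have hs1T := hT hs1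
      obtain ⟨hs1Z, hs1C, -⟩ := p0 s1 hs1T
      obtain ⟨e2, f2, h2⟩ := hs1T.2
      have h3 : ¬ Tc E s1 s' := by
        intro hc
        have h4 := c3 s1 hs1Z s' hsZ' s hsZ hc hss
        rcases p1 s1 hs1T s hs h4 with h5 | h5
        · exact hsT (h5 ▸ hs1)
        · exact hsT (h5 ▸ hTi s1 hs1)
      obtain ⟨-, -, h5, -⟩ := hTCP U p Z E hEn s1 s' e2 _ f2 _ h2 h' hs1Z hsZ' hs1C hsC'
      exact (h5 h3).2.2
    have hcom : s * s' = s' * s := by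
      have h2 : Subgroup.closure T ≤ Subgroup.centralizer {s'} := by
        rw [Subgroup.closure_le]
        intro s1 hs1
        rw [SetLike.mem_coe, Subgroup.mem_centralizer_iff]
        rintro _ rfl
        exact (hcm s1 hs1).symm
      have h3 := h2 hcl
      rw [Subgroup.mem_centralizer_iff] at h3
      exact (h3 s' rfl).symm
    have hse : (s : AddMonoid.End U) e1 = e1 := by
      rw [h.ap, h.fe, zero_smul, add_zero]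
    have h1 : (s : AddMonoid.End U) ((s' : AddMonoid.End U) e1) = (s' : AddMonoid.End U) e1 := by
      rw [← mul_ap, hcom, mul_ap, hse]
    rw [h.ap] at h1
    have h2 : f1 ((s' : AddMonoid.End U) e1) • e1 = 0 := by
      exact add_eq_left.mp h1
    have h3 : f1 ((s' : AddMonoid.End U) e1) = 0 := by
      rcases smul_eq_zero.mp h2 with h4 | h4
      · exact h4
      · exact absurd h4 h.e0
    rw [h'.ap, map_add, h.fe, zero_add, f_smul] at h3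
    rcases mul_eq_zero.mp h3 with h4 | h4
    · exact hx2 h4
    · exact hx1 h4
  exact ⟨p0, p1, p2, p3, p4, p5, p6, p7⟩

end Pool.Agent.Work.MP_6d7bb4.helper94.Sol
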