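import Pool.Agent.Work.MP_6d7bb4_S.Interface3

/-! # MP_6d7bb4: all soluble semiprimitive groups; block NCV -/

set_option autoImplicit false
set_option linter.unusedSectionVars false

namespace Pool.Agent.Work.MP_6d7bb4.helper94.Sol

open MulAction Tv Ff Ps
open scoped commutatorElement

namespace X_NCV

/-- a transvection and its conjugate do not commute -/
theorem ncomm {U : Type*} [AddCommGroup U] {p : ℕ} [Fact p.Prime] [Module (ZMod p) U]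
    {s x0 : Un U} {e1 : U} {f1 : U →+ ZMod p} (hTV : TV s e1 f1)
    (h1 : f1 ((x0 : AddMonoid.End U) e1) ≠ 0)
    (h2 : f1 (((x0⁻¹ : Un U) : AddMonoid.End U) e1) ≠ 0)
    (hc : s * (x0 * s * x0⁻¹) = (x0 * s * x0⁻¹) * s) : False := by
  obtain ⟨s', hs'⟩ : ∃ s', s' = x0 * s * x0⁻¹ := ⟨_, rfl⟩
  have hTV' := hTV.conj x0
  rw [← hs'] at hTV' hc
  have h3 : (s : AddMonoid.End U) ((s' : AddMonoid.End U) e1) =
      (s' : AddMonoid.End U) ((s : AddMonoid.End U) e1) := by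
    have h4 := congrArg (fun z : Un U => (z : AddMonoid.End U) e1) hc
    exact h4
  have h5 : (s : AddMonoid.End U) e1 = e1 := by
    rw [hTV.ap, hTV.fe, zero_smul, add_zero]
  rw [h5, hTV.ap] at h3
  have h6 : f1 ((s' : AddMonoid.End U) e1) • e1 = 0 := by
    have h7 : (s' : AddMonoid.End U) e1 + f1 ((s' : AddMonoid.End U) e1) • e1 =
        (s' : AddMonoid.End U) e1 + 0 := by
      rw [add_zero]
      exact h3
    exact add_left_cancel h7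
  rcases smul_eq_zero.1 h6 with h7 | h7
  · rw [hTV'.ap, map_add, hTV.fe, zero_add, ZMod.map_smul f1] at h7
    have h8 : f1 (((x0⁻¹ : Un U) : AddMonoid.End U) e1) * f1 ((x0 : AddMonoid.End U) e1) = 0 := h7
    rcases mul_eq_zero.1 h8 with h9 | h9
    · exact h2 h9
    · exact h1 h9
  · exact hTV.e0 h7

end X_NCV

theorem s_NCV (hTCE : Stmt_TCE) (hTCN : Stmt_TCN) (hMQU : Stmt_MQU) (hVMQ : Stmt_VMQ)
    (hPY1 : Stmt_PY1) (hPY2 : Stmt_PY2) : Stmt_NCV := by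
  intro V G _ _ Γ d p _ x W S R Bm U _ _ ψ E D t e f hVB C hCc hCt y hxy
  have hve := hVB.vs.ve
  have hme := hve.me
  have hEn : En p ψ.range E := ⟨hme.p23, hme.ed.EY.trans hme.YZ, hme.ed.nE, hme.co⟩
  obtain ⟨t1, t2, t3, t4, t5, t6, t7, t8⟩ := hTCE U p ψ.range E hEn
  obtain ⟨hMQ, -⟩ := hVMQ V G Γ d p hVB.loc x R U ψ E D t e f hve y hxy
  obtain ⟨m1, m2, m3, m4, m5, m6, m7, m8⟩ := hMQU U p _ _ E D t e f _ _ hme hMQ
  obtain ⟨s0, hs0C, hs0Z, hs0T, hs0c⟩ := hCt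
  obtain ⟨s, hsQ, hTc⟩ := m4 s0 hs0Z hs0T hs0c
  have hsZ := (m1 s hsQ).1
  have hsc := (m1 s hsQ).2.1
  have hsC : s ∈ C := hCc s0 hs0Z hs0T hs0c s hsZ hsQ.2 hsc hTc hs0C
  obtain ⟨e1, f1, hTV⟩ := hsQ.2
  obtain ⟨x0, hx0, h1, h2⟩ := hTCN U p ψ.range E hEn s e1 f1 hTV hsZ hsc
  obtain ⟨g, hg⟩ := hEn.EZ hx0
  have hgx : g.1 • x = x := mem_stabilizer_iff.1 g.2
  have hadj : Γ.Adj x (g.1 • y) := by
    have h3 : Γ.Adj (g.1 • x) (g.1 • y) := hVB.loc.adj _ _ _ hxy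
    rwa [hgx] at h3
  have hs'Z : x0 * s * x0⁻¹ ∈ ψ.range :=
    Subgroup.mul_mem _ (Subgroup.mul_mem _ (hEn.EZ hx0) hsZ) (Subgroup.inv_mem _ (hEn.EZ hx0))
  have hs'T : IsT p (x0 * s * x0⁻¹) := ⟨_, _, hTV.conj x0⟩
  have hs'c : ¬ Cn E (x0 * s * x0⁻¹) := t7 x0 (hEn.EZ hx0) s hsZ hsc
  have hs'C : x0 * s * x0⁻¹ ∈ C :=
    hCc s hsZ hsQ.2 hsc _ hs'Z hs'T hs'c (t2 _ hs'Z _ hsZ (t6 x0 hx0 s hsZ)) hsC
  have hs'Q : x0 * s * x0⁻¹ ∈ Tq p (im ψ (Qe p x (g.1 • y))) := by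
    rw [(hPY2 V G Γ d p x W S R Bm U ψ E D t e f hVB).2.1 y hxy g]
    exact ⟨s, hsQ, by
      show ψ g * s * (ψ g)⁻¹ = x0 * s * x0⁻¹
      rw [hg]⟩
  have hP : ∀ z, Γ.Adj x z → ∀ r, r ∈ C → r ∈ Tq p (im ψ (Qe p x z)) →
      ∃ a : stabilizer G x, a.1 ∈ Pf p Bm ψ C z ∧ ψ a = r := by
    intro z hz r hr hr'
    have h3 := (hPY1 V G Γ d p x W S R Bm U ψ E D t e f hVB z hz).2.1
      (C ∩ Tq p (im ψ (Qe p x z))) Set.inter_subset_right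
    have h4 : r ∈ im ψ (Py (Bm z) ψ (C ∩ Tq p (im ψ (Qe p x z)))) := by
      rw [h3]
      exact Subgroup.subset_closure ⟨hr, hr'⟩
    obtain ⟨a, ha, ha'⟩ := h4
    exact ⟨a, ha, ha'⟩
  obtain ⟨a, ha, hsa⟩ := hP y hxy s hsC hsQ
  obtain ⟨b, hb, hsb⟩ := hP (g.1 • y) hadj _ hs'C hs'Q
  refine ⟨g.1 • y, hadj, a.1, ha, b.1, hb, ?_⟩
  intro hR
  have h5 : ψ (a * b * a⁻¹ * b⁻¹) = 1 := (hve.ker (a * b * a⁻¹ * b⁻¹)).1 hR
  rw [map_mul, map_mul, map_mul, map_inv, map_inv, hsa, hsb] at h5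
  have h6 := mul_inv_eq_one.mp h5
  exact X_NCV.ncomm hTV h1 h2 (mul_inv_eq_iff_eq_mul.mp h6)

end Pool.Agent.Work.MP_6d7bb4.helper94.Sol
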