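import Pool.Agent.Work.MP_6d7bb4_S.Interface1

set_option autoImplicit false
set_option linter.unusedSectionVars false

/-! # Block NRM: the group of a link normalises the join of two neighbouring groups -/

namespace Pool.Agent.Work.MP_6d7bb4.helper94.Sol

open MulAction Tv Ff Ps
open scoped commutatorElement

/-- Block NRM. -/
theorem s_NRM (hBAS : Stmt_BAS) : Stmt_NRM := by
  intro V G _ _ Γ d p _ W S R Z Bm h hS x x' w' w l y hy hWy
  obtain ⟨b1, b2, -, b4, -, -⟩ := hBAS V G Γ d p W S R Z Bm h hS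
  have l' := b4 x x' w' w l
  obtain ⟨P', Pc', hb, hP⟩ := hS.lk w w' x' x l'
  have hxP : W x ≤ P' w' := by
    rw [hP]
    exact le_sup_left
  -- step 1
  have hstep1 : W w ⊔ S x ≤ S x ⊔ Cw (W w) (Pc' w') := by
    refine sup_le ?_ le_sup_left
    refine (hb.gen w' l.ww).trans (sup_le_sup ?_ le_rfl)
    intro u hu
    obtain ⟨hu1, hu2⟩ := mem_Cw.1 hu
    refine hS.ct x x' l.xx u ?_ ?_
    · rw [hS.Bcm x x']
      exact hS.SB x' x l.xx.symm (l.wx hu1)
    · intro v hv
      exact (hu2 v (hxP hv)).symm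
  -- step 2
  have hstep2 : Nm (S x) (W x ⊔ W y) := by
    have h1 : S x ≤ stabilizer G x := fun q hq => ((b1 x).2 hq).1
    have h2 : S x ≤ stabilizer G y := fun q hq => ((b1 x).2 hq).2 y hy
    exact ((b2 x).1.mono h1).sup ((b2 y).1.mono h2)
  -- step 3
  have hnorm : Nm (P' w') (Pc' w') := by
    intro a ha b hb'
    have h1 : a * b * a⁻¹ * b⁻¹ ∈ Pc' w' :=
      hb.SPc w' l.ww (hS.ab w w' l.ww a (hb.PB w' l.ww ha) b (hb.PcB w' l.ww hb'))
    have h2 : a * b * a⁻¹ = a * b * a⁻¹ * b⁻¹ * b := by group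
    rw [h2]
    exact Subgroup.mul_mem _ h1 hb'
  have hWS : Nm (W x) (S w) := by
    refine (b2 w).2.mono fun q hq => ?_
    exact ((b1 w').2 (l.xw hq)).2 w l.ww.symm
  have hstep3 : Nm (Cw (W w) (Pc' w')) (W x ⊔ W y) := by
    intro u hu
    obtain ⟨hu1, hu2⟩ := mem_Cw.1 hu
    have hux : u ∈ stabilizer G x := ((b1 x').2 (l.wx hu1)).2 x l.xx.symm
    have h1 : (W x ⊔ W y : Subgroup G) ≤
        (W x ⊔ W y).comap (MulAut.conj u).toMonoidHom := by
      refine sup_le ?_ ?_
      · intro v hv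
        exact le_sup_left (α := Subgroup G) ((b2 x).1 u hux v hv)
      · intro v hv
        show u * v * u⁻¹ ∈ (W x ⊔ W y : Subgroup G)
        have hv1 : v ∈ P' w' ⊔ Pc' w' := by
          apply hb.sup w' l.ww
          rw [hS.Bcm w w']
          exact hS.SB w' w l.ww.symm (hWy hv)
        obtain ⟨a, ha, b, hb', hab⟩ := mem_sup_nm hnorm hv1
        rw [hP] at ha
        obtain ⟨v1, hv1', s, hs, has⟩ := mem_sup_nm hWS ha
        have c1 : b * u = u * b := hu2 b hb'
        have c2 : s * u = u * s := hS.SW w s hs u hu1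
        have c3 : Commute (s * b) u := Commute.mul_left c2 c1
        have c4 : s * b * u⁻¹ = u⁻¹ * (s * b) := c3.inv_right.eq
        have h2 : u * v * u⁻¹ = (u * v1 * u⁻¹ * v1⁻¹) * v := by
          rw [hab, has]
          calc u * (v1 * s * b) * u⁻¹ = u * v1 * (s * b * u⁻¹) := by group
            _ = u * v1 * (u⁻¹ * (s * b)) := by rw [c4]
            _ = u * v1 * u⁻¹ * v1⁻¹ * (v1 * s * b) := by group
        rw [h2]
        refine Subgroup.mul_mem _ (Subgroup.mem_sup_left ?_) (Subgroup.mem_sup_right hv)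
        exact Subgroup.mul_mem _ ((b2 x).1 u hux v1 hv1') (Subgroup.inv_mem _ hv1')
    intro n hn
    exact h1 hn
  exact (hstep2.sup_left hstep3).mono hstep1

end Pool.Agent.Work.MP_6d7bb4.helper94.Sol
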