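import Pool.Agent.Work.MP_6d7bb4_S.Interface3

set_option autoImplicit false
set_option linter.unusedSectionVars false

/-!
# MP_6d7bb4: all soluble semiprimitive groups; block NZV
-/

namespace Pool.Agent.Work.MP_6d7bb4.helper94.Sol

open MulAction Tv Ff Ps
open scoped commutatorElement

namespace X_NZV

/-- two sets which commute generate commuting subgroups -/
theorem cl_comm {H : Type*} [Group H] {S T : Set H} (h : ∀ s ∈ S, ∀ t ∈ T, s * t = t * s) :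
    ∀ a ∈ Subgroup.closure S, ∀ b ∈ Subgroup.closure T, a * b = b * a := by
  have h1 : Subgroup.closure T ≤ Subgroup.centralizer (Subgroup.closure S : Set H) := by
    rw [Subgroup.closure_le]
    intro t ht
    rw [SetLike.mem_coe, Subgroup.mem_centralizer_iff]
    have h2 : Subgroup.closure S ≤ Subgroup.centralizer ({t} : Set H) := by
      rw [Subgroup.closure_le]
      intro s hs
      rw [SetLike.mem_coe, Subgroup.mem_centralizer_iff]
      intro t' ht'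
      rw [Set.mem_singleton_iff] at ht'
      subst ht'
      exact (h s hs t' ht).symm
    intro a ha
    have h3 := Subgroup.mem_centralizer_iff.1 (h2 ha) t (Set.mem_singleton t)
    exact h3.symm
  intro a ha b hb
  exact Subgroup.mem_centralizer_iff.1 (h1 hb) a ha

end X_NZV

theorem s_NZV (hTCP : Stmt_TCP) (hMQU : Stmt_MQU) (hVMQ : Stmt_VMQ) (hPY1 : Stmt_PY1) :
    Stmt_NZV := by
  intro V G _ _ Γ d p _ x W S R Bm U _ _ ψ E D t e f h C y y' hy hy' hNr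
  by_contra hcon
  push Not at hcon
  have ve := h.vs.ve
  have en : En p ψ.range E := ⟨ve.me.p23, ve.me.ed.EY.trans ve.me.YZ, ve.me.ed.nE, ve.me.co⟩
  obtain ⟨mq, -⟩ := hVMQ V G Γ d p h.loc x R U ψ E D t e f ve y hy
  obtain ⟨q1, -, -, -, -, -, -, -⟩ := hMQU U p _ _ E D t e f _ _ ve.me mq
  obtain ⟨mq', -⟩ := hVMQ V G Γ d p h.loc x R U ψ E D t e f ve y' hy'
  obtain ⟨q1', -, -, -, -, -, -, -⟩ := hMQU U p _ _ E D t e f _ _ ve.me mq'
  obtain ⟨a1, a2, -⟩ := hPY1 V G Γ d p x W S R Bm U ψ E D t e f h y hy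
  obtain ⟨b1, b2, -⟩ := hPY1 V G Γ d p x W S R Bm U ψ E D t e f h y' hy'
  have hst : ∀ z, Γ.Adj x z → Bm z ≤ stabilizer G x := fun z hz =>
    (h.vs.BQ z hz).trans (Qe_le_st x z)
  -- the action of the group at `y'` on the commutators with the group at `y`
  have hact : ∀ a b : stabilizer G x, a.1 ∈ Pf p Bm ψ C y → b.1 ∈ Pf p Bm ψ C y' → ∀ u : U,
      (ψ b : AddMonoid.End U) ((ψ a : AddMonoid.End U) u - u) =
        (ψ a : AddMonoid.End U) u - u := by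
    intro a b ha hb
    refine h.md.qp b a (fun v hv => ?_)
    have h1 := hcon a.1 ha v hv
    have h2 := (mem_Cw.1 h1).2 b.1 ((b1 _).2 hb)
    rw [h2, mul_inv_cancel_right]
  -- noncommuting transvections
  obtain ⟨s1, hs1, s2, hs2, hne⟩ : ∃ s1 ∈ C ∩ Tq p (im ψ (Qe p x y)),
      ∃ s2 ∈ C ∩ Tq p (im ψ (Qe p x y')), s1 * s2 ≠ s2 * s1 := by
    by_contra hc
    push Not at hc
    obtain ⟨a, ha, b, hb, hab⟩ := hNr
    have hax : a ∈ stabilizer G x := hst y hy ((a1 _).2 ha)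
    have hbx : b ∈ stabilizer G x := hst y' hy' ((b1 _).2 hb)
    have ha' := ((mem_Py hax).1 ha).2
    have hb' := ((mem_Py hbx).1 hb).2
    have hcm := X_NZV.cl_comm hc _ ha' _ hb'
    apply hab
    have h3 : ψ (⟨a, hax⟩ * ⟨b, hbx⟩ * ⟨a, hax⟩⁻¹ * ⟨b, hbx⟩⁻¹) = 1 := by
      rw [map_mul, map_mul, map_mul, map_inv, map_inv, hcm]
      group
    exact (ve.ker (⟨a, hax⟩ * ⟨b, hbx⟩ * ⟨a, hax⟩⁻¹ * ⟨b, hbx⟩⁻¹)).2 h3
  -- lift them
  have hl1 : s1 ∈ im ψ (Pf p Bm ψ C y) := by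
    have h1 := a2 (C ∩ Tq p (im ψ (Qe p x y))) Set.inter_subset_right
    show s1 ∈ im ψ (Py (Bm y) ψ (C ∩ Tq p (im ψ (Qe p x y))))
    rw [h1]
    exact Subgroup.subset_closure hs1
  have hl2 : s2 ∈ im ψ (Pf p Bm ψ C y') := by
    have h1 := b2 (C ∩ Tq p (im ψ (Qe p x y'))) Set.inter_subset_right
    show s2 ∈ im ψ (Py (Bm y') ψ (C ∩ Tq p (im ψ (Qe p x y'))))
    rw [h1]
    exact Subgroup.subset_closure hs2
  obtain ⟨a, ha, rfl⟩ := mem_im'.1 hl1
  obtain ⟨b, hb, rfl⟩ := mem_im'.1 hl2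
  obtain ⟨e1, f1, tv1⟩ := hs1.2.2
  obtain ⟨e2, f2, tv2⟩ := hs2.2.2
  have k1 := q1 _ hs1.2
  have k2 := q1' _ hs2.2
  obtain ⟨-, -, -, hd⟩ := hTCP U p ψ.range E en (ψ a) (ψ b) e1 e2 f1 f2 tv1 tv2 k1.1 k2.1
    k1.2.1 k2.2.1
  obtain ⟨-, -, hf21⟩ := hd hne
  obtain ⟨u, hu⟩ := tv1.f0
  have h5 := hact a b ha hb u
  rw [tv1.ap u, add_sub_cancel_left, tv2.ap, f_smul] at h5
  have h6 : (f1 u * f2 e1) • e2 = 0 := by
    have h7 : f1 u • e1 + (f1 u * f2 e1) • e2 = f1 u • e1 + 0 := by rw [h5, add_zero]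
    exact add_left_cancel h7
  have h8 : f1 u * f2 e1 = 0 := by
    apply smul_inj tv2.e0
    rw [h6, zero_smul]
  rcases mul_eq_zero.1 h8 with h9 | h9
  · exact hu h9
  · exact hf21 h9

end Pool.Agent.Work.MP_6d7bb4.helper94.Sol
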