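import Pool.Agent.Work.MP_6d7bb4_S.Interface2

set_option autoImplicit false
set_option linter.unusedSectionVars false

/-! # Block OFF: offenders are products of transvection groups -/

namespace Pool.Agent.Work.MP_6d7bb4.helper94.Sol

open MulAction Tv Ff Ps
open scoped commutatorElement

namespace X_OFF

variable {U : Type} [AddCommGroup U] {p : ℕ} [Fact p.Prime] [Module (ZMod p) U]

theorem finU (hU : Finite U) : Finite (Un U) := by
  haveI : Finite (AddMonoid.End U) := DFunLike.finite (AddMonoid.End U)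
  exact Finite.of_injective (fun u : Un U => (u : AddMonoid.End U)) Units.val_injective

theorem psmul (u : U) : p • u = 0 := by
  rw [← Nat.cast_smul_eq_nsmul (ZMod p), ZMod.natCast_self, zero_smul]

/-- the elements which fix `w` -/
def St (w : U) : Subgroup (Un U) where
  carrier := {a | (a : AddMonoid.End U) w = w}
  one_mem' := rfl
  mul_mem' := by
    intro a b ha hb
    show ((a * b : Un U) : AddMonoid.End U) w = w
    rw [mul_ap, hb, ha]
  inv_mem' := by
    intro a ha
    show ((a⁻¹ : Un U) : AddMonoid.End U) w = w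
    have h1 := inv_ap a w
    rwa [show (a : AddMonoid.End U) w = w from ha] at h1

theorem mem_St {w : U} {a : Un U} : a ∈ St w ↔ (a : AddMonoid.End U) w = w := Iff.rfl

theorem Fx_bot : FxU (⊥ : Subgroup (Un U)) = ⊤ := by
  rw [eq_top_iff]
  intro u _ a ha
  rw [Subgroup.mem_bot] at ha
  rw [ha]
  rfl

theorem Pq_bot : Pq p (⊥ : Subgroup (Un U)) = ⊥ := by
  have h1 : Tq p (⊥ : Subgroup (Un U)) = ∅ := by
    rw [Set.eq_empty_iff_forall_notMem]
    rintro s ⟨hs, e, f, hT⟩
    exact hT.ne1 (Subgroup.mem_bot.1 hs)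
  unfold Pq
  rw [h1, Subgroup.closure_empty]

theorem Pq_le (A : Subgroup (Un U)) : Pq p A ≤ A := by
  unfold Pq
  rw [Subgroup.closure_le]
  intro s hs
  exact hs.1

theorem Pq_mono {A B : Subgroup (Un U)} (h : A ≤ B) : Pq p A ≤ Pq p B :=
  Subgroup.closure_mono (fun _ hs => ⟨h hs.1, hs.2⟩)

/-- powers of a transvection -/
theorem pow_ap {s : Un U} {e : U} {f : U →+ ZMod p} (h : TV s e f) (m : ℕ) (v : U) :
    ((s ^ m : Un U) : AddMonoid.End U) v = v + ((m : ZMod p) * f v) • e := by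
  induction m with
  | zero =>
    rw [pow_zero, Nat.cast_zero, zero_mul, zero_smul, add_zero]
    rfl
  | succ m ih =>
    rw [pow_succ', mul_ap, ih, h.ap, map_add, f_smul, h.fe, mul_zero, add_zero, add_assoc,
      ← add_smul, Nat.cast_succ]
    congr 2
    ring

theorem step (hU : Finite U) (A : Subgroup (Un U)) (s : Un U) (e1 e2 : U) (f1 : U →+ ZMod p)
    (hT : TV s e1 f1) (hs : s ∈ A) (hf : f1 e2 ≠ 0)
    (ha : ∀ a ∈ A, ∃ α : ZMod p, (a : AddMonoid.End U) e2 = e2 + α • e1) :
    (∀ a ∈ A, ∃ m : ℕ, s ^ m * a ∈ A ⊓ St e2) ∧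
    Nat.card A * Nat.card (FxU A) ≤
      Nat.card (A ⊓ St e2 : Subgroup (Un U)) * Nat.card (FxU (A ⊓ St e2)) ∧
    Nat.card (A ⊓ St e2 : Subgroup (Un U)) < Nat.card A := by
  haveI := finU hU
  have hse : ∀ m : ℕ, ((s ^ m : Un U) : AddMonoid.End U) e1 = e1 := by
    intro m
    rw [pow_ap hT, hT.fe, mul_zero, zero_smul, add_zero]
  choose! α hα using ha
  have hmem : ∀ a ∈ A, s ^ ((-α a) / f1 e2).val * a ∈ A ⊓ St e2 := by
    intro a haA
    refine Subgroup.mem_inf.2 ⟨A.mul_mem (A.pow_mem hs _) haA, ?_⟩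
    rw [mem_St, mul_ap, hα a haA, map_add, smul_map, hse, pow_ap hT, ZMod.natCast_val,
      ZMod.cast_id', id, div_mul_cancel₀ _ hf, neg_smul]
    abel
  refine ⟨fun a haA => ⟨_, hmem a haA⟩, ?_, ?_⟩
  · have h1 : Nat.card A ≤ p * Nat.card (A ⊓ St e2 : Subgroup (Un U)) := by
      let F : A → ZMod p × (A ⊓ St e2 : Subgroup (Un U)) := fun a =>
        ((-α a.1) / f1 e2, ⟨s ^ ((-α a.1) / f1 e2).val * a.1, hmem a.1 a.2⟩)
      have hF : Function.Injective F := by
        intro a b hab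
        have h2 : (-α a.1) / f1 e2 = (-α b.1) / f1 e2 := congrArg Prod.fst hab
        have h3 : s ^ ((-α a.1) / f1 e2).val * a.1 = s ^ ((-α b.1) / f1 e2).val * b.1 :=
          congrArg (fun z => z.2.1) hab
        rw [h2] at h3
        exact Subtype.ext (mul_left_cancel h3)
      have h4 := Nat.card_le_card_of_injective F hF
      rwa [Nat.card_prod, Nat.card_zmod] at h4
    have h2 : p * Nat.card (FxU A) ≤ Nat.card (FxU (A ⊓ St e2)) := by
      have hfix : ∀ u ∈ FxU A, f1 u = 0 := by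
        intro u hu
        have h3 := hu s hs
        rw [hT.ap] at h3
        have h4 : f1 u • e1 = 0 := by
          have h5 : u + f1 u • e1 = u + 0 := by rw [h3, add_zero]
          exact add_left_cancel h5
        rcases smul_eq_zero.mp h4 with h5 | h5
        · exact h5
        · exact absurd h5 hT.e0
      let F : ZMod p × FxU A → FxU (A ⊓ St e2) := fun z =>
        ⟨z.1 • e2 + z.2.1, by
          intro a ha'
          rw [map_add, smul_map, mem_St.1 (Subgroup.mem_inf.1 ha').2,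
            z.2.2 a (Subgroup.mem_inf.1 ha').1]⟩
      have hF : Function.Injective F := by
        rintro ⟨c, u⟩ ⟨c', u'⟩ hab
        have h3 : c • e2 + u.1 = c' • e2 + u'.1 := congrArg Subtype.val hab
        have h4 := congrArg f1 h3
        rw [map_add, map_add, f_smul, f_smul, hfix u.1 u.2, hfix u'.1 u'.2, add_zero,
          add_zero] at h4
        have h5 : c = c' := mul_right_cancel₀ hf h4
        rw [h5] at h3
        have h6 : u = u' := Subtype.ext (add_left_cancel h3)
        rw [h5, h6]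
      have h4 := Nat.card_le_card_of_injective F hF
      rwa [Nat.card_prod, Nat.card_zmod] at h4
    calc Nat.card A * Nat.card (FxU A)
        ≤ p * Nat.card (A ⊓ St e2 : Subgroup (Un U)) * Nat.card (FxU A) :=
          Nat.mul_le_mul_right _ h1
      _ = Nat.card (A ⊓ St e2 : Subgroup (Un U)) * (p * Nat.card (FxU A)) := by ring
      _ ≤ _ := Nat.mul_le_mul_left _ h2
  · by_contra hcon
    push Not at hcon
    have h1 : (A ⊓ St e2 : Subgroup (Un U)) = A := Subgroup.eq_of_le_of_card_ge inf_le_left hcon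
    have h2 : s ∈ A ⊓ St e2 := by rw [h1]; exact hs
    have h3 := mem_St.1 (Subgroup.mem_inf.1 h2).2
    rw [hT.ap] at h3
    have h4 : f1 e2 • e1 = 0 := by
      have h5 : e2 + f1 e2 • e1 = e2 + 0 := by rw [h3, add_zero]
      exact add_left_cancel h5
    rcases smul_eq_zero.mp h4 with h5 | h5
    · exact hf h5
    · exact hT.e0 h5

end X_OFF

open X_OFF in
theorem s_OFF (hOTV : Stmt_OTV) (hTCE : Stmt_TCE) (_hTCP : Stmt_TCP) (hTCN : Stmt_TCN)
    (hTCL : Stmt_TCL) (hTCU : Stmt_TCU) (hMEL : Stmt_MEL) (hMQU : Stmt_MQU) : Stmt_OFF := by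
  intro U _ p _ _ Y Z E D t e f Q Zq hME hMQ
  haveI := hME.fin
  haveI := finU hME.fin
  obtain ⟨hEn, -, -, -⟩ := hMEL U p Y Z E D t e f hME
  obtain ⟨-, c2, -, c4, -, c6, c7, -⟩ := hTCE U p Z E hEn
  obtain ⟨q1, -⟩ := hMQU U p Y Z E D t e f Q Zq hME hMQ
  have main : ∀ (n : ℕ) (A : Subgroup (Un U)), Nat.card A = n → A ≤ Q →
      (∀ a ∈ A, ∀ b ∈ A, a * b = b * a) → Nat.card U ≤ Nat.card A * Nat.card (FxU A) →
      Nat.card A * Nat.card (FxU A) = Nat.card U ∧ A = Pq p A := by
    intro n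
    induction n using Nat.strong_induction_on with
    | _ n ih =>
      intro A hn hAQ hab hU
      by_cases hA : A = ⊥
      · rw [hA, Fx_bot, Pq_bot]
        refine ⟨?_, rfl⟩
        rw [Subgroup.card_bot, one_mul]
        exact AddSubgroup.card_top
      · have hAp : IsPGroup p A := hMQ.Qp.to_le hAQ
        obtain ⟨s, hs, hs1, hsq, hsr⟩ := hOTV U p Y Z A hME.fin hME.p23 (fun u => psmul u) hME.YZ
          hME.Yn hME.ps hME.np (hAQ.trans hMQ.QY) hA hab hAp hU
        obtain ⟨e1, f1, hT⟩ := tv_of_rank hs1 hsq hsr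
        have hsT : s ∈ Tq p Q := ⟨hAQ hs, e1, f1, hT⟩
        obtain ⟨hsZ, hsC, -⟩ := q1 s hsT
        obtain ⟨x, hxE, hx1, -⟩ := hTCN U p Z E hEn s e1 f1 hT hsZ hsC
        have hxZ : x ∈ Z := hEn.EZ hxE
        have hs'Z : x * s * x⁻¹ ∈ Z := Z.mul_mem (Z.mul_mem hxZ hsZ) (Z.inv_mem hxZ)
        have hs'C : ¬ Cn E (x * s * x⁻¹) := c7 x hxZ s hsZ hsC
        have hss' : Tc E s (x * s * x⁻¹) := c2 _ hs'Z _ hsZ (c6 x hxE s hsZ)
        have ha : ∀ a ∈ A, ∃ α : ZMod p, (a : AddMonoid.End U) ((x : AddMonoid.End U) e1) =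
            (x : AddMonoid.End U) e1 + α • e1 := by
          intro a haA
          have haZ : a ∈ Z := hME.YZ (hMQ.QY (hAQ haA))
          have hcom : a * s * a⁻¹ = s := by
            rw [hab a haA s hs, mul_inv_cancel_right]
          obtain ⟨k, hk⟩ := hMQ.Qp ⟨a, hAQ haA⟩
          have hk' : a ^ p ^ k = 1 := congrArg Subtype.val hk
          obtain ⟨u1, u2, -⟩ := hTCU U p hME.p23 s a e1 f1 hT k hk' (Or.inl hcom)
          have hTc : Tc E s (a * (x * s * x⁻¹) * a⁻¹) := by
            have h1 := c4 a haZ s hsZ _ hs'Z hss'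
            rwa [hcom] at h1
          obtain ⟨⟨α, β, hαβ⟩, -⟩ := hTCL U p Z E hEn s (x * s * x⁻¹) (a * (x * s * x⁻¹) * a⁻¹)
            e1 _ _ f1 _ _ hT (hT.conj x) ((hT.conj x).conj a) hsZ hs'Z
            (Z.mul_mem (Z.mul_mem haZ hs'Z) (Z.inv_mem haZ)) hsC hs'C
            (c7 a haZ _ hs'Z hs'C) hss' hTc hx1
          have h1 := u2 ((x : AddMonoid.End U) e1)
          rw [hαβ, map_add, f_smul, f_smul, hT.fe, mul_zero, zero_add] at h1
          have h2 : β = 1 := by
            have h3 : β * f1 ((x : AddMonoid.End U) e1) = 1 * f1 ((x : AddMonoid.End U) e1) := by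
              rw [h1, one_mul]
            exact mul_right_cancel₀ hx1 h3
          refine ⟨α, ?_⟩
          rw [hαβ, h2, one_smul, add_comm]
        obtain ⟨s1, s2, s3⟩ := step hME.fin A s e1 _ f1 hT hs hx1 ha
        obtain ⟨i1, i2⟩ := ih _ (by rw [← hn]; exact s3) (A ⊓ St ((x : AddMonoid.End U) e1)) rfl
          (inf_le_left.trans hAQ)
          (fun a ha b hb => hab a (Subgroup.mem_inf.1 ha).1 b (Subgroup.mem_inf.1 hb).1)
          (hU.trans s2)
        refine ⟨le_antisymm (s2.trans i1.le) hU, le_antisymm ?_ (Pq_le A)⟩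
        intro a haA
        obtain ⟨m, hm⟩ := s1 a haA
        have h1 : s ^ m * a ∈ Pq p A := by
          rw [i2] at hm
          exact Pq_mono inf_le_left hm
        have h2 : s ∈ Pq p A := Subgroup.subset_closure ⟨hs, e1, f1, hT⟩
        have h3 : a = (s ^ m)⁻¹ * (s ^ m * a) := by rw [inv_mul_cancel_left]
        rw [h3]
        exact (Pq p A).mul_mem ((Pq p A).inv_mem ((Pq p A).pow_mem h2 m)) h1
  intro A hAQ hab
  constructor
  · by_contra hcon
    push Not at hcon
    have := (main _ A rfl hAQ hab hcon.le).1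
    omega
  · intro h
    exact (main _ A rfl hAQ hab h.ge).2

end Pool.Agent.Work.MP_6d7bb4.helper94.Sol
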