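import Pool.Agent.Work.MP_6d7bb4_S.Interface1

/-! # MP_6d7bb4, soluble semiprimitive groups: block OTV (typed by helper95) -/

set_option autoImplicit false
set_option linter.unusedSectionVars false

namespace Pool.Agent.Work.MP_6d7bb4.helper94.Sol

open MulAction Tv Ff Ps
open scoped commutatorElement

namespace X_OTV

section nil
variable {U : Type*} [AddCommGroup U]

theorem cm1 {Λ : Type*} [Ring Λ] {a b : Λ} (h : a * b = b * a) :
    (a - 1) * (b - 1) = (b - 1) * (a - 1) := by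
  have e1 : (a - 1) * (b - 1) = a * b - a - b + 1 := by noncomm_ring
  have e2 : (b - 1) * (a - 1) = b * a - b - a + 1 := by noncomm_ring
  rw [e1, e2, h]
  abel

/-- the sum of the images of `S` under `b - 1`, `b` in the list -/
def Tl (S : AddSubgroup U) : List (Un U) → AddSubgroup U
  | [] => ⊥
  | b :: l => S.map ((b : AddMonoid.End U) - 1) ⊔ Tl S l

theorem Tl_inv {S : AddSubgroup U} {φ : AddMonoid.End U} (hφ : S.map φ ≤ S) :
    ∀ l : List (Un U), (∀ b ∈ l, φ * ((b : AddMonoid.End U) - 1) = ((b : AddMonoid.End U) - 1) * φ) →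
      (Tl S l).map φ ≤ Tl S l := by
  intro l
  induction l with
  | nil =>
    intro _
    show (⊥ : AddSubgroup U).map φ ≤ ⊥
    rw [AddSubgroup.map_bot]
  | cons b l ih =>
    intro h
    show (S.map ((b : AddMonoid.End U) - 1) ⊔ Tl S l).map φ ≤
      S.map ((b : AddMonoid.End U) - 1) ⊔ Tl S l
    rw [AddSubgroup.map_sup]
    refine sup_le ?_ ?_
    · refine le_trans ?_ le_sup_left
      have hb := h b List.mem_cons_self
      rintro w ⟨w1, ⟨u, hu, rfl⟩, rfl⟩
      refine ⟨φ u, hφ ⟨u, hu, rfl⟩, ?_⟩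
      have h1 : (φ * ((b : AddMonoid.End U) - 1)) u = (((b : AddMonoid.End U) - 1) * φ) u := by
        rw [hb]
      exact h1.symm
    · exact (ih (fun b' hb' => h b' (List.mem_cons_of_mem _ hb'))).trans le_sup_right

theorem iter {S T : AddSubgroup U} {φ : AddMonoid.End U} (hT : T.map φ ≤ T)
    (h : S ≤ S.map φ ⊔ T) : ∀ n : ℕ, S ≤ S.map (φ ^ n) ⊔ T := by
  intro n
  have hTn : ∀ n : ℕ, T.map (φ ^ n) ≤ T := by
    intro n
    induction n with
    | zero =>
      rintro w ⟨u, hu, rfl⟩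
      exact hu
    | succ n ih =>
      rintro w ⟨u, hu, rfl⟩
      have h1 : (φ ^ (n + 1)) u = (φ ^ n) (φ u) := by
        rw [pow_succ]
        rfl
      have h2 : (φ ^ n) (φ u) ∈ T := ih ⟨φ u, hT ⟨u, hu, rfl⟩, rfl⟩
      rw [← h1] at h2
      exact h2
  induction n with
  | zero =>
    refine le_trans ?_ le_sup_left
    intro u hu
    exact ⟨u, hu, rfl⟩
  | succ n ih =>
    refine ih.trans (sup_le ?_ le_sup_right)
    rintro w ⟨u, hu, rfl⟩
    have h1 := h hu
    rw [AddSubgroup.mem_sup] at h1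
    obtain ⟨y, ⟨x, hx, rfl⟩, t, ht, hyt⟩ := h1
    rw [← hyt, map_add]
    refine AddSubgroup.add_mem_sup ?_ (hTn n ⟨t, ht, rfl⟩)
    refine ⟨x, hx, ?_⟩
    show (φ ^ (n + 1)) x = (φ ^ n) (φ x)
    rw [pow_succ]
    rfl

theorem nil_aux {S : AddSubgroup U} : ∀ l : List (Un U),
    (∀ a ∈ l, ∀ b ∈ l, a * b = b * a) →
    (∀ b ∈ l, ∀ u ∈ S, (b : AddMonoid.End U) u ∈ S) →
    (∀ b ∈ l, ∃ n, ((b : AddMonoid.End U) - 1) ^ n = 0) → S ≤ Tl S l → S = ⊥ := by
  intro l
  induction l with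
  | nil =>
    intro _ _ _ h
    exact le_bot_iff.mp h
  | cons b l ih =>
    intro hab hS hn h
    refine ih (fun a ha b' hb' => hab a (List.mem_cons_of_mem _ ha) b' (List.mem_cons_of_mem _ hb'))
      (fun b' hb' => hS b' (List.mem_cons_of_mem _ hb'))
      (fun b' hb' => hn b' (List.mem_cons_of_mem _ hb')) ?_
    have hSb : S.map ((b : AddMonoid.End U) - 1) ≤ S := by
      rintro w ⟨u, hu, rfl⟩
      exact S.sub_mem (hS b List.mem_cons_self u hu) hu
    have h1 : (Tl S l).map ((b : AddMonoid.End U) - 1) ≤ Tl S l := by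
      refine Tl_inv hSb l (fun c hc => ?_)
      have h2 : (b : AddMonoid.End U) * c = c * b := by
        rw [← Units.val_mul, hab b List.mem_cons_self c (List.mem_cons_of_mem _ hc), Units.val_mul]
      exact cm1 h2
    obtain ⟨n, hn'⟩ := hn b List.mem_cons_self
    refine (iter h1 h n).trans (sup_le ?_ le_rfl)
    rintro w ⟨u, _, rfl⟩
    have h4 : (((b : AddMonoid.End U) - 1) ^ n : AddMonoid.End U) u = 0 := by
      rw [hn']
      rfl
    have h5 := (Tl S l).zero_mem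
    rw [← h4] at h5
    exact h5

theorem le_Tl {S : AddSubgroup U} : ∀ l : List (Un U), ∀ b ∈ l,
    S.map ((b : AddMonoid.End U) - 1) ≤ Tl S l := by
  intro l
  induction l with
  | nil =>
    intro b hb
    exact absurd hb (List.not_mem_nil)
  | cons c l ih =>
    intro b hb
    rcases List.mem_cons.mp hb with rfl | h
    · exact le_sup_left
    · exact (ih b h).trans le_sup_right

/-- a finite abelian `p`-group acting on a group of exponent `p` acts nilpotently -/
theorem nilp {p : ℕ} [Fact p.Prime] (hU : ∀ u : U, p • u = 0) {B : Subgroup (Un U)} [Finite B]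
    (hab : ∀ a ∈ B, ∀ b ∈ B, a * b = b * a) (hB : IsPGroup p B) {S : AddSubgroup U}
    (hS : ∀ b ∈ B, ∀ u ∈ S, (b : AddMonoid.End U) u ∈ S)
    (h : S ≤ AddSubgroup.closure {w | ∃ b ∈ B, ∃ u ∈ S, w = (b : AddMonoid.End U) u - u}) :
    S = ⊥ := by
  have hp0 : (p : AddMonoid.End U) = 0 := by
    ext w
    rw [AddMonoid.End.natCast_apply, hU]
    rfl
  have hnil : ∀ b ∈ B, ∃ n, ((b : AddMonoid.End U) - 1) ^ n = 0 := by
    intro b hb
    rcases subsingleton_or_nontrivial (AddMonoid.End U) with hs | hn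
    · exact ⟨1, Subsingleton.elim _ _⟩
    · have hc : CharP (AddMonoid.End U) p :=
        (CharP.charP_iff_prime_eq_zero (Fact.out : p.Prime)).mpr hp0
      obtain ⟨k, hk⟩ := hB ⟨b, hb⟩
      have hk' : b ^ p ^ k = 1 := congrArg Subtype.val hk
      refine ⟨p ^ k, ?_⟩
      have h1 : ((b : AddMonoid.End U) - 1) ^ p ^ k =
          (b : AddMonoid.End U) ^ p ^ k - 1 ^ p ^ k :=
        sub_pow_char_pow_of_commute p k (Commute.one_right _)
      rw [h1, one_pow, ← Units.val_pow_eq_pow_val, hk', Units.val_one, sub_self]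
  have hfin : (B : Set (Un U)).Finite := Set.toFinite _
  obtain ⟨l, hl⟩ : ∃ l : List (Un U), ∀ b, b ∈ l ↔ b ∈ B :=
    ⟨hfin.toFinset.toList, fun b => by
      rw [Finset.mem_toList, Set.Finite.mem_toFinset, SetLike.mem_coe]⟩
  refine nil_aux l (fun a ha b hb => hab a ((hl a).mp ha) b ((hl b).mp hb))
    (fun b hb => hS b ((hl b).mp hb)) (fun b hb => hnil b ((hl b).mp hb)) ?_
  refine h.trans ((AddSubgroup.closure_le _).mpr ?_)
  rintro w ⟨b, hb, u, hu, rfl⟩
  exact le_Tl l b ((hl b).mpr hb) ⟨u, hu, rfl⟩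

end nil

section repl
variable {U : Type*} [AddCommGroup U]

/-- the Timmesfeld replacement: a minimal abelian offender is quadratic -/
theorem quad [Finite U] {p : ℕ} [Fact p.Prime] (hU : ∀ u : U, p • u = 0) {B : Subgroup (Un U)}
    (hBf : Finite B) (hab : ∀ a ∈ B, ∀ b ∈ B, a * b = b * a) (hB : IsPGroup p B) (hne : B ≠ ⊥)
    (hoff : Nat.card U ≤ Nat.card B * Nat.card (FxU B))
    (hmin : ∀ C : Subgroup (Un U), C ≤ B → C ≠ ⊥ →
      Nat.card U ≤ Nat.card C * Nat.card (FxU C) → B ≤ C) :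
    ∀ a ∈ B, ∀ b ∈ B, ∀ u : U, (a : AddMonoid.End U) ((b : AddMonoid.End U) u - u) =
      (b : AddMonoid.End U) u - u := by
  intro a ha b hb v
  have hcm : ∀ a ∈ B, ∀ b ∈ B, ∀ u : U, (a : AddMonoid.End U) ((b : AddMonoid.End U) u) =
      (b : AddMonoid.End U) ((a : AddMonoid.End U) u) := by
    intro a ha b hb u
    have h1 : (a : AddMonoid.End U) * b = b * a := by
      rw [← Units.val_mul, hab a ha b hb, Units.val_mul]
    have h2 : ((a : AddMonoid.End U) * b) u = ((b : AddMonoid.End U) * a) u := by rw [h1]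
    exact h2
  have hinv : ∀ (c : Un U) (w w' : U), (c : AddMonoid.End U) w = w' →
      ((c⁻¹ : Un U) : AddMonoid.End U) w' = w := by
    intro c w w' h
    rw [← h]
    have h1 : (((c⁻¹ : Un U) : AddMonoid.End U) * (c : AddMonoid.End U)) w = w := by
      rw [Units.inv_mul]
      rfl
    exact h1
  -- the group `C`
  obtain ⟨C, hC⟩ : ∃ C : Subgroup (Un U), ∀ c, c ∈ C ↔ c ∈ B ∧ ∀ x ∈ B,
      (c : AddMonoid.End U) ((x : AddMonoid.End U) v - v) = (x : AddMonoid.End U) v - v := by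
    refine ⟨{ carrier := {c | c ∈ B ∧ ∀ x ∈ B,
                (c : AddMonoid.End U) ((x : AddMonoid.End U) v - v) = (x : AddMonoid.End U) v - v}
              one_mem' := ⟨B.one_mem, fun x _ => rfl⟩
              mul_mem' := ?_
              inv_mem' := ?_ }, fun c => Iff.rfl⟩
    · rintro c c' ⟨h1, h2⟩ ⟨h3, h4⟩
      refine ⟨B.mul_mem h1 h3, fun x hx => ?_⟩
      rw [Units.val_mul]
      show (c : AddMonoid.End U) ((c' : AddMonoid.End U) ((x : AddMonoid.End U) v - v)) = _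
      rw [h4 x hx, h2 x hx]
    · rintro c ⟨h1, h2⟩
      exact ⟨B.inv_mem h1, fun x hx => hinv c _ _ (h2 x hx)⟩
  have hCB : C ≤ B := fun c hc => ((hC c).mp hc).1
  -- the group `N`
  obtain ⟨L, hL⟩ : ∃ L : AddSubgroup U, L = AddSubgroup.closure
      {w | ∃ c ∈ B, w = (c : AddMonoid.End U) v - v} := ⟨_, rfl⟩
  have hLm : ∀ c ∈ B, (c : AddMonoid.End U) v - v ∈ L := by
    intro c hc
    rw [hL]
    exact AddSubgroup.subset_closure ⟨c, hc, rfl⟩
  obtain ⟨N, hN⟩ : ∃ N : AddSubgroup U, N = FxU B ⊔ L := ⟨_, rfl⟩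
  have hNC : N ≤ FxU C := by
    rw [hN]
    refine sup_le (FxU_anti hCB) ?_
    rw [hL, AddSubgroup.closure_le]
    rintro w ⟨c, hc, rfl⟩ x hx
    exact ((hC x).mp hx).2 c hc
  -- the estimate
  have hkey : ∀ b ∈ B, ∀ b' ∈ B, (b : AddMonoid.End U) v - (b' : AddMonoid.End U) v ∈ FxU B →
      b⁻¹ * b' ∈ C := by
    intro b hb b' hb' h
    refine (hC _).mpr ⟨B.mul_mem (B.inv_mem hb) hb', fun x hx => ?_⟩
    rw [Units.val_mul]
    show ((b⁻¹ : Un U) : AddMonoid.End U)
      ((b' : AddMonoid.End U) ((x : AddMonoid.End U) v - v)) = _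
    refine hinv b _ _ ?_
    have h1 := h x hx
    rw [map_sub] at h1
    rw [map_sub, map_sub, hcm b hb x hx v, hcm b' hb' x hx v]
    rw [sub_eq_sub_iff_add_eq_add] at h1 ⊢
    rw [h1]
    abel
  have hsel : ∀ n : N, ∃ b0 : B, ∀ b ∈ B, (∃ f ∈ FxU B, (b : AddMonoid.End U) v - v + f = n.1) →
      b0.1⁻¹ * b ∈ C := by
    intro n
    by_cases h : ∃ b ∈ B, ∃ f ∈ FxU B, (b : AddMonoid.End U) v - v + f = n.1
    · obtain ⟨b0, hb0, f0, hf0, h0⟩ := h
      refine ⟨⟨b0, hb0⟩, ?_⟩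
      rintro b hb ⟨f, hf, h1⟩
      refine hkey b0 hb0 b hb ?_
      have h2 : (b0 : AddMonoid.End U) v - (b : AddMonoid.End U) v = f - f0 := by
        have h3 := h0.trans h1.symm
        have h4 : (b0 : AddMonoid.End U) v - (b : AddMonoid.End U) v =
            ((b0 : AddMonoid.End U) v - v + f0) - ((b : AddMonoid.End U) v - v + f) + (f - f0) := by
          abel
        rw [h4, h3, sub_self, zero_add]
      rw [h2]
      exact (FxU B).sub_mem hf hf0
    · exact ⟨1, fun b hb h1 => absurd ⟨b, hb, h1⟩ h⟩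
  choose g hg using hsel
  have hΦ : ∀ z : B × FxU B, (z.1.1 : AddMonoid.End U) v - v + z.2.1 ∈ N := by
    intro z
    rw [hN]
    rw [add_comm]
    exact AddSubgroup.add_mem_sup z.2.2 (hLm z.1.1 z.1.2)
  have hCf : Finite C := Finite.of_injective _ (Subgroup.inclusion_injective hCB)
  have hest : Nat.card B * Nat.card (FxU B) ≤ Nat.card C * Nat.card N := by
    rw [← Nat.card_prod, ← Nat.card_prod]
    refine Nat.card_le_card_of_injective (fun z : B × FxU B =>
      ((⟨(g ⟨_, hΦ z⟩).1⁻¹ * z.1.1, hg ⟨_, hΦ z⟩ z.1.1 z.1.2 ⟨z.2.1, z.2.2, rfl⟩⟩ : C),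
        (⟨_, hΦ z⟩ : N))) ?_
    intro z z' h
    have h1 : (⟨_, hΦ z⟩ : N) = ⟨_, hΦ z'⟩ := congrArg Prod.snd h
    have h2 : (g ⟨_, hΦ z⟩).1⁻¹ * z.1.1 = (g ⟨_, hΦ z'⟩).1⁻¹ * z'.1.1 :=
      congrArg (fun y : C × N => y.1.1) h
    rw [h1] at h2
    have h3 : z.1 = z'.1 := Subtype.ext (mul_left_cancel h2)
    have h4 : (z.1.1 : AddMonoid.End U) v - v + z.2.1 = (z'.1.1 : AddMonoid.End U) v - v + z'.2.1 :=
      congrArg Subtype.val h1
    rw [h3] at h4
    exact Prod.ext h3 (Subtype.ext (add_left_cancel h4))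
  by_cases hC1 : C = ⊥
  · -- impossible
    exfalso
    have h1 : Nat.card U ≤ Nat.card N := by
      refine hoff.trans (hest.trans ?_)
      rw [hC1, Subgroup.card_bot, one_mul]
    have h2 : N = ⊤ := AddSubgroup.eq_top_of_le_card _ h1
    obtain ⟨S, hS⟩ : ∃ S : AddSubgroup U, S = AddSubgroup.closure
        {w | ∃ c ∈ B, ∃ u : U, w = (c : AddMonoid.End U) u - u} := ⟨_, rfl⟩
    have hSm : ∀ c ∈ B, ∀ u : U, (c : AddMonoid.End U) u - u ∈ S := by
      intro c hc u
      rw [hS]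
      exact AddSubgroup.subset_closure ⟨c, hc, u, rfl⟩
    have hSi : ∀ b ∈ B, ∀ u ∈ S, (b : AddMonoid.End U) u ∈ S := by
      intro b hb u hu
      have h3 := S.add_mem (hSm b hb u) hu
      rwa [sub_add_cancel] at h3
    have hLS : L ≤ S := by
      rw [hL, AddSubgroup.closure_le]
      rintro w ⟨c, hc, rfl⟩
      exact hSm c hc v
    have hSb : S = ⊥ := by
      refine nilp hU hab hB hSi ?_
      nth_rewrite 1 [hS]
      rw [AddSubgroup.closure_le]
      rintro w ⟨c, hc, u, rfl⟩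
      have hu : u ∈ N := by
        rw [h2]
        exact AddSubgroup.mem_top u
      rw [hN, AddSubgroup.mem_sup] at hu
      obtain ⟨f, hf, k, hk, rfl⟩ := hu
      have h3 : (c : AddMonoid.End U) (f + k) - (f + k) = (c : AddMonoid.End U) k - k := by
        rw [map_add, hf c hc]
        abel
      rw [h3]
      exact AddSubgroup.subset_closure ⟨c, hc, k, hLS hk, rfl⟩
    apply hne
    rw [Subgroup.eq_bot_iff_forall]
    intro c hc
    apply Units.ext
    refine AddMonoidHom.ext (fun u => ?_)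
    have h3 := hSm c hc u
    rw [hSb, AddSubgroup.mem_bot, sub_eq_zero] at h3
    exact h3
  · have h1 : Nat.card N ≤ Nat.card (FxU C) :=
      Nat.card_le_card_of_injective _ (AddSubgroup.inclusion_injective hNC)
    have h2 := hmin C hCB hC1 (hoff.trans (hest.trans (Nat.mul_le_mul_left _ h1)))
    exact ((hC a).mp (h2 ha)).2 b hb

end repl

end X_OTV

open X_OTV in
theorem s_OTV : Stmt_OTV := by
  intro U _ p _ Y Z A hUf hp23 hU hYZ hYn hps hN hA hA1 hab hAp hoff
  have hEf : Finite (AddMonoid.End U) :=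
    Finite.of_injective (fun f : AddMonoid.End U => (f : U → U)) DFunLike.coe_injective
  have hfin : Finite (Un U) := inferInstance
  have hYf : Finite Y := inferInstance
  have hfb : {B : Subgroup (Un U) | B ≤ A ∧ B ≠ ⊥ ∧
      Nat.card U ≤ Nat.card B * Nat.card (FxU B)}.Finite :=
    (finite_Iic Y).subset (fun B h => h.1.trans hA)
  obtain ⟨B, hB⟩ := hfb.exists_minimal ⟨A, le_refl A, hA1, hoff⟩
  obtain ⟨⟨hBA, hBne, hBoff⟩, hBmin⟩ := hB
  have hq := quad hU (B := B) inferInstance (fun a ha b hb => hab a (hBA ha) b (hBA hb))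
    (hAp.to_le hBA) hBne hBoff (fun C hC hC1 hCo => hBmin ⟨hC.trans hBA, hC1, hCo⟩ hC)
  obtain ⟨t, ht, h1, h2, h3⟩ := exists_tv hp23 hU hYf hYZ hYn hps hN (hBA.trans hA) hBne hq hBoff
  exact ⟨t, hBA ht, h1, h2, h3⟩

end Pool.Agent.Work.MP_6d7bb4.helper94.Sol
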