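import Pool.Agent.Work.MP_6d7bb4_S.Interface3

set_option autoImplicit false
set_option linter.unusedSectionVars false

/-! # Block PY1: preimages of groups of transvections -/

namespace Pool.Agent.Work.MP_6d7bb4.helper94.Sol

open MulAction Tv Ff Ps
open scoped commutatorElement

theorem s_PY1 (hGTR : Stmt_GTR) (hINT : Stmt_INT) (hVMQ : Stmt_VMQ) : Stmt_PY1 := by
  intro V G _ _ Γ d p _ x W S R Bm U _ _ ψ E D t e f h y hxy
  have hv := h.vs
  have hve := hv.ve
  obtain ⟨hmq, -⟩ := hVMQ V G Γ d p h.loc x R U ψ E D t e f hve y hxy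
  have hBs : Bm y ≤ stabilizer G x := (hv.BQ y hxy).trans (Qe_le_st x y)
  -- (1)
  have p1 : ∀ T : Set (Un U), S ≤ Py (Bm y) ψ T ∧ Py (Bm y) ψ T ≤ Bm y := by
    intro T
    refine ⟨?_, inf_le_left⟩
    intro s hs
    have h1 : s ∈ Bm y := hv.SB y hxy hs
    have h2 : ψ ⟨s, hBs h1⟩ = 1 := (hve.ker ⟨s, hBs h1⟩).1 (hv.SR hs)
    rw [mem_Py (hBs h1)]
    refine ⟨h1, ?_⟩
    rw [h2]
    exact Subgroup.one_mem _
  -- (2)
  have p2 : ∀ T : Set (Un U), T ⊆ Tq p (im ψ (Qe p x y)) →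
      im ψ (Py (Bm y) ψ T) = Subgroup.closure T := by
    intro T hT
    apply le_antisymm
    · intro s hs
      obtain ⟨g, hg, rfl⟩ := mem_im'.1 hs
      exact ((mem_Py g.2).1 hg).2
    · intro s hs
      have h1 : s ∈ im ψ (Bm y) := by
        rw [hv.BT y hxy]
        exact Subgroup.closure_mono hT hs
      obtain ⟨g, hg, rfl⟩ := mem_im'.1 h1
      exact mem_im'.2 ⟨g, (mem_Py g.2).2 ⟨hg, hs⟩, rfl⟩
  -- (3)
  have p3 : ∀ P : Subgroup G, S ≤ P → P ≤ Bm y → ∀ T : Set (Un U),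
      im ψ P = Subgroup.closure T → P = Py (Bm y) ψ T := by
    intro P hSP hPB T hT
    apply le_antisymm
    · intro g hg
      have h1 : g ∈ stabilizer G x := hBs (hPB hg)
      rw [mem_Py h1]
      refine ⟨hPB hg, ?_⟩
      rw [← hT]
      exact mem_im'.2 ⟨⟨g, h1⟩, hg, rfl⟩
    · intro g hg
      have h1 : g ∈ Bm y := inf_le_left (a := Bm y) hg
      have h2 : g ∈ stabilizer G x := hBs h1
      have h3 := ((mem_Py h2).1 hg).2
      rw [← hT] at h3
      obtain ⟨a, ha, hag⟩ := mem_im'.1 h3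
      have h4 : a⁻¹.1 * g ∈ R := by
        refine (hve.ker (a⁻¹ * ⟨g, h2⟩)).2 ?_
        rw [map_mul, map_inv, hag, inv_mul_cancel]
      have h5 : a⁻¹.1 * g ∈ Bm y := (Bm y).mul_mem ((Bm y).inv_mem (hPB ha)) h1
      have h6 : a⁻¹.1 * g ∈ P := hSP (hv.BR y hxy ⟨h5, h4⟩)
      have h7 : a.1 * (a⁻¹.1 * g) = g := by
        show a.1 * ((a.1)⁻¹ * g) = g
        rw [mul_inv_cancel_left]
      rw [← h7]
      exact P.mul_mem ha h6
  have hcm := (hGTR U p _ ψ.range E D t e f _ _ hve.me hmq (Tq p (im ψ (Qe p x y)))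
    (Set.Subset.refl _)).1
  refine ⟨p1, p2, p3, ?_, ?_, ?_, ?_⟩
  · refine (p3 S le_rfl (hv.SB y hxy) ∅ ?_).symm
    rw [Subgroup.closure_empty, eq_bot_iff]
    intro s hs
    obtain ⟨g, hg, rfl⟩ := mem_im'.1 hs
    rw [Subgroup.mem_bot]
    exact (hve.ker g).1 (hv.SR hg)
  · exact (p3 (Bm y) (hv.SB y hxy) le_rfl _ (hv.BT y hxy)).symm
  · intro T T' hT hT'
    refine (p3 _ ((p1 T).1.trans le_sup_left) (sup_le (p1 T).2 (p1 T').2) _ ?_).symm
    have h1 : im ψ (Py (Bm y) ψ T ⊔ Py (Bm y) ψ T') =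
        im ψ (Py (Bm y) ψ T) ⊔ im ψ (Py (Bm y) ψ T') := by
      unfold im
      rw [Subgroup.subgroupOf_sup ((p1 T).2.trans hBs) ((p1 T').2.trans hBs), Subgroup.map_sup]
    rw [h1, p2 T hT, p2 T' hT', Subgroup.closure_union]
  · intro T T' hT hT' hi hi'
    have h1 : ∀ a, a ∈ Subgroup.closure T → a ∈ Subgroup.closure T' →
        a ∈ Subgroup.closure (T ∩ T') := by
      intro a ha ha'
      have h2 : (T ∩ T') ∪ (T \ T') = T := Set.inter_union_sdiff T T'
      rw [← h2, Subgroup.closure_union] at ha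
      have h3 : Nm (Subgroup.closure (T ∩ T')) (Subgroup.closure (T \ T')) := by
        apply nm_of_comm
        intro n hn m hm
        exact hcm n (Subgroup.closure_mono (fun s hs => hT hs.1) hn) m
          (Subgroup.closure_mono (fun s hs => hT hs.1) hm)
      obtain ⟨b, hb, c, hc, rfl⟩ := mem_sup_nm h3 ha
      have hb' : b ∈ Subgroup.closure T' := Subgroup.closure_mono Set.inter_subset_right hb
      have hc' : c ∈ Subgroup.closure T' := by
        have h4 := (Subgroup.closure T').mul_mem ((Subgroup.closure T').inv_mem hb') ha'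
        rwa [inv_mul_cancel_left] at h4
      have h5 := hINT U p _ ψ.range E D t e f _ _ hve.me hmq (T \ T') T'
        (fun s hs => hT hs.1) hT' (fun s hs => ⟨hi s hs.1, fun hs' => hs.2 (by
          have := hi' _ hs'
          rwa [inv_inv] at this)⟩) hi' (fun s hs => hs.2)
      have h6 : c ∈ (⊥ : Subgroup (Un U)) := by
        rw [← h5]
        exact ⟨hc, hc'⟩
      rw [Subgroup.mem_bot] at h6
      rw [h6, mul_one]
      exact hb
    refine (p3 _ (le_inf (p1 T).1 (p1 T').1) (inf_le_left.trans (p1 T).2) _ ?_).symm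
    apply le_antisymm
    · intro s hs
      obtain ⟨g, hg, rfl⟩ := mem_im'.1 hs
      exact h1 _ ((mem_Py g.2).1 hg.1).2 ((mem_Py g.2).1 hg.2).2
    · intro s hs
      rw [← p2 (T ∩ T') (fun s hs => hT hs.1)] at hs
      obtain ⟨g, hg, rfl⟩ := mem_im'.1 hs
      have h2 := (mem_Py g.2).1 hg
      exact mem_im'.2 ⟨g, ⟨(mem_Py g.2).2 ⟨h2.1, Subgroup.closure_mono Set.inter_subset_left h2.2⟩,
        (mem_Py g.2).2 ⟨h2.1, Subgroup.closure_mono Set.inter_subset_right h2.2⟩⟩, rfl⟩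

end Pool.Agent.Work.MP_6d7bb4.helper94.Sol
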