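import Pool.Agent.Work.MP_6d7bb4_S.Interface3

set_option autoImplicit false
set_option linter.unusedSectionVars false

/-! # MP_6d7bb4: block PY2, equivariance -/

namespace Pool.Agent.Work.MP_6d7bb4.helper94.Sol

open MulAction Tv Ff Ps
open scoped commutatorElement

namespace X_PY2

theorem card_cj {G : Type} [Group G] (g : G) (A : Subgroup G) :
    Nat.card (cj g A) = Nat.card A := by
  apply Nat.card_congr
  refine ⟨fun b => ⟨g⁻¹ * b.1 * g, mem_cj.1 b.2⟩, fun a => ⟨g * a.1 * g⁻¹, conj_mem_cj a.2⟩, ?_, ?_⟩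
  · intro b
    apply Subtype.ext
    change g * (g⁻¹ * b.1 * g) * g⁻¹ = b.1
    group
  · intro a
    apply Subtype.ext
    change g⁻¹ * (g * a.1 * g⁻¹) * g = a.1
    group

theorem mem_closure_conj {H : Type} [Group H] (c a : H) (T : Set H) :
    a ∈ Subgroup.closure ((fun s => c * s * c⁻¹) '' T) ↔ c⁻¹ * a * c ∈ Subgroup.closure T := by
  have h1 : ((fun s => c * s * c⁻¹) '' T) = (MulAut.conj c).toMonoidHom '' T := by
    ext b
    simp [MulAut.conj_apply]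
  rw [h1, ← MonoidHom.map_closure, Subgroup.mem_map]
  constructor
  · rintro ⟨b, hb, rfl⟩
    have h2 : c⁻¹ * (MulAut.conj c).toMonoidHom b * c = b := by
      change c⁻¹ * (c * b * c⁻¹) * c = b
      group
    rw [h2]
    exact hb
  · intro h2
    refine ⟨_, h2, ?_⟩
    change c * (c⁻¹ * a * c) * c⁻¹ = a
    group

theorem isT_conj {U : Type} [AddCommGroup U] {p : ℕ} [Fact p.Prime] [Module (ZMod p) U]
    (c : Un U) {s : Un U} (h : IsT p s) : IsT p (c * s * c⁻¹) := by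
  obtain ⟨e, f, h1⟩ := h
  exact ⟨_, _, h1.conj c⟩

end X_PY2

open X_PY2 in
theorem s_PY2 (hTCE : Stmt_TCE) (hCLS : Stmt_CLS) (hMQU : Stmt_MQU) (hVMQ : Stmt_VMQ) :
    Stmt_PY2 := by
  intro V G _ _ Γ d p _ x W S R Bm U _ _ ψ E D t e f h
  have hve := h.vs.ve
  have hEn : En p ψ.range E :=
    ⟨hve.me.p23, hve.me.ed.EY.trans hve.me.YZ, hve.me.ed.nE, hve.me.co⟩
  obtain ⟨c1, c2, c3, c4, c5, c6, c7, c8⟩ := hTCE U p ψ.range E hEn
  have hMQ : ∀ y, Γ.Adj x y → MQ p (im ψ (Nh Γ p x)) ψ.range E t (im ψ (Qe p x y))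
      (im ψ (B x y)) :=
    fun y hy => (hVMQ V G Γ d p h.loc x R U ψ E D t e f hve y hy).1
  have hq : ∀ y, Γ.Adj x y → ∀ (g : stabilizer G x) (s : Un U),
      s ∈ im ψ (Qe p x (g.1 • y)) ↔ (ψ g)⁻¹ * s * ψ g ∈ im ψ (Qe p x y) :=
    fun y hy => (hVMQ V G Γ d p h.loc x R U ψ E D t e f hve y hy).2
  have hB : ∀ y, Γ.Adj x y → Bm y ≤ stabilizer G x :=
    fun y hy => (h.vs.BQ y hy).trans (Qe_le_st x y)
  have hadj : ∀ y, Γ.Adj x y → ∀ g : stabilizer G x, Γ.Adj x (g.1 • y) := by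
    intro y hy g
    have h1 := h.loc.adj g.1 x y hy
    rwa [show g.1 • x = x from g.2] at h1
  -- (1)
  have P1 : ∀ y, Γ.Adj x y → ∀ (g : stabilizer G x) (T : Set (Un U)),
      Py (Bm (g.1 • y)) ψ ((fun s => ψ g * s * (ψ g)⁻¹) '' T) = cj g.1 (Py (Bm y) ψ T) := by
    intro y hy g T
    have hcj := h.vs.Bcj g.1 g.2 y hy
    have hgX : g.1 ∈ stabilizer G x := g.2
    have key : ∀ k : G, k ∈ stabilizer G x →
        (k ∈ Py (Bm (g.1 • y)) ψ ((fun s => ψ g * s * (ψ g)⁻¹) '' T) ↔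
          k ∈ cj g.1 (Py (Bm y) ψ T)) := by
      intro k hk
      have hk' : g.1⁻¹ * k * g.1 ∈ stabilizer G x :=
        (stabilizer G x).mul_mem ((stabilizer G x).mul_mem ((stabilizer G x).inv_mem hgX) hk) hgX
      rw [mem_Py hk, mem_cj, mem_Py hk', hcj, mem_cj, mem_closure_conj]
      have h2 : (⟨g.1⁻¹ * k * g.1, hk'⟩ : stabilizer G x) = g⁻¹ * ⟨k, hk⟩ * g := rfl
      rw [h2, map_mul, map_mul, map_inv]
    ext k
    constructor
    · intro hk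
      have h1 : k ∈ Bm (g.1 • y) := (Subgroup.mem_inf.1 hk).1
      exact (key k (hB _ (hadj y hy g) h1)).1 hk
    · intro hk
      have h1 : k ∈ Bm (g.1 • y) := by
        rw [hcj, mem_cj]
        exact (Subgroup.mem_inf.1 (mem_cj.1 hk)).1
      exact (key k (hB _ (hadj y hy g) h1)).2 hk
  -- (2)
  have P2' : ∀ y, Γ.Adj x y → ∀ (g : stabilizer G x) (s : Un U),
      s ∈ Tq p (im ψ (Qe p x (g.1 • y))) ↔ (ψ g)⁻¹ * s * ψ g ∈ Tq p (im ψ (Qe p x y)) := by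
    intro y hy g s
    constructor
    · rintro ⟨h1, h2⟩
      refine ⟨(hq y hy g s).1 h1, ?_⟩
      have h3 := isT_conj (ψ g)⁻¹ h2
      rwa [inv_inv] at h3
    · rintro ⟨h1, h2⟩
      refine ⟨(hq y hy g s).2 h1, ?_⟩
      have h3 := isT_conj (ψ g) h2
      have h4 : ψ g * ((ψ g)⁻¹ * s * ψ g) * (ψ g)⁻¹ = s := by group
      rwa [h4] at h3
  have P2 : ∀ y, Γ.Adj x y → ∀ g : stabilizer G x, Tq p (im ψ (Qe p x (g.1 • y))) =
      (fun s => ψ g * s * (ψ g)⁻¹) '' Tq p (im ψ (Qe p x y)) := by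
    intro y hy g
    ext s
    rw [P2' y hy g s]
    constructor
    · intro h1
      refine ⟨_, h1, ?_⟩
      change ψ g * ((ψ g)⁻¹ * s * ψ g) * (ψ g)⁻¹ = s
      group
    · rintro ⟨s', h1, rfl⟩
      have h4 : (ψ g)⁻¹ * (ψ g * s' * (ψ g)⁻¹) * ψ g = s' := by group
      change (ψ g)⁻¹ * (ψ g * s' * (ψ g)⁻¹) * ψ g ∈ _
      rw [h4]
      exact h1
  refine ⟨P1, P2, ?_, ?_, ?_, ?_, ?_, ?_, ?_⟩
  · -- (3)
    intro g P hP
    have hgX : g.1 ∈ stabilizer G x := g.2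
    have hW : ∀ v : G, v ∈ W ↔ g.1⁻¹ * v * g.1 ∈ W := by
      intro v
      constructor
      · intro hv
        have h1 := h.vs.Wn g.1⁻¹ ((stabilizer G x).inv_mem hgX) v hv
        rwa [inv_inv] at h1
      · intro hv
        have h1 := h.vs.Wn g.1 hgX _ hv
        have h2 : g.1 * (g.1⁻¹ * v * g.1) * g.1⁻¹ = v := by group
        rwa [h2] at h1
    have h1 : Cw W (cj g.1 P) = cj g.1 (Cw W P) := by
      ext v
      rw [mem_cj, mem_Cw, mem_Cw, ← hW v]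
      refine and_congr_right (fun _ => ?_)
      constructor
      · intro h2 a ha
        have h3 := h2 _ (conj_mem_cj (g := g.1) ha)
        calc a * (g.1⁻¹ * v * g.1) = g.1⁻¹ * (g.1 * a * g.1⁻¹ * v) * g.1 := by group
          _ = g.1⁻¹ * (v * (g.1 * a * g.1⁻¹)) * g.1 := by rw [h3]
          _ = g.1⁻¹ * v * g.1 * a := by group
      · intro h2 a ha
        have h3 := h2 _ (mem_cj.1 ha)
        calc a * v = g.1 * (g.1⁻¹ * a * g.1 * (g.1⁻¹ * v * g.1)) * g.1⁻¹ := by group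
          _ = g.1 * (g.1⁻¹ * v * g.1 * (g.1⁻¹ * a * g.1)) * g.1⁻¹ := by rw [h3]
          _ = v * a := by group
    unfold Tg
    rw [h1, card_cj, card_cj]
    exact hP
  · -- (4)
    intro C hC g hg y hy
    unfold Pf
    rw [← P1 y hy g]
    congr 1
    ext s
    rw [Set.mem_inter_iff, P2' y hy g s]
    have hg1 : ψ g ∈ ψ.range := ⟨g, rfl⟩
    have hM := hMQU U p _ _ E D t e f _ _ hve.me (hMQ y hy)
    constructor
    · rintro ⟨h1, h2⟩
      obtain ⟨m1, m2, -⟩ := hM.1 _ h2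
      have e1 : ψ g * ((ψ g)⁻¹ * s * ψ g) * (ψ g)⁻¹ = s := by group
      refine ⟨_, ⟨?_, h2⟩, e1⟩
      have h3 := hg _ m1 h2.2 m2
      have h4 := c7 (ψ g) hg1 _ m1 m2
      have h5 := ψ.range.mul_mem (ψ.range.mul_mem hg1 m1) (ψ.range.inv_mem hg1)
      have h6 := isT_conj (ψ g) h2.2
      rw [e1] at h3 h4 h5 h6
      exact hC s h5 h6 h4 _ m1 h2.2 m2 h3 h1
    · rintro ⟨s', ⟨h1, h2⟩, rfl⟩
      have e1 : (ψ g)⁻¹ * (ψ g * s' * (ψ g)⁻¹) * ψ g = s' := by group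
      obtain ⟨m1, m2, -⟩ := hM.1 _ h2
      have h3 := hg _ m1 h2.2 m2
      have h4 := c7 (ψ g) hg1 _ m1 m2
      have h5 := ψ.range.mul_mem (ψ.range.mul_mem hg1 m1) (ψ.range.inv_mem hg1)
      have h6 := isT_conj (ψ g) h2.2
      refine ⟨hC s' m1 h2.2 m2 _ h5 h6 h4 (c2 _ h5 _ m1 h3) h1, ?_⟩
      change (ψ g)⁻¹ * (ψ g * s' * (ψ g)⁻¹) * ψ g ∈ _
      rw [e1]
      exact h2
  · -- (5)
    intro z hz g hg s hs hT hC
    have h1 : ψ g ∈ Pq p (im ψ (Qe p x z)) := by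
      rw [← h.vs.BT z hz]
      exact ⟨g, hg, rfl⟩
    exact hCLS U p _ _ E D t e f _ _ hve.me (hMQ z hz) _ h1 s hs hT hC
  · -- (6)
    intro a ha s hs _ _
    exact c6 a ha s hs
  · -- (7)
    intro s hs _ _
    rw [one_mul, inv_one, mul_one]
    exact c1 s hs
  · -- (8)
    intro C hC s hs hT hn s' hs' hT' hn' htc hsC hs'C
    exact hsC (hC s' hs' hT' hn' s hs hT hn (c2 s hs s' hs' htc) hs'C)
  · -- (9)
    intro C hC y hy s hs
    obtain ⟨m1, m2, m3⟩ := (hMQU U p _ _ E D t e f _ _ hve.me (hMQ y hy)).1 s hs.2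
    exact ⟨hC s m1 hs.2.2 m2 s⁻¹ (ψ.range.inv_mem m1) m3.2 (c8 s m1 m2) (c5 s m1) hs.1, m3⟩

end Pool.Agent.Work.MP_6d7bb4.helper94.Sol
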