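import Pool.Agent.Work.MP_6d7bb4_S.Interface2

set_option autoImplicit false
set_option linter.unusedSectionVars false

/-! # MP_6d7bb4, soluble groups: block QDC -/

namespace Pool.Agent.Work.MP_6d7bb4.helper94.Sol

open MulAction Tv Ff Ps
open scoped commutatorElement

theorem s_QDC : Stmt_QDC := by
  intro U _ p _ _ T T' hT hT' hTT a ha b hb u
  -- the centres are fixed
  have h1 : ∀ s ∈ T, ∀ (e1 : U) (f1 : U →+ ZMod p), TV s e1 f1 →
      ∀ b ∈ Subgroup.closure T', (b : AddMonoid.End U) e1 = e1 := by
    intro s hs e1 f1 hse b hb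
    induction hb using Subgroup.closure_induction with
    | mem s' hs' =>
      obtain ⟨e2, f2, h2⟩ := hT' s' hs'
      rw [h2.ap, hTT s hs s' hs' e1 e2 f1 f2 hse h2, zero_smul, add_zero]
    | one => rfl
    | mul x y _ _ hx hy => rw [mul_ap, hy, hx]
    | inv x _ hx =>
      have h3 := inv_ap x e1
      rw [hx] at h3
      exact h3
  have h2 : ∀ u : U, ∀ b ∈ Subgroup.closure T',
      (b : AddMonoid.End U) ((a : AddMonoid.End U) u - u) = (a : AddMonoid.End U) u - u := by
    clear hb
    induction ha using Subgroup.closure_induction with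
    | mem s hs =>
      intro u b hb
      obtain ⟨e1, f1, h2⟩ := hT s hs
      have h3 : (s : AddMonoid.End U) u - u = f1 u • e1 := by
        rw [h2.ap]
        abel
      rw [h3, smul_map, h1 s hs e1 f1 h2 b hb]
    | one =>
      intro u b _
      have h3 : ((1 : Un U) : AddMonoid.End U) u - u = 0 := by
        show u - u = 0
        abel
      rw [h3, map_zero]
    | mul x y _ _ hx hy =>
      intro u b hb
      have h3 : ((x * y : Un U) : AddMonoid.End U) u - u =
          ((x : AddMonoid.End U) ((y : AddMonoid.End U) u) - (y : AddMonoid.End U) u) +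
            ((y : AddMonoid.End U) u - u) := by
        rw [mul_ap]
        abel
      rw [h3, map_add, hx _ b hb, hy _ b hb]
    | inv x _ hx =>
      intro u b hb
      have h3 : ((x⁻¹ : Un U) : AddMonoid.End U) u - u =
          -((x : AddMonoid.End U) (((x⁻¹ : Un U) : AddMonoid.End U) u) -
            ((x⁻¹ : Un U) : AddMonoid.End U) u) := by
        rw [ap_inv]
        abel
      rw [h3, map_neg, hx _ b hb]
  exact h2 u b hb

end Pool.Agent.Work.MP_6d7bb4.helper94.Sol
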