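import Pool.Agent.Work.MP_6d7bb4_S.Interface3

set_option autoImplicit false
set_option linter.unusedSectionVars false

/-! # MP_6d7bb4, block QIX: the index of `Qv` in `Qe` -/

namespace Pool.Agent.Work.MP_6d7bb4.helper94.Sol

open MulAction Tv Ff Ps
open scoped commutatorElement

theorem s_QIX : Stmt_QIX := by
  classical
  intro V G _ _ Γ d p _ h x y hxy
  let act : MulAction (Qe p x y : Subgroup G) {z // Γ.Adj x z} :=
    { smul := fun g z => ⟨g.1 • z.1, by
        have h1 := h.adj g.1 x z.1 z.2
        have h2 : g.1 • x = x := mem_stabilizer_iff.mp (Qe_le_st x y g.2)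
        rwa [h2] at h1⟩
      one_smul := fun z => Subtype.ext (one_smul G z.1)
      mul_smul := fun a b z => Subtype.ext (mul_smul a.1 b.1 z.1) }
  have hker : (Qv Γ p x : Subgroup G).subgroupOf (Qe p x y) =
      (MulAction.toPermHom (Qe p x y : Subgroup G) {z // Γ.Adj x z}).ker := by
    ext g
    rw [Subgroup.mem_subgroupOf, Qv_eq h hxy, Subgroup.mem_inf, MonoidHom.mem_ker]
    constructor
    · rintro ⟨_, h2⟩
      ext z
      exact h2.2 z.1 z.2
    · intro h2
      refine ⟨g.2, mem_stabilizer_iff.mp (Qe_le_st x y g.2), ?_⟩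
      intro z hz
      have h3 := congrArg (fun σ : Equiv.Perm {z // Γ.Adj x z} => (σ ⟨z, hz⟩).1) h2
      exact h3
  have hf := h.nfin x
  have hFt : Fintype {z // Γ.Adj x z} := Fintype.ofFinite _
  rw [Subgroup.relIndex, hker, Subgroup.index_ker]
  calc Nat.card (MulAction.toPermHom (Qe p x y : Subgroup G) {z // Γ.Adj x z}).range
      ≤ Nat.card (Equiv.Perm {z // Γ.Adj x z}) := Subgroup.card_le_card_group _
    _ = (Nat.card {z // Γ.Adj x z}).factorial := by
        rw [Nat.card_eq_fintype_card, Fintype.card_perm, Nat.card_eq_fintype_card]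
    _ ≤ d.factorial := Nat.factorial_le (h.ncard x)

end Pool.Agent.Work.MP_6d7bb4.helper94.Sol
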