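import Pool.Agent.Work.MP_6d7bb4_S.Interface1

set_option autoImplicit false
set_option linter.unusedSectionVars false

/-! # MP_6d7bb4, block TCE: computations modulo a normal subgroup -/

namespace Pool.Agent.Work.MP_6d7bb4.helper94.Sol

open MulAction Tv Ff Ps

theorem s_TCE : Stmt_TCE := by
  intro U _ p Z E hE
  have hn : ∀ g ∈ Z, ∀ x ∈ E, g * x * g⁻¹ ∈ E := fun g hg x hx => hE.nE g hg x hx
  have hn' : ∀ g ∈ Z, ∀ x ∈ E, g⁻¹ * x * g ∈ E := by
    intro g hg x hx
    have h := hn g⁻¹ (Z.inv_mem hg) x hx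
    rwa [inv_inv] at h
  have hsw : ∀ s ∈ Z, ∀ s' ∈ Z, s * s' ∈ E → s' * s ∈ E := by
    intro s hs s' hs' h
    have h1 := hn' s hs _ h
    have e : s⁻¹ * (s * s') * s = s' * s := by group
    rwa [e] at h1
  refine ⟨?_, ?_, ?_, ?_, ?_, ?_, ?_, ?_⟩
  · intro s hs
    left
    rw [mul_inv_cancel]
    exact E.one_mem
  · intro s hs s' hs' h
    rcases h with h | h
    · left
      have h1 := E.inv_mem h
      have e : (s * s'⁻¹)⁻¹ = s' * s⁻¹ := by group
      rwa [e] at h1
    · right
      exact hsw s hs s' hs' h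
  · intro s hs s' hs' s'' hs'' h h'
    rcases h with h | h <;> rcases h' with h' | h'
    · left
      have h1 := E.mul_mem h h'
      have e : s * s'⁻¹ * (s' * s''⁻¹) = s * s''⁻¹ := by group
      rwa [e] at h1
    · right
      have h1 := E.mul_mem h h'
      have e : s * s'⁻¹ * (s' * s'') = s * s'' := by group
      rwa [e] at h1
    · right
      have h1 := E.mul_mem h (hn' s' hs' _ (E.inv_mem h'))
      have e : s * s' * (s'⁻¹ * (s' * s''⁻¹)⁻¹ * s') = s * s'' := by group
      rwa [e] at h1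
    · left
      have h1 := E.mul_mem h (E.inv_mem (hsw s' hs' s'' hs'' h'))
      have e : s * s' * (s'' * s')⁻¹ = s * s''⁻¹ := by group
      rwa [e] at h1
  · intro g hg s hs s' hs' h
    rcases h with h | h
    · left
      have h1 := hn g hg _ h
      have e : g * (s * s'⁻¹) * g⁻¹ = g * s * g⁻¹ * (g * s' * g⁻¹)⁻¹ := by group
      rwa [e] at h1
    · right
      have h1 := hn g hg _ h
      have e : g * (s * s') * g⁻¹ = g * s * g⁻¹ * (g * s' * g⁻¹) := by group
      rwa [e] at h1
  · intro s hs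
    right
    rw [mul_inv_cancel]
    exact E.one_mem
  · intro x hx s hs
    left
    have h1 := E.mul_mem hx (hn s hs _ (E.inv_mem hx))
    have e : x * (s * x⁻¹ * s⁻¹) = x * s * x⁻¹ * s⁻¹ := by group
    rwa [e] at h1
  · intro g hg s hs h hc
    apply h
    intro x hx
    have h1 := hc (g * x * g⁻¹) (hn g hg x hx)
    have e1 : g * s * g⁻¹ * (g * x * g⁻¹) = g * (s * x) * g⁻¹ := by group
    have e2 : g * x * g⁻¹ * (g * s * g⁻¹) = g * (x * s) * g⁻¹ := by group
    rw [e1, e2] at h1
    exact mul_left_cancel (mul_right_cancel h1)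
  · intro s hs h hc
    apply h
    intro x hx
    have h1 := hc x hx
    calc s * x = s * (x * s⁻¹) * s := by group
      _ = s * (s⁻¹ * x) * s := by rw [h1]
      _ = x * s := by group

end Pool.Agent.Work.MP_6d7bb4.helper94.Sol
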