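import Pool.Agent.Work.MP_6d7bb4_S.Interface1

set_option autoImplicit false
set_option linter.unusedSectionVars false

/-!
# Block TCF (helper63)
-/

namespace Pool.Agent.Work.MP_6d7bb4.helper94.Sol

open MulAction Tv Ff Ps
open scoped commutatorElement

theorem s_TCF (hE : Stmt_TCE) (hP : Stmt_TCP) (hU : Stmt_TCU) : Stmt_TCF := by
  intro U _ p _ _ Z E hEn s b e f hs hsZ hbZ hCn k hbk hbe hTc
  obtain ⟨hrefl, hsymm, htrans, hconj, hinv, hx, hCg, hCi⟩ := hE U p Z E hEn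
  have hs' := hs.conj b
  rw [hbe] at hs'
  have hbsZ : b * s * b⁻¹ ∈ Z := Z.mul_mem (Z.mul_mem hbZ hsZ) (Z.inv_mem hbZ)
  have hCn' : ¬ Cn E (b * s * b⁻¹) := hCg b hbZ s hsZ hCn
  have h1 := hP U p Z E hEn s (b * s * b⁻¹) e e f _ hs hs' hsZ hbsZ hCn hCn'
  by_cases h2 : b * s * b⁻¹ = s
  · exact (hU U p hEn.p23 s b e f hs k hbk (Or.inl h2)).2.2
  · by_cases h3 : b * s * b⁻¹ = s⁻¹
    · exact (hU U p hEn.p23 s b e f hs k hbk (Or.inr h3)).2.2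
    · exact absurd hs.fe (h1.2.1 (hsymm _ hbsZ _ hsZ hTc) h2 h3).1

end Pool.Agent.Work.MP_6d7bb4.helper94.Sol
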