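import Pool.Agent.Work.MP_6d7bb4_S.Interface1

/-! # MP_6d7bb4: all soluble semiprimitive groups; block TCL -/

set_option autoImplicit false
set_option linter.unusedSectionVars false
set_option linter.unusedVariables false

namespace Pool.Agent.Work.MP_6d7bb4.helper94.Sol

open MulAction Tv Ff Ps

namespace X_TCL

variable {U : Type} [AddCommGroup U] {p : ℕ} [Fact p.Prime] [Module (ZMod p) U]

/-- the conclusion -/
def Cc (p : ℕ) [Fact p.Prime] [Module (ZMod p) U] (e1 e2 e3 : U) (f1 f2 f3 : U →+ ZMod p) :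
    Prop :=
  (∃ a b : ZMod p, e3 = a • e1 + b • e2) ∧ ∃ a b : ZMod p, ∀ v, f3 v = a * f1 v + b * f2 v

theorem fin {t s'' : Un U} {e e1 e2 e3 : U} {f f1 f2 f3 : U →+ ZMod p} (h : TV t e f)
    (h3 : TV s'' e3 f3) (ht : s'' = t) (he : ∃ a b : ZMod p, e = a • e1 + b • e2)
    (hf : ∃ a b : ZMod p, ∀ v, f v = a * f1 v + b * f2 v) : Cc p e1 e2 e3 f1 f2 f3 := by
  subst ht
  obtain ⟨c, hc, h4, h5⟩ := h.uniq h3
  obtain ⟨a, b, hab⟩ := he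
  obtain ⟨a', b', hab'⟩ := hf
  refine ⟨⟨c * a, c * b, ?_⟩, c⁻¹ * a', c⁻¹ * b', fun v => ?_⟩
  · rw [h4, hab]
    module
  · have h6 : f3 v = c⁻¹ * (c * f3 v) := by
      rw [← mul_assoc, inv_mul_cancel₀ hc, one_mul]
    rw [h6, ← h5, hab']
    ring

theorem core0 {Z E : Subgroup (Un U)} (hE : En p Z E) {s s' s'' : Un U} {e1 e2 e3 : U}
    {f1 f2 f3 : U →+ ZMod p} (h1 : TV s e1 f1) (h2 : TV s' e2 f2) (h3 : TV s'' e3 f3)
    (hs : s ∈ Z) (hs' : s' ∈ Z) (c2 : s' * s⁻¹ ∈ E) (c3 : s'' * s⁻¹ ∈ E) (hne : f1 e2 ≠ 0) :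
    Cc p e1 e2 e3 f1 f2 f3 := by
  have key : ∀ a b : Un U, a * s⁻¹ ∈ E → b * s⁻¹ ∈ E →
      ∃ n, Nat.Coprime n p ∧ (a * b⁻¹) ^ n = 1 := by
    intro a b ha hb
    refine hE.co _ ?_
    have e1 : a * b⁻¹ = (a * s⁻¹) * (b * s⁻¹)⁻¹ := by group
    rw [e1]
    exact E.mul_mem ha (E.inv_mem hb)
  have c1 : s * s⁻¹ ∈ E := by
    rw [mul_inv_cancel]
    exact E.one_mem
  have hn : ∀ b ∈ Z, ∀ n ∈ E, b * n * b⁻¹ ∈ E := hE.nE
  have hn' : ∀ b ∈ Z, ∀ n ∈ E, b⁻¹ * n * b ∈ E := by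
    intro b hb n hn1
    have := hn b⁻¹ (Z.inv_mem hb) n hn1
    rwa [inv_inv] at this
  have hss' : s ≠ s' := by
    rintro rfl
    obtain ⟨c, -, h4, -⟩ := h1.uniq h2
    apply hne
    rw [h4, f_smul, h1.fe, mul_zero]
  by_cases d1 : s'' = s
  · exact fin h1 h3 d1 ⟨1, 0, by module⟩ ⟨1, 0, fun v => by ring⟩
  by_cases d2 : s'' = s'
  · exact fin h2 h3 d2 ⟨0, 1, by module⟩ ⟨0, 1, fun v => by ring⟩
  obtain ⟨n12, hn12, hy12⟩ := key s s' c1 c2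
  obtain ⟨n13, hn13, hy13⟩ := key s s'' c1 c3
  obtain ⟨n23, hn23, hy23⟩ := key s' s'' c2 c3
  have h12 := pair hE.p23 h1 h2 hss' hn12 hy12
  have h13 := pair hE.p23 h1 h3 (Ne.symm d1) hn13 hy13
  have h23 := pair hE.p23 h2 h3 (Ne.symm d2) hn23 hy23
  have c4 : s' * s * s'⁻¹ * s⁻¹ ∈ E := by
    have e1 : s' * s * s'⁻¹ * s⁻¹ = (s' * s⁻¹) * (s * (s' * s⁻¹)⁻¹ * s⁻¹) := by group
    rw [e1]
    exact E.mul_mem c2 (hn s hs _ (E.inv_mem c2))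
  have c5 : s'⁻¹ * s * s' * s⁻¹ ∈ E := by
    have e1 : s'⁻¹ * s * s' * s⁻¹ = (s⁻¹ * (s' * s⁻¹)⁻¹ * s) * (s' * s⁻¹) := by group
    rw [e1]
    exact E.mul_mem (hn' s hs _ (E.inv_mem c2)) c2
  obtain ⟨n4, hn4, hy4⟩ := key s'' (s' * s * s'⁻¹) c3 c4
  obtain ⟨n5, hn5, hy5⟩ := key s'' (s'⁻¹ * s * s') c3 c5
  rcases triple hE.p23 h1 h2 h3 h12 h13 h23 (n := n4 * n5) (Nat.Coprime.mul_left hn4 hn5)
    (by rw [pow_mul, hy4, one_pow]) (by rw [mul_comm, pow_mul, hy5, one_pow]) with h6 | h6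
  · refine fin (h1.conj s') h3 h6 ⟨1, f2 e1, ?_⟩ ⟨1, -f1 e2, fun v => ?_⟩
    · rw [h2.ap]
      module
    · show f1 (((s'⁻¹ : Un U) : AddMonoid.End U) v) = _
      rw [h2.inv.ap, map_add, f_smul, AddMonoidHom.neg_apply]
      ring
  · have h7 := h1.conj s'⁻¹
    rw [inv_inv] at h7
    refine fin h7 h3 h6 ⟨1, -f2 e1, ?_⟩ ⟨1, f1 e2, fun v => ?_⟩
    · rw [h2.inv.ap, AddMonoidHom.neg_apply]
      module
    · show f1 ((s' : AddMonoid.End U) v) = _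
      rw [h2.ap, map_add, f_smul]
      ring

end X_TCL

open X_TCL in
/-- TCL. -/
theorem s_TCL (hTCE : Stmt_TCE) (hTCP : Stmt_TCP) : Stmt_TCL := by
  intro U _ p _ _ Z E hE s s' s'' e1 e2 e3 f1 f2 f3 h1 h2 h3 hs hs' hs'' _ _ _ ht ht' hne
  have inv1 : ∀ a b : Un U, a * b⁻¹ ∈ E → b * a⁻¹ ∈ E := by
    intro a b h
    have e1 : b * a⁻¹ = (a * b⁻¹)⁻¹ := by group
    rw [e1]
    exact E.inv_mem h
  have inv2 : ∀ a b : Un U, a * b ∈ E → b⁻¹ * a⁻¹ ∈ E := by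
    intro a b h
    have e1 : b⁻¹ * a⁻¹ = (a * b)⁻¹ := by group
    rw [e1]
    exact E.inv_mem h
  -- the case of `s'`
  have A : ∀ {t : Un U} {f : U →+ ZMod p}, TV t e3 f → t * s⁻¹ ∈ E →
      Cc p e1 e2 e3 f1 f2 f := by
    intro t f h ht1
    rcases ht with h4 | h4
    · exact core0 hE h1 h2 h hs hs' (inv1 _ _ h4) ht1 hne
    · obtain ⟨h5, a, b, h6⟩ := core0 hE h1 h2.inv h hs (Z.inv_mem hs') (inv2 _ _ h4) ht1 hne
      refine ⟨h5, a, -b, fun v => ?_⟩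
      rw [h6, AddMonoidHom.neg_apply]
      ring
  rcases ht' with h4 | h4
  · exact A h3 (inv1 _ _ h4)
  · obtain ⟨h5, a, b, h6⟩ := A h3.inv (inv2 _ _ h4)
    refine ⟨h5, -a, -b, fun v => ?_⟩
    have h7 := h6 v
    rw [AddMonoidHom.neg_apply] at h7
    rw [← neg_neg (f3 v), h7]
    ring

end Pool.Agent.Work.MP_6d7bb4.helper94.Sol
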