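import Pool.Agent.Work.MP_6d7bb4_S.Interface1

set_option autoImplicit false
set_option linter.unusedSectionVars false

/-! # MP_6d7bb4, block TCN: a partner of a transvection -/

namespace Pool.Agent.Work.MP_6d7bb4.helper94.Sol

open MulAction Tv Ff Ps

theorem s_TCN (hTCE : Stmt_TCE) (hTCP : Stmt_TCP) : Stmt_TCN := by
  intro U _ p _ _ Z E hE s e f hs hsZ hc
  obtain ⟨-, h2, -, -, -, h6, h7, -⟩ := hTCE U p Z E hE
  unfold Cn at hc
  push Not at hc
  obtain ⟨x, hx, hsx⟩ := hc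
  have hxZ : x ∈ Z := hE.EZ hx
  have hs'Z : x * s * x⁻¹ ∈ Z := Z.mul_mem (Z.mul_mem hxZ hsZ) (Z.inv_mem hxZ)
  have hTV := hs.conj x
  have hcn : ¬ Cn E s := by
    intro h
    exact hsx (h x hx)
  have hcn' : ¬ Cn E (x * s * x⁻¹) := h7 x hxZ s hsZ hcn
  have hTc : Tc E s (x * s * x⁻¹) := h2 _ hs'Z _ hsZ (h6 x hx s hsZ)
  have hne : x * s * x⁻¹ ≠ s := by
    intro h
    apply hsx
    calc s * x = x * s * x⁻¹ * x := by rw [h]
      _ = x * s := by group
  have hne' : x * s * x⁻¹ ≠ s⁻¹ := by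
    intro h
    rcases hE.p23 with hp | hp
    · subst hp
      have h3 : s ^ 2 = 1 := hs.pow_p
      apply hne
      rw [h]
      rw [pow_two] at h3
      exact inv_eq_of_mul_eq_one_left h3
    · subst hp
      have h3 : s ^ 3 = 1 := hs.pow_p
      have h4 : s * x * s⁻¹ ∈ E := hE.nE s hsZ x hx
      have h5 : s * s ∈ E := by
        have h6 : s * x * s⁻¹ * x⁻¹ ∈ E := E.mul_mem h4 (E.inv_mem hx)
        have h7 : s * x * s⁻¹ * x⁻¹ = s * s := by
          calc s * x * s⁻¹ * x⁻¹ = s * (x * s * x⁻¹)⁻¹ := by group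
            _ = s * s := by rw [h, inv_inv]
        rwa [h7] at h6
      obtain ⟨n, hn, hn1⟩ := hE.co _ h5
      have h8 : s ^ (2 * n) = 1 := by
        rw [pow_mul, pow_two]
        exact hn1
      have h9 : orderOf s ∣ 2 * n := orderOf_dvd_of_pow_eq_one h8
      have h10 : orderOf s ∣ 3 := orderOf_dvd_of_pow_eq_one h3
      have h11 : Nat.Coprime (2 * n) 3 := Nat.Coprime.mul_left (by norm_num) hn
      have h12 : orderOf s = 1 := Nat.Coprime.eq_one_of_dvd
        (Nat.Coprime.coprime_dvd_left h9 h11) h10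
      exact hs.ne1 (orderOf_eq_one_iff.1 h12)
  have h := (hTCP U p Z E hE s (x * s * x⁻¹) e _ f _ hs hTV hsZ hs'Z hcn hcn').2.1 hTc hne hne'
  exact ⟨x, hx, h.1, h.2⟩

end Pool.Agent.Work.MP_6d7bb4.helper94.Sol
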