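import Pool.Agent.Work.MP_6d7bb4_S.Interface1

set_option autoImplicit false

/-! # MP_6d7bb4, block TCU: unipotent elements which normalise a transvection group (helper89) -/

namespace Pool.Agent.Work.MP_6d7bb4.helper94.Sol

open MulAction Tv Ff Ps

namespace X_TCU

theorem z3 : ∀ x : ZMod 3, x = -x → x = 0 := by decide

variable {U : Type} [AddCommGroup U] {p : ℕ} [Fact p.Prime] [Module (ZMod p) U]

theorem one_ap (v : U) : ((1 : Un U) : AddMonoid.End U) v = v := rfl

theorem pow_e (b : Un U) (e : U) (c : ZMod p) (h : (b : AddMonoid.End U) e = c • e) (n : ℕ) :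
    ((b ^ n : Un U) : AddMonoid.End U) e = c ^ n • e := by
  induction n with
  | zero => rw [pow_zero, pow_zero, one_smul]; rfl
  | succ n ih =>
    rw [pow_succ, mul_ap, h, smul_map, ih, ← mul_smul, pow_succ, mul_comm]

theorem c_one (b : Un U) (e : U) (he : e ≠ 0) (c : ZMod p)
    (h : (b : AddMonoid.End U) e = c • e) (k : ℕ) (hb : b ^ p ^ k = 1) : c = 1 := by
  have h1 := pow_e b e c h (p ^ k)
  rw [hb, one_ap, ZMod.pow_card_pow] at h1
  have h2 : c • e = (1 : ZMod p) • e := by rw [one_smul, ← h1]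
  exact smul_inj he h2

theorem tcuA {s b : Un U} {e : U} {f : U →+ ZMod p} (h : TV s e f) (k : ℕ)
    (hb : b ^ p ^ k = 1) (hs : b * s * b⁻¹ = s) :
    (b : AddMonoid.End U) e = e ∧ (∀ v, f ((b : AddMonoid.End U) v) = f v) ∧
      b * s = s * b := by
  have h1 := h.conj b
  rw [hs] at h1
  obtain ⟨c, -, hc2, hc3⟩ := h.uniq h1
  have hc : c = 1 := c_one b e h.e0 c hc2 k hb
  subst hc
  refine ⟨by rw [hc2, one_smul], fun v => ?_, ?_⟩
  · rw [hc3 ((b : AddMonoid.End U) v), one_mul]
    show f (((b⁻¹ : Un U) : AddMonoid.End U) ((b : AddMonoid.End U) v)) = f v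
    rw [inv_ap]
  · exact mul_inv_eq_iff_eq_mul.mp hs

end X_TCU

open X_TCU in
theorem s_TCU : Stmt_TCU := by
  intro U _ p _ _ hp s b e f h k hb hor
  rcases hor with hs | hs
  · exact tcuA h k hb hs
  rcases hp with rfl | rfl
  · have h1 : s⁻¹ = s := by
      refine h.inv.ext h (fun v => ?_)
      rw [AddMonoidHom.neg_apply, ZMod.neg_eq_self_mod_two]
    rw [h1] at hs
    exact tcuA h k hb hs
  · exfalso
    have h1 := h.conj b
    rw [hs] at h1
    obtain ⟨c, -, hc2, hc3⟩ := h.inv.uniq h1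
    have hc : c = 1 := c_one b e h.e0 c hc2 k hb
    subst hc
    have h2 : ∀ v, f ((b : AddMonoid.End U) v) = - f v := by
      intro v
      have h3 := hc3 ((b : AddMonoid.End U) v)
      rw [one_mul, AddMonoidHom.neg_apply] at h3
      have h4 : (f.comp ((b⁻¹ : Un U) : AddMonoid.End U)) ((b : AddMonoid.End U) v) = f v := by
        show f (((b⁻¹ : Un U) : AddMonoid.End U) ((b : AddMonoid.End U) v)) = f v
        rw [inv_ap]
      rw [h4] at h3
      rw [← h3, neg_neg]
    have h5 : ∀ (n : ℕ) (v : U), f (((b ^ n : Un U) : AddMonoid.End U) v) = (-1) ^ n * f v := by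
      intro n
      induction n with
      | zero => intro v; rw [pow_zero, pow_zero, one_mul]; rfl
      | succ n ih =>
        intro v
        rw [pow_succ, mul_ap, ih, h2, pow_succ]
        ring
    obtain ⟨v, hv⟩ := h.f0
    have h6 := h5 (3 ^ k) v
    rw [hb, one_ap, Odd.neg_one_pow (Odd.pow (by decide))] at h6
    apply hv
    rw [neg_one_mul] at h6
    exact z3 _ h6

end Pool.Agent.Work.MP_6d7bb4.helper94.Sol
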