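import Pool.Agent.Work.MP_6d7bb4_S.Interface3

set_option autoImplicit false
set_option linter.unusedSectionVars false

/-!
# MP_6d7bb4, block TG1: tight subgroups
-/

namespace Pool.Agent.Work.MP_6d7bb4.helper94.Sol

open MulAction Tv Ff Ps
open scoped commutatorElement

namespace X_TG1

/-- `im` is monotone -/
theorem im_mono {G H : Type*} [Group G] [Group H] {X : Subgroup G} {ψ : X →* H}
    {A A' : Subgroup G} (h : A ≤ A') : im ψ A ≤ im ψ A' := by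
  intro s hs
  obtain ⟨g, hg, hgs⟩ := mem_im'.1 hs
  exact mem_im'.2 ⟨g, h hg, hgs⟩

end X_TG1

theorem s_TG1 (hGTR : Stmt_GTR) (hVMQ : Stmt_VMQ) (hLBI : Stmt_LBI) (hPY1 : Stmt_PY1) :
    Stmt_TG1 := by
  intro V G _ _ Γ d p _ x W S R Bm U _ _ ψ E D t e f hVB y hxy P hSP hPB
  have vs := hVB.vs
  have ve := vs.ve
  have me := ve.me
  have hmq := (hVMQ V G Γ d p hVB.loc x R U ψ E D t e f ve y hxy).1
  obtain ⟨g1, -⟩ := hGTR U p (im ψ (Nh Γ p x)) ψ.range E D t e f (im ψ (Qe p x y))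
    (im ψ (B x y)) me hmq (Tq p (im ψ (Qe p x y))) (le_refl _)
  have h1 : im ψ P ≤ im ψ (Bm y) := X_TG1.im_mono hPB
  have h2 : im ψ (Bm y) = Pq p (im ψ (Qe p x y)) := vs.BT y hxy
  have hPR : P ⊓ R ≤ S := le_trans (inf_le_inf_right R hPB) (vs.BR y hxy)
  have hPQ : P ≤ Qe p x y := hPB.trans (vs.BQ y hxy)
  have hab : ∀ a ∈ im ψ P, ∀ b ∈ im ψ P, a * b = b * a := by
    intro a ha b hb
    have ha' := h1 ha
    have hb' := h1 hb
    rw [h2] at ha' hb'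
    exact g1 a ha' b hb'
  obtain ⟨k1, k2⟩ := hLBI V G Γ d p hVB.loc x W R U ψ E D t e f ve hVB.md vs.Wf y hxy S P
    vs.SR hSP hPR hPQ hab
  refine ⟨k1, fun hT => ?_⟩
  obtain ⟨k3, k4⟩ := k2 (le_of_eq (Eq.symm hT))
  refine ⟨?_, ?_, k4⟩
  · exact (hPY1 V G Γ d p x W S R Bm U ψ E D t e f hVB y hxy).2.2.1 P hSP hPB
      (Tq p (im ψ P)) k3
  · rintro s ⟨hs, hs'⟩
    exact ⟨X_TG1.im_mono hPQ hs, hs'⟩

end Pool.Agent.Work.MP_6d7bb4.helper94.Sol
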