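import Pool.Agent.Work.MP_6d7bb4_S.Interface1

set_option autoImplicit false
set_option linter.unusedSectionVars false

/-! # MP_6d7bb4: block TH1, elementary abelian subgroups and the Thompson subgroup -/

namespace Pool.Agent.Work.MP_6d7bb4.helper94.Sol

namespace X_TH1

variable {G : Type} [Group G] {p : ℕ}

theorem card_cj (g : G) (A : Subgroup G) : Nat.card (cj g A) = Nat.card A := by
  apply Nat.card_congr
  refine ⟨fun b => ⟨g⁻¹ * b.1 * g, mem_cj.1 b.2⟩, fun a => ⟨g * a.1 * g⁻¹, conj_mem_cj a.2⟩, ?_, ?_⟩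
  · intro b
    apply Subtype.ext
    change g * (g⁻¹ * b.1 * g) * g⁻¹ = b.1
    group
  · intro a
    apply Subtype.ext
    change g⁻¹ * (g * a.1 * g⁻¹) * g = a.1
    group

theorem El_cj (g : G) {A : Subgroup G} (h : El p A) : El p (cj g A) := by
  refine ⟨fun a ha b hb => ?_, fun a ha => ?_⟩
  · rw [mem_cj] at ha hb
    have h1 := h.cm _ ha _ hb
    have h2 : g⁻¹ * (a * b) * g = g⁻¹ * (b * a) * g := by
      calc g⁻¹ * (a * b) * g = g⁻¹ * a * g * (g⁻¹ * b * g) := by group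
        _ = g⁻¹ * b * g * (g⁻¹ * a * g) := h1
        _ = g⁻¹ * (b * a) * g := by group
    exact mul_left_cancel (mul_right_cancel h2)
  · rw [mem_cj] at ha
    have h1 := h.ex _ ha
    have h2 : (g⁻¹ * a * g) ^ p = g⁻¹ * a ^ p * g := by
      have := conj_pow (i := p) (a := g⁻¹) (b := a)
      rw [inv_inv] at this
      exact this
    rw [h2] at h1
    have : a ^ p = g * (g⁻¹ * a ^ p * g) * g⁻¹ := by group
    rw [this, h1]
    group

theorem Am_cj (g : G) {Q A : Subgroup G} (h : Am p Q A) : Am p (cj g Q) (cj g A) := by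
  refine ⟨cj_mono g h.le, El_cj g h.el, fun B hB hBe => ?_⟩
  have h1 : cj g⁻¹ B ≤ Q := by
    have := cj_mono g⁻¹ hB
    rwa [cj_cj_inv] at this
  have h2 := h.mx _ h1 (El_cj g⁻¹ hBe)
  rwa [card_cj, ← card_cj g A] at h2

theorem Am_le_Jt {Q A : Subgroup G} (h : Am p Q A) : A ≤ Jt p Q :=
  le_iSup (fun A : {A : Subgroup G // Am p Q A} => A.1) ⟨A, h⟩

theorem Jt_cj (g : G) (Q : Subgroup G) : Jt p (cj g Q) = cj g (Jt p Q) := by
  have key : ∀ (g : G) (Q : Subgroup G), cj g (Jt p Q) ≤ Jt p (cj g Q) := by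
    intro g Q
    have h1 : Jt p Q ≤ cj g⁻¹ (Jt p (cj g Q)) := by
      refine iSup_le (fun A => ?_)
      have h3 := cj_mono g⁻¹ (Am_le_Jt (Am_cj g A.2))
      rwa [cj_cj_inv] at h3
    have h4 := cj_mono g h1
    rwa [cj_inv_cj] at h4
  refine le_antisymm ?_ (key g Q)
  have h1 := cj_mono g (key g⁻¹ (cj g Q))
  rwa [cj_inv_cj, cj_cj_inv] at h1

theorem El_sup {A B : Subgroup G} (hA : El p A) (hB : El p B)
    (hc : ∀ a ∈ A, ∀ b ∈ B, a * b = b * a) : El p (A ⊔ B) := by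
  refine ⟨fun x hx y hy => ?_, fun x hx => ?_⟩
  · obtain ⟨a, ha, b, hb, rfl⟩ := mem_sup_nm (nm_of_comm hc) hx
    obtain ⟨a', ha', b', hb', rfl⟩ := mem_sup_nm (nm_of_comm hc) hy
    calc a * b * (a' * b') = a * (b * a') * b' := by group
      _ = a * (a' * b) * b' := by rw [hc a' ha' b hb]
      _ = (a * a') * (b * b') := by group
      _ = (a' * a) * (b' * b) := by rw [hA.cm a ha a' ha', hB.cm b hb b' hb']
      _ = a' * (a * b') * b := by group
      _ = a' * (b' * a) * b := by rw [hc a ha b' hb']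
      _ = a' * b' * (a * b) := by group
  · obtain ⟨a, ha, b, hb, rfl⟩ := mem_sup_nm (nm_of_comm hc) hx
    have h1 : Commute a b := hc a ha b hb
    rw [h1.mul_pow, hA.ex a ha, hB.ex b hb, one_mul]

theorem El_zpowers {z : G} (hz : z ^ p = 1) : El p (Subgroup.zpowers z) := by
  refine ⟨fun x hx y hy => ?_, fun x hx => ?_⟩
  · obtain ⟨k, rfl⟩ := Subgroup.mem_zpowers_iff.1 hx
    obtain ⟨l, rfl⟩ := Subgroup.mem_zpowers_iff.1 hy
    rw [← zpow_add, ← zpow_add, add_comm]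
  · obtain ⟨k, rfl⟩ := Subgroup.mem_zpowers_iff.1 hx
    rw [← zpow_natCast, ← zpow_mul, mul_comm, zpow_mul, zpow_natCast, hz, one_zpow]

theorem card_sup {A B : Subgroup G} (hfA : Finite A) (hfB : Finite B)
    (hc : ∀ a ∈ A, ∀ b ∈ B, a * b = b * a) :
    Nat.card (A ⊔ B : Subgroup G) * Nat.card (A ⊓ B : Subgroup G) =
      Nat.card A * Nat.card B := by
  let φ : A × B →* G := MonoidHom.noncommCoprod A.subtype B.subtype
    (fun a b => hc a.1 a.2 b.1 b.2)
  have hr : φ.range = A ⊔ B := by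
    change (MonoidHom.noncommCoprod A.subtype B.subtype _).range = A ⊔ B
    rw [MonoidHom.noncommCoprod_range, Subgroup.range_subtype, Subgroup.range_subtype]
  have h1 := Subgroup.card_mul_index φ.ker
  rw [Subgroup.index_ker, hr, Nat.card_prod] at h1
  have h2 : Nat.card φ.ker = Nat.card (A ⊓ B : Subgroup G) := by
    apply Nat.card_congr
    refine ⟨fun x => ⟨x.1.1.1, ?_⟩, fun x => ⟨(⟨x.1, x.2.1⟩, ⟨x.1⁻¹, B.inv_mem x.2.2⟩), ?_⟩,
      ?_, ?_⟩
    · refine ⟨x.1.1.2, ?_⟩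
      have h3 : x.1.1.1 * x.1.2.1 = 1 := x.2
      rw [eq_inv_of_mul_eq_one_left h3]
      exact B.inv_mem x.1.2.2
    · change x.1 * x.1⁻¹ = 1
      exact mul_inv_cancel _
    · intro x
      apply Subtype.ext
      apply Prod.ext
      · rfl
      · apply Subtype.ext
        have h3 : x.1.1.1 * x.1.2.1 = 1 := x.2
        change x.1.1.1⁻¹ = x.1.2.1
        exact (eq_inv_of_mul_eq_one_right h3).symm
    · intro x
      rfl
  rw [← h2, mul_comm]
  exact h1

end X_TH1

open X_TH1 in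
theorem s_TH1 : Stmt_TH1 := by
  intro G _ p _
  refine ⟨?_, fun g Q A h => Am_cj g h, Jt_cj, ?_, fun A B => El_sup, fun A B => card_sup⟩
  · intro Q hQ
    have hfin : {A : Subgroup G | A ≤ Q ∧ El p A}.Finite :=
      (finite_Iic Q).subset (fun A h => h.1)
    have hne : {A : Subgroup G | A ≤ Q ∧ El p A}.Nonempty := by
      refine ⟨⊥, bot_le, ⟨fun a ha b hb => ?_, fun a ha => ?_⟩⟩
      · rw [Subgroup.mem_bot] at ha hb
        rw [ha, hb]
      · rw [Subgroup.mem_bot] at ha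
        rw [ha, one_pow]
    obtain ⟨A, hA, hmax⟩ := Set.exists_max_image _ (fun A : Subgroup G => Nat.card A) hfin hne
    exact ⟨A, hA.1, hA.2, fun B hB hBe => hmax B ⟨hB, hBe⟩⟩
  · intro Q A hQ hA z hzQ hzp hc
    have hc' : ∀ a ∈ A, ∀ b ∈ Subgroup.zpowers z, a * b = b * a := by
      intro a ha b hb
      obtain ⟨k, rfl⟩ := Subgroup.mem_zpowers_iff.1 hb
      have h1 : Commute a z := hc a ha
      exact h1.zpow_right k
    have h1 := El_sup hA.el (El_zpowers hzp) hc'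
    have h2 : A ⊔ Subgroup.zpowers z ≤ Q := sup_le hA.le (Subgroup.zpowers_le.2 hzQ)
    have hf : Finite (A ⊔ Subgroup.zpowers z : Subgroup G) :=
      Finite.of_injective _ (Subgroup.inclusion_injective h2)
    have h3 := Subgroup.eq_of_le_of_card_ge (le_sup_left : A ≤ A ⊔ Subgroup.zpowers z)
      (hA.mx _ h2 h1)
    rw [h3]
    exact (le_sup_right : Subgroup.zpowers z ≤ A ⊔ Subgroup.zpowers z)
      (Subgroup.mem_zpowers z)

end Pool.Agent.Work.MP_6d7bb4.helper94.Sol
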