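import Pool.Agent.Work.MP_6d7bb4_S.Interface3

set_option autoImplicit false
set_option linter.unusedSectionVars false

/-! # MP_6d7bb4, block TJ1: the vertex environment of the Baumann system -/

namespace Pool.Agent.Work.MP_6d7bb4.helper94.Sol

open MulAction Tv Ff Ps

theorem s_TJ1 (hOTV : Stmt_OTV) (hBST : Stmt_BST) (hFMB : Stmt_FMB) (hVEX : Stmt_VEX)
    (hBAU1 : Stmt_BAU1) (hBAU4 : Stmt_BAU4) : Stmt_TJ1 := by
  intro V G _ _ Γ d p _ hH x y hxy R U _ _ _ ψ hψ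
  have h := hH.loc
  obtain ⟨b1, -⟩ := hBAU1 V G Γ d p hH
  obtain ⟨c1, -, -, c4, c5⟩ := hBAU4 V G Γ d p hH
  obtain ⟨e5, -, -, -, e9, -, -⟩ := c5 x y hxy
  obtain ⟨A, hA, hAQv⟩ : ∃ A : Subgroup G, Am p (Qe p x y) A ∧ ¬ A ≤ Qv Γ p x := by
    by_contra hc
    push_neg at hc
    exact b1 x y hxy (iSup_le fun A => hc A.1 A.2)
  have hAs : A ≤ stabilizer G x := hA.le.trans (Qe_le_st x y)
  have hWel : El p (Wp (G := G) Γ p x) := c1.el x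
  have hWQ : Wp (G := G) Γ p x ≤ Qe p x y :=
    (c4 x).trans (e5.trans inf_le_left)
  have hQf : Finite (Qe p x y : Subgroup G) := h.fin_le (Qe_le_st x y)
  have hRK : R ⊓ B x y ≤ K Γ x :=
    (hFMB V G Γ d p (Zp p) h c1).2.2.2.1 x y hxy R hψ.isR.le hψ.isR.nm hψ.isR.pa
  have hAQ : ∀ a ∈ A, a ∈ R → a ∈ Qv Γ p x := by
    intro a ha haR
    rw [Qv_eq h hxy]
    exact ⟨hA.le ha, hRK ⟨haR, Qe_le x y (hA.le ha)⟩⟩
  have hAR : ∀ a ∈ A, a ∈ R → ∀ v ∈ Wp (G := G) Γ p x, a * v = v * a := by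
    intro a ha haR v hv
    have h1 : a ∈ Sp (G := G) Γ p x := e9 A hA ⟨ha, hAQ a ha haR⟩
    exact ((mem_Cw.mp h1).2 v hv).symm
  have hoff : Nat.card (Wp (G := G) Γ p x) *
      Nat.card (A ⊓ Subgroup.centralizer (Wp (G := G) Γ p x : Set G) : Subgroup G) ≤
      Nat.card A * Nat.card (Wp (G := G) Γ p x ⊓ Subgroup.centralizer (A : Set G) : Subgroup G) := by
    have h1 := hBST G p (Qe p x y) A (Wp Γ p x) (Cw A (Wp Γ p x)) hQf hA hWQ hWel inf_le_left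
    have h2 : Cw (Wp (G := G) Γ p x) (Cw A (Wp Γ p x)) = Wp Γ p x := by
      apply le_antisymm inf_le_left
      intro v hv
      refine mem_Cw.mpr ⟨hv, fun a ha => ?_⟩
      exact ((mem_Cw.mp ha).2 v hv).symm
    rw [h2, mul_comm] at h1
    exact h1
  have hof := hψ.of A hAs hAR hoff
  -- the groups
  obtain ⟨A', hA'⟩ : ∃ A', A' = (A.subgroupOf (stabilizer G x)).map ψ := ⟨_, rfl⟩
  obtain ⟨Y, hY⟩ : ∃ Y, Y = ((Nh Γ p x : Subgroup G).subgroupOf (stabilizer G x)).map ψ :=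
    ⟨_, rfl⟩
  rw [← hA'] at hof
  have hNhs : Nm (stabilizer G x) (Nh Γ p x : Subgroup G) := nm_of_equiv (Nh_cj h) x
  have hfs := h.fin x
  have hYZ : Y ≤ ψ.range := by
    rw [hY]
    rintro _ ⟨g, _, rfl⟩
    exact ⟨g, rfl⟩
  have hYn : Nm ψ.range Y := by
    rw [hY]
    rintro _ ⟨g, rfl⟩ _ ⟨n, hn, rfl⟩
    refine ⟨g * n * g⁻¹, hNhs g.1 g.2 n.1 hn, ?_⟩
    rw [map_mul, map_mul, map_inv]
  have hYps : PSol p Y := by
    have hfN := h.fin_le (Nh_le (Γ := Γ) (p := p) (G := G) x)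
    have h1 := psol_range (Fact.out : p.Prime)
      (ψ.comp (Subgroup.inclusion (Nh_le (Γ := Γ) (p := p) (G := G) x))) (psol_top (hH.ps x))
    have h2 : (ψ.comp (Subgroup.inclusion (Nh_le (Γ := Γ) (p := p) (G := G) x))).range =
        Y := by
      rw [hY]
      ext s
      constructor
      · rintro ⟨n, rfl⟩
        exact ⟨⟨n.1, Nh_le x n.2⟩, n.2, rfl⟩
      · rintro ⟨n, hn, rfl⟩
        exact ⟨⟨n.1, hn⟩, rfl⟩
    rwa [h2] at h1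
  have hnp' : ∀ N : Subgroup (Un U), N ≤ Y → Nm ψ.range N → IsPGroup p N → N = ⊥ :=
    fun N h1 h2 h3 => hψ.np N (h1.trans hYZ) h2 h3
  have hAN : A ≤ (Nh Γ p x : Subgroup G) := hA.le.trans (Qe_le_Nh hxy)
  have hA'Y : A' ≤ Y := by
    rw [hA', hY]
    rintro _ ⟨g, hg, rfl⟩
    exact ⟨g, hAN hg, rfl⟩
  have hA1 : A' ≠ ⊥ := by
    intro hcon
    apply hAQv
    intro a ha
    have h1 : ψ ⟨a, hAs ha⟩ ∈ A' := by
      rw [hA']
      exact ⟨_, ha, rfl⟩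
    rw [hcon, Subgroup.mem_bot] at h1
    exact hAQ a ha ((hψ.ker ⟨a, hAs ha⟩).mpr h1)
  have hAab : ∀ a ∈ A', ∀ b ∈ A', a * b = b * a := by
    rw [hA']
    rintro _ ⟨a, ha, rfl⟩ _ ⟨b, hb, rfl⟩
    rw [← map_mul, ← map_mul]
    congr 1
    exact Subtype.ext (hA.el.cm a.1 ha b.1 hb)
  have hAp : IsPGroup p A' := by
    rintro ⟨s, hs⟩
    refine ⟨1, ?_⟩
    apply Subtype.ext
    rw [hA'] at hs
    obtain ⟨a, ha, rfl⟩ := hs
    show (ψ a) ^ p ^ 1 = 1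
    rw [pow_one, ← map_pow]
    have h1 : a ^ p = 1 := Subtype.ext (hA.el.ex a.1 ha)
    rw [h1, map_one]
  obtain ⟨t, htA, ht1, htq, htr⟩ := hOTV U p Y ψ.range A' inferInstance hH.p23 hψ.ex hYZ hYn hYps
    hnp' hA'Y hA1 hAab hAp hof
  obtain ⟨e, f, hTV⟩ := tv_of_rank ht1 htq htr
  have htQ : t ∈ im ψ (Qe p x y) := by
    rw [hA'] at htA
    obtain ⟨t0, ht0, rfl⟩ := htA
    exact ⟨t0, hA.le ht0, rfl⟩
  obtain ⟨E, D, hE⟩ := hVEX V G Γ d p (Zp p) h hH.p23 hH.ps c1 x y hxy R U ψ hψ t htQ e f hTV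
  exact ⟨E, D, t, e, f, hE⟩

end Pool.Agent.Work.MP_6d7bb4.helper94.Sol
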