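import Pool.Agent.Work.MP_6d7bb4_S.Interface3

/-! # MP_6d7bb4: block TJ2 (elementary abelian subgroups of maximal order) -/

set_option autoImplicit false
set_option linter.unusedSectionVars false

namespace Pool.Agent.Work.MP_6d7bb4.helper94.Sol

open MulAction Tv Ff Ps
open scoped commutatorElement

namespace X_TJ2

theorem Pq_mono {U : Type} [AddCommGroup U] {p : ℕ} [Fact p.Prime] [Module (ZMod p) U]
    {A B : Subgroup (Un U)} (h : A ≤ B) : Pq p A ≤ Pq p B :=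
  Subgroup.closure_mono (fun _ hs => ⟨h hs.1, hs.2⟩)

theorem im_mono {G : Type} [Group G] {H : Type} [Group H] {X : Subgroup G} (ψ : X →* H)
    {A B : Subgroup G} (h : A ≤ B) : im ψ A ≤ im ψ B := by
  rintro s ⟨g, hg, rfl⟩
  exact ⟨g, h hg, rfl⟩

theorem Am_le_Jt {G : Type} [Group G] {p : ℕ} {Q A : Subgroup G} (h : Am p Q A) :
    A ≤ Jt p Q :=
  le_iSup (fun A : {A : Subgroup G // Am p Q A} => A.1) ⟨A, h⟩

end X_TJ2

open X_TJ2 in
theorem s_TJ2 (hBST : Stmt_BST) (hMQU : Stmt_MQU) (hVMQ : Stmt_VMQ) (hLAT : Stmt_LAT)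
    (hLBI : Stmt_LBI) (hBAU1 : Stmt_BAU1) (hBAU4 : Stmt_BAU4) : Stmt_TJ2 := by
  intro V G _ _ Γ d p _ hy x R U _ _ ψ E D t e f ve md y hxy
  have h : Loc G Γ d := hy.loc
  obtain ⟨bJ, bJcj, bZcj, bZcm, bBcj, bBcm, bZle, bFm⟩ := hBAU1 V G Γ d p hy
  obtain ⟨fm, Wcj, Scj, WS, hrest⟩ := hBAU4 V G Γ d p hy
  obtain ⟨SB, BK, JB, CwJ, AQS, BnK, Bcent⟩ := hrest x y hxy
  have hSQv : (Sp Γ p x : Subgroup G) ≤ Qv Γ p x := fun s hs => (mem_Cw.mp hs).1
  have hSW : ∀ s ∈ (Sp Γ p x : Subgroup G), ∀ w ∈ (Wp Γ p x : Subgroup G), w * s = s * w :=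
    fun s hs => (mem_Cw.mp hs).2
  have hSR : (Sp Γ p x : Subgroup G) ≤ R := hSQv.trans ve.QR
  have hSQe : (Sp Γ p x : Subgroup G) ≤ Qe p x y := hSQv.trans (Qv_le_Qe h hxy)
  have hSst : (Sp Γ p x : Subgroup G) ≤ stabilizer G x := hSQv.trans (Qv_le_st x)
  have hnmS : Nm (stabilizer G x) (Sp Γ p x : Subgroup G) := nm_of_equiv Scj x
  have hQe : (Qe p x y : Subgroup G) ≤ stabilizer G x := Qe_le_st x y
  have hQeB : (Qe p x y : Subgroup G) ≤ B x y := Qe_le x y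
  have hfQ : Finite (Qe p x y : Subgroup G) := finQe h x y
  have hWfin : Finite (Wp Γ p x : Subgroup G) := h.fin_le ((WS x).trans hSst)
  have hWel : El p (Wp Γ p x : Subgroup G) := fm.el x
  -- the elements of `Qe ⊓ R`
  have hQR : ∀ g ∈ (Qe p x y : Subgroup G), g ∈ R → g ∈ (Qv Γ p x : Subgroup G) := by
    intro g hg hgR
    rw [Qv_eq h hxy]
    exact ⟨hg, ve.RK y hxy ⟨hgR, hQeB hg⟩⟩
  have part1 : ∀ A : Subgroup G, Am p (Qe p x y) A → im ψ A = Pq p (im ψ A) ∧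
      im ψ (A ⊔ Sp Γ p x) = im ψ A ∧ Tg (Wp Γ p x) (Sp Γ p x) (A ⊔ Sp Γ p x) := by
    intro A hA
    have hAQ : A ≤ Qe p x y := hA.le
    have hAst : A ≤ stabilizer G x := hAQ.trans hQe
    have hnmA : Nm A (Sp Γ p x : Subgroup G) := hnmS.mono hAst
    have hAfin : Finite A := h.fin_le hAst
    have hPQ : A ⊔ Sp Γ p x ≤ Qe p x y := sup_le hAQ hSQe
    have hPfin : Finite (A ⊔ Sp Γ p x : Subgroup G) := h.fin_le (hPQ.trans hQe)
    have him : im ψ (A ⊔ Sp Γ p x) = im ψ A := by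
      refine le_antisymm ?_ (im_mono ψ le_sup_left)
      rintro s ⟨g, hg, rfl⟩
      obtain ⟨a, ha, n, hn, hgan⟩ := mem_sup_nm hnmA hg
      have h1 : g = ⟨a, hAst ha⟩ * ⟨n, hSst hn⟩ := Subtype.ext hgan
      have h2 : ψ ⟨n, hSst hn⟩ = 1 := (ve.ker ⟨n, hSst hn⟩).mp (hSR hn)
      rw [h1, map_mul, h2, mul_one]
      exact ⟨⟨a, hAst ha⟩, ha, rfl⟩
    have hab : ∀ a ∈ im ψ A, ∀ b ∈ im ψ A, a * b = b * a := by
      rintro _ ⟨a, ha, rfl⟩ _ ⟨b, hb, rfl⟩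
      rw [← map_mul, ← map_mul]
      congr 1
      exact Subtype.ext (hA.el.cm a.1 ha b.1 hb)
    have hPR : (A ⊔ Sp Γ p x) ⊓ R ≤ Sp Γ p x := by
      rintro g ⟨hg, hgR⟩
      obtain ⟨a, ha, n, hn, rfl⟩ := mem_sup_nm hnmA hg
      have haR : a ∈ R := by
        have h1 := R.mul_mem hgR (R.inv_mem (hSR hn))
        rwa [mul_inv_cancel_right] at h1
      exact (Sp Γ p x).mul_mem (AQS A hA ⟨ha, hQR a (hAQ ha) haR⟩) hn
    obtain ⟨hineq, heq⟩ := hLBI V G Γ d p h x (Wp Γ p x) R U ψ E D t e f ve md hWfin y hxy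
      (Sp Γ p x) (A ⊔ Sp Γ p x) hSR le_sup_right hPR hPQ (by
        rw [him]
        exact hab)
    -- `Cw A W = A ⊓ S`
    have hCAS : Cw A (Wp Γ p x) = A ⊓ Sp Γ p x := by
      ext a
      rw [mem_Cw, Subgroup.mem_inf]
      constructor
      · rintro ⟨ha, hc⟩
        exact ⟨ha, Bcent a (JB (Am_le_Jt hA ha)) (fun v hv => (hc v hv).symm)⟩
      · rintro ⟨ha, hs⟩
        exact ⟨ha, hSW a hs⟩
    have hCwW : Cw (Wp Γ p x) (Cw A (Wp Γ p x)) = Wp Γ p x := by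
      ext v
      rw [mem_Cw]
      constructor
      · exact fun h => h.1
      · intro hv
        exact ⟨hv, fun a ha => ((mem_Cw.mp ha).2 v hv).symm⟩
    have hCwP : Cw (Wp Γ p x) (A ⊔ Sp Γ p x) = Cw (Wp Γ p x) A := by
      ext v
      rw [mem_Cw, mem_Cw]
      constructor
      · rintro ⟨hv, hc⟩
        exact ⟨hv, fun a ha => hc a (le_sup_left (α := Subgroup G) ha)⟩
      · rintro ⟨hv, hc⟩
        refine ⟨hv, fun g hg => ?_⟩
        obtain ⟨a, ha, n, hn, rfl⟩ := mem_sup_nm hnmA hg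
        have h1 := hc a ha
        have h2 := hSW n hn v hv
        calc a * n * v = a * (n * v) := by group
          _ = a * (v * n) := by rw [h2]
          _ = (a * v) * n := by group
          _ = (v * a) * n := by rw [h1]
          _ = v * (a * n) := by group
    have hB := hBST G p (Qe p x y) A (Wp Γ p x) (Cw A (Wp Γ p x)) hfQ hA
      ((WS x).trans hSQe) hWel (fun a ha => (mem_Cw.mp ha).1)
    rw [hCwW, hCAS] at hB
    have hL := (hLAT G).1 A (Sp Γ p x) hPfin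
    have hkey : Nat.card (Wp Γ p x : Subgroup G) * Nat.card (Sp Γ p x : Subgroup G) ≤
        Nat.card (A ⊔ Sp Γ p x : Subgroup G) * Nat.card (Cw (Wp Γ p x) (A ⊔ Sp Γ p x)) := by
      rw [hCwP]
      obtain ⟨c, hc⟩ : ∃ c, c = Nat.card (A ⊓ Sp Γ p x : Subgroup G) := ⟨_, rfl⟩
      have hfin2 : Finite (A ⊓ Sp Γ p x : Subgroup G) := h.fin_le (inf_le_left.trans hAst)
      have hcpos : 0 < c := by
        rw [hc]
        exact Nat.card_pos
      rw [← hc] at hB hL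
      refine Nat.le_of_mul_le_mul_left ?_ hcpos
      calc c * (Nat.card (Wp Γ p x : Subgroup G) * Nat.card (Sp Γ p x : Subgroup G))
          = (c * Nat.card (Wp Γ p x : Subgroup G)) * Nat.card (Sp Γ p x : Subgroup G) := by ring
        _ ≤ (Nat.card A * Nat.card (Cw (Wp Γ p x) A)) * Nat.card (Sp Γ p x : Subgroup G) :=
          Nat.mul_le_mul_right _ hB
        _ = (Nat.card A * Nat.card (Sp Γ p x : Subgroup G)) * Nat.card (Cw (Wp Γ p x) A) := by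
          ring
        _ ≤ (Nat.card (A ⊔ Sp Γ p x : Subgroup G) * c) * Nat.card (Cw (Wp Γ p x) A) :=
          Nat.mul_le_mul_right _ hL
        _ = _ := by ring
    refine ⟨?_, him, le_antisymm hineq hkey⟩
    have h3 := (heq hkey).1
    rwa [him] at h3
  refine ⟨part1, le_antisymm ?_ ?_⟩
  · -- `≤`
    have h1 : Jt p (Qe p x y : Subgroup G) ≤
        ((Pq p (im ψ (Qe p x y))).comap ψ).map (stabilizer G x).subtype := by
      refine iSup_le ?_
      rintro ⟨A, hA⟩ a ha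
      have hast : a ∈ stabilizer G x := hQe (hA.le ha)
      refine ⟨⟨a, hast⟩, ?_, rfl⟩
      show ψ ⟨a, hast⟩ ∈ Pq p (im ψ (Qe p x y))
      have h2 : ψ ⟨a, hast⟩ ∈ im ψ A := ⟨⟨a, hast⟩, ha, rfl⟩
      rw [(part1 A hA).1] at h2
      exact Pq_mono (im_mono ψ hA.le) h2
    rintro _ ⟨g, hg, rfl⟩
    obtain ⟨g', hg', he⟩ := h1 hg
    have h3 : g' = g := Subtype.ext he
    rw [← h3]
    exact hg'
  · -- `≥`
    have hJnm : ∀ g ∈ (B x y : Subgroup G), cj g (Jt p (Qe p x y)) = Jt p (Qe p x y) := by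
      intro g hg
      have h1 := bJcj g x y
      rw [hg.1, hg.2] at h1
      exact h1.symm
    obtain ⟨hMQ, _⟩ := hVMQ V G Γ d p h x R U ψ E D t e f ve y hxy
    obtain ⟨_, _, _, _, _, m6, _, _⟩ := hMQU U p (im ψ (Nh Γ p x)) ψ.range E D t e f
      (im ψ (Qe p x y)) (im ψ (B x y)) ve.me hMQ
    have hA0 : ∃ A : Subgroup G, Am p (Qe p x y) A ∧ ¬ A ≤ Qv Γ p x := by
      by_contra hcon
      apply bJ x y hxy
      refine iSup_le ?_
      rintro ⟨A, hA⟩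
      by_contra h2
      exact hcon ⟨A, hA, h2⟩
    obtain ⟨A, hA, hAn⟩ := hA0
    obtain ⟨a, ha, haQ⟩ := SetLike.not_le_iff_exists.mp hAn
    have hast : a ∈ stabilizer G x := hQe (hA.le ha)
    have hane : ψ ⟨a, hast⟩ ≠ 1 := by
      intro h1
      exact haQ (hQR a (hA.le ha) ((ve.ker ⟨a, hast⟩).mpr h1))
    have hs0 : ∃ s0, s0 ∈ Tq p (im ψ A) := by
      by_contra hcon
      have h1 : Tq p (im ψ A) = ∅ := by
        rw [Set.eq_empty_iff_forall_notMem]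
        exact fun s hs => hcon ⟨s, hs⟩
      have h2 : ψ ⟨a, hast⟩ ∈ im ψ A := ⟨⟨a, hast⟩, ha, rfl⟩
      rw [(part1 A hA).1] at h2
      unfold Pq at h2
      rw [h1, Subgroup.closure_empty, Subgroup.mem_bot] at h2
      exact hane h2
    obtain ⟨s0, hs0A, hs0T⟩ := hs0
    unfold Pq
    rw [Subgroup.closure_le]
    intro s' hs'
    obtain ⟨b, hb, hbs⟩ := m6 s0 ⟨im_mono ψ hA.le hs0A, hs0T⟩ s' hs'
    obtain ⟨g, hg, rfl⟩ := hb
    obtain ⟨a0, ha0, rfl⟩ := hs0A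
    have hmem : ψ g * ψ a0 * (ψ g)⁻¹ ∈ im ψ (Jt p (Qe p x y)) := by
      refine ⟨g * a0 * g⁻¹, ?_, by rw [map_mul, map_mul, map_inv]⟩
      have h1 : g.1 * a0.1 * g.1⁻¹ ∈ cj g.1 (Jt p (Qe p x y)) :=
        conj_mem_cj (Am_le_Jt hA ha0)
      rw [hJnm g.1 hg] at h1
      exact h1
    rcases hbs with hbs | hbs
    · rw [hbs] at hmem
      exact hmem
    · rw [hbs] at hmem
      have h2 := (im ψ (Jt p (Qe p x y))).inv_mem hmem
      rw [inv_inv] at h2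
      exact h2

end Pool.Agent.Work.MP_6d7bb4.helper94.Sol
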