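import Pool.Agent.Work.MP_6d7bb4_S.Interface3

/-! # MP_6d7bb4: all soluble semiprimitive groups; block TRV -/

set_option autoImplicit false
set_option linter.unusedSectionVars false

namespace Pool.Agent.Work.MP_6d7bb4.helper94.Sol

open MulAction Tv Ff Ps

/-- TRV. -/
theorem s_TRV (hTCE : Stmt_TCE) (hMQU : Stmt_MQU) (hVMQ : Stmt_VMQ) (hPY1 : Stmt_PY1)
    (hPY2 : Stmt_PY2) : Stmt_TRV := by
  intro V G _ _ Γ d p _ x W S R Bm U _ _ ψ E D t e f h C hC hCt y y' hy hy'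
  have ve := h.vs.ve
  have en : En p ψ.range E := ⟨ve.me.p23, ve.me.ed.EY.trans ve.me.YZ, ve.me.ed.nE, ve.me.co⟩
  obtain ⟨t1, t2, t3, t4, t5, t6, t7, t8⟩ := hTCE U p ψ.range E en
  obtain ⟨mq, mc⟩ := hVMQ V G Γ d p h.loc x R U ψ E D t e f ve y hy
  obtain ⟨q1, q2, q3, q4, q5, q6, q7, q8⟩ := hMQU U p _ _ E D t e f _ _ ve.me mq
  obtain ⟨mq', mc'⟩ := hVMQ V G Γ d p h.loc x R U ψ E D t e f ve y' hy'
  obtain ⟨q1', -, -, -, -, -, -, -⟩ := hMQU U p _ _ E D t e f _ _ ve.me mq'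
  obtain ⟨a1, a2, a3, a4, a5, a6, a7⟩ := hPY1 V G Γ d p x W S R Bm U ψ E D t e f h y' hy'
  obtain ⟨b1, b2, b3, b4, b5, b6, b7, b8, b9⟩ := hPY2 V G Γ d p x W S R Bm U ψ E D t e f h
  set M : Subgroup G := ⨆ b : (B x y : Subgroup G), cj b.1 (Pf p Bm ψ C (b.1⁻¹ • y')) with hM
  -- the neighbours `b⁻¹ y'`
  have hadj : ∀ b : (B x y : Subgroup G), Γ.Adj x (b.1⁻¹ • y') := by
    intro b
    have h1 := h.loc.adj b.1⁻¹ x y' hy'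
    rwa [inv_smul_eq_iff.2 (mem_B.1 b.2).1.symm] at h1
  -- the conjugates
  have hcj : ∀ b : (B x y : Subgroup G), cj b.1 (Pf p Bm ψ C (b.1⁻¹ • y')) =
      Py (Bm y') ψ ((fun s => ψ ⟨b.1, (mem_B.1 b.2).1⟩ * s * (ψ ⟨b.1, (mem_B.1 b.2).1⟩)⁻¹) ''
        (C ∩ Tq p (im ψ (Qe p x (b.1⁻¹ • y'))))) := by
    intro b
    have h1 := b1 (b.1⁻¹ • y') (hadj b) ⟨b.1, (mem_B.1 b.2).1⟩
      (C ∩ Tq p (im ψ (Qe p x (b.1⁻¹ • y'))))
    have h2 : b.1 • b.1⁻¹ • y' = y' := smul_inv_smul _ _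
    simp only [h2] at h1
    exact h1.symm
  have hMB : M ≤ Bm y' := iSup_le (fun b => by
    rw [hcj b]
    exact (a1 _).2)
  have hle : ∀ b : (B x y : Subgroup G), cj b.1 (Pf p Bm ψ C (b.1⁻¹ • y')) ≤ M := fun b =>
    le_iSup (fun b : (B x y : Subgroup G) => cj b.1 (Pf p Bm ψ C (b.1⁻¹ • y'))) b
  have hSM : S ≤ M := by
    refine le_trans ?_ (hle ⟨1, one_mem _⟩)
    rw [hcj]
    exact (a1 _).1
  -- every transvection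
  have hkey : Tq p (im ψ (Qe p x y')) ⊆ im ψ M := by
    intro s' hs'
    obtain ⟨s0, hs0C, hs0Z, hs0T, hs0E⟩ := hCt
    obtain ⟨s, hsQ, hsc⟩ := q4 s0 hs0Z hs0T hs0E
    have hs1 := q1 s hsQ
    have hsC : s ∈ C := hC s0 hs0Z hs0T hs0E s hs1.1 hsQ.2 hs1.2.1 hsc hs0C
    have hs1' := q1' s' hs'
    obtain ⟨b', hb', hbc⟩ := q5 s hsQ s' hs1'.1 hs'.2 hs1'.2.1
    obtain ⟨g, hgB, hgb⟩ := mem_im'.1 hb'
    subst hgb
    set b : (B x y : Subgroup G) := ⟨g.1, hgB⟩ with hbdef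
    have hpg : ψ ⟨b.1, (mem_B.1 b.2).1⟩ = ψ g := by congr 1
    -- the conjugate transvection
    have e1 : Tq p (im ψ (Qe p x y')) =
        (fun s => ψ g * s * (ψ g)⁻¹) '' Tq p (im ψ (Qe p x (b.1⁻¹ • y'))) := by
      have h1 := b2 (b.1⁻¹ • y') (hadj b) g
      have h2 : g.1 • b.1⁻¹ • y' = y' := smul_inv_smul _ _
      rw [h2] at h1
      exact h1
    have hs2 := hs'
    rw [e1] at hs2
    obtain ⟨s2, hs2Q, hs2e⟩ := hs2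
    have hs2e' : ψ g * s2 * (ψ g)⁻¹ = s' := hs2e
    have hgZ : ψ g ∈ ψ.range := ⟨g, rfl⟩
    have hgZ' : (ψ g)⁻¹ ∈ ψ.range := inv_mem hgZ
    have hs2' : s2 = (ψ g)⁻¹ * s' * (ψ g)⁻¹⁻¹ := by
      rw [← hs2e']
      group
    have hs2Z : s2 ∈ ψ.range := by
      rw [hs2']
      exact mul_mem (mul_mem hgZ' hs1'.1) (inv_mem hgZ')
    have hs2n : ¬ Cn E s2 := by
      rw [hs2']
      exact t7 _ hgZ' _ hs1'.1 hs1'.2.1
    have hc2 : Tc E s s2 := by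
      have h1 := t4 _ hgZ' _ (mul_mem (mul_mem hgZ hs1.1) (inv_mem hgZ)) _ hs1'.1 hbc
      rw [← hs2'] at h1
      have h2 : (ψ g)⁻¹ * (ψ g * s * (ψ g)⁻¹) * (ψ g)⁻¹⁻¹ = s := by group
      rwa [h2] at h1
    have hs2C : s2 ∈ C := hC s hs1.1 hsQ.2 hs1.2.1 s2 hs2Z hs2Q.2 hs2n hc2 hsC
    have hmem : s' ∈ (fun s => ψ ⟨b.1, (mem_B.1 b.2).1⟩ * s *
        (ψ ⟨b.1, (mem_B.1 b.2).1⟩)⁻¹) '' (C ∩ Tq p (im ψ (Qe p x (b.1⁻¹ • y')))) :=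
      ⟨s2, ⟨hs2C, hs2Q⟩, by
        rw [hpg]
        exact hs2e'⟩
    have hsub : (fun s => ψ ⟨b.1, (mem_B.1 b.2).1⟩ * s *
        (ψ ⟨b.1, (mem_B.1 b.2).1⟩)⁻¹) '' (C ∩ Tq p (im ψ (Qe p x (b.1⁻¹ • y')))) ⊆
        Tq p (im ψ (Qe p x y')) := by
      rintro _ ⟨s3, hs3, rfl⟩
      rw [e1, hpg]
      exact ⟨s3, hs3.2, rfl⟩
    have h3 := Subgroup.subset_closure hmem
    rw [← a2 _ hsub] at h3
    obtain ⟨k, hk, hks⟩ := mem_im'.1 h3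
    refine mem_im'.2 ⟨k, ?_, hks⟩
    rw [← hcj b] at hk
    exact hle b hk
  have himB : im ψ (Bm y') = Subgroup.closure (Tq p (im ψ (Qe p x y'))) := h.vs.BT y' hy'
  have himM : im ψ M = Subgroup.closure (Tq p (im ψ (Qe p x y'))) := by
    apply le_antisymm
    · rw [← himB]
      rintro s hs
      obtain ⟨k, hk, hks⟩ := mem_im'.1 hs
      exact mem_im'.2 ⟨k, hMB hk, hks⟩
    · exact (Subgroup.closure_le _).2 hkey
  have h4 := a3 M hSM hMB _ himM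
  rw [a5] at h4
  exact le_of_eq h4.symm

end Pool.Agent.Work.MP_6d7bb4.helper94.Sol
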