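import Pool.Agent.Work.MP_6d7bb4_S.Interface2

set_option autoImplicit false
set_option linter.unusedSectionVars false

/-! # MP_6d7bb4, block VEX: existence of the vertex environment -/

namespace Pool.Agent.Work.MP_6d7bb4.helper94.Sol

open MulAction Tv Ff Ps
open scoped commutatorElement

namespace X_VEX

variable {V G : Type} [Group G] [MulAction G V] {Γ : SimpleGraph V} {d p : ℕ}

/-- the conjugates of `s` under a subgroup generate a normal subgroup -/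
theorem nm_cl {U : Type} [AddCommGroup U] {x : V} (ψ : stabilizer G x →* Un U) (s : Un U) :
    Nm ψ.range (Subgroup.closure {r | ∃ g : stabilizer G x, r = ψ g * s * (ψ g)⁻¹}) := by
  rintro _ ⟨g, rfl⟩ r hr
  have h1 : Subgroup.closure {r | ∃ g : stabilizer G x, r = ψ g * s * (ψ g)⁻¹} ≤
      (Subgroup.closure {r | ∃ g : stabilizer G x, r = ψ g * s * (ψ g)⁻¹}).comap
        (MulAut.conj (ψ g)).toMonoidHom := by
    rw [Subgroup.closure_le]
    rintro _ ⟨k, rfl⟩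
    refine Subgroup.subset_closure ⟨g * k, ?_⟩
    show ψ g * (ψ k * s * (ψ k)⁻¹) * (ψ g)⁻¹ = _
    rw [map_mul]
    group
  exact h1 hr

end X_VEX

theorem s_VEX (hFMB : Stmt_FMB) : Stmt_VEX := by
  intro V G _ _ Γ d p _ ζ h hp23 hps hζ x y hxy R U _ _ _ ψ hψ t ht e f hTV
  have hfs := h.fin x
  obtain ⟨t0, htQ', ht⟩ := ht
  have htQ : t0.1 ∈ (Qe p x y : Subgroup G) := htQ'
  have ht : t = ψ t0 := ht.symm
  obtain ⟨Z, hZ⟩ : ∃ Z, Z = ψ.range := ⟨_, rfl⟩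
  obtain ⟨Y, hY⟩ : ∃ Y, Y = im ψ (Nh Γ p x : Subgroup G) := ⟨_, rfl⟩
  have hNhs : Nm (stabilizer G x) (Nh Γ p x : Subgroup G) := nm_of_equiv (Nh_cj h) x
  have hYm : ∀ g : stabilizer G x, g.1 ∈ (Nh Γ p x : Subgroup G) → ψ g ∈ Y := by
    intro g hg
    rw [hY]
    exact ⟨g, hg, rfl⟩
  have hYZ : Y ≤ Z := by
    rw [hY, hZ]
    rintro _ ⟨g, _, rfl⟩
    exact ⟨g, rfl⟩
  have hZm : ∀ g : stabilizer G x, ψ g ∈ Z := by
    intro g
    rw [hZ]
    exact ⟨g, rfl⟩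
  have hYn : Nm Z Y := by
    rw [hY, hZ]
    rintro _ ⟨g, rfl⟩ _ ⟨n, hn, rfl⟩
    refine ⟨g * n * g⁻¹, hNhs g.1 g.2 n.1 hn, ?_⟩
    rw [map_mul, map_mul, map_inv]
  have hYf : Finite Y := by
    rw [hY]
    exact Finite.of_surjective _ (ψ.subgroupMap_surjective _)
  have hYps : PSol p Y := by
    have hfN := h.fin_le (Nh_le (Γ := Γ) (p := p) (G := G) x)
    have h1 := psol_range (Fact.out : p.Prime)
      (ψ.comp (Subgroup.inclusion (Nh_le (Γ := Γ) (p := p) (G := G) x))) (psol_top (hps x))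
    have h2 : (ψ.comp (Subgroup.inclusion (Nh_le (Γ := Γ) (p := p) (G := G) x))).range = Y := by
      rw [hY]
      ext s
      constructor
      · rintro ⟨n, rfl⟩
        exact ⟨⟨n.1, Nh_le x n.2⟩, n.2, rfl⟩
      · rintro ⟨n, hn, rfl⟩
        exact ⟨⟨n.1, hn⟩, rfl⟩
    rwa [h2] at h1
  have hnp' : ∀ N : Subgroup (AddMonoid.End U)ˣ, N ≤ Y → Nm Z N → IsPGroup p N → N = ⊥ := by
    intro N h1 h2 h3
    rw [hZ] at h2 hYZ
    exact hψ.np N (h1.trans hYZ) h2 h3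
  have htNh : t0.1 ∈ (Nh Γ p x : Subgroup G) := Qe_le_Nh hxy htQ
  have htY : t ∈ Y := by
    rw [ht]
    exact hYm t0 htNh
  have hQR : (Qv Γ p x : Subgroup G) ≤ R := by
    refine hψ.isR.mx _ (Qv_le_st x) (nm_Qv h x) ?_
    intro n hn
    have h1 : IsPGroup p (Qv Γ p x : Subgroup G) := (Qe_isP h x y).to_le (Qv_le_Qe h hxy)
    obtain ⟨k, hk⟩ := h1 ⟨n, hn⟩
    have hk' : n ^ p ^ k = 1 := congrArg Subtype.val hk
    refine ⟨k, fun v _ => ?_⟩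
    rw [hk', one_mul, mul_one]
  obtain ⟨E, D, hED, hCo⟩ := exists_E hp23 hYf hYZ hYn hYps hnp' hTV htY
  -- preimages
  obtain ⟨pre, hpre⟩ : ∃ pre : Subgroup (AddMonoid.End U)ˣ → Subgroup G, ∀ S,
      pre S = (S.comap ψ).map (stabilizer G x).subtype ⊓ Nh Γ p x := ⟨_, fun _ => rfl⟩
  have hm : ∀ S (g : stabilizer G x), g.1 ∈ pre S ↔ ψ g ∈ S ∧
      g.1 ∈ (Nh Γ p x : Subgroup G) := by
    intro S g
    rw [hpre, Subgroup.mem_inf]
    refine and_congr_left (fun _ => ?_)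
    constructor
    · rintro ⟨g', hg', hgg⟩
      have h1 : g' = g := Subtype.ext hgg
      rw [← h1]
      exact hg'
    · intro hg
      exact ⟨g, hg, rfl⟩
  have hpN : ∀ S, pre S ≤ Nh Γ p x := by
    intro S
    rw [hpre]
    exact inf_le_right
  have hps' : ∀ S, pre S ≤ stabilizer G x := fun S => (hpN S).trans (Nh_le x)
  have hpn : ∀ S, Nm Z S → Nm (stabilizer G x) (pre S) := by
    intro S hS g hg n hn
    have hns := hps' S hn
    have h1 := (hm S ⟨n, hns⟩).mp hn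
    refine (hm S (⟨g, hg⟩ * ⟨n, hns⟩ * ⟨g, hg⟩⁻¹)).mpr ⟨?_, hNhs g hg n h1.2⟩
    rw [map_mul, map_mul, map_inv]
    exact hS _ (hZm _) _ h1.1
  have htK : t0.1 ∉ (K Γ x : Subgroup G) := by
    intro hcon
    apply hTV.ne1
    rw [ht]
    refine (hψ.ker t0).1 (hQR ?_)
    rw [Qv_eq h hxy]
    exact ⟨htQ, hcon⟩
  have hmw : ∀ {S} {n : G} (hn : n ∈ pre S), ψ ⟨n, hps' S hn⟩ ∈ S := fun {S} {n} hn =>
    ((hm S ⟨n, hps' S hn⟩).mp hn).1
  have hNtr : ∀ y y', Γ.Adj x y → Γ.Adj x y' → ∃ n ∈ pre E, n • y = y' := by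
    obtain ⟨T, hT⟩ : ∃ T : Set (AddMonoid.End U)ˣ,
        T = {s | ∃ g : stabilizer G x, s = ψ g * t * (ψ g)⁻¹} := ⟨_, rfl⟩
    have hTZ : ∀ s ∈ T, s ∈ Z := by
      rw [hT]
      rintro _ ⟨g, rfl⟩
      exact Z.mul_mem (Z.mul_mem (hZm g) (hYZ htY)) (Z.inv_mem (hZm g))
    have hEZ : E ≤ Z := hED.EY.trans hYZ
    have hgp := gen_pw (n := p) hED.nE hEZ hTZ (by
      rw [hT]
      rintro _ ⟨g, rfl⟩ _ ⟨k, rfl⟩
      exact hED.cm _ (hZm g) _ (hZm k)) (by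
      rw [hT]
      rintro _ ⟨g, rfl⟩
      rw [conj_pow, hTV.pow_p, mul_one, mul_inv_cancel]
      exact E.one_mem)
    have hLn : Nm Z (Subgroup.closure T ⊔ E) := by
      refine Nm.sup ?_ hED.nE
      rw [hZ, hT]
      exact X_VEX.nm_cl ψ t
    have htT : t0.1 ∈ pre (Subgroup.closure T ⊔ E) := by
      refine (hm _ t0).mpr ⟨?_, htNh⟩
      rw [← ht]
      refine Subgroup.mem_sup_left (Subgroup.subset_closure ?_)
      rw [hT]
      refine ⟨1, ?_⟩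
      rw [map_one, one_mul, inv_one, mul_one]
    refine g1 h hxy (hps' _) (hpn _ hLn) (hpn E hED.nE) (Fact.out : p.Prime) ?_ htT
      (Qe_le x y htQ) htK
    intro l hl
    refine ⟨1, ?_⟩
    have hls := hps' _ hl
    refine (hm E (⟨l, hls⟩ ^ p ^ 1)).mpr ⟨?_, Subgroup.pow_mem _ (hpN _ hl) _⟩
    rw [map_pow, pow_one]
    exact hgp _ (hmw hl)
  have hEt : ∀ y y', Γ.Adj x y → Γ.Adj x y' → ∃ g : stabilizer G x, ψ g ∈ E ∧ g.1 • y = y' := by
    intro y1 y2 h1 h2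
    obtain ⟨n, hn, hny⟩ := hNtr y1 y2 h1 h2
    exact ⟨⟨n, hps' E hn⟩, hmw hn, hny⟩
  refine ⟨E, D, ?_⟩
  subst hZ
  subst hY
  refine
    { me := ⟨hp23, inferInstance, hYZ, hYn, hYps, hnp', hTV, htY, hED, hCo⟩
      ker := hψ.ker
      Rs := hψ.isR.le
      RK := fun y' hy' => (hFMB V G Γ d p ζ h hζ).2.2.2.1 x y' hy' R hψ.isR.le hψ.isR.nm hψ.isR.pa
      QR := hQR
      Et := hEt
      tQ := ⟨y, hxy, ⟨t0, htQ, ht.symm⟩⟩
      fa := ?_ }
  intro y1 hy1 s hs hC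
  obtain ⟨g0, hg0', hg0s⟩ := hs
  have hg0 : g0.1 ∈ (Qe p x y1 : Subgroup G) := hg0'
  obtain ⟨T, hT⟩ : ∃ T : Subgroup (AddMonoid.End U)ˣ,
      T = Subgroup.closure {r | ∃ g : stabilizer G x, r = ψ g * s * (ψ g)⁻¹} := ⟨_, rfl⟩
  have hTQ : T ≤ ((Qe p x y1 : Subgroup G).subgroupOf (stabilizer G x)).map ψ := by
    rw [hT, Subgroup.closure_le]
    rintro _ ⟨k, rfl⟩
    have hka : Γ.Adj x (k.1⁻¹ • y1) := by
      have h1 : Γ.Adj (k.1⁻¹ • x) (k.1⁻¹ • y1) := h.adj _ _ _ hy1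
      have h2 : k.1⁻¹ • x = x := mem_stabilizer_iff.mp ((stabilizer G x).inv_mem k.2)
      rwa [h2] at h1
    obtain ⟨n, hnE, hny⟩ := hEt y1 (k.1⁻¹ • y1) hy1 hka
    have hb : (k * n : stabilizer G x).1 ∈ B x y1 := by
      refine ⟨(k * n : stabilizer G x).2, ?_⟩
      show (k.1 * n.1) • y1 = y1
      rw [mul_smul, hny, smul_inv_smul]
    have h3 := nm_Qe (p := p) h x y1 _ hb _ hg0
    refine ⟨(k * n) * g0 * (k * n)⁻¹, h3, ?_⟩
    have h4 : s * ψ n = ψ n * s := hC _ hnE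
    rw [map_mul, map_mul, map_inv, map_mul, hg0s]
    calc ψ k * ψ n * s * (ψ k * ψ n)⁻¹ = ψ k * (ψ n * s) * (ψ n)⁻¹ * (ψ k)⁻¹ := by group
      _ = ψ k * s * (ψ k)⁻¹ := by
        rw [← h4]
        group
  have hTp : IsPGroup p T := by
    refine IsPGroup.to_le ?_ hTQ
    exact IsPGroup.map ((Qe_isP h x y1).comap_of_injective (stabilizer G x).subtype
      (Subgroup.subtype_injective _)) _
  have hTn : Nm ψ.range T := by
    rw [hT]
    exact X_VEX.nm_cl ψ s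
  have hTb := hψ.np T (hTQ.trans (by
    rintro _ ⟨g, _, rfl⟩
    exact ⟨g, rfl⟩)) hTn hTp
  have h1 : s ∈ T := by
    rw [hT]
    refine Subgroup.subset_closure ⟨1, ?_⟩
    rw [map_one, one_mul, inv_one, mul_one]
  rw [hTb] at h1
  exact Subgroup.mem_bot.mp h1

end Pool.Agent.Work.MP_6d7bb4.helper94.Sol
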