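import Pool.Agent.Work.MP_6d7bb4_S.Interface2

set_option autoImplicit false
set_option linter.unusedSectionVars false

/-! # MP_6d7bb4, block VMQ (helper58) -/

namespace Pool.Agent.Work.MP_6d7bb4.helper94.Sol

open MulAction Tv Ff Ps
open scoped commutatorElement

namespace X_VMQ

theorem key {V G : Type} [Group G] [MulAction G V] (p : ℕ) (x : V) {U : Type} [AddCommGroup U]
    (ψ : stabilizer G x →* Un U) (y : V) (g : stabilizer G x) (s : Un U) :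
    s ∈ im ψ (Qe p x (g.1 • y)) ↔ (ψ g)⁻¹ * s * ψ g ∈ im ψ (Qe p x y) := by
  have hg : g.1 • x = x := g.2
  have h1 : (Qe p x (g.1 • y) : Subgroup G) = cj g.1 (Qe p x y) := by
    rw [← Qe_cj, hg]
  constructor
  · rintro ⟨k, hk, rfl⟩
    refine ⟨g⁻¹ * k * g, ?_, ?_⟩
    · have h2 : k.1 ∈ cj g.1 (Qe p x y) := h1 ▸ hk
      exact mem_cj.mp h2
    · rw [map_mul, map_mul, map_inv]
  · rintro ⟨k, hk, hks⟩
    refine ⟨g * k * g⁻¹, ?_, ?_⟩
    · show g.1 * k.1 * g.1⁻¹ ∈ Qe p x (g.1 • y)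
      rw [h1]
      exact conj_mem_cj hk
    · rw [map_mul, map_mul, map_inv, hks]
      group

end X_VMQ

theorem s_VMQ : Stmt_VMQ := by
  intro V G _ _ Γ d p _ h x R U _ _ ψ E D t e f hV y hxy
  refine ⟨?_, fun g s => X_VMQ.key p x ψ y g s⟩
  exact {
    QY := by
      rintro _ ⟨g, hg, rfl⟩
      exact ⟨g, Qe_le_Nh hxy hg, rfl⟩
    Qp := by
      exact IsPGroup.map ((Qe_isP h x y).comap_of_injective (stabilizer G x).subtype
        Subtype.val_injective) ψ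
    fa := hV.fa y hxy
    Zn := by
      rintro _ ⟨b, hb, rfl⟩ _ ⟨g, hg, rfl⟩
      exact ⟨b * g * b⁻¹, nm_Qe h x y _ hb _ hg, by rw [map_mul, map_mul, map_inv]⟩
    ZZ := by
      rintro _ ⟨b, _, rfl⟩
      exact ⟨b, rfl⟩
    fc := by
      rintro _ ⟨g, rfl⟩
      have hgy : Γ.Adj x (g.1 • y) := by
        have := h.adj g.1 x y hxy
        rwa [show g.1 • x = x from g.2] at this
      obtain ⟨n, hn, hny⟩ := hV.Et y (g.1 • y) hxy hgy
      refine ⟨ψ n, hn, ψ (n⁻¹ * g), ⟨n⁻¹ * g, ?_, rfl⟩, ?_⟩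
      · show (n.1⁻¹ * g.1 : G) ∈ B x y
        rw [mem_B]
        refine ⟨(n⁻¹ * g).2, ?_⟩
        rw [mul_smul, ← hny, inv_smul_smul]
      · rw [← map_mul]
        congr 1
        group
    tQ := by
      obtain ⟨y0, hy0, ht⟩ := hV.tQ
      obtain ⟨g, hgx, hgy⟩ := h.arc x y0 x y hy0 hxy
      refine ⟨ψ ⟨g, hgx⟩, ⟨_, rfl⟩, ?_⟩
      have h1 := (X_VMQ.key p x ψ y0 ⟨g, hgx⟩ (ψ ⟨g, hgx⟩ * t * (ψ ⟨g, hgx⟩)⁻¹)).mpr (by
        have h2 : (ψ ⟨g, hgx⟩)⁻¹ * (ψ ⟨g, hgx⟩ * t * (ψ ⟨g, hgx⟩)⁻¹) * ψ ⟨g, hgx⟩ = t := by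
          group
        rw [h2]
        exact ht)
      have h3 : (⟨g, hgx⟩ : stabilizer G x).1 • y0 = y := hgy
      rw [h3] at h1
      exact h1 }

end Pool.Agent.Work.MP_6d7bb4.helper94.Sol
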