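import Pool.Agent.Work.MP_6d7bb4_S.Interface3

set_option autoImplicit false
set_option linter.unusedSectionVars false

/-! # MP_6d7bb4, block VS2 (helper41) -/

namespace Pool.Agent.Work.MP_6d7bb4.helper94.Sol

open MulAction Tv Ff Ps
open scoped commutatorElement

namespace X_VS2

theorem finUn (U : Type) [AddCommGroup U] (h : Finite U) : Finite (Un U) := by
  have h1 : Finite (AddMonoid.End U) :=
    Finite.of_injective (fun f : AddMonoid.End U => (f : U → U)) DFunLike.coe_injective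
  exact Finite.of_injective (fun u : Un U => (u : AddMonoid.End U)) (fun _ _ h => Units.ext h)

theorem CwS {G : Type} [Group G] {W S : Subgroup G} (h : ∀ s ∈ S, ∀ v ∈ W, s * v = v * s) :
    Cw W S = W := by
  apply le_antisymm
  · intro v hv
    exact (mem_Cw.mp hv).1
  · intro v hv
    exact mem_Cw.mpr ⟨hv, fun a ha => h a ha v hv⟩

end X_VS2

theorem s_VS2 (hMQU : Stmt_MQU) (hVMQ : Stmt_VMQ) (hLAT : Stmt_LAT) (hLTC : Stmt_LTC)
    (hPY1 : Stmt_PY1) (hPY2 : Stmt_PY2) (hTG1 : Stmt_TG1) : Stmt_VS2 := by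
  intro V G _ _ Γ d p _ x W S R Bm U _ _ ψ E D t e f h y hxy T hT hTi hTt
  have hMQ := (hVMQ V G Γ d p h.loc x R U ψ E D t e f h.vs.ve y hxy).1
  obtain ⟨m1, -, -, -, -, m6, -, -⟩ := hMQU U p (im ψ (Nh Γ p x)) ψ.range E D t e f
    (im ψ (Qe p x y)) (im ψ (B x y)) h.vs.ve.me hMQ
  obtain ⟨q1, -, -, q4, q5, q6, q7⟩ := hPY1 V G Γ d p x W S R Bm U ψ E D t e f h y hxy
  obtain ⟨r1, r2, r3, -⟩ := hPY2 V G Γ d p x W S R Bm U ψ E D t e f h
  have tg1 := hTG1 V G Γ d p x W S R Bm U ψ E D t e f h y hxy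
  have hUn : Finite (Un U) := X_VS2.finUn U h.vs.ve.me.fin
  set T0 : Set (Un U) := Tq p (im ψ (Qe p x y)) with hT0
  have hBm : Bm y ≤ stabilizer G x := (h.vs.BQ y hxy).trans (Qe_le_st x y)
  have hfin : ∀ P : Subgroup G, P ≤ Bm y → Finite P := fun P hP => h.loc.fin_le (hP.trans hBm)
  have hlat : ∀ X X' : Set (Un U), Tg W S (Py (Bm y) ψ X) → Tg W S (Py (Bm y) ψ X') →
      Tg W S (Py (Bm y) ψ X ⊔ Py (Bm y) ψ X') ∧ Tg W S (Py (Bm y) ψ X ⊓ Py (Bm y) ψ X') := by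
    intro X X' hX hX'
    have hs : Py (Bm y) ψ X ⊔ Py (Bm y) ψ X' ≤ Bm y := sup_le (q1 X).2 (q1 X').2
    refine (hLAT G).2 W S _ _ h.vs.Wf (hfin _ hs) hX hX' ?_ ?_
    · exact (tg1 _ ((q1 X).1.trans le_sup_left) hs).1
    · exact (tg1 _ (le_inf (q1 X).1 (q1 X').1) (inf_le_left.trans (q1 X).2)).1
  have key := hLTC (Un U) T0
    {X | X ⊆ T0 ∧ (∀ s ∈ X, s⁻¹ ∈ X) ∧ Tg W S (Py (Bm y) ψ X)}
    (fun X hX => hX.1)
    ⟨Set.empty_subset _, fun s hs => absurd hs (Set.notMem_empty s), by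
      rw [q4]
      unfold Tg
      rw [X_VS2.CwS h.vs.SW, mul_comm]⟩
    ⟨subset_rfl, fun s hs => (m1 s hs).2.2, by
      rw [q5]
      exact h.vs.tg y hxy⟩
    (by
      rintro X ⟨hX1, hX2, hX3⟩ Y ⟨hY1, hY2, hY3⟩
      refine ⟨Set.union_subset hX1 hY1, ?_, ?_⟩
      · rintro s (hs | hs)
        · exact Or.inl (hX2 s hs)
        · exact Or.inr (hY2 s hs)
      · rw [q6 X Y hX1 hY1]
        exact (hlat X Y hX3 hY3).1)
    (by
      rintro X ⟨hX1, hX2, hX3⟩ Y ⟨hY1, hY2, hY3⟩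
      refine ⟨Set.inter_subset_left.trans hX1, ?_, ?_⟩
      · rintro s ⟨hs, hs'⟩
        exact ⟨hX2 s hs, hY2 s hs'⟩
      · rw [q7 X Y hX1 hY1 hX2 hY2]
        exact (hlat X Y hX3 hY3).2)
    (by
      intro a ha b hb
      obtain ⟨z, ⟨g, hg, rfl⟩, hz⟩ := m6 a ha b hb
      have hgy : g.1 • y = y := (mem_B.mp hg).2
      refine ⟨fun s => ψ g * s * (ψ g)⁻¹, ?_, ?_, ?_⟩
      · intro s s' hss
        exact mul_left_cancel (mul_right_cancel hss)
      · rintro X ⟨hX1, hX2, hX3⟩ hm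
        rcases hz with hz | hz
        · rw [← hz]
          exact hm
        · have h1 : b⁻¹ ∈ X := by
            rw [← hz]
            exact hm
          have h2 := hX2 _ h1
          rwa [inv_inv] at h2
      · rintro X ⟨hX1, hX2, hX3⟩
        refine ⟨?_, ?_, ?_⟩
        · have h3 := r2 y hxy g
          rw [hgy] at h3
          rw [hT0, h3]
          exact Set.image_mono hX1
        · rintro _ ⟨s, hs, rfl⟩
          refine ⟨s⁻¹, hX2 s hs, ?_⟩
          show ψ g * s⁻¹ * (ψ g)⁻¹ = (ψ g * s * (ψ g)⁻¹)⁻¹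
          group
        · have h4 := r1 y hxy g X
          rw [hgy] at h4
          rw [h4]
          exact r3 g _ hX3)
    T ⟨hT, hTi, hTt⟩
  exact key.2.2

end Pool.Agent.Work.MP_6d7bb4.helper94.Sol
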