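import Pool.Agent.Work.MP_6d7bb4_S.Bound
import Pool.Agent.Work.MP_6d7bb4_S.B_BAS
import Pool.Agent.Work.MP_6d7bb4_S.B_BLT
import Pool.Agent.Work.MP_6d7bb4_S.B_CNV
import Pool.Agent.Work.MP_6d7bb4_S.B_CRD
import Pool.Agent.Work.MP_6d7bb4_S.B_GEN
import Pool.Agent.Work.MP_6d7bb4_S.B_NRM
import Pool.Agent.Work.MP_6d7bb4_S.B_OTV
import Pool.Agent.Work.MP_6d7bb4_S.B_TCE
import Pool.Agent.Work.MP_6d7bb4_S.B_TCP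
import Pool.Agent.Work.MP_6d7bb4_S.B_TCU
import Pool.Agent.Work.MP_6d7bb4_S.B_TH1
import Pool.Agent.Work.MP_6d7bb4_S.B_FMB
import Pool.Agent.Work.MP_6d7bb4_S.B_QDC
import Pool.Agent.Work.MP_6d7bb4_S.B_SEM
import Pool.Agent.Work.MP_6d7bb4_S.B_VEX
import Pool.Agent.Work.MP_6d7bb4_S.B_VMQ
import Pool.Agent.Work.MP_6d7bb4_S.B_BAU1
import Pool.Agent.Work.MP_6d7bb4_S.B_LAT
import Pool.Agent.Work.MP_6d7bb4_S.B_LTC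
import Pool.Agent.Work.MP_6d7bb4_S.B_QIX
import Pool.Agent.Work.MP_6d7bb4_S.B_BDW
import Pool.Agent.Work.MP_6d7bb4_S.B_BST
import Pool.Agent.Work.MP_6d7bb4_S.B_EXT
import Pool.Agent.Work.MP_6d7bb4_S.B_MEL
import Pool.Agent.Work.MP_6d7bb4_S.B_PTW
import Pool.Agent.Work.MP_6d7bb4_S.B_TCF
import Pool.Agent.Work.MP_6d7bb4_S.B_TCL
import Pool.Agent.Work.MP_6d7bb4_S.B_TCN
import Pool.Agent.Work.MP_6d7bb4_S.B_MDX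
import Pool.Agent.Work.MP_6d7bb4_S.B_MIN
import Pool.Agent.Work.MP_6d7bb4_S.B_FIW
import Pool.Agent.Work.MP_6d7bb4_S.B_MQU
import Pool.Agent.Work.MP_6d7bb4_S.B_CLS
import Pool.Agent.Work.MP_6d7bb4_S.B_INT
import Pool.Agent.Work.MP_6d7bb4_S.B_OFF
import Pool.Agent.Work.MP_6d7bb4_S.B_LBI
import Pool.Agent.Work.MP_6d7bb4_S.B_PY2
import Pool.Agent.Work.MP_6d7bb4_S.B_GTR
import Pool.Agent.Work.MP_6d7bb4_S.B_LBG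
import Pool.Agent.Work.MP_6d7bb4_S.B_BAU2
import Pool.Agent.Work.MP_6d7bb4_S.B_BAU3
import Pool.Agent.Work.MP_6d7bb4_S.B_BAU4
import Pool.Agent.Work.MP_6d7bb4_S.B_PY1
import Pool.Agent.Work.MP_6d7bb4_S.B_TG1
import Pool.Agent.Work.MP_6d7bb4_S.B_TJ1
import Pool.Agent.Work.MP_6d7bb4_S.B_TJ2
import Pool.Agent.Work.MP_6d7bb4_S.B_TRV
import Pool.Agent.Work.MP_6d7bb4_S.B_VS2
import Pool.Agent.Work.MP_6d7bb4_S.B_VSC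
import Pool.Agent.Work.MP_6d7bb4_S.B_CEN
import Pool.Agent.Work.MP_6d7bb4_S.B_CMV
import Pool.Agent.Work.MP_6d7bb4_S.B_GNV
import Pool.Agent.Work.MP_6d7bb4_S.B_LNK
import Pool.Agent.Work.MP_6d7bb4_S.B_NCV
import Pool.Agent.Work.MP_6d7bb4_S.B_NZV
import Pool.Agent.Work.MP_6d7bb4_S.B_TJ3
import Pool.Agent.Work.MP_6d7bb4_S.B_VSX
import Pool.Agent.Work.MP_6d7bb4_S.B_BLK
import Pool.Agent.Work.MP_6d7bb4_S.B_SYS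

set_option autoImplicit false

/-! # MP_6d7bb4: all soluble semiprimitive groups; assembly (helper94) -/

namespace Pool.Agent.Work.MP_6d7bb4.helper94.Sol

theorem p_BAS : Stmt_BAS := s_BAS
theorem p_BLT : Stmt_BLT := s_BLT p_BAS
theorem p_CNV : Stmt_CNV := s_CNV p_BAS
theorem p_CRD : Stmt_CRD := s_CRD p_BAS
theorem p_GEN : Stmt_GEN := s_GEN p_BAS p_BLT
theorem p_NRM : Stmt_NRM := s_NRM p_BAS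
theorem p_OTV : Stmt_OTV := s_OTV
theorem p_TCE : Stmt_TCE := s_TCE
theorem p_TCP : Stmt_TCP := s_TCP p_TCE
theorem p_TCU : Stmt_TCU := s_TCU
theorem p_TH1 : Stmt_TH1 := s_TH1
theorem p_FMB : Stmt_FMB := s_FMB
theorem p_QDC : Stmt_QDC := s_QDC
theorem p_SEM : Stmt_SEM := s_SEM
theorem p_VEX : Stmt_VEX := s_VEX p_FMB
theorem p_VMQ : Stmt_VMQ := s_VMQ
theorem p_BAU1 : Stmt_BAU1 := s_BAU1 p_TH1
theorem p_LAT : Stmt_LAT := s_LAT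
theorem p_LTC : Stmt_LTC := s_LTC
theorem p_QIX : Stmt_QIX := s_QIX
theorem p_BDW : Stmt_BDW := s_BDW p_BAS p_CNV
theorem p_BST : Stmt_BST := s_BST p_TH1
theorem p_EXT : Stmt_EXT := s_EXT p_BAS p_NRM p_BLT p_GEN
theorem p_MEL : Stmt_MEL := s_MEL p_TCE p_TCP
theorem p_PTW : Stmt_PTW := s_PTW p_BAS p_EXT
theorem p_TCF : Stmt_TCF := s_TCF p_TCE p_TCP p_TCU
theorem p_TCL : Stmt_TCL := s_TCL p_TCE p_TCP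
theorem p_TCN : Stmt_TCN := s_TCN p_TCE p_TCP
theorem p_MDX : Stmt_MDX := s_MDX p_SEM
theorem p_MIN : Stmt_MIN := s_MIN p_TCE p_TCP p_TCN p_TCL p_MEL
theorem p_FIW : Stmt_FIW := s_FIW p_BAS p_PTW p_BDW p_CRD
theorem p_MQU : Stmt_MQU := s_MQU p_TCE p_TCP p_TCN p_MEL
theorem p_CLS : Stmt_CLS := s_CLS p_TCE p_TCP p_MQU
theorem p_INT : Stmt_INT := s_INT p_TCE p_TCP p_MEL p_MQU
theorem p_OFF : Stmt_OFF := s_OFF p_OTV p_TCE p_TCP p_TCN p_TCL p_TCU p_MEL p_MQU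
theorem p_LBI : Stmt_LBI := s_LBI p_OFF p_VMQ
theorem p_PY2 : Stmt_PY2 := s_PY2 p_TCE p_CLS p_MQU p_VMQ
theorem p_GTR : Stmt_GTR := s_GTR p_MQU p_OFF
theorem p_LBG : Stmt_LBG := s_LBG p_OTV p_OFF p_MDX p_FMB p_VEX p_VMQ
theorem p_BAU2 : Stmt_BAU2 := s_BAU2 p_TH1 p_LBG p_BAU1
theorem p_BAU3 : Stmt_BAU3 := s_BAU3 p_TH1 p_BAU1 p_BAU2
theorem p_BAU4 : Stmt_BAU4 := s_BAU4 p_FMB p_BAU1 p_BAU3
theorem p_PY1 : Stmt_PY1 := s_PY1 p_GTR p_INT p_VMQ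
theorem p_TG1 : Stmt_TG1 := s_TG1 p_GTR p_VMQ p_LBI p_PY1
theorem p_TJ1 : Stmt_TJ1 := s_TJ1 p_OTV p_BST p_FMB p_VEX p_BAU1 p_BAU4
theorem p_TJ2 : Stmt_TJ2 := s_TJ2 p_BST p_MQU p_VMQ p_LAT p_LBI p_BAU1 p_BAU4
theorem p_TRV : Stmt_TRV := s_TRV p_TCE p_MQU p_VMQ p_PY1 p_PY2
theorem p_VS2 : Stmt_VS2 := s_VS2 p_MQU p_VMQ p_LAT p_LTC p_PY1 p_PY2 p_TG1
theorem p_VSC : Stmt_VSC := s_VSC p_TCE p_MQU p_VMQ p_PY1 p_PY2 p_TG1 p_VS2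
theorem p_CEN : Stmt_CEN := s_CEN p_TCE p_TCP p_TCN p_TCF p_MQU p_OFF p_GTR
theorem p_CMV : Stmt_CMV := s_CMV p_TCE p_TCP p_MQU p_QDC p_MIN p_VMQ p_PY1 p_TG1
theorem p_GNV : Stmt_GNV := s_GNV p_LAT p_PY1 p_PY2
theorem p_LNK : Stmt_LNK := s_LNK p_MDX p_FMB p_LAT p_LBI p_BAU1 p_BAU4 p_TJ1
theorem p_NCV : Stmt_NCV := s_NCV p_TCE p_TCN p_MQU p_VMQ p_PY1 p_PY2
theorem p_NZV : Stmt_NZV := s_NZV p_TCP p_MQU p_VMQ p_PY1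
theorem p_TJ3 : Stmt_TJ3 := s_TJ3 p_GTR p_CEN p_VMQ p_LAT p_LBI p_BAU4 p_TJ2
theorem p_VSX : Stmt_VSX := s_VSX p_FMB p_BAU1 p_BAU4 p_TJ3
theorem p_BLK : Stmt_BLK := s_BLK p_PY1 p_PY2 p_CMV p_GNV p_TRV p_NCV p_NZV
theorem p_SYS : Stmt_SYS := s_SYS p_QDC p_MIN p_GTR p_MQU p_VMQ p_MDX p_FMB p_QIX p_TG1 p_VSC p_BLK p_BAU1 p_BAU4 p_TJ1 p_VSX p_LNK

/-- the main theorem -/
theorem main_sol {V : Type} {Γ : SimpleGraph V} {Ω : Type} [Fintype Ω]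
    {F : Subgroup (Equiv.Perm Ω)}
    (hF1 : ∀ a b : Ω, ∃ σ ∈ F, σ a = b)
    (hF2 : ∀ N : Subgroup (Equiv.Perm Ω), N ≤ F →
        (∀ f ∈ F, ∀ n ∈ N, f * n * f⁻¹ ∈ N) →
        ((∀ a b : Ω, ∃ σ ∈ N, σ a = b) ∨ (∀ σ ∈ N, ∀ a : Ω, σ a = a → σ = 1)))
    (hF3 : ∀ p : ℕ, p.Prime → CondA F p ∨ ∃ S, CondB0 F p S)
    (hT : Γ.IsTree) :
    ∃ S : Finset (Subgroup (Γ ≃g Γ)), ∀ H : Subgroup (Γ ≃g Γ),
      (∀ v : V, {g : Γ ≃g Γ | g ∈ H ∧ g v = v}.Finite) →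
      (∀ x : V, ∃ e : Γ.neighborSet x ≃ Ω, LA Γ H F x e) →
      ((∃ g ∈ H, ∃ x y : V, Γ.Adj x y ∧ g x = y ∧ g y = x ∧ g * g = 1) ∨
        (∀ x y : V, ∃ g ∈ H, g x = y)) →
      (∃ K ∈ S, ∃ a : Γ ≃g Γ, H = K.map (MulAut.conj a).toMonoidHom) ∧
      ∀ v : V, Nat.card {g : Γ ≃g Γ // g ∈ H ∧ g v = v} ≤ bnd (Fintype.card Ω) :=
  psv p_FIW p_BAU1 p_SYS hF1 hF2 hF3 hT

end Pool.Agent.Work.MP_6d7bb4.helper94.Sol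

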