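import Pool.Agent.Work.MP_6d7bb4_S.Interface2

/-! # MP_6d7bb4: all soluble semiprimitive groups; block LBG -/

set_option autoImplicit false
set_option linter.unusedSectionVars false

namespace Pool.Agent.Work.MP_6d7bb4.helper94.Sol

open MulAction Tv Ff Ps
open scoped commutatorElement

namespace X_LBG

/-- the image of a `p`-subgroup is a `p`-group -/
theorem im_isP {H G : Type*} [Group H] [Group G] {p : ℕ} {X : Subgroup G} (ψ : X →* H)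
    {A : Subgroup G} (hA : IsPGroup p A) : IsPGroup p (im ψ A) :=
  IsPGroup.map (hA.comap_of_injective X.subtype (Subgroup.subtype_injective _)) _

/-- the order of a subgroup and of its image -/
theorem card_im {H G : Type*} [Group H] [Group G] {X : Subgroup G} (ψ : X →* H)
    {A S : Subgroup G} (hA : A ≤ X) (hf : Finite X)
    (hS : ∀ g : X, g.1 ∈ A → ψ g = 1 → g.1 ∈ S) :
    Nat.card A ≤ Nat.card (im ψ A) * Nat.card (A ⊓ S : Subgroup G) := by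
  obtain ⟨A', hA'⟩ : ∃ A', A' = im ψ A := ⟨_, rfl⟩
  rw [← hA']
  obtain ⟨f, hfd⟩ : ∃ f : A →* A', ∀ x : A, (f x).1 = ψ ⟨x.1, hA x.2⟩ :=
    ⟨(ψ.comp (Subgroup.inclusion hA)).codRestrict A' (fun x => by
      rw [hA']
      exact ⟨⟨x.1, hA x.2⟩, x.2, rfl⟩), fun _ => rfl⟩
  have hfs : Function.Surjective f := by
    rintro ⟨y, hy⟩
    rw [hA'] at hy
    obtain ⟨x, hx, rfl⟩ := hy
    exact ⟨⟨x.1, hx⟩, Subtype.ext (hfd _)⟩
  have h5 : Nat.card A = Nat.card A' * Nat.card f.ker := by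
    rw [Subgroup.card_eq_card_quotient_mul_card_subgroup f.ker]
    congr 1
    exact Nat.card_congr (QuotientGroup.quotientKerEquivOfSurjective f hfs).toEquiv
  rw [h5]
  refine Nat.mul_le_mul_left _ ?_
  have hAf : Finite (A ⊓ S : Subgroup G) :=
    Finite.of_injective _ (Subgroup.inclusion_injective (inf_le_left.trans hA))
  refine Nat.card_le_card_of_injective (fun x : f.ker =>
    (⟨x.1.1, x.1.2, hS ⟨x.1.1, hA x.1.2⟩ x.1.2 ?_⟩ : (A ⊓ S : Subgroup G))) ?_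
  · have h6 : f x.1 = 1 := x.2
    rw [← hfd, h6]
    rfl
  · intro x x' hxx
    have h7 : x.1.1 = x'.1.1 := congrArg (fun z : (A ⊓ S : Subgroup G) => z.1) hxx
    exact Subtype.ext (Subtype.ext h7)

end X_LBG

theorem s_LBG (hOTV : Stmt_OTV) (hOFF : Stmt_OFF) (hMDX : Stmt_MDX) (hFMB : Stmt_FMB)
    (hVEX : Stmt_VEX) (hVMQ : Stmt_VMQ) : Stmt_LBG := by
  intro V G _ _ Γ d p _ ζ h hp23 hps hFm x y hxy A hAQ hab
  obtain ⟨f1, f2, f3, f4, f5⟩ := hFMB V G Γ d p ζ h hFm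
  have hfs : Finite (stabilizer G x) := h.fin x
  have hWf := (f2 x).2.2
  obtain ⟨R, U, iU, fU, ψ, hψ⟩ := hMDX G p (stabilizer G x) (VZ Γ ζ x) hfs hWf (f2 x).2.1 (hFm.el x)
  let _ : Module (ZMod p) U := AddCommGroup.zmodModule hψ.ex
  have hAX : A ≤ stabilizer G x := hAQ.trans (Qe_le_st x y)
  have hAp : IsPGroup p A := (Qe_isP h x y).to_le hAQ
  obtain ⟨A', hA'⟩ : ∃ A', A' = im ψ A := ⟨_, rfl⟩
  have hA'Q : A' ≤ im ψ (Qe p x y) := by
    rw [hA']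
    rintro _ ⟨g, hg, rfl⟩
    exact ⟨g, hAQ hg, rfl⟩
  have hA'p : IsPGroup p A' := by
    rw [hA']
    exact X_LBG.im_isP ψ hAp
  have hA'ab : ∀ a ∈ A', ∀ b ∈ A', a * b = b * a := by
    rw [hA']
    rintro _ ⟨g, hg, rfl⟩ _ ⟨g', hg', rfl⟩
    rw [← map_mul, ← map_mul]
    congr 1
    exact Subtype.ext (hab g.1 hg g'.1 hg')
  -- step 1
  have hS1 : Nat.card A' * Nat.card (FxU A') ≤ Nat.card U := by
    by_contra hcon
    push Not at hcon
    have hne : A' ≠ ⊥ := by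
      intro h0
      apply absurd hcon
      rw [h0, Subgroup.card_bot, one_mul, not_lt]
      exact Nat.card_le_card_of_injective _ Subtype.val_injective
    have hNhs : Nm (stabilizer G x) (Nh Γ p x : Subgroup G) := nm_of_equiv (Nh_cj h) x
    have hYZ : im ψ (Nh Γ p x) ≤ ψ.range := by
      rintro _ ⟨g, _, rfl⟩
      exact ⟨g, rfl⟩
    have hYn : Nm ψ.range (im ψ (Nh Γ p x)) := by
      rintro _ ⟨g, rfl⟩ _ ⟨n, hn, rfl⟩
      refine ⟨g * n * g⁻¹, hNhs g.1 g.2 n.1 hn, ?_⟩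
      rw [map_mul, map_mul, map_inv]
    have hYps : PSol p (im ψ (Nh Γ p x)) := by
      have hfN := h.fin_le (Nh_le (Γ := Γ) (p := p) (G := G) x)
      have h1 := psol_range (Fact.out : p.Prime)
        (ψ.comp (Subgroup.inclusion (Nh_le (Γ := Γ) (p := p) (G := G) x))) (psol_top (hps x))
      have h2 : (ψ.comp (Subgroup.inclusion (Nh_le (Γ := Γ) (p := p) (G := G) x))).range =
          im ψ (Nh Γ p x) := by
        ext s
        constructor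
        · rintro ⟨n, rfl⟩
          exact ⟨⟨n.1, Nh_le x n.2⟩, n.2, rfl⟩
        · rintro ⟨n, hn, rfl⟩
          exact ⟨⟨n.1, hn⟩, rfl⟩
      rwa [h2] at h1
    have hnp' : ∀ N : Subgroup (Un U), N ≤ im ψ (Nh Γ p x) → Nm ψ.range N → IsPGroup p N →
        N = ⊥ := fun N h1 h2 h3 => hψ.np N (h1.trans hYZ) h2 h3
    have hA'Y : A' ≤ im ψ (Nh Γ p x) := by
      refine hA'Q.trans ?_
      rintro _ ⟨g, hg, rfl⟩
      exact ⟨g, Qe_le_Nh hxy hg, rfl⟩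
    obtain ⟨t, htA, ht1, htq, htr⟩ := hOTV U p (im ψ (Nh Γ p x)) ψ.range A' fU hp23 hψ.ex hYZ hYn
      hYps hnp' hA'Y hne hA'ab hA'p hcon.le
    obtain ⟨e, f, hTV⟩ := tv_of_rank ht1 htq htr
    obtain ⟨E, D, hVE⟩ := hVEX V G Γ d p ζ h hp23 hps hFm x y hxy R U ψ hψ t (hA'Q htA) e f hTV
    have hMQ := (hVMQ V G Γ d p h x R U ψ E D t e f hVE y hxy).1
    have h1 := (hOFF U p _ _ E D t e f _ _ hVE.me hMQ A' hA'Q hA'ab).1
    omega
  -- step 2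
  have hQvR : (Qv Γ p x : Subgroup G) ≤ R := by
    refine hψ.isR.mx _ (Qv_le_st x) (nm_Qv h x) ?_
    intro n hn
    obtain ⟨k, hk⟩ := ((Qe_isP h x y).to_le (Qv_le_Qe h hxy)) ⟨n, hn⟩
    refine ⟨k, fun v _ => ?_⟩
    have h1 : n ^ p ^ k = 1 := congrArg Subtype.val hk
    rw [h1, one_mul, mul_one]
  have hS2 : Nat.card A ≤ Nat.card A' * Nat.card (A ⊓ Qv Γ p x : Subgroup G) := by
    rw [hA']
    refine X_LBG.card_im ψ hAX hfs ?_
    intro g hg hg1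
    have h1 : g.1 ∈ R := (hψ.ker g).2 hg1
    have h2 : g.1 ∈ (K Γ x : Subgroup G) :=
      f4 x y hxy R hψ.isR.le hψ.isR.nm hψ.isR.pa ⟨h1, Qe_le x y (hAQ hg)⟩
    rw [Qv_eq h hxy]
    exact ⟨hAQ hg, h2⟩
  -- step 3
  have hS3 := hψ.cd A hAX
  rw [← hA'] at hS3
  have hUpos : 0 < Nat.card U := Nat.card_pos
  refine Nat.le_of_mul_le_mul_left (c := Nat.card U) ?_ hUpos
  obtain ⟨a, ha⟩ : ∃ a, a = Nat.card A := ⟨_, rfl⟩
  obtain ⟨a', ha'⟩ : ∃ a, a = Nat.card A' := ⟨_, rfl⟩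
  obtain ⟨q, hq⟩ : ∃ a, a = Nat.card (A ⊓ Qv Γ p x : Subgroup G) := ⟨_, rfl⟩
  obtain ⟨c, hc⟩ : ∃ a, a = Nat.card (Cw (VZ Γ ζ x) A) := ⟨_, rfl⟩
  obtain ⟨w, hw⟩ : ∃ a, a = Nat.card (VZ Γ ζ x : Subgroup G) := ⟨_, rfl⟩
  obtain ⟨u, hu⟩ : ∃ a, a = Nat.card U := ⟨_, rfl⟩
  obtain ⟨z, hz⟩ : ∃ a, a = Nat.card (FxU A') := ⟨_, rfl⟩
  rw [← ha', ← hz, ← hu] at hS1
  rw [← ha, ← ha', ← hq] at hS2
  rw [← hu, ← hc, ← hw, ← hz] at hS3
  rw [← ha, ← hq, ← hc, ← hw, ← hu]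
  calc u * (a * c) = a * (u * c) := by ring
    _ ≤ (a' * q) * (w * z) := Nat.mul_le_mul hS2 hS3
    _ = (w * q) * (a' * z) := by ring
    _ ≤ (w * q) * u := Nat.mul_le_mul_left _ hS1
    _ = u * (w * q) := by ring

end Pool.Agent.Work.MP_6d7bb4.helper94.Sol
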