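import Pool.Agent.Work.MP_6d7bb4_S.Interface3

set_option autoImplicit false
set_option linter.unusedSectionVars false

/-!
# MP_6d7bb4: all soluble semiprimitive groups; block LTC (helper53), a transitive lattice of sets
-/

namespace Pool.Agent.Work.MP_6d7bb4.helper94.Sol

open MulAction Tv Ff Ps
open scoped commutatorElement

theorem s_LTC : Stmt_LTC := by
  intro Ω _ T F hT h0 h1 hU hI htr X hX
  have hcl : ∀ a : Ω, ∃ C : Set Ω, a ∈ T → C ∈ F ∧ a ∈ C ∧ ∀ Y ∈ F, a ∈ Y → C ⊆ Y := by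
    intro a
    by_cases ha : a ∈ T
    · have hfin : {Y : Set Ω | Y ∈ F ∧ a ∈ Y}.Finite := Set.toFinite _
      obtain ⟨C, hC⟩ := hfin.exists_minimal ⟨T, h1, ha⟩
      obtain ⟨⟨hC1, hC2⟩, hC3⟩ := hC
      refine ⟨C, fun _ => ⟨hC1, hC2, fun Y hY haY => ?_⟩⟩
      have h2 : C ≤ C ∩ Y := hC3 ⟨hI C hC1 Y hY, hC2, haY⟩ Set.inter_subset_left
      exact fun z hz => (h2 hz).2
    · exact ⟨∅, fun h => absurd h ha⟩
  choose cl hcl using hcl
  have hcard : ∀ a ∈ T, ∀ b ∈ T, (cl b).ncard ≤ (cl a).ncard := by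
    intro a ha b hb
    obtain ⟨m, hm, hm1, hm2⟩ := htr a ha b hb
    obtain ⟨hA1, hA2, -⟩ := hcl a ha
    obtain ⟨-, -, hB3⟩ := hcl b hb
    have h2 : m '' cl a ∈ F := hm2 _ hA1
    have h3 : b ∈ m '' cl a := hm1 _ h2 ⟨a, hA2, rfl⟩
    have h4 : cl b ⊆ m '' cl a := hB3 _ h2 h3
    have h5 := Set.ncard_le_ncard h4 (Set.toFinite _)
    rwa [Set.ncard_image_of_injective _ hm] at h5
  have heq : ∀ a ∈ T, ∀ b ∈ T, b ∈ cl a → cl b = cl a := by
    intro a ha b hb hba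
    obtain ⟨hA1, -, -⟩ := hcl a ha
    obtain ⟨-, -, hB3⟩ := hcl b hb
    exact Set.eq_of_subset_of_ncard_le (hB3 _ hA1 hba) (hcard b hb a ha) (Set.toFinite _)
  have hun : ∀ s : Set Ω, s.Finite → s ⊆ T → (⋃ b ∈ s, cl b) ∈ F := by
    intro s hs
    refine Set.Finite.induction_on _ hs ?_ ?_
    · intro _
      simpa using h0
    · intro a s _ _ ih h
      rw [Set.biUnion_insert]
      exact hU _ (hcl a (h (Set.mem_insert _ _))).1 _ (ih ((Set.subset_insert _ _).trans h))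
  have hfinal : T \ X = ⋃ b ∈ T \ X, cl b := by
    ext z
    simp only [Set.mem_iUnion, exists_prop]
    constructor
    · intro hz
      exact ⟨z, hz, (hcl z hz.1).2.1⟩
    · rintro ⟨b, ⟨hb, hbX⟩, hz⟩
      obtain ⟨hB1, hB2, -⟩ := hcl b hb
      have hzT : z ∈ T := hT _ hB1 hz
      refine ⟨hzT, fun hzX => hbX ?_⟩
      have h2 : cl z ⊆ X := (hcl z hzT).2.2 X hX hzX
      rw [heq b hb z hzT hz] at h2
      exact h2 hB2
  rw [hfinal]
  exact hun _ (Set.toFinite _) Set.diff_subset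

end Pool.Agent.Work.MP_6d7bb4.helper94.Sol
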