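import Pool.Agent.Work.MP_6d7bb4_S.Interface3

set_option autoImplicit false
set_option linter.unusedSectionVars false

/-!
# MP_6d7bb4: all soluble semiprimitive groups; block SYS (helper76)
-/

namespace Pool.Agent.Work.MP_6d7bb4.helper94.Sol

open MulAction Tv Ff Ps
open scoped commutatorElement

namespace X_SYS

theorem card_rel {G : Type} [Group G] {H K : Subgroup G} (h : H ≤ K) :
    Nat.card H * H.relIndex K = Nat.card K := by
  have h1 := Subgroup.relIndex_mul_relIndex ⊥ H K bot_le h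
  rwa [Subgroup.relIndex_bot_left, Subgroup.relIndex_bot_left] at h1

theorem rel_ne' {G : Type} [Group G] (H K : Subgroup G) (hK : Finite K) : H.relIndex K ≠ 0 := by
  have h1 : (H.subgroupOf K).index ≠ 0 := Subgroup.index_ne_zero_of_finite
  exact h1

end X_SYS

open X_SYS

/-- SYS -/
theorem s_SYS (hQDC : Stmt_QDC) (hMIN : Stmt_MIN) (hGTR : Stmt_GTR) (hMQU : Stmt_MQU)
    (hVMQ : Stmt_VMQ) (hMDX : Stmt_MDX) (hFMB : Stmt_FMB) (hQIX : Stmt_QIX) (hTG1 : Stmt_TG1)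
    (hVSC : Stmt_VSC) (hBLK : Stmt_BLK) (hBAU1 : Stmt_BAU1) (hBAU4 : Stmt_BAU4)
    (hTJ1 : Stmt_TJ1) (hVSX : Stmt_VSX) (hLNK : Stmt_LNK) : Stmt_SYS := by
  intro V G _ _ Γ d p _ h
  obtain ⟨b1, b2, b3, b4, b5, b6, b7, b8⟩ := hBAU1 V G Γ d p h
  obtain ⟨c1, c2, c3, c4, c5⟩ := hBAU4 V G Γ d p h
  obtain ⟨f1, f2, -, -, -⟩ := hFMB V G Γ d p (Zp p) h.loc c1
  have f2' : ∀ x, Wp (G := G) Γ p x ≤ stabilizer G x ∧ Nm (stabilizer G x) (Wp Γ p x) ∧
    Finite (Wp Γ p x : Subgroup G) := f2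
  have hmod : ∀ x : V, ∃ R : Subgroup G, ∃ (U : Type) (_ : AddCommGroup U) (_ : Finite U)
      (ψ : stabilizer G x →* Un U), Md2 p (stabilizer G x) (Wp Γ p x) R ψ := fun x =>
    hMDX G p (stabilizer G x) (Wp Γ p x) (h.loc.fin x) (f2' x).2.2 (f2' x).2.1 (c1.el x)
  choose R hR using hmod
  have hVB : ∀ x y, Γ.Adj x y → ∃ (U : Type) (_ : AddCommGroup U) (_ : Module (ZMod p) U)
      (ψ : stabilizer G x →* Un U) (E D : Subgroup (Un U)) (t : Un U) (e : U) (f : U →+ ZMod p),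
      VB Γ d p x (Wp Γ p x) (Sp Γ p x) (R x) (Bp p x) ψ E D t e f := by
    intro x y hxy
    obtain ⟨U, iU, fU, ψ, hψ⟩ := hR x
    let mU : Module (ZMod p) U := AddCommGroup.zmodModule hψ.ex
    obtain ⟨E, D, t, e, f, hve⟩ := hTJ1 V G Γ d p h x y hxy (R x) U ψ hψ
    exact ⟨U, iU, mU, ψ, E, D, t, e, f, hVSX V G Γ d p h x (R x) U ψ E D t e f hve hψ⟩
  have hZ : ∀ x y, Γ.Adj x y → Zp (G := G) p x y = Cw (Wp Γ p x) (Bp p x y) := by
    intro x y hxy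
    obtain ⟨d1, d2, d3, d4, -⟩ := c5 x y hxy
    apply le_antisymm
    · intro z hz
      refine mem_Cw.2 ⟨z_le_VZ hxy hz, fun b hb => ?_⟩
      exact ((mem_Cw.1 hb).2 z hz).symm
    · rw [← d4]
      intro v hv
      have hv' := mem_Cw.1 hv
      exact mem_Cw.2 ⟨hv'.1, fun a ha => hv'.2 a (d3 ha)⟩
  have hBst : ∀ x y, Γ.Adj x y → Bp (G := G) p x y ≤ stabilizer G x := fun x y hxy =>
    (inf_le_left : Bp (G := G) p x y ≤ Qe p x y).trans (Qe_le_st x y)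
  refine ⟨R, ?_⟩
  refine ⟨c2, c3, b3, b5, b4, b6, ?_, ?_, ?_, fun x => inf_le_left, c4, ?_,
    fun x y _ => inf_le_left, fun x y hxy => (c5 x y hxy).1, fun x y hxy => (c5 x y hxy).2.1,
    fun x y hxy => (c5 x y hxy).2.2.2.2.2.2, fun x y hxy => (c5 x y hxy).2.2.2.2.2.1,
    fun x y hxy => z_le_VZ hxy, ?_, ?_, c1.ne, ?_, ?_, ?_, ?_⟩
  · intro x
    obtain ⟨U, iU, fU, ψ, hψ⟩ := hR x
    exact hψ.isR.le
  · intro x
    obtain ⟨U, iU, fU, ψ, hψ⟩ := hR x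
    exact hψ.isR.nm
  · intro x g hg
    obtain ⟨U, iU, fU, ψ, hψ⟩ := hR x
    obtain ⟨h1, h2⟩ := mem_Cg.1 hg
    exact (hψ.ker ⟨g, h1⟩).2 (hψ.cen ⟨g, h1⟩ h2)
  · intro x s hs v hv
    exact ((mem_Cw.1 hs).2 v hv).symm
  · intro x y hxy z hz b hb
    exact ((mem_Cw.1 hb).2 z hz).symm
  · intro x y hxy v hv h1
    rw [hZ x y hxy]
    exact mem_Cw.2 ⟨hv, h1⟩
  · -- qd
    intro x y hxy b hb v hv
    obtain ⟨U, iU, mU, ψ, E, D, t, e, f, vb⟩ := hVB x y hxy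
    have vs := vb.vs
    have ve := vs.ve
    have hbx := hBst x y hxy hb
    have hcW : b * v * b⁻¹ * v⁻¹ ∈ Wp (G := G) Γ p x :=
      Subgroup.mul_mem _ ((f2' x).2.1 b hbx v hv) (Subgroup.inv_mem _ hv)
    obtain ⟨hmq, -⟩ := hVMQ V G Γ d p h.loc x (R x) U ψ E D t e f ve y hxy
    obtain ⟨q1, q2, q3, q4, q5, q6, q7, q8⟩ := hMQU U p _ _ E D t e f _ _ ve.me hmq
    obtain ⟨m1, m2, m3⟩ := hMIN U p _ _ E D t e f ve.me
    have htg : Tg (Wp Γ p x) (Sp Γ p x) (Bp (G := G) p x y) := vs.tg y hxy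
    obtain ⟨-, -, htl⟩ := (hTG1 V G Γ d p x _ _ _ _ U ψ E D t e f vb y hxy (Bp p x y)
      (vs.SB y hxy) le_rfl).2 htg
    have hBT : im ψ (Bp p x y) = Pq p (im ψ (Qe p x y)) := vs.BT y hxy
    have hmem : ∀ a : stabilizer G x, a.1 ∈ Bp (G := G) p x y →
        ψ a ∈ Subgroup.closure (Tq p (im ψ (Qe p x y))) := by
      intro a ha
      have h1 : ψ a ∈ im ψ (Bp p x y) := mem_im'.2 ⟨a, ha, rfl⟩
      rw [hBT] at h1
      exact h1
    have hS : ∀ a : stabilizer G x, a.1 ∈ Bp (G := G) p x y → ∀ u : U,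
        (ψ a : AddMonoid.End U) u - u ∈ Sc ψ.range e := fun a ha =>
      m3 _ (fun s hs => ⟨(q1 s hs).1, hs.2, (q1 s hs).2.1⟩) (ψ a) (hmem a ha)
    have hqd : ∀ a b : stabilizer G x, a.1 ∈ Bp (G := G) p x y → b.1 ∈ Bp (G := G) p x y →
        ∀ u : U, (ψ b : AddMonoid.End U) ((ψ a : AddMonoid.End U) u - u) =
          (ψ a : AddMonoid.End U) u - u := by
      intro a b' ha hb'
      exact hQDC U p (Tq p (im ψ (Qe p x y))) (Tq p (im ψ (Qe p x y))) (fun s hs => hs.2)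
        (fun s hs => hs.2) (fun s hs s' hs' e1 e2 g1 g2 ht ht' =>
          (q7 s' hs'.1 s hs.1 e2 e1 g2 g1 ht' ht).1) (ψ a) (hmem a ha) (ψ b') (hmem b' hb')
    have htt := vb.md.tt (Bp p x y) (Bp p x y) (hBst x y hxy) (hBst x y hxy) htl htl
      (Sc ψ.range e) m1 m2 hS hS hqd
    rw [hZ x y hxy]
    refine mem_Cw.2 ⟨hcW, fun a ha => ?_⟩
    have h3 := htt b hb a ha v hv
    calc a * (b * v * b⁻¹ * v⁻¹) = a * (b * v * b⁻¹ * v⁻¹) * a⁻¹ * a := by group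
      _ = b * v * b⁻¹ * v⁻¹ * a := by rw [h3]
  · -- ab
    intro x y hxy a ha b hb
    obtain ⟨U, iU, mU, ψ, E, D, t, e, f, vb⟩ := hVB x y hxy
    have vs := vb.vs
    have ve := vs.ve
    obtain ⟨hmq, -⟩ := hVMQ V G Γ d p h.loc x (R x) U ψ E D t e f ve y hxy
    have hab := (hGTR U p _ _ E D t e f _ _ ve.me hmq (Tq p (im ψ (Qe p x y))) subset_rfl).1
    have hBT : im ψ (Bp p x y) = Pq p (im ψ (Qe p x y)) := vs.BT y hxy
    have hmem : ∀ a : stabilizer G x, a.1 ∈ Bp (G := G) p x y →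
        ψ a ∈ Subgroup.closure (Tq p (im ψ (Qe p x y))) := by
      intro a ha
      have h1 : ψ a ∈ im ψ (Bp p x y) := mem_im'.2 ⟨a, ha, rfl⟩
      rw [hBT] at h1
      exact h1
    have hax := hBst x y hxy ha
    have hbx := hBst x y hxy hb
    have h1 := hab _ (hmem ⟨a, hax⟩ ha) _ (hmem ⟨b, hbx⟩ hb)
    have h2 : ψ (⟨a, hax⟩ * ⟨b, hbx⟩ * (⟨a, hax⟩)⁻¹ * (⟨b, hbx⟩)⁻¹) = 1 := by
      rw [map_mul, map_mul, map_mul, map_inv, map_inv, h1]
      group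
    have h3 := (ve.ker (⟨a, hax⟩ * ⟨b, hbx⟩ * (⟨a, hax⟩)⁻¹ * (⟨b, hbx⟩)⁻¹)).2 h2
    have h4 : a * b * a⁻¹ * b⁻¹ ∈ R x := h3
    refine vs.BR y hxy ⟨?_, h4⟩
    exact Subgroup.mul_mem _ (Subgroup.mul_mem _ (Subgroup.mul_mem _ ha hb)
      (Subgroup.inv_mem _ ha)) (Subgroup.inv_mem _ hb)
  · -- ix
    intro x y hxy
    obtain ⟨U, iU, mU, ψ, E, D, t, e, f, vb⟩ := hVB x y hxy
    have vs := vb.vs
    obtain ⟨d1, d2, d3, d4, -⟩ := c5 x y hxy
    have htg : Nat.card (Bp (G := G) p x y) * Nat.card (Cw (Wp Γ p x) (Bp (G := G) p x y)) =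
      Nat.card (Wp (G := G) Γ p x) * Nat.card (Sp (G := G) Γ p x) := vs.tg y hxy
    rw [← hZ x y hxy] at htg
    have k1 := card_rel (H := Zp (G := G) p x y) (K := Wp Γ p x) (z_le_VZ hxy)
    have k2 := card_rel (H := Sp (G := G) Γ p x) (K := Bp p x y) d1
    have hfx := h.loc.fin x
    have finS : ∀ H : Subgroup G, H ≤ stabilizer G x → Finite H := fun H hH =>
      Finite.of_injective _ (Subgroup.inclusion_injective hH)
    have hfB := finS _ (hBst x y hxy)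
    have hfS := finS _ (d1.trans (hBst x y hxy))
    have hfW := (f2' x).2.2
    have hfZ : Finite (Zp (G := G) p x y) := finS _ ((z_le_VZ hxy).trans (f2' x).1)
    have hfQ : Finite (Qe (G := G) p x y) := finS _ (Qe_le_st x y)
    have p1 : 0 < Nat.card (Sp (G := G) Γ p x) := Nat.card_pos
    have p2 : 0 < Nat.card (Zp (G := G) p x y) := Nat.card_pos
    have k3 : (Zp (G := G) p x y).relIndex (Wp Γ p x) = (Sp (G := G) Γ p x).relIndex (Bp p x y) := by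
      rw [← k1, ← k2] at htg
      have k4 : Nat.card (Sp (G := G) Γ p x) * Nat.card (Zp (G := G) p x y) *
          (Sp (G := G) Γ p x).relIndex (Bp p x y) = Nat.card (Sp (G := G) Γ p x) *
          Nat.card (Zp (G := G) p x y) * (Zp (G := G) p x y).relIndex (Wp Γ p x) := by
        linarith
      exact (Nat.eq_of_mul_eq_mul_left (Nat.mul_pos p1 p2) k4).symm
    rw [k3]
    have k5 : Qv (G := G) Γ p x ⊓ Bp p x y ≤ Sp Γ p x := by
      intro g hg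
      exact d2 ⟨hg.2, Qv_le x hg.1⟩
    calc (Sp (G := G) Γ p x).relIndex (Bp p x y)
        ≤ (Qv (G := G) Γ p x ⊓ Bp p x y).relIndex (Bp p x y) :=
          Subgroup.relIndex_le_of_le_left k5 (X_SYS.rel_ne' _ _ hfB)
      _ = (Qv (G := G) Γ p x).relIndex (Bp p x y) := Subgroup.inf_relIndex_right _ _
      _ ≤ (Qv (G := G) Γ p x).relIndex (Qe p x y) :=
          Subgroup.relIndex_le_of_le_right inf_le_left (X_SYS.rel_ne' _ _ hfQ)
      _ ≤ d.factorial := hQIX V G Γ d p h.loc x y hxy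
  · -- lk
    intro x x' w' w hl
    obtain ⟨l1, l2, l3⟩ := hLNK V G Γ d p h x x' w' w hl
    obtain ⟨U, iU, mU, ψ, E, D, t, e, f, vb⟩ := hVB x x' hl.xx
    obtain ⟨C, e1, e2, e3, e4⟩ := hVSC V G Γ d p x _ _ _ _ U ψ E D t e f vb x' hl.xx _
      le_sup_right l2 l1 l3
    exact ⟨_, _, hBLK V G Γ d p x _ _ _ _ U ψ E D t e f vb C e1 e2 e4 (Zp p x)
      (fun y hy => hZ x y hy), e3⟩

end Pool.Agent.Work.MP_6d7bb4.helper94.Sol
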