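import Pool.Agent.Work.MP_6d7bb4_S.Interface1

set_option autoImplicit false
set_option linter.unusedSectionVars false

/-! # MP_6d7bb4: all soluble semiprimitive groups; block TCP (helper22) -/

namespace Pool.Agent.Work.MP_6d7bb4.helper94.Sol

open MulAction Tv Ff Ps

namespace X_TCP

section
variable {U : Type} [AddCommGroup U] {p : ℕ} [Fact p.Prime] [Module (ZMod p) U]

theorem ex {E : Subgroup (Un U)} {t : Un U} (ht : ¬ Cn E t) : ∃ x ∈ E, t ≠ x * t * x⁻¹ := by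
  unfold Cn at ht
  push Not at ht
  obtain ⟨x, hx, hne⟩ := ht
  refine ⟨x, hx, fun hcon => hne ?_⟩
  rw [eq_mul_inv_iff_mul_eq] at hcon
  exact hcon

theorem ne {Z E : Subgroup (Un U)} (hn : Nm Z E) {t : Un U} (ht : t ∈ Z) : NE t E where
  a := fun x hx => hn t ht x hx
  b := fun x hx => by
    have := hn t⁻¹ (Z.inv_mem ht) x hx
    rwa [inv_inv] at this

theorem a {Z E : Subgroup (Un U)} (h : En p Z E) {s s' : Un U} {e1 e2 : U} {f1 f2 : U →+ ZMod p}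
    (h1 : TV s e1 f1) (h2 : TV s' e2 f2) (hs : s ∈ Z) (hs' : s' ∈ Z) (hc : ¬ Cn E s)
    (hc' : ¬ Cn E s') (hne : f1 e2 ≠ 0) : Tc E s s' := by
  obtain ⟨y, hy, hys⟩ := ex hc
  obtain ⟨x, hx, hxs⟩ := ex hc'
  exact tri0 h.p23 h.co h2 h1 (ne h.nE hs') (ne h.nE hs) hx hxs hy hys hne

theorem b {Z E : Subgroup (Un U)} (h : En p Z E) {s s' : Un U} {e1 e2 : U} {f1 f2 : U →+ ZMod p}
    (h1 : TV s e1 f1) (h2 : TV s' e2 f2) (hT : Tc E s s') (hne : s' ≠ s) (hne' : s' ≠ s⁻¹) :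
    f1 e2 ≠ 0 ∧ f2 e1 ≠ 0 := by
  have hone : (-1 : ZMod p) ≠ 0 := neg_ne_zero.mpr one_ne_zero
  rcases hT with hT | hT
  · obtain ⟨n, hn, hy⟩ := h.co _ hT
    have h3 := pair h.p23 h1 h2 (Ne.symm hne) hn hy
    constructor
    · intro h4
      rw [h4, zero_mul] at h3
      exact hone h3.symm
    · intro h4
      rw [h4, mul_zero] at h3
      exact hone h3.symm
  · obtain ⟨n, hn, hy⟩ := h.co _ hT
    have hy' : (s * (s'⁻¹)⁻¹) ^ n = 1 := by rw [inv_inv]; exact hy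
    have hne2 : s ≠ s'⁻¹ := by
      intro h4
      apply hne'
      rw [h4, inv_inv]
    have h3 := pair h.p23 h1 h2.inv hne2 hn hy'
    rw [AddMonoidHom.neg_apply] at h3
    constructor
    · intro h4
      rw [h4, zero_mul] at h3
      exact hone h3.symm
    · intro h4
      rw [h4, neg_zero, mul_zero] at h3
      exact hone h3.symm

theorem c {Z E : Subgroup (Un U)} (h : En p Z E) {s s' : Un U} {e1 e2 : U} {f1 f2 : U →+ ZMod p}
    (h1 : TV s e1 f1) (h2 : TV s' e2 f2) (hs : s ∈ Z) (hs' : s' ∈ Z) (hc : ¬ Cn E s)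
    (hc' : ¬ Cn E s') (hsym : Tc E s' s → Tc E s s') (hT : ¬ Tc E s s') :
    f1 e2 = 0 ∧ f2 e1 = 0 ∧ s * s' = s' * s := by
  have h3 : f1 e2 = 0 := by
    by_contra hcon
    exact hT (a h h1 h2 hs hs' hc hc' hcon)
  have h4 : f2 e1 = 0 := by
    by_contra hcon
    exact hT (hsym (a h h2 h1 hs' hs hc' hc hcon))
  refine ⟨h3, h4, ?_⟩
  apply Units.ext
  refine AddMonoidHom.ext (fun v => ?_)
  show (s : AddMonoid.End U) ((s' : AddMonoid.End U) v) =
    (s' : AddMonoid.End U) ((s : AddMonoid.End U) v)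
  rw [h1.ap, h1.ap, h2.ap, h2.ap, map_add, map_add, f_smul, f_smul, h3, h4, mul_zero,
    mul_zero, add_zero, add_zero]
  abel

end

end X_TCP

/-- TCP -/
theorem s_TCP (hTCE : Stmt_TCE) : Stmt_TCP := by
  intro U _ p _ _ Z E h s s' e1 e2 f1 f2 h1 h2 hs hs' hc hc'
  have hsym : Tc E s' s → Tc E s s' := (hTCE U p Z E h).2.1 s' hs' s hs
  refine ⟨X_TCP.a h h1 h2 hs hs' hc hc', X_TCP.b h h1 h2,
    X_TCP.c h h1 h2 hs hs' hc hc' hsym, fun hne => ?_⟩
  have hT : Tc E s s' := by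
    by_contra hcon
    exact hne (X_TCP.c h h1 h2 hs hs' hc hc' hsym hcon).2.2
  refine ⟨hT, X_TCP.b h h1 h2 hT ?_ ?_⟩
  · rintro rfl
    exact hne rfl
  · rintro rfl
    apply hne
    rw [mul_inv_cancel, inv_mul_cancel]

end Pool.Agent.Work.MP_6d7bb4.helper94.Sol
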