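import Pool.Agent.Work.MP_6d7bb4_S.Interface3

/-! # MP_6d7bb4: all soluble semiprimitive groups; block VSC -/

set_option autoImplicit false
set_option linter.unusedSectionVars false

namespace Pool.Agent.Work.MP_6d7bb4.helper94.Sol

open MulAction Tv Ff Ps

/-- VSC. -/
theorem s_VSC (hTCE : Stmt_TCE) (hMQU : Stmt_MQU) (hVMQ : Stmt_VMQ) (hPY1 : Stmt_PY1)
    (hPY2 : Stmt_PY2) (hTG1 : Stmt_TG1) (hVS2 : Stmt_VS2) : Stmt_VSC := by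
  intro V G _ _ Γ d p _ x W S R Bm U _ _ ψ E D t e f h y hy P hSP hPB hT hPS
  have ve := h.vs.ve
  have en : En p ψ.range E := ⟨ve.me.p23, ve.me.ed.EY.trans ve.me.YZ, ve.me.ed.nE, ve.me.co⟩
  obtain ⟨t1, t2, t3, t4, t5, t6, t7, t8⟩ := hTCE U p ψ.range E en
  obtain ⟨mq, mc⟩ := hVMQ V G Γ d p h.loc x R U ψ E D t e f ve y hy
  obtain ⟨q1, q2, q3, q4, q5, q6, q7, q8⟩ := hMQU U p _ _ E D t e f _ _ ve.me mq
  obtain ⟨a1, a2, a3, a4, a5, a6, a7⟩ := hPY1 V G Γ d p x W S R Bm U ψ E D t e f h y hy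
  obtain ⟨b1, b2, b3, b4, b5, b6, b7, b8, b9⟩ := hPY2 V G Γ d p x W S R Bm U ψ E D t e f h
  obtain ⟨-, g2⟩ := hTG1 V G Γ d p x W S R Bm U ψ E D t e f h y hy P hSP hPB
  obtain ⟨hP, hTT, -⟩ := g2 hT
  have hTinv : ∀ s ∈ Tq p (im ψ P), s⁻¹ ∈ Tq p (im ψ P) := fun s hs =>
    ⟨inv_mem hs.1, (q1 s (hTT hs)).2.2.2⟩
  set C : Set (Un U) := {s | s ∈ ψ.range ∧ ∃ s' ∈ Tq p (im ψ P), Tc E s' s} with hCdef
  have hCT : C ∩ Tq p (im ψ (Qe p x y)) = Tq p (im ψ P) := by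
    ext s
    constructor
    · rintro ⟨⟨hs, s', hs', hc⟩, hsQ⟩
      rcases q2 s' (hTT hs') s hsQ hc with h | h
      · rw [h]
        exact hs'
      · rw [h]
        exact hTinv _ hs'
    · intro hs
      exact ⟨⟨(q1 s (hTT hs)).1, s, hs, t1 s (q1 s (hTT hs)).1⟩, hTT hs⟩
  have hCc : Cc p ψ.range E C := by
    intro s hs hst hsn s' hs' hst' hsn' hc hsC
    obtain ⟨-, s0, hs0, hc0⟩ := hsC
    exact ⟨hs', s0, hs0, t3 s0 (q1 s0 (hTT hs0)).1 s hs s' hs' hc0 hc⟩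
  have hPf : Pf p Bm ψ C y = P := by
    show Py (Bm y) ψ (C ∩ Tq p (im ψ (Qe p x y))) = P
    rw [hCT]
    exact hP.symm
  have hPfc : Pf p Bm ψ Cᶜ y = Py (Bm y) ψ (Tq p (im ψ (Qe p x y)) \ Tq p (im ψ P)) := by
    show Py (Bm y) ψ (Cᶜ ∩ Tq p (im ψ (Qe p x y))) = _
    have h1 : Cᶜ ∩ Tq p (im ψ (Qe p x y)) = Tq p (im ψ (Qe p x y)) \ Tq p (im ψ P) := by
      rw [← hCT]
      ext s
      simp only [Set.mem_inter_iff, Set.mem_compl_iff, Set.mem_sdiff]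
      tauto
    rw [h1]
  have hne : (Tq p (im ψ P)).Nonempty := by
    rw [Set.nonempty_iff_ne_empty]
    intro h0
    rw [h0, a4] at hP
    exact hPS (le_of_eq hP)
  have tg1 : Tg W S (Pf p Bm ψ C y) := by
    rw [hPf]
    exact hT
  have tg2 : Tg W S (Pf p Bm ψ Cᶜ y) := by
    rw [hPfc]
    exact hVS2 V G Γ d p x W S R Bm U ψ E D t e f h y hy (Tq p (im ψ P)) hTT hTinv
      (by rw [← hP]; exact hT)
  refine ⟨C, hCc, ?_, hPf, ?_⟩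
  · obtain ⟨s, hs⟩ := hne
    have h1 := q1 s (hTT hs)
    exact ⟨s, (hCT.symm ▸ hs : s ∈ C ∩ Tq p (im ψ (Qe p x y))).1, h1.1, hs.2, h1.2.1⟩
  · intro y' hy'
    obtain ⟨g, hgE, hgy⟩ := ve.Et y y' hy hy'
    subst hgy
    rw [b4 C hCc g (b6 _ hgE) y hy, b4 Cᶜ (b8 C hCc) g (b6 _ hgE) y hy]
    exact ⟨b3 g _ tg1, b3 g _ tg2⟩

end Pool.Agent.Work.MP_6d7bb4.helper94.Sol
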