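import Pool.Agent.Work.MP_6d7bb4_helper94.Main

set_option autoImplicit false
set_option linter.unusedSectionVars false

/-! # MP_6d7bb4: orders of vertex stabilisers (helper94) -/

namespace Pool.Agent.Work.MP_6d7bb4.helper94

open MulAction

section card
variable {V G : Type*} [Group G] [MulAction G V] {Γ : SimpleGraph V} {d : ℕ}

/-- the ball -/
def Bll (Γ : SimpleGraph V) (x : V) (r : ℕ) : Set V := {v | Γ.dist x v ≤ r}

theorem Bll_card (h : Loc G Γ d) (x : V) (r : ℕ) :
    (Bll Γ x r).Finite ∧ (Bll Γ x r).ncard ≤ (d + 1) ^ r := by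
  induction r with
  | zero =>
    have h1 : Bll Γ x 0 = {x} := by
      ext v
      simp only [Bll, Set.mem_ofPred_eq, Set.mem_singleton_iff]
      constructor
      · intro h2
        have h3 : Γ.dist x v = 0 := by omega
        exact (h.conn.dist_eq_zero_iff.mp h3).symm
      · rintro rfl
        rw [SimpleGraph.dist_self]
    rw [h1]
    exact ⟨Set.finite_singleton x, by rw [Set.ncard_singleton, pow_zero]⟩
  | succ r ih =>
    obtain ⟨hf, hc⟩ := ih
    have hnf : ∀ v, (Γ.neighborSet v).Finite := fun v => by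
      have h0 : Finite (Γ.neighborSet v) := h.nfin v
      exact h0
    have hnc : ∀ v, (Γ.neighborSet v).ncard ≤ d := fun v => h.ncard v
    have hsub : Bll Γ x (r + 1) ⊆ ⋃ v ∈ Bll Γ x r, insert v (Γ.neighborSet v) := by
      intro w hw
      simp only [Bll, Set.mem_ofPred_eq] at hw
      rcases Nat.lt_or_ge (Γ.dist x w) (r + 1) with h1 | h1
      · refine Set.mem_biUnion (x := w) ?_ (Set.mem_insert w _)
        show Γ.dist x w ≤ r
        omega
      · have h2 : Γ.dist x w = r + 1 := by omega
        obtain ⟨q, hq⟩ := h.conn.exists_walk_length_eq_dist x w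
        have hq1 : q.length = r + 1 := hq.trans h2
        have ha : Γ.Adj (q.getVert r) (q.getVert (r + 1)) := q.adj_getVert_succ (by omega)
        rw [← hq1, q.getVert_length] at ha
        refine Set.mem_biUnion (x := q.getVert r) ?_ (Set.mem_insert_of_mem _ ha)
        show Γ.dist x (q.getVert r) ≤ r
        have h3 := dist_path h.conn (s := q.getVert) (N := q.length)
          (fun j hj => q.adj_getVert_succ hj) 0 r (by omega)
        rw [q.getVert_zero, zero_add] at h3
        exact h3
    have hfin : (⋃ v ∈ Bll Γ x r, insert v (Γ.neighborSet v)).Finite :=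
      hf.biUnion (fun v _ => (hnf v).insert v)
    refine ⟨hfin.subset hsub, ?_⟩
    have h4 : (⋃ v ∈ hf.toFinset, insert v (Γ.neighborSet v)).ncard ≤
        hf.toFinset.card * (d + 1) := by
      have h5 := Finset.sum_le_card_nsmul hf.toFinset
        (fun v => (insert v (Γ.neighborSet v)).ncard) (d + 1) (fun v _ =>
          (Set.ncard_insert_le v _).trans (Nat.add_le_add_right (hnc v) 1))
      rw [smul_eq_mul] at h5
      exact (Finset.set_ncard_biUnion_le hf.toFinset _).trans h5
    have h6 : (⋃ v ∈ hf.toFinset, insert v (Γ.neighborSet v)) =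
        ⋃ v ∈ Bll Γ x r, insert v (Γ.neighborSet v) := by
      ext w
      simp only [Set.mem_iUnion, Set.Finite.mem_toFinset, exists_prop]
    rw [h6] at h4
    calc (Bll Γ x (r + 1)).ncard ≤ (⋃ v ∈ Bll Γ x r, insert v (Γ.neighborSet v)).ncard :=
          Set.ncard_le_ncard hsub hfin
      _ ≤ hf.toFinset.card * (d + 1) := h4
      _ ≤ (d + 1) ^ r * (d + 1) := by
          refine Nat.mul_le_mul_right _ ?_
          rw [← Set.ncard_eq_toFinset_card _ hf]
          exact hc
      _ = (d + 1) ^ (r + 1) := by rw [pow_succ]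

/-- a vertex stabiliser which acts faithfully on a ball -/
theorem card_st (h : Loc G Γ d) (x : V) (r : ℕ)
    (hf : ∀ g ∈ stabilizer G x, (∀ v, Γ.dist x v ≤ r → g • v = v) → g = 1) :
    Nat.card (stabilizer G x) ≤ ((d + 1) ^ r).factorial := by
  obtain ⟨hfin, hcard⟩ := Bll_card h x r
  have hft : Finite (Bll Γ x r) := hfin
  have hsm : ∀ g ∈ stabilizer G x, ∀ v, v ∈ Bll Γ x r → g • v ∈ Bll Γ x r := by
    intro g hg v hv
    show Γ.dist x (g • v) ≤ r
    have h1 := dist_smul h g x v
    rw [mem_stabilizer_iff.mp hg] at h1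
    rw [h1]
    exact hv
  obtain ⟨f, hff⟩ : ∃ f : stabilizer G x → Equiv.Perm (Bll Γ x r), ∀ g v,
      ((f g) v).1 = g.1 • v.1 := by
    refine ⟨fun g =>
      { toFun := fun v => ⟨g.1 • v.1, hsm g.1 g.2 v.1 v.2⟩
        invFun := fun v => ⟨g.1⁻¹ • v.1, hsm g.1⁻¹ ((stabilizer G x).inv_mem g.2) v.1 v.2⟩
        left_inv := fun v => Subtype.ext (inv_smul_smul g.1 v.1)
        right_inv := fun v => Subtype.ext (smul_inv_smul g.1 v.1) }, fun g v => rfl⟩
  have hinj : Function.Injective f := by
    intro g g' hgg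
    have h1 : g'.1⁻¹ * g.1 = 1 := by
      refine hf _ ((stabilizer G x).mul_mem ((stabilizer G x).inv_mem g'.2) g.2) ?_
      intro v hv
      have h2 : g.1 • v = g'.1 • v := by
        rw [← hff g ⟨v, hv⟩, ← hff g' ⟨v, hv⟩, hgg]
      rw [mul_smul, h2, inv_smul_smul]
    apply Subtype.ext
    exact (inv_mul_eq_one.mp h1).symm
  classical
  have : Fintype (Bll Γ x r) := Fintype.ofFinite _
  calc Nat.card (stabilizer G x) ≤ Nat.card (Equiv.Perm (Bll Γ x r)) :=
        Nat.card_le_card_of_injective f hinj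
    _ = (Bll Γ x r).ncard.factorial := by
        rw [Nat.card_eq_fintype_card, Fintype.card_perm, ← Nat.card_coe_set_eq,
          Nat.card_eq_fintype_card]
    _ ≤ ((d + 1) ^ r).factorial := Nat.factorial_le hcard

end card

end Pool.Agent.Work.MP_6d7bb4.helper94
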