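import Pool.Agent.Work.MP_6d7bb4_S.Final
import Pool.Agent.Work.MP_6d7bb4_S.Card
import Pool.Agent.Work.MP_6d7bb4_psv.Main

set_option autoImplicit false
set_option linter.unusedSectionVars false

/-! # MP_6d7bb4: bounds for vertex stabilisers and classes of vertex-transitive groups (helper94) -/

namespace Pool.Agent.Work.MP_6d7bb4.helper94.Sol

open MulAction

/-- the radius -/
def rad (d : ℕ) : ℕ := 2 * d * (2 * d + 1) + d.factorial ^ (2 * d + 1) + 1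

/-- the bound for the order of a vertex stabiliser -/
def bnd (d : ℕ) : ℕ := ((d + 1) ^ (rad d + 1)).factorial

section bound
variable {V : Type} {Γ : SimpleGraph V} {Ω : Type}

/-- the action on a ball is faithful -/
theorem faithful [Fintype Ω] (hFIW : Stmt_FIW) (hBAU1 : Stmt_BAU1) (hSYS : Stmt_SYS)
    {F : Subgroup (Equiv.Perm Ω)}
    (hF2 : ∀ N : Subgroup (Equiv.Perm Ω), N ≤ F →
        (∀ f ∈ F, ∀ n ∈ N, f * n * f⁻¹ ∈ N) →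
        ((∀ a b : Ω, ∃ σ ∈ N, σ a = b) ∨ (∀ σ ∈ N, ∀ a : Ω, σ a = a → σ = 1)))
    (hF3 : ∀ p : ℕ, p.Prime → CondA F p ∨ ∃ S, CondB0 F p S)
    (hc : Γ.Connected) {H : Subgroup (Γ ≃g Γ)}
    (hfin : ∀ v : V, {g : Γ ≃g Γ | g ∈ H ∧ g v = v}.Finite)
    (hloc : ∀ x : V, ∃ e : Γ.neighborSet x ≃ Ω, LA Γ H F x e)
    (harc : ∀ x y x' y', Γ.Adj x y → Γ.Adj x' y' → ∃ g ∈ H, g x = x' ∧ g y = y') (x : V) :
    Loc H Γ (Fintype.card Ω) ∧ ∀ g ∈ stabilizer H x,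
      (∀ v, Γ.dist x v ≤ rad (Fintype.card Ω) + 1 → g • v = v) → g = 1 := by
  have hL : Loc H Γ (Fintype.card Ω) := loc_of hF2 hc hfin hloc harc
  refine ⟨hL, ?_⟩
  intro g hg hgv
  by_cases hn : ∃ y, Γ.Adj x y
  · obtain ⟨y, hxy⟩ := hn
    have h3 := Wr_bot' hFIW hBAU1 hSYS hL (fun p hp => hcb' hp hL hloc hxy (hF3 p hp)) hxy
      (r := rad (Fintype.card Ω)) (by unfold rad; omega) (by unfold rad; omega)
      (by unfold rad; omega)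
    have h4 : g ∈ (Wr Γ (rad (Fintype.card Ω)) x y : Subgroup H) := by
      intro v hv
      refine hgv v ?_
      rcases hv with hv | hv
      · omega
      · have h5 := hc.dist_triangle (u := x) (v := y) (w := v)
        rw [SimpleGraph.dist_eq_one_iff_adj.mpr hxy] at h5
        omega
    rw [h3, Subgroup.mem_bot] at h4
    exact h4
  · refine hL.faith g (fun v => ?_)
    have h1 : v = x := by
      by_contra hne
      obtain ⟨q, hq⟩ := hc.exists_walk_length_eq_dist x v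
      have h2 : q.length ≠ 0 := by
        rw [hq]
        intro h0
        exact hne (hc.dist_eq_zero_iff.mp h0).symm
      have h3 : Γ.Adj (q.getVert 0) (q.getVert (0 + 1)) := q.adj_getVert_succ (by omega)
      rw [q.getVert_zero] at h3
      exact hn ⟨_, h3⟩
    rw [h1]
    exact mem_stabilizer_iff.mp hg

/-- the bound -/
theorem bound [Fintype Ω] (hFIW : Stmt_FIW) (hBAU1 : Stmt_BAU1) (hSYS : Stmt_SYS)
    {F : Subgroup (Equiv.Perm Ω)}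
    (hF2 : ∀ N : Subgroup (Equiv.Perm Ω), N ≤ F →
        (∀ f ∈ F, ∀ n ∈ N, f * n * f⁻¹ ∈ N) →
        ((∀ a b : Ω, ∃ σ ∈ N, σ a = b) ∨ (∀ σ ∈ N, ∀ a : Ω, σ a = a → σ = 1)))
    (hF3 : ∀ p : ℕ, p.Prime → CondA F p ∨ ∃ S, CondB0 F p S)
    (hc : Γ.Connected) {H : Subgroup (Γ ≃g Γ)}
    (hfin : ∀ v : V, {g : Γ ≃g Γ | g ∈ H ∧ g v = v}.Finite)
    (hloc : ∀ x : V, ∃ e : Γ.neighborSet x ≃ Ω, LA Γ H F x e)
    (harc : ∀ x y x' y', Γ.Adj x y → Γ.Adj x' y' → ∃ g ∈ H, g x = x' ∧ g y = y') (x : V) :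
    Nat.card {g : Γ ≃g Γ // g ∈ H ∧ g x = x} ≤ bnd (Fintype.card Ω) := by
  obtain ⟨hL, hf⟩ := faithful hFIW hBAU1 hSYS hF2 hF3 hc hfin hloc harc x
  have h1 := card_st hL x (rad (Fintype.card Ω) + 1) hf
  have h2 : Nat.card {g : Γ ≃g Γ // g ∈ H ∧ g x = x} = Nat.card (stabilizer H x) := by
    refine Nat.card_congr
      { toFun := fun g => ⟨⟨g.1, g.2.1⟩, g.2.2⟩
        invFun := fun g => ⟨g.1.1, g.1.2, g.2⟩
        left_inv := fun g => rfl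
        right_inv := fun g => rfl }
  rw [h2]
  exact h1

/-- finitely many classes, bounded stabilisers -/
theorem psv [Fintype Ω] (hFIW : Stmt_FIW) (hBAU1 : Stmt_BAU1) (hSYS : Stmt_SYS)
    {F : Subgroup (Equiv.Perm Ω)}
    (hF1 : ∀ a b : Ω, ∃ σ ∈ F, σ a = b)
    (hF2 : ∀ N : Subgroup (Equiv.Perm Ω), N ≤ F →
        (∀ f ∈ F, ∀ n ∈ N, f * n * f⁻¹ ∈ N) →
        ((∀ a b : Ω, ∃ σ ∈ N, σ a = b) ∨ (∀ σ ∈ N, ∀ a : Ω, σ a = a → σ = 1)))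
    (hF3 : ∀ p : ℕ, p.Prime → CondA F p ∨ ∃ S, CondB0 F p S)
    (hT : Γ.IsTree) :
    ∃ S : Finset (Subgroup (Γ ≃g Γ)), ∀ H : Subgroup (Γ ≃g Γ),
      (∀ v : V, {g : Γ ≃g Γ | g ∈ H ∧ g v = v}.Finite) →
      (∀ x : V, ∃ e : Γ.neighborSet x ≃ Ω, LA Γ H F x e) →
      ((∃ g ∈ H, ∃ x y : V, Γ.Adj x y ∧ g x = y ∧ g y = x ∧ g * g = 1) ∨
        (∀ x y : V, ∃ g ∈ H, g x = y)) →
      (∃ K ∈ S, ∃ a : Γ ≃g Γ, H = K.map (MulAut.conj a).toMonoidHom) ∧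
      ∀ v : V, Nat.card {g : Γ ≃g Γ // g ∈ H ∧ g v = v} ≤ bnd (Fintype.card Ω) := by
  obtain ⟨o⟩ := hT.connected.nonempty
  obtain ⟨S, hS⟩ := MP_6d7bb4_psv.p_FIN (MP_6d7bb4_psv.p_CNJ MP_6d7bb4_psv.p_NF
    MP_6d7bb4_psv.p_DST) V Γ hT o (bnd (Fintype.card Ω))
  refine ⟨S, fun H h1 h2 h3 => ?_⟩
  have harc := (MP_6d7bb4_psv.p_ARC Ω V F Γ H hT.connected hF1 h2 h3.symm).1
  have hb := fun v => bound hFIW hBAU1 hSYS hF2 hF3 hT.connected h1 h2 harc v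
  exact ⟨hS H ⟨h1, harc, hb o⟩, hb⟩

end bound

end Pool.Agent.Work.MP_6d7bb4.helper94.Sol
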