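import Pool.Agent.Work.MP_6d7bb4_helper94.Main

set_option autoImplicit false
set_option linter.unusedSectionVars false

/-!
# MP_6d7bb4: all soluble semiprimitive groups; definitions (helper94)

Library: `Pool/Agent/Work/MP_6d7bb4_helper94` (namespace `Pool.Agent.Work.MP_6d7bb4.helper94`, open here).
`K Γ x` kernel of `G_x` on the neighbours, `B x y` arc stabiliser, `Qe p x y = O_p(B x y)`,
`Qv Γ p x = O_p(K Γ x)`, `Nh Γ p x` generated by the `Qe p x y`, `Zz p x y` the elements of order `p` in the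
centre of `Qe p x y`, `Vv Γ p x` generated by the `Zz p x y`, `cj g S` the conjugate `g S g⁻¹`, `Nm B N`:
`B` normalises `N`, `TV t e f`: `t` is the transvection `v ↦ v + f v • e`, `FxU A` fixed points of `A`.
-/

namespace Pool.Agent.Work.MP_6d7bb4.helper94.Sol

open MulAction Tv Ff Ps
open scoped commutatorElement

/-! ## 1. Elementary abelian subgroups, the Thompson subgroup -/

section grp
variable {G : Type*} [Group G]

/-- `A` is an elementary abelian `p`-group -/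
structure El (p : ℕ) (A : Subgroup G) : Prop where
  cm : ∀ a ∈ A, ∀ b ∈ A, a * b = b * a
  ex : ∀ a ∈ A, a ^ p = 1

/-- `A` is an elementary abelian subgroup of `Q` of maximal order -/
structure Am (p : ℕ) (Q A : Subgroup G) : Prop where
  le : A ≤ Q
  el : El p A
  mx : ∀ B : Subgroup G, B ≤ Q → El p B → Nat.card B ≤ Nat.card A

/-- the Thompson subgroup: generated by the elementary abelian subgroups of maximal order -/
def Jt (p : ℕ) (Q : Subgroup G) : Subgroup G := ⨆ A : {A : Subgroup G // Am p Q A}, A.1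

/-- the elements of `W` which commute with `A` -/
def Cw (W A : Subgroup G) : Subgroup G := W ⊓ Subgroup.centralizer (A : Set G)

theorem mem_Cw {W A : Subgroup G} {v : G} : v ∈ Cw W A ↔ v ∈ W ∧ ∀ a ∈ A, a * v = v * a := by
  unfold Cw
  rw [Subgroup.mem_inf, Subgroup.mem_centralizer_iff]
  exact and_congr_right (fun _ => forall₂_congr (fun a _ => Iff.rfl))

/-- the image of the subgroup `A` of `G` under a homomorphism defined on `X` -/
def im {H : Type*} [Group H] {X : Subgroup G} (ψ : X →* H) (A : Subgroup G) : Subgroup H :=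
  (A.subgroupOf X).map ψ

theorem mem_im' {H : Type*} [Group H] {X : Subgroup G} {ψ : X →* H} {A : Subgroup G} {s : H} :
    s ∈ im ψ A ↔ ∃ g : X, g.1 ∈ A ∧ ψ g = s := Iff.rfl

end grp

/-! ## 2. Modules -/

/-- automorphisms of the abelian group `U` -/
abbrev Un (U : Type*) [AddCommGroup U] := (AddMonoid.End U)ˣ

section mdl
variable {U : Type*} [AddCommGroup U]

/-- `s` and `s'` generate the same subgroup modulo `E` (for elements of order `p ∈ {2, 3}`) -/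
def Tc (E : Subgroup (Un U)) (s s' : Un U) : Prop := s * s'⁻¹ ∈ E ∨ s * s' ∈ E

/-- `s` centralises `E` -/
def Cn (E : Subgroup (Un U)) (s : Un U) : Prop := ∀ x ∈ E, s * x = x * s

variable {p : ℕ} [Fact p.Prime] [Module (ZMod p) U]

/-- `s` is a transvection -/
def IsT (p : ℕ) [Fact p.Prime] [Module (ZMod p) U] (s : Un U) : Prop :=
  ∃ (e : U) (f : U →+ ZMod p), TV s e f

/-- `E` is a normal subgroup of `Z` of order prime to `p ∈ {2, 3}` -/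
structure En (p : ℕ) (Z E : Subgroup (Un U)) : Prop where
  p23 : p = 2 ∨ p = 3
  EZ : E ≤ Z
  nE : Nm Z E
  co : Co p E

/-- the module environment of a transvection `t` in the normal subgroup `Y` of `Z`: the pair `E`, `D`
of `exists_E` -/
structure ME (p : ℕ) [Fact p.Prime] [Module (ZMod p) U] (Y Z E D : Subgroup (Un U)) (t : Un U)
    (e : U) (f : U →+ ZMod p) : Prop where
  p23 : p = 2 ∨ p = 3
  fin : Finite U
  YZ : Y ≤ Z
  Yn : Nm Z Y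
  ps : PSol p Y
  np : ∀ N : Subgroup (Un U), N ≤ Y → Nm Z N → IsPGroup p N → N = ⊥
  tv : TV t e f
  tY : t ∈ Y
  ed : ED p Y Z E D t
  co : Co p E

/-- a good `p`-subgroup `Q` of `Y`, normalised by `Zq`; `Z = E Zq` -/
structure MQ (p : ℕ) (Y Z E : Subgroup (Un U)) (t : Un U) (Q Zq : Subgroup (Un U)) : Prop where
  QY : Q ≤ Y
  Qp : IsPGroup p Q
  fa : ∀ g ∈ Q, Cn E g → g = 1
  Zn : Nm Zq Q
  ZZ : Zq ≤ Z
  fc : ∀ z ∈ Z, ∃ x ∈ E, ∃ b ∈ Zq, z = x * b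
  tQ : ∃ g ∈ Z, g * t * g⁻¹ ∈ Q

/-- the transvections in `Q` -/
def Tq (p : ℕ) [Fact p.Prime] [Module (ZMod p) U] (Q : Subgroup (Un U)) : Set (Un U) :=
  {s | s ∈ Q ∧ IsT p s}

/-- generated by the transvections in `Q` -/
def Pq (p : ℕ) [Fact p.Prime] [Module (ZMod p) U] (Q : Subgroup (Un U)) : Subgroup (Un U) :=
  Subgroup.closure (Tq p Q)

/-- `S` is invariant under `Z` -/
def Iv (Z : Subgroup (Un U)) (S : AddSubgroup U) : Prop :=
  ∀ g ∈ Z, ∀ u ∈ S, (g : AddMonoid.End U) u ∈ S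

end mdl

/-! ## 3. The semisimplification, extended -/

section sem

/-- `ψ` is a semisimplification of `φ`, with two more properties of the subgroups `A` for which
`|V : C_V(A)| = |U : C_U(A)|` -/
structure Ss2 {X : Type} [Group X] {V U : Type} [AddCommGroup V] [AddCommGroup U] (p : ℕ)
    (φ : X →* AddMonoid.End V) (ψ : X →* AddMonoid.End U) : Prop extends Ss p φ ψ where
  tl : ∀ A : Subgroup X, Nat.card V * Nat.card (Fx ψ A) ≤ Nat.card U * Nat.card (Fx φ A) →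
    ∀ b : X, (∀ v ∈ Fx φ A, φ b v = v) → ∀ u ∈ Fx ψ A, ψ b u = u
  tt : ∀ A A' : Subgroup X, Nat.card V * Nat.card (Fx ψ A) ≤ Nat.card U * Nat.card (Fx φ A) →
    Nat.card V * Nat.card (Fx ψ A') ≤ Nat.card U * Nat.card (Fx φ A') →
    ∀ S : AddSubgroup U, Inv ψ S → (∀ S' : AddSubgroup U, S' ≤ S → Inv ψ S' → S' = ⊥ ∨ S' = S) →
    (∀ a ∈ A, ∀ u : U, ψ a u - u ∈ S) → (∀ b ∈ A', ∀ u : U, ψ b u - u ∈ S) →
    (∀ a ∈ A, ∀ b ∈ A', ∀ u : U, ψ b (ψ a u - u) = ψ a u - u) →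
    ∀ a ∈ A, ∀ b ∈ A', ∀ v : V, φ b (φ a v - v) = φ a v - v

/-- the semisimple module `U` (action `ψ` of `X`) of the module `V` (action by conjugation of `X`) -/
structure Md2 {G : Type} [Group G] (p : ℕ) (X V R : Subgroup G) {U : Type} [AddCommGroup U]
    (ψ : X →* Un U) : Prop extends Md p X V R ψ where
  isR : IsR p X V R
  /-- quadratic action passes to `U` -/
  qp : ∀ a b : X, (∀ v ∈ V, a.1 * (b.1 * v * b.1⁻¹ * v⁻¹) * a.1⁻¹ = b.1 * v * b.1⁻¹ * v⁻¹) →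
    ∀ u : U, (ψ a : AddMonoid.End U) ((ψ b : AddMonoid.End U) u - u) = (ψ b : AddMonoid.End U) u - u
  /-- `|U : C_U(A)| ≤ |V : C_V(A)|` -/
  cd : ∀ A : Subgroup G, A ≤ X →
    Nat.card U * Nat.card (Cw V A) ≤ Nat.card V * Nat.card (FxU (im ψ A))
  /-- if equality holds for `A` then everything which centralises `C_V(A)` centralises `C_U(A)` -/
  tl : ∀ A : Subgroup G, A ≤ X →
    Nat.card V * Nat.card (FxU (im ψ A)) ≤ Nat.card U * Nat.card (Cw V A) →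
    ∀ b : X, (∀ v ∈ Cw V A, b.1 * v = v * b.1) → ∀ u ∈ FxU (im ψ A), (ψ b : AddMonoid.End U) u = u
  /-- if equality holds for `A` and `A'` and both act nontrivially on one irreducible submodule only -/
  tt : ∀ A A' : Subgroup G, A ≤ X → A' ≤ X →
    Nat.card V * Nat.card (FxU (im ψ A)) ≤ Nat.card U * Nat.card (Cw V A) →
    Nat.card V * Nat.card (FxU (im ψ A')) ≤ Nat.card U * Nat.card (Cw V A') →
    ∀ S : AddSubgroup U, Iv ψ.range S → (∀ S' : AddSubgroup U, S' ≤ S → Iv ψ.range S' →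
      S' = ⊥ ∨ S' = S) →
    (∀ a : X, a.1 ∈ A → ∀ u : U, (ψ a : AddMonoid.End U) u - u ∈ S) →
    (∀ b : X, b.1 ∈ A' → ∀ u : U, (ψ b : AddMonoid.End U) u - u ∈ S) →
    (∀ a b : X, a.1 ∈ A → b.1 ∈ A' → ∀ u : U,
      (ψ b : AddMonoid.End U) ((ψ a : AddMonoid.End U) u - u) = (ψ a : AddMonoid.End U) u - u) →
    ∀ a ∈ A, ∀ b ∈ A', ∀ v ∈ V, b * (a * v * a⁻¹ * v⁻¹) * b⁻¹ = a * v * a⁻¹ * v⁻¹

end sem

/-! ## 4. Vertices -/

section vtx
variable {V G : Type*} [Group G] [MulAction G V]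

/-- an invariant family of subgroups of the groups `Qe` generating elementary abelian groups -/
structure Fm (Γ : SimpleGraph V) (p : ℕ) (ζ : V → V → Subgroup G) : Prop where
  cj : ∀ (g : G) x y, ζ (g • x) (g • y) = cj g (ζ x y)
  cm : ∀ x y, ζ x y = ζ y x
  le : ∀ x y, Γ.Adj x y → ζ x y ≤ Qe p x y
  ne : ∀ x y, Γ.Adj x y → ζ x y ≠ ⊥
  el : ∀ x, El p (VZ Γ ζ x)

/-- the centraliser of `W` in the stabiliser of `x` -/
def Cg (x : V) (W : Subgroup G) : Subgroup G :=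
  stabilizer G x ⊓ Subgroup.centralizer (W : Set G)

theorem mem_Cg {x : V} {W : Subgroup G} {g : G} :
    g ∈ Cg x W ↔ g • x = x ∧ ∀ v ∈ W, g * v = v * g := by
  unfold Cg
  rw [Subgroup.mem_inf, Subgroup.mem_centralizer_iff, mem_stabilizer_iff]
  exact and_congr_right (fun _ => forall₂_congr (fun k _ => eq_comm))

/-- the vertex environment -/
structure VE (Γ : SimpleGraph V) (p : ℕ) [Fact p.Prime] (x : V) (R : Subgroup G) {U : Type*}
    [AddCommGroup U] [Module (ZMod p) U] (ψ : stabilizer G x →* Un U) (E D : Subgroup (Un U))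
    (t : Un U) (e : U) (f : U →+ ZMod p) : Prop where
  me : ME p (im ψ (Nh Γ p x)) ψ.range E D t e f
  ker : ∀ g : stabilizer G x, g.1 ∈ R ↔ ψ g = 1
  Rs : R ≤ stabilizer G x
  RK : ∀ y, Γ.Adj x y → R ⊓ B x y ≤ K Γ x
  QR : Qv Γ p x ≤ R
  Et : ∀ y y', Γ.Adj x y → Γ.Adj x y' → ∃ g : stabilizer G x, ψ g ∈ E ∧ g.1 • y = y'
  tQ : ∃ y, Γ.Adj x y ∧ t ∈ im ψ (Qe p x y)
  fa : ∀ y, Γ.Adj x y → ∀ s ∈ im ψ (Qe p x y), Cn E s → s = 1

/-- the vertex system: `W = W x`, `S = S x`, `Bm y = Bm x y` -/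
structure VS (Γ : SimpleGraph V) (p : ℕ) [Fact p.Prime] (x : V) (W S R : Subgroup G)
    (Bm : V → Subgroup G) {U : Type*} [AddCommGroup U] [Module (ZMod p) U]
    (ψ : stabilizer G x →* Un U) (E D : Subgroup (Un U)) (t : Un U) (e : U) (f : U →+ ZMod p) :
    Prop where
  ve : VE Γ p x R ψ E D t e f
  Wel : El p W
  Wn : Nm (stabilizer G x) W
  Wf : Finite W
  Sn : Nm (stabilizer G x) S
  SR : S ≤ R
  SW : ∀ s ∈ S, ∀ v ∈ W, s * v = v * s
  BQ : ∀ y, Γ.Adj x y → Bm y ≤ Qe p x y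
  SB : ∀ y, Γ.Adj x y → S ≤ Bm y
  BR : ∀ y, Γ.Adj x y → Bm y ⊓ R ≤ S
  Bcj : ∀ g : G, g • x = x → ∀ y, Γ.Adj x y → Bm (g • y) = cj g (Bm y)
  BT : ∀ y, Γ.Adj x y → im ψ (Bm y) = Pq p (im ψ (Qe p x y))
  tg : ∀ y, Γ.Adj x y → Nat.card (Bm y) * Nat.card (Cw W (Bm y)) = Nat.card W * Nat.card S

/-- `P` is tight -/
def Tg (W S P : Subgroup G) : Prop := Nat.card P * Nat.card (Cw W P) = Nat.card W * Nat.card S

end vtx

/-! ## 5. The abstract system -/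

section sys
variable {V G : Type*} [Group G] [MulAction G V]

/-- `P y` and `P y'` do not commute modulo `R` -/
def Nr (R : Subgroup G) (P : V → Subgroup G) (y y' : V) : Prop :=
  ∃ a ∈ P y, ∃ b ∈ P y', a * b * a⁻¹ * b⁻¹ ∉ R

/-- a block at the vertex `x` (`W = W x`, `S = S x`, `R = R x`, `Z y = Z x y`, `Bm y = Bm x y`) -/
structure Bl (Γ : SimpleGraph V) (x : V) (W S R : Subgroup G) (Z Bm : V → Subgroup G)
    (P Pc : V → Subgroup G) : Prop where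
  SP : ∀ y, Γ.Adj x y → S ≤ P y
  PB : ∀ y, Γ.Adj x y → P y ≤ Bm y
  SPc : ∀ y, Γ.Adj x y → S ≤ Pc y
  PcB : ∀ y, Γ.Adj x y → Pc y ≤ Bm y
  sup : ∀ y, Γ.Adj x y → Bm y ≤ P y ⊔ Pc y
  cjJ : ∀ z, Γ.Adj x z → ∀ g ∈ Bm z, ∀ y, Γ.Adj x y →
    P (g • y) = cj g (P y) ∧ Pc (g • y) = cj g (Pc y)
  cjC : ∀ g ∈ Cg x W, ∀ y, Γ.Adj x y → P (g • y) = cj g (P y) ∧ Pc (g • y) = cj g (Pc y)
  cmV : ∀ y y', Γ.Adj x y → Γ.Adj x y' → ∀ a ∈ P y, ∀ b ∈ Pc y', ∀ v ∈ W,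
    a * (b * v * b⁻¹) * a⁻¹ = b * (a * v * a⁻¹) * b⁻¹
  gen : ∀ y, Γ.Adj x y → W ≤ Cw W (P y) ⊔ Cw W (Pc y)
  tr : ∀ y y', Γ.Adj x y → Γ.Adj x y' →
    Bm y' ≤ ⨆ b : (B x y : Subgroup G), cj b.1 (P (b.1⁻¹ • y'))
  nc : ∀ y, Γ.Adj x y → ∃ y', Γ.Adj x y' ∧ Nr R P y y'
  nz : ∀ y y', Γ.Adj x y → Γ.Adj x y' → Nr R P y y' →
    ∃ a ∈ P y, ∃ v ∈ W, a * v * a⁻¹ * v⁻¹ ∉ Z y'

/-- a link: `x ~ x'`, `w' ~ w`, the pair `x`, `w` is critical -/
structure Lw (Γ : SimpleGraph V) (W S : V → Subgroup G) (x x' w' w : V) : Prop where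
  xx : Γ.Adj x x'
  ww : Γ.Adj w w'
  xw : W x ≤ S w'
  wx : W w ≤ S x'
  cr : ¬ W x ≤ S w

/-- the system -/
structure Sy (Γ : SimpleGraph V) (d p : ℕ) (W S R : V → Subgroup G) (Z Bm : V → V → Subgroup G) :
    Prop where
  Wcj : ∀ (g : G) x, W (g • x) = cj g (W x)
  Scj : ∀ (g : G) x, S (g • x) = cj g (S x)
  Zcj : ∀ (g : G) x y, Z (g • x) (g • y) = cj g (Z x y)
  Bcj : ∀ (g : G) x y, Bm (g • x) (g • y) = cj g (Bm x y)
  Zcm : ∀ x y, Z x y = Z y x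
  Bcm : ∀ x y, Bm x y = Bm y x
  Rs : ∀ x, R x ≤ stabilizer G x
  Rn : ∀ x, Nm (stabilizer G x) (R x)
  RC : ∀ x, Cg x (W x) ≤ R x
  SQ : ∀ x, S x ≤ Qv Γ p x
  WS : ∀ x, W x ≤ S x
  SW : ∀ x, ∀ s ∈ S x, ∀ v ∈ W x, s * v = v * s
  BQ : ∀ x y, Γ.Adj x y → Bm x y ≤ Qe p x y
  SB : ∀ x y, Γ.Adj x y → S x ≤ Bm x y
  BK : ∀ x y, Γ.Adj x y → Bm x y ⊓ K Γ x ≤ S x
  ct : ∀ x y, Γ.Adj x y → ∀ b ∈ Bm x y, (∀ v ∈ W x, b * v = v * b) → b ∈ S x
  ne : ∀ x y, Γ.Adj x y → ¬ Bm x y ≤ K Γ x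
  ZW : ∀ x y, Γ.Adj x y → Z x y ≤ W x
  ZB : ∀ x y, Γ.Adj x y → ∀ z ∈ Z x y, ∀ b ∈ Bm x y, b * z = z * b
  BZ : ∀ x y, Γ.Adj x y → ∀ v ∈ W x, (∀ b ∈ Bm x y, b * v = v * b) → v ∈ Z x y
  Zn : ∀ x y, Γ.Adj x y → Z x y ≠ ⊥
  qd : ∀ x y, Γ.Adj x y → ∀ b ∈ Bm x y, ∀ v ∈ W x, b * v * b⁻¹ * v⁻¹ ∈ Z x y
  ab : ∀ x y, Γ.Adj x y → ∀ a ∈ Bm x y, ∀ b ∈ Bm x y, a * b * a⁻¹ * b⁻¹ ∈ S x
  ix : ∀ x y, Γ.Adj x y → (Z x y).relIndex (W x) ≤ d.factorial
  lk : ∀ x x' w' w, Lw Γ W S x x' w' w →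
    ∃ P Pc : V → Subgroup G, Bl Γ x (W x) (S x) (R x) (Z x) (Bm x) P Pc ∧ P x' = W w ⊔ S x

end sys

/-! ## 6. The Baumann system -/

section bau
variable {V G : Type*} [Group G] [MulAction G V]

/-- the elements of order `p` in the centre of the Thompson subgroup of `Qe p x y` -/
def Zp (p : ℕ) (x y : V) : Subgroup G := OZ p (Jt p (Qe p x y))

/-- generated by the groups `Zp p x y` -/
def Wp (Γ : SimpleGraph V) (p : ℕ) (x : V) : Subgroup G := VZ Γ (Zp (G := G) p) x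

/-- the centraliser of `Wp` in `Qv` -/
def Sp (Γ : SimpleGraph V) (p : ℕ) (x : V) : Subgroup G := Cw (Qv Γ p x) (Wp Γ p x)

/-- the centraliser of `Zp` in `Qe` -/
def Bp (p : ℕ) (x y : V) : Subgroup G := Cw (Qe p x y) (Zp p x y)

end bau

end Pool.Agent.Work.MP_6d7bb4.helper94.Sol
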