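import Pool.Agent.Work.MP_6d7bb4_S.Interface3

set_option autoImplicit false
set_option linter.unusedSectionVars false

/-! # MP_6d7bb4: all soluble semiprimitive groups; the end of the proof (helper94) -/

namespace Pool.Agent.Work.MP_6d7bb4.helper94.Sol

open MulAction Tv Ff Ps

section fin
variable {V G : Type} [Group G] [MulAction G V] {Γ : SimpleGraph V} {d p : ℕ} [Fact p.Prime]

/-- no `p`-part -/
theorem no_p' (hFIW : Stmt_FIW) (hBAU1 : Stmt_BAU1) (hSYS : Stmt_SYS) (h : Loc G Γ d)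
    (hcb : CB0 G Γ p → CB G Γ p ∨ Hy G Γ d p) {x y : V} (hxy : Γ.Adj x y) {r : ℕ} (hr1 : 1 ≤ r)
    (hr : 2 * d * (2 * d + 1) ≤ r) (hr' : d.factorial ^ (2 * d + 1) ≤ r) {L : Subgroup G}
    (hL : L ≤ Wr Γ r x y) (hne : L ≠ ⊥)
    (hsn : Sn (B x y) L) (hp : IsPGroup p L) : False := by
  by_cases hB0 : CB0 G Γ p
  · rcases hcb hB0 with hB | hH
    · exact no_p h (fun _ => hB) hxy hr1 hr hL hne hsn hp
    · have hfB := h.finB x y
      have hfQ := finQe (p := p) h x y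
      have hLQ : L ≤ Qe p x y := hsn.isP_le hp
      have hne' : (Wr Γ r x y ⊓ Qe p x y : Subgroup G) ≠ ⊥ := by
        intro h1
        apply hne
        rw [eq_bot_iff, ← h1]
        exact le_inf hL hLQ
      obtain ⟨z, hz, hz1, hzp, hzc⟩ := exists_central (Qe_isP h x y) inf_le_right hne'
        (((nm_Wr h r x y).mono (Qe_le x y)).inf (nm_self _))
      have hzZ : z ∈ (Zz p x y : Subgroup G) := ⟨hz.2, hzp, hzc⟩
      obtain ⟨_, _, _, _, _, _, hle, _⟩ := hBAU1 V G Γ d p hH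
      obtain ⟨R, hS⟩ := hSYS V G Γ d p hH
      exact hz1 (hFIW V G Γ d p (Wp Γ p) (Sp Γ p) R (Zp p) (Bp p) h hS x y hxy r hr' z hz.1
        (hle x y hxy hzZ))
  · exact no_p h (fun h0 => absurd h0 hB0) hxy hr1 hr hL hne hsn hp

omit [Fact p.Prime] in
/-- the action on two balls of bounded radius is faithful -/
theorem Wr_bot' (hFIW : Stmt_FIW) (hBAU1 : Stmt_BAU1) (hSYS : Stmt_SYS) (h : Loc G Γ d)
    (hcb : ∀ p : ℕ, p.Prime → CB0 G Γ p → CB G Γ p ∨ Hy G Γ d p) {x y : V}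
    (hxy : Γ.Adj x y) {r : ℕ} (hr1 : 1 ≤ r)
    (hr : 2 * d * (2 * d + 1) ≤ r) (hr' : d.factorial ^ (2 * d + 1) ≤ r) :
    (Wr Γ r x y : Subgroup G) = ⊥ := by
  by_contra hne
  have := h.finB x y
  obtain ⟨L, hL, hLne, hsn, hmin⟩ := exists_min (Wr_le r x y) (nm_Wr h r x y) hne
  have : Finite L := h.fin_le ((hL.trans (Wr_le r x y)).trans (B_le x y))
  rcases min_cases hLne hmin with hper | ⟨p, hp, hpL⟩
  · exact no_perf h hxy hr1 hL hLne hsn hmin hper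
  · have : Fact p.Prime := ⟨hp⟩
    exact no_p' hFIW hBAU1 hSYS h (hcb p hp) hxy hr1 hr hr' hL hLne hsn hpL

end fin

section main
variable {V : Type} {Γ : SimpleGraph V} {Ω : Type}

/-- at each prime -/
theorem hcb' {p : ℕ} (hp : p.Prime) {H : Subgroup (Γ ≃g Γ)}
    {F : Subgroup (Equiv.Perm Ω)} {d : ℕ} (h : Loc H Γ d)
    (hloc : ∀ x, ∃ e, LA Γ H F x e) {x0 y0 : V} (hxy : Γ.Adj x0 y0)
    (hAB : CondA F p ∨ ∃ S, CondB0 F p S) (hB : CB0 H Γ p) : CB H Γ p ∨ Hy H Γ d p := by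
  have : Fact p.Prime := ⟨hp⟩
  rcases hAB with hA | ⟨S, hS⟩
  · exact Or.inl (rl_of hp h hloc hA hB)
  by_cases hp5 : 5 ≤ p
  · exact (nocb h hB hxy (psol_of hp h hloc hS) (Or.inl hp5)).elim
  have hp23 : p = 2 ∨ p = 3 := by
    have := hp.two_le
    interval_cases p
    · exact Or.inl rfl
    · exact Or.inr rfl
    · exact absurd hp (by norm_num)
  exact Or.inr ⟨h, hB, hp23, psol_of hp h hloc hS⟩

theorem main' [Fintype Ω] (hFIW : Stmt_FIW) (hBAU1 : Stmt_BAU1) (hSYS : Stmt_SYS)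
    {F : Subgroup (Equiv.Perm Ω)}
    (hF1 : ∀ a b : Ω, ∃ σ ∈ F, σ a = b)
    (hF2 : ∀ N : Subgroup (Equiv.Perm Ω), N ≤ F →
        (∀ f ∈ F, ∀ n ∈ N, f * n * f⁻¹ ∈ N) →
        ((∀ a b : Ω, ∃ σ ∈ N, σ a = b) ∨ (∀ σ ∈ N, ∀ a : Ω, σ a = a → σ = 1)))
    (hF3 : ∀ p : ℕ, p.Prime → CondA F p ∨ ∃ S, CondB0 F p S)
    (hT : Γ.IsTree) (hreg : ∀ v : V, Nonempty (Γ.neighborSet v ≃ Ω)) :
    ∃ S : Finset (Subgroup (Γ ≃g Γ)),
        ∀ H : Subgroup (Γ ≃g Γ),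
          (∀ v : V, {g : Γ ≃g Γ | g ∈ H ∧ g v = v}.Finite) →
          (∀ x : V, ∃ e : Γ.neighborSet x ≃ Ω, LA Γ H F x e) →
          (∃ g ∈ H, ∃ x y : V, Γ.Adj x y ∧ g x = y ∧ g y = x ∧ g * g = 1) →
          ∃ K ∈ S, ∃ a : Γ ≃g Γ, H = K.map (MulAut.conj a).toMonoidHom := by
  have hc := hT.connected
  obtain ⟨o⟩ := hc.nonempty
  have hnf : ∀ v, Finite {w // Γ.Adj v w} := by
    intro v
    obtain ⟨e⟩ := hreg v
    exact Finite.of_equiv Ω e.symm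
  obtain ⟨r, hr⟩ : ∃ r, r = 2 * Fintype.card Ω * (2 * Fintype.card Ω + 1) +
      (Fintype.card Ω).factorial ^ (2 * Fintype.card Ω + 1) + 1 := ⟨_, rfl⟩
  have harc : ∀ H : Subgroup (Γ ≃g Γ), (∀ x : V, ∃ e : Γ.neighborSet x ≃ Ω, LA Γ H F x e) →
      ∀ g ∈ H, ∀ x y, Γ.Adj x y → g x = y → g y = x → ∀ x' y', Γ.Adj x' y' →
      ∃ g ∈ H, g x = x' ∧ g y = y' := by
    intro H h2 g hg x y hxy e1 e2
    exact arc_of_inv hc (fun x y y' hy hy' => loc_tr hF1 h2 hy hy') hxy hg e1 e2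
  suffices key : ∃ S : Finset (Subgroup (Γ ≃g Γ)), ∀ H : Subgroup (Γ ≃g Γ),
      ((∀ v : V, {g : Γ ≃g Γ | g ∈ H ∧ g v = v}.Finite) ∧
      (∀ x : V, ∃ e : Γ.neighborSet x ≃ Ω, LA Γ H F x e) ∧
      (∃ g ∈ H, ∃ x y : V, Γ.Adj x y ∧ g x = y ∧ g y = x ∧ g * g = 1)) →
      ∃ K ∈ S, ∃ a : Γ ≃g Γ, H = K.map (MulAut.conj a).toMonoidHom by
    obtain ⟨S, hS⟩ := key
    exact ⟨S, fun H h1 h2 h3 => hS H ⟨h1, h2, h3⟩⟩
  refine Tr.classes hT hnf o (r + 1)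
    (fun H => (∀ v : V, {g : Γ ≃g Γ | g ∈ H ∧ g v = v}.Finite) ∧
      (∀ x : V, ∃ e : Γ.neighborSet x ≃ Ω, LA Γ H F x e) ∧
      (∃ g ∈ H, ∃ x y : V, Γ.Adj x y ∧ g x = y ∧ g y = x ∧ g * g = 1)) ?_ ?_ ?_
  · rintro H ⟨h1, h2, g, hg, x, y, hxy, e1, e2, e3⟩ a
    refine ⟨fin_conj a h1, fun x => ?_, a * g * a⁻¹, mem_conj.mpr ⟨g, hg, rfl⟩, a x, a y,
      Tr.adj_iso a hxy, ?_, ?_, ?_⟩
    · obtain ⟨e, he⟩ := h2 (a⁻¹ x)
      exact ⟨_, LA_conj a x he⟩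
    · rw [Tr.mul_app, Tr.mul_app, Tr.inv_app, e1]
    · rw [Tr.mul_app, Tr.mul_app, Tr.inv_app, e2]
    · have h4 : a * g * a⁻¹ * (a * g * a⁻¹) = a * (g * g) * a⁻¹ := by group
      rw [h4, e3]
      group
  · rintro H ⟨h1, h2, g, hg, x, y, hxy, e1, e2, e3⟩ z hz
    obtain ⟨k, hk, e4, e5⟩ := harc H h2 g hg x y hxy e1 e2 o z hz
    refine ⟨k * g * k⁻¹, H.mul_mem (H.mul_mem hk hg) (H.inv_mem hk), ?_, ?_⟩
    · rw [Tr.mul_app, Tr.mul_app, ← e4, Tr.inv_app, e1, e5]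
    · have h4 : k * g * k⁻¹ * (k * g * k⁻¹) = k * (g * g) * k⁻¹ := by group
      rw [h4, e3]
      group
  · rintro H ⟨h1, h2, g, hg, x, y, hxy, e1, e2, e3⟩ k hk hk1
    have hL : Loc H Γ (Fintype.card Ω) := by
      refine loc_of hF2 hc h1 h2 ?_
      intro u v u' v' h4 h5
      obtain ⟨k, hk, e4, e5⟩ := harc H h2 g hg x y hxy e1 e2 u v h4
      obtain ⟨k', hk', e6, e7⟩ := harc H h2 g hg x y hxy e1 e2 u' v' h5
      refine ⟨k' * k⁻¹, H.mul_mem hk' (H.inv_mem hk), ?_, ?_⟩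
      · rw [Tr.mul_app, ← e4, Tr.inv_app, e6]
      · rw [Tr.mul_app, ← e5, Tr.inv_app, e7]
    obtain ⟨z, hz⟩ : ∃ z, Γ.Adj o z := by
      obtain ⟨ex⟩ := hreg x
      obtain ⟨eo⟩ := hreg o
      exact ⟨(eo.symm (ex ⟨y, hxy⟩)).1, (eo.symm (ex ⟨y, hxy⟩)).2⟩
    have h3 := Wr_bot' hFIW hBAU1 hSYS hL (fun p hp => hcb' hp hL h2 hz (hF3 p hp)) hz (r := r)
      (by omega) (by omega) (by omega)
    have h4 : (⟨k, hk⟩ : H) ∈ (Wr Γ r o z : Subgroup H) := by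
      intro v hv
      refine hk1 v ?_
      rcases hv with hv | hv
      · omega
      · have h5 := hc.dist_triangle (u := o) (v := z) (w := v)
        rw [SimpleGraph.dist_eq_one_iff_adj.mpr hz] at h5
        omega
    rw [h3, Subgroup.mem_bot] at h4
    exact congrArg Subtype.val h4

end main

end Pool.Agent.Work.MP_6d7bb4.helper94.Sol
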