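import Pool.Agent.Work.MP_6d7bb4_S.Defs

set_option autoImplicit false
set_option linter.unusedSectionVars false

/-!
# MP_6d7bb4: all soluble semiprimitive groups; interface, part 1

Part A: the abstract system (chains along a critical path). Part B: the Thompson subgroup. Part C: modules
with transvections.

The file of block `X` is `Pool/Agent/Work/MP_6d7bb4_S/B_X.lean`: `import` this file, namespace
`Pool.Agent.Work.MP_6d7bb4.helper94.Sol`, `theorem s_X (hA : Stmt_A) (hB : Stmt_B) .. : Stmt_X` with the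
blocks of the column uses as hypotheses in that order; private lemmas in `namespace X_X`.

USEFUL.  `Nm M N` unfolds to `∀ b ∈ M, ∀ n ∈ N, b * n * b⁻¹ ∈ N`; lemmas `Nm.mono`, `Nm.sup`, `Nm.inf`,
`Nm.iSup`, `Nm.iSup_left`, `Nm.sup_left`, `nm_of_le`, `nm_self`, `nm_of_equiv`, `nm_of_comm`, `nm_st`,
`mem_sup_nm`, `mem_cj`, `conj_mem_cj`, `cj_mono`, `cj_sup`, `nm_cj`, `cj_inv_cj`, `cj_cj_inv`, `cj_mul`,
`P1`, `h.inv`, `h.arc`, `h.sp`, `mem_K`, `mem_B`, `K_le_B`, `Qv_le`, `Qe_le`, `Qe_le_st`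
(files `Grp.lean`, `Loc.lean`, `LocP.lean`, `Zeta.lean` of `MP_6d7bb4_helper94`).
-/

namespace Pool.Agent.Work.MP_6d7bb4.helper94.Sol

open MulAction Tv Ff Ps
open scoped commutatorElement

/-! ## A. The abstract system -/

/-- BLOCK BAS (uses nothing): first properties of the system.
PROOF. (1) `W x ≤ S x ≤ Qv Γ p x ≤ K Γ x` (`SQ`, `WS`, `Qv_le`). (2) `nm_of_equiv` with `Wcj`, `Scj`.
(3) `nm_of_cj` with `Bcj`, `Zcj` and `mem_B`. (4) symmetry: `xx`, `ww`, `xw`, `wx` are exchanged;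
if `W w ≤ S x` then `W w` and `W x` commute (`SW` at `x`), and `v ∈ W x` lies in
`S w' ≤ Bm w' w = Bm w w'` (`SB`, `Bcm`), so `v ∈ S w` by `ct` at ` (w, w')`: contradiction to `cr`.
(5) `Wcj`, `Scj`, `cj_mono` and `cj_cj_inv` for `cr`, as in `Lk.conj` of `Fin.lean`. (6) The group
`J = ⨆ z, Bm x z` lies in `stabilizer G x` (`BQ`, `Qe_le_st`) and is normalised by it (by `Bcj`,
as `Nh_cj` in `Nc.lean`); apply `h.sp x J`: if `J` is semiregular then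
`Bm x y ≤ K Γ x` (elements of `Bm x y ≤ Qe p x y ≤ B x y` fix `y`), against `ne`. -/
def Stmt_BAS : Prop := ∀ (V G : Type) [Group G] [MulAction G V] (Γ : SimpleGraph V) (d p : ℕ)
  [Fact p.Prime] (W S R : V → Subgroup G) (Z Bm : V → V → Subgroup G), Loc G Γ d →
  Sy Γ d p W S R Z Bm →
  (∀ x, W x ≤ K Γ x ∧ S x ≤ K Γ x) ∧
  (∀ x, Nm (stabilizer G x) (W x) ∧ Nm (stabilizer G x) (S x)) ∧
  (∀ x y, Γ.Adj x y → Nm (B x y) (Bm x y) ∧ Nm (B x y) (Z x y)) ∧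
  (∀ x x' w' w, Lw Γ W S x x' w' w → Lw Γ W S w w' x' x) ∧
  (∀ (g : G) x x' w' w, Lw Γ W S x x' w' w → Lw Γ W S (g • x) (g • x') (g • w') (g • w)) ∧
  (∀ x y y', Γ.Adj x y → Γ.Adj x y' → ∃ g ∈ (⨆ z : {z // Γ.Adj x z}, Bm x z.1), g • y = y')

/-- BLOCK NRM (uses BAS): if `W y ≤ S w'` for a neighbour `y` of `x` then the group `W w ⊔ S x` of the
link ` (x, x', w', w)` normalises `W x ⊔ W y`.
PROOF. By `BAS` (4) and `lk` there is a block `P', Pc'` at `w` with `P' w' = W x ⊔ S w`. Put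
`U = Cw (W w) (Pc' w')`. STEP 1: `W w ≤ S x ⊔ U`. By `gen` at ` (w, w')`:
`W w ≤ Cw (W w) (P' w') ⊔ U`, and `u ∈ Cw (W w) (P' w')` commutes with `W x ≤ P' w'` and lies in
`W w ≤ S x' ≤ Bm x' x = Bm x x'`, so `u ∈ S x` by `ct` at ` (x, x')`. Hence `W w ⊔ S x ≤ S x ⊔ U` and it is
enough to see that `S x` and `U` normalise `W x ⊔ W y` (`Nm.sup_left`). STEP 2: `S x`: it lies in
`stabilizer G x`, and in `K Γ x`, so in `stabilizer G y`; `BAS` (2) and `Nm.sup`. STEP 3: `U`. Let `u ∈ U`;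
`u ∈ W w ≤ S x' ≤ K Γ x' ≤ stabilizer G x` normalises `W x`. Let `v ∈ W y`. Then
`v ∈ S w' ≤ Bm w' w = Bm w w' ≤ P' w' ⊔ Pc' w'`. The group `P' w'` normalises `Pc' w'`: for
`a ∈ P' w'`, `b ∈ Pc' w'` we have `a * b * a⁻¹ = (a * b * a⁻¹ * b⁻¹) * b` and the commutator is in
`S w ≤ Pc' w'` (`ab`, `SPc`). So `v = a * b`, `a ∈ P' w' = W x ⊔ S w`, `b ∈ Pc' w'` (`mem_sup_nm`), and
`a = v1 * s`, `v1 ∈ W x`, `s ∈ S w` (`W x ≤ S w' ≤ K Γ w' ≤ stabilizer G w` normalises `S w`). `u` commutes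
with `b` (definition of `U`) and with `s` (`SW` at `w`). Hence
`u * v * u⁻¹ = (u * v1 * u⁻¹ * v1⁻¹) * v ∈ W x ⊔ W y`. To pass from `v ∈ W y` and `v ∈ W x` to the
join use a `comap` of `MulAut.conj u` as in step 1 of the proof of `ext` in `Nc.lean`. -/
def Stmt_NRM : Prop := ∀ (V G : Type) [Group G] [MulAction G V] (Γ : SimpleGraph V) (d p : ℕ)
  [Fact p.Prime] (W S R : V → Subgroup G) (Z Bm : V → V → Subgroup G), Loc G Γ d →
  Sy Γ d p W S R Z Bm → ∀ x x' w' w, Lw Γ W S x x' w' w → ∀ y, Γ.Adj x y → W y ≤ S w' →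
  Nm (W w ⊔ S x) (W x ⊔ W y)

/-- BLOCK BLT (uses BAS): the group `T = ⟨P z⟩ C_{G_x}(W x)` of a block at `x`.
PROOF. `C = Cg x (W x)` is normalised by `stabilizer G x` (`BAS` (2)). The set `M` of all `g` with
`g • x = x` and `∀ y, Γ.Adj x y → P (g • y) = cj g (P y) ∧ Pc (g • y) = cj g (Pc y)` is a subgroup
(products: `cj_mul` and `mul_smul`, `Γ.Adj x (g • y)` by `h.adj`; inverses: apply the property to
`g⁻¹ • y`) which contains all `Bm x z` (`cjJ`, `BQ`) and `C` (`cjC`). This is (1) and (2). (3): the set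
`M1` of all `g ∈ M` such that for all `y` adjacent to `x` and `b ∈ Pc y`: `g * b * g⁻¹ * b⁻¹ ∈ C`; it is a
subgroup (` (g k) b (g k)⁻¹ b⁻¹ = g (k b k⁻¹ b⁻¹) g⁻¹ (g b g⁻¹ b⁻¹)`), contains `C` and all `P z`: for
`a ∈ P z`, `b ∈ Pc y` the element `a * b * a⁻¹ * b⁻¹` fixes `x` and commutes with `W x`: `cmV` says that
conjugation by `a * b` and by `b * a` agree on `W x`. (4): if `b ∈ Pc y` and `g ∈ T` then
`g * b * g⁻¹ ∈ Pc (g • y)` by (2) and `b = (g * b * g⁻¹ * b⁻¹)⁻¹ * (g * b * g⁻¹)`. (5) The group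
`J = ⨆ z, Bm x z` lies in `X Xc C` where `X = ⨆ z, P z` and `Xc = ⨆ z, Pc z`: `Bm x z ≤ P z ⊔ Pc z` (`sup`),
and `X ⊔ Xc ⊔ C`: elements of `X` and `Xc` commute modulo `C`, so `X` normalises `Xc ⊔ C`
(`mem_sup_nm`). By `BAS` (6) there is `g ∈ J` with `g • y = y'`; write `g = g1 * g2`, `g1 ∈ X`,
`g2 ∈ Xc ⊔ C`. Then `P y' = cj g (P y)`, and `g2` commutes with `P y` modulo `C` (as in (3) with `P` and
`Pc` exchanged), so for `a ∈ P y'`, `a = g * a0 * g⁻¹` with `a0 ∈ P y`,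
`a = g1 * (g2 * a0 * g2⁻¹) * g1⁻¹ ∈ cj g1 (P y) ⊔ C = P (g1 • y) ⊔ C`; conversely
`P (g1 • y) = cj g1 (P y)` and `g1 * a0 * g1⁻¹ ∈ g1 * (g2 * a0 * g2⁻¹) * g1⁻¹ C`. -/
def Stmt_BLT : Prop := ∀ (V G : Type) [Group G] [MulAction G V] (Γ : SimpleGraph V) (d p : ℕ)
  [Fact p.Prime] (W S R : V → Subgroup G) (Z Bm : V → V → Subgroup G), Loc G Γ d →
  Sy Γ d p W S R Z Bm → ∀ (x : V) (P Pc : V → Subgroup G),
  Bl Γ x (W x) (S x) (R x) (Z x) (Bm x) P Pc →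
  (∀ g ∈ (⨆ z : {z // Γ.Adj x z}, Bm x z.1) ⊔ Cg x (W x), g • x = x ∧
    ∀ y, Γ.Adj x y → P (g • y) = cj g (P y) ∧ Pc (g • y) = cj g (Pc y)) ∧
  (∀ g ∈ (⨆ z : {z // Γ.Adj x z}, P z.1) ⊔ Cg x (W x),
    g ∈ (⨆ z : {z // Γ.Adj x z}, Bm x z.1) ⊔ Cg x (W x)) ∧
  (∀ g ∈ (⨆ z : {z // Γ.Adj x z}, P z.1) ⊔ Cg x (W x), ∀ y, Γ.Adj x y → ∀ b ∈ Pc y,
    g * b * g⁻¹ * b⁻¹ ∈ Cg x (W x)) ∧
  (∀ g ∈ (⨆ z : {z // Γ.Adj x z}, P z.1) ⊔ Cg x (W x), ∀ y, Γ.Adj x y →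
    Pc y ≤ Pc (g • y) ⊔ Cg x (W x)) ∧
  (∀ y y', Γ.Adj x y → Γ.Adj x y' → ∃ g ∈ (⨆ z : {z // Γ.Adj x z}, P z.1),
    P y' ≤ P (g • y) ⊔ Cg x (W x) ∧ P (g • y) ≤ P y' ⊔ Cg x (W x))

/-- BLOCK GEN (uses BAS, BLT): the generation argument.
PROOF. Write `C = Cg x (W x)`, `X = ⨆ z, P z`, `T = X ⊔ C`, `R = R x`, `N(y, y')` for `Nr R P y y'`. All
of `T` fixes `x`, and `C ≤ R` (`RC`); `R` is normalised by `stabilizer G x` (`Rn`).
(a) For `g ∈ T`: `N(y, y') → N(g y, g y')` (by `P (g y) = cj g (P y)`, BLT (1), (2)); `N` is symmetric; and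
if `q ∈ T` commutes with `P x'` modulo `R` (i.e. `q * a * q⁻¹ * a⁻¹ ∈ R` for `a ∈ P x'`) then
`N(q⁻¹ x', y') ↔ N(x', y')`: `P (q⁻¹ x') = cj q⁻¹ (P x')` and `q⁻¹ a q ∈ a R`; two commutators
`[a r, b]`, `[a, b]` with `r ∈ R` are equal modulo `R`.
(b) Let `Y` be the join of the `P (g x')` for `g ∈ T` with `N(x', g x')`; so `Nm Y D` by hypothesis
(`Nm.iSup_left`). `Y` is normalised by every `q ∈ T` which commutes with `P x'` modulo `R`: for `g ∈ T`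
with `N(x', g x')` we have `cj q (P (g x')) = P (q g x')` and `N(x', q g x')` iff `N(q⁻¹ x', g x')` iff
`N(x', g x')`. In particular by `C`.
(c) `Y` is normalised by every `P (g x')`, `g ∈ T`: if `N(x', g x')` then `P (g x') ≤ Y`; otherwise every
`q ∈ P (g x') ≤ X ≤ T` commutes with `P x'` modulo `R`.
(d) `X ≤ YT ⊔ C` where `YT` is the join of all `P (g x')`, `g ∈ T`: by BLT (5) `P z ≤ P (g x') ⊔ C` for some
`g ∈ X`. So `T ≤ YT ⊔ C` and `Y` is normalised by `T`.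
(e) There is `g0 ∈ T` with `N(x', g0 x')`: `nc` gives `z` with `N(x', z)`, BLT (5) gives `g0 ∈ X` with
`P z ≤ P (g0 x') ⊔ C`, and commutators modulo `R ≥ C` do not change. Hence `P (g0 x') ≤ Y`, and since `g0`
normalises `Y`, `P x' = cj g0⁻¹ (P (g0 x')) ≤ Y`, and then `P (g x') ≤ Y` for all `g ∈ T`: `YT = Y`.
(f) Let `M` be the join of `cj b Y`, `b ∈ B x x'`. `Nm M D` because `B x x'` normalises `D` (`nm_cj`, and
`cj b D = D` by `cj_of_nm`). `M` is normalised by `B x x'` (`cj_mul`) and by `C` (`cj b Y` is normalised by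
`cj b C = C`). By (d), `X ≤ Y ⊔ C ≤ M ⊔ C`, so `cj b X ≤ M ⊔ C` for `b ∈ B x x'`, and `tr` (with `y = x'`)
gives `Bm x z ≤ M ⊔ C` for all `z`. So `J = ⨆ z, Bm x z` normalises `M`, `J` is transitive on the
neighbours (BAS (6)), and `nm_st` gives `Nm (stabilizer G x) M`.
(g) `M` is not semiregular: there is `a ∈ P x' ≤ M`, `a ∉ K Γ x`. Otherwise
`P x' ≤ Bm x x' ⊓ K Γ x ≤ S x ≤ C ≤ R` (`BK`, `SW`, `RC`) and `N(x', g0 x')` fails as `R` is normalised by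
`stabilizer G x`. `a ∈ B x x'` fixes `x'`. So `h.sp x M` says that `M` is transitive on the neighbours,
and `nm_st` with `N = M` gives `Nm (stabilizer G x) D`. -/
def Stmt_GEN : Prop := ∀ (V G : Type) [Group G] [MulAction G V] (Γ : SimpleGraph V) (d p : ℕ)
  [Fact p.Prime] (W S R : V → Subgroup G) (Z Bm : V → V → Subgroup G), Loc G Γ d →
  Sy Γ d p W S R Z Bm → ∀ (x x' : V) (P Pc : V → Subgroup G), Γ.Adj x x' →
  Bl Γ x (W x) (S x) (R x) (Z x) (Bm x) P Pc → ∀ D : Subgroup G, Nm (B x x') D →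
  (∀ g ∈ (⨆ z : {z // Γ.Adj x z}, P z.1) ⊔ Cg x (W x), Nr (R x) P x' (g • x') →
    Nm (P (g • x')) D) → Nm (stabilizer G x) D

/-- BLOCK EXT (uses BAS, NRM, BLT, GEN): extension of a link.
PROOF. Suppose not: for every neighbour `y` of `x` with `Nr (R x) P x' y` and
`Pc x' ≤ Pc y ⊔ Cg x (W x)` we have `W y ≤ S w'`. Apply GEN with `D = W x ⊔ W x'` (`B x x'` normalises it:
BAS (2)). Let `g ∈ T` with `Nr (R x) P x' (g x')`. Put `y = g⁻¹ x'`, a neighbour of `x`. By BLT (1) for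
`g⁻¹`: `Nr (R x) P (g⁻¹ x') x'`, and `Nr` is symmetric (inverse of a commutator), so
`Nr (R x) P x' y`; BLT (4) for `g⁻¹ ∈ T` gives `Pc x' ≤ Pc y ⊔ Cg x (W x)`. So `W y ≤ S w'` and NRM says
`Nm (P x') (W x ⊔ W y)`. Conjugating by `g` (`nm_cj`, `cj_sup`, `Wcj`, BLT (1)):
`Nm (P (g x')) (W x ⊔ W x')`. So GEN gives `Nm (stabilizer G x) (W x ⊔ W x')`. It is invariant under an
inversion `σ` of the edge (`h.inv`, `Wcj`, `sup_comm`), so `P1` gives `W x ⊔ W x' = ⊥`, but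
`Z x x' ≤ W x` is not trivial (`ZW`, `Zn`). For `P1`: `W x' ≤ K Γ x' ≤ stabilizer G x`. -/
def Stmt_EXT : Prop := ∀ (V G : Type) [Group G] [MulAction G V] (Γ : SimpleGraph V) (d p : ℕ)
  [Fact p.Prime] (W S R : V → Subgroup G) (Z Bm : V → V → Subgroup G), Loc G Γ d →
  Sy Γ d p W S R Z Bm → ∀ (x x' w' w : V), Lw Γ W S x x' w' w → ∀ P Pc : V → Subgroup G,
  Bl Γ x (W x) (S x) (R x) (Z x) (Bm x) P Pc → P x' = W w ⊔ S x →
  ∃ y, Γ.Adj x y ∧ Nr (R x) P x' y ∧ Pc x' ≤ Pc y ⊔ Cg x (W x) ∧ ¬ W y ≤ S w'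

/-- `c + 1` is at most the critical distance -/
def Mw {V G : Type} [Group G] [MulAction G V] (Γ : SimpleGraph V) (W S : V → Subgroup G) (c : ℕ) :
    Prop := ∀ x w : V, Γ.dist x w ≤ c → W x ≤ S w

/-- a path all of whose segments of length `c + 1` are links, with blocks -/
structure Pw {V G : Type} [Group G] [MulAction G V] (Γ : SimpleGraph V) (W S R : V → Subgroup G)
    (Z Bm : V → V → Subgroup G) (c : ℕ) (s : ℕ → V) (n : ℕ) : Prop where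
  ad : ∀ k, k < n + c + 1 → Γ.Adj (s k) (s (k + 1))
  cr : ∀ k, k ≤ n → ¬ W (s (k + c + 1)) ≤ S (s k)
  bl : ∀ k, k < n → ∃ P Pc : V → Subgroup G,
    Bl Γ (s (k + c + 1)) (W (s (k + c + 1))) (S (s (k + c + 1))) (R (s (k + c + 1)))
      (Z (s (k + c + 1))) (Bm (s (k + c + 1))) P Pc ∧
    P (s (k + c)) = W (s k) ⊔ S (s (k + c + 1)) ∧
    Nr (R (s (k + c + 1))) P (s (k + c)) (s (k + c + 2)) ∧
    Pc (s (k + c)) ≤ Pc (s (k + c + 2)) ⊔ Cg (s (k + c + 1)) (W (s (k + c + 1)))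

/-- BLOCK PTW (uses BAS, EXT): critical paths of any length.
PROOF. As `crit`, `Pth.lk`, `Pth.step`, `Pth.exists` in `Path.lean` (copy). (a) There are `x`, `w` with
`¬ W x ≤ S w`: otherwise every `z ∈ Z x0 y0 ≤ W x0` lies in `S v ≤ K Γ v` for every `v`, so `z = 1` by
`h.faith`, against `Zn`. Take such a pair at the smallest distance `c + 1` (distance `0` is impossible:
`WS`), and a geodesic; this is `Pw` for `n = 0`. (b) For `k ≤ n` the vertices `s (k + c + 1)`, `s (k + c)`,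
`s (k + 1)`, `s k` form a link `Lw` (by `dist_path` and `Mw`). (c) Step: for the last link `k = n` take
the block of `lk` and the vertex `y` of EXT; extend `s` by `s (n + c + 2) = y`. -/
def Stmt_PTW : Prop := ∀ (V G : Type) [Group G] [MulAction G V] (Γ : SimpleGraph V) (d p : ℕ)
  [Fact p.Prime] (W S R : V → Subgroup G) (Z Bm : V → V → Subgroup G), Loc G Γ d →
  Sy Γ d p W S R Z Bm → ∀ (x0 y0 : V), Γ.Adj x0 y0 → ∃ c, Mw Γ W S c ∧
  ∀ n, ∃ s : ℕ → V, Pw Γ W S R Z Bm c s n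

/-- BLOCK CNV (uses BAS): convexity. Elements of the commutator of the two ends of a segment lie in all
the groups `Z` along the segment.
PROOF. Let `a ∈ ⁅W (s (k + c + 1)), W (s k)⁆`, `c ≤ k ≤ n`. Link: `x = s (k + c + 1)`, `x' = s (k + c)`,
`w' = s (k + 1)`, `w = s k` (as in PTW (b), from `ad`, `cr`, `Mw` and `dist_path`).
START `j = k + c`: for `v ∈ W x`, `u ∈ W w ≤ S x' ≤ Bm x' x = Bm x x'`: `⁅v, u⁆ = v (u v⁻¹ u⁻¹)` and
`u v⁻¹ u⁻¹ v ∈ Z x x'` (`qd`) commutes with `v` (`ZW`, and `W x ≤ S x`, `SW`), so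
`⁅v, u⁆ ∈ Z x x'` (`Subgroup.commutator_le`). Also `a ∈ W w`: `W x ≤ S w' ≤ K Γ w' ≤ stabilizer G w`
normalises `W w`. STEP from `j + 1` to `j`, `k ≤ j < k + c`: let
`a ∈ Z (s (j + 2)) (s (j + 1)) = Z (s (j + 1)) (s (j + 2))`, write `x = s (j + 1)`. Take the block of `bl`
with index `m = j - c < n` (`j ≥ k ≥ c`; `m + c + 1 = j + 1`): `P (s j) = W (s m) ⊔ S x`,
`Pc (s j) ≤ Pc (s (j + 2)) ⊔ Cg x (W x)`. `a ∈ W x` (`ZW`). (i) `a` commutes with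
`Bm x (s (j + 2)) ≥ Pc (s (j + 2))` (`ZB`, `PcB`) and with `Cg x (W x)`, so with `Pc (s j)`. (ii) `a`
commutes with `S x`, and with `W (s m)`: `a ∈ W (s k)`, `dist (s k) (s m) ≤ k - m ≤ c`
(`dist_path`, `SimpleGraph.dist_comm`), so `W (s k) ≤ S (s m)` by `Mw`, and `SW`. So `a` commutes with
`P (s j) ⊔ Pc (s j) ≥ Bm x (s j)` (`sup`), and `BZ` gives `a ∈ Z x (s j)`. -/
def Stmt_CNV : Prop := ∀ (V G : Type) [Group G] [MulAction G V] (Γ : SimpleGraph V) (d p : ℕ)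
  [Fact p.Prime] (W S R : V → Subgroup G) (Z Bm : V → V → Subgroup G), Loc G Γ d →
  Sy Γ d p W S R Z Bm → ∀ (c n : ℕ) (s : ℕ → V), Mw Γ W S c → Pw Γ W S R Z Bm c s n →
  ∀ k, c ≤ k → k ≤ n → ∀ a ∈ ⁅W (s (k + c + 1)), W (s k)⁆, ∀ j, k ≤ j → j ≤ k + c →
  a ∈ Z (s (j + 1)) (s j)

/-- BLOCK BDW (uses BAS, CNV): the critical distance is bounded by the sizes of the groups `W`.
PROOF. For every `k < n` there is `a_k ∈ ⁅W (s (k + c + 1)), W (s k)⁆` with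
`a_k ∉ Z (s (k + c + 1)) (s (k + c + 2))`: with the block of `bl` at `k` and `x = s (k + c + 1)`, `nz` gives
`q ∈ P (s (k + c)) = W (s k) ⊔ S x`, `v ∈ W x` with `q v q⁻¹ v⁻¹ ∉ Z x (s (k + c + 2))`; `q = u * t` with
`u ∈ W (s k)`, `t ∈ S x` (`mem_sup_nm`: `W (s k) ≤ S (s (k + c)) ≤ K ≤ stabilizer G x` normalises `S x`), `t`
commutes with `v`, so `q v q⁻¹ v⁻¹ = ⁅u, v⁆` lies in the commutator group (`Subgroup.commutator_comm`).
Apply `chain_min` (`Path.lean`) with the set `{c, .., 2 c + 1}` (`Finset.Icc`, `c + 2` elements),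
`V0 = W (s (2 c + 1))`, `U k = Z (s (k + c + 1)) (s (k + c + 2))`. `a_k ∈ V0`: by CNV with
`j = 2 c + 1` if `k > c` (`Z (s (2c+2)) (s (2c+1)) = Z (s (2c+1)) (s (2c+2)) ≤ W (s (2c+1))`), with
`j = 2 c` if `k = c`. For `k < k'`: `a_k' ∈ U k` by CNV for `k'` with `j = k + c + 1`
(`k' ≤ k + c + 1 ≤ k' + c`) and `Zcm`. -/
def Stmt_BDW : Prop := ∀ (V G : Type) [Group G] [MulAction G V] (Γ : SimpleGraph V) (d p : ℕ)
  [Fact p.Prime] (W S R : V → Subgroup G) (Z Bm : V → V → Subgroup G), Loc G Γ d →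
  Sy Γ d p W S R Z Bm → ∀ (c : ℕ) (s : ℕ → V), Mw Γ W S c → Pw Γ W S R Z Bm c s (2 * c + 2) →
  ∀ M, (∀ x, Nat.card (W x) ≤ M) → 2 ^ (c + 2) ≤ M

/-- BLOCK CRD (uses BAS): the sizes of the groups `W`.
PROOF. As `mem_Cx`, `Cx_inf`, `Vv_card` in `Fin.lean`. For a vertex `x` let `C x = ⨅ y, Z x y` (over the
neighbours). `C x ⊓ C y = ⊥` for adjacent `x`, `y`: apply `P1`; it is normalised by `⨆ z, Bm x z` (which
commutes with `C x` by `ZB`; transitive by BAS (6)), by `B x y`, and by an inversion. With `N = d!`: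
` (C x).relIndex (W x) ≤ N ^ d` (`Subgroup.relIndex_iInf_le`, `ix`, `h.ncard`), so `|Z x y| ≤ N ^ d * N ^ d`
and `|W x| ≤ N ^ (2 d) * N`. If `x` has no neighbour: `h.conn` and `h.arc`: the hypothesis gives an
adjacent pair `x0`, `y0`; by connectedness every vertex has a neighbour
(`h.conn.preconnected`, the first edge of a walk; `V` has two different elements). -/
def Stmt_CRD : Prop := ∀ (V G : Type) [Group G] [MulAction G V] (Γ : SimpleGraph V) (d p : ℕ)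
  [Fact p.Prime] (W S R : V → Subgroup G) (Z Bm : V → V → Subgroup G), Loc G Γ d →
  Sy Γ d p W S R Z Bm → ∀ x0 y0, Γ.Adj x0 y0 → ∀ x, Nat.card (W x) ≤ d.factorial ^ (2 * d + 1)

/-- BLOCK FIW (uses BAS, PTW, BDW, CRD): the end.
PROOF. By PTW and BDW, CRD: there is `c` with `Mw Γ W S c`, a path for every `n`, and
`2 ^ (c + 2) ≤ (d!) ^ (2 d + 1)`, so `c + 2 ≤ r`. CLAIM: `z ∈ Z x x'` for all neighbours `x'` of `x`. The path
for `n = 0` is a link `l0` of distance at most `c + 1`; by `h.arc` and BAS (5) there is a link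
` (x, x', w', w)` with `dist x w ≤ c + 1` (`dist_smul` in `Fin.lean`). `z ∈ W x` (`ZW`). `z` commutes with
`W w`: `z ∈ W x ≤ S w' ≤ Bm w' w = Bm w w'`, and `z ∈ K Γ w` since `z` fixes the ball of radius `r ≥ c + 2`
around `x`, so `z ∈ S w` by `BK`, and `SW`. `z` commutes with `S x`. The block `P, Pc` of `lk` for this link:
`z` commutes with `P x' = W w ⊔ S x`. The same holds for the links ` (x, x', b w', b w)`, `b ∈ B x x'`
(BAS (5)): `z` commutes with `W (b w) ⊔ S x = cj b (P x')`. Now `z` commutes with `Bm x x'`: by `tr` for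
`y = y' = x'`: `b⁻¹ x' = x'`, so `Bm x x' ≤ ⨆ b, cj b (P x')`. Hence `z ∈ Z x x'` by `BZ`. The same at
`y` (`Zcm`, `Wr_comm`). So `z` lies in `⨅ Z x x'` and in `⨅ Z y y'`, whose intersection is trivial
(as in CRD: `P1`; please repeat the short argument). -/
def Stmt_FIW : Prop := ∀ (V G : Type) [Group G] [MulAction G V] (Γ : SimpleGraph V) (d p : ℕ)
  [Fact p.Prime] (W S R : V → Subgroup G) (Z Bm : V → V → Subgroup G), Loc G Γ d →
  Sy Γ d p W S R Z Bm → ∀ x y, Γ.Adj x y → ∀ r, d.factorial ^ (2 * d + 1) ≤ r →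
  ∀ z ∈ (Wr Γ r x y : Subgroup G), z ∈ Z x y → z = 1

/-! ## B. The Thompson subgroup -/

/-- BLOCK TH1 (uses nothing): first properties.
PROOF. (1) Finitely many subgroups (`finite_Iic` in `Grp.lean`), `⊥` is elementary abelian; take one of
maximal order. (2) `El` and `Nat.card` are invariant under `cj g` (a bijection `h ↦ g * h * g⁻¹`); for
the maximality use `cj g⁻¹`. (3) `Jt p (cj g Q) = cj g (Jt p Q)`: both inclusions by `iSup_le`, (2) and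
`cj_mono`. (4) `A ⊔ Subgroup.zpowers z` is elementary abelian and lies in `Q`, so its order is at most
`|A|`, so it is `A` (`Subgroup.eq_of_le_of_card_ge`). (5) closure induction, or `mem_sup_nm`
(`nm_of_comm`): every element is `a * b`. (6) the standard formula, for instance from
`Subgroup.relIndex` (`Subgroup.relIndex_mul_relIndex`, `Subgroup.relIndex_sup_right` for normal
subgroups) or by the surjection `A × B → A ⊔ B` with fibres of size `|A ⊓ B|`. -/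
def Stmt_TH1 : Prop := ∀ (G : Type) [Group G] (p : ℕ) [Fact p.Prime],
  (∀ Q : Subgroup G, Finite Q → ∃ A, Am p Q A) ∧
  (∀ (g : G) (Q A : Subgroup G), Am p Q A → Am p (cj g Q) (cj g A)) ∧
  (∀ (g : G) (Q : Subgroup G), Jt p (cj g Q) = cj g (Jt p Q)) ∧
  (∀ Q A : Subgroup G, Finite Q → Am p Q A → ∀ z ∈ Q, z ^ p = 1 → (∀ a ∈ A, a * z = z * a) →
    z ∈ A) ∧
  (∀ A B : Subgroup G, El p A → El p B → (∀ a ∈ A, ∀ b ∈ B, a * b = b * a) → El p (A ⊔ B)) ∧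
  (∀ A B : Subgroup G, Finite A → Finite B → (∀ a ∈ A, ∀ b ∈ B, a * b = b * a) →
    Nat.card (A ⊔ B : Subgroup G) * Nat.card (A ⊓ B : Subgroup G) = Nat.card A * Nat.card B)

/-- BLOCK BST (uses TH1): subgroups of maximal order are best offenders.
PROOF. `Cw W A = W ⊓ A`: `⊇` since `A` is abelian; `⊆` by TH1 (4). `Cw W C ⊔ C` is elementary abelian (TH1
(5), `C ≤ A`) and lies in `Q`, so its order is at most `|A|`. By TH1 (6)
`|Cw W C| * |C| = |Cw W C ⊔ C| * |Cw W C ⊓ C| ≤ |A| * |W ⊓ A| = |A| * |Cw W A|`, since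
`Cw W C ⊓ C ≤ W ⊓ A`. -/
def Stmt_BST : Prop := ∀ (G : Type) [Group G] (p : ℕ) [Fact p.Prime] (Q A W C : Subgroup G),
  Finite Q → Am p Q A → W ≤ Q → El p W → C ≤ A →
  Nat.card C * Nat.card (Cw W C) ≤ Nat.card A * Nat.card (Cw W A)

/-! ## C. Modules with transvections -/

/-- BLOCK OTV (uses nothing): abelian offenders contain transvections (Timmesfeld replacement and
`exists_tv` of `Tx.lean`).
PROOF. Choose `B0 ≤ A`, `B0 ≠ ⊥`, `|U| ≤ |B0| |FxU B0|`, minimal for inclusion (`finite_Iic`, as at the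
beginning of the proof of `exists_tv`). CLAIM: `B0` is quadratic: `b (c u - u) = c u - u` for `b, c ∈ B0`.
For `v : U` let `Cv = {b ∈ B0 | b (c v - v) = c v - v for all c ∈ B0}`, a subgroup. (i)
`|U| ≤ |Cv| |FxU Cv|`: let `F = FxU B0`, and `N` the subgroup of `U` generated by `F` and all `c v - v`,
`c ∈ B0`; `N ≤ FxU Cv`. The map `B0 → N ⧸ F`, `b ↦ b v - v`, has fibres in cosets of `Cv`: if
` (b v - v) - (c v - v) ∈ F` then for every `x ∈ B0` (`B0` abelian)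
`b (x v - v) - (x v - v) = x (b v - v) - (b v - v) = x (c v - v) - (c v - v) = c (x v - v) - (x v - v)`, so
`b⁻¹ c ∈ Cv`. Hence `|B0| ≤ |Cv| |N| / |F|`, `|B0| |F| ≤ |Cv| |N| ≤ |Cv| |FxU Cv|`. (Formally: an injection
`B0 ⧸ Cv → N ⧸ F`, by `Quotient.out` for example.) (ii) By minimality `Cv = ⊥` or `Cv = B0`. If
`Cv = B0` for all `v` the claim holds. Otherwise `Cv = ⊥` for some `v`; then by the estimate of (i)
`|U| ≤ |B0| |F| ≤ |N|`, so `N = U`. So `b u - u` for `u ∈ U`, `b ∈ B0`, lies in the subgroup generated by the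
`b w - w` with `w` of the form `c v - v`. Let `U1 = [U, B0]` (generated by all `b u - u`); then
`U1 = [U1, B0]`. The group `B0` is a finite `p`-group acting on the finite `p`-group `U1`: `U1 ≠ 0` (as
`B0 ≠ 1` acts faithfully) has `[U1, B0] ≠ U1`: contradiction. For the last statement use the filtration: for
a quadratic argument it is enough to know that `B0` acts nilpotently: ` (b - 1) ^ (p ^ k) = 0` in
characteristic `p` and `B0` is abelian, so the (commutative) augmentation products of length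
`|B0| * p ^ k` vanish; or: take a maximal `B0`-invariant proper subgroup `M` of `U1`; `B0` acts on the
simple module `U1 ⧸ M` trivially (`irr_noP` in `PStab.lean`, or a fixed point:
`IsPGroup.card_modEq_card_fixedPoints`), so `[U1, B0] ≤ M`. Now apply `exists_tv` to `B0`. -/
def Stmt_OTV : Prop := ∀ (U : Type) [AddCommGroup U] (p : ℕ) [Fact p.Prime]
  (Y Z A : Subgroup (Un U)), Finite U → p = 2 ∨ p = 3 → (∀ u : U, p • u = 0) → Y ≤ Z → Nm Z Y →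
  PSol p Y → (∀ N : Subgroup (Un U), N ≤ Y → Nm Z N → IsPGroup p N → N = ⊥) → A ≤ Y → A ≠ ⊥ →
  (∀ a ∈ A, ∀ b ∈ A, a * b = b * a) → IsPGroup p A →
  Nat.card U ≤ Nat.card A * Nat.card (FxU A) →
  ∃ t ∈ A, t ≠ 1 ∧ ((t : AddMonoid.End U) - 1) * ((t : AddMonoid.End U) - 1) = 0 ∧
    Nat.card U ≤ p * Nat.card ((t : AddMonoid.End U) - 1 : AddMonoid.End U).ker

/-- BLOCK TCE (uses nothing): `Tc` is an equivalence relation on `Z`.
PROOF. Computations in `Z ⧸ E`. `Tc E s s`: `s s⁻¹ = 1`. Symmetry: `s' s⁻¹ = (s s'⁻¹)⁻¹`,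
`s' s = s⁻¹ (s s') s`. Transitivity: four cases, e.g. `s s'' = (s s') * (s'⁻¹ s'')` and
`s'⁻¹ s'' = s'⁻¹ (s'' s'⁻¹) s'`. Conjugation: `E` is normal. `Tc E s s⁻¹`: second alternative. `x s x⁻¹ s⁻¹`:
`s x⁻¹ s⁻¹ ∈ E`. `Cn E`: `g s g⁻¹` commutes with `x` iff `s` commutes with `g⁻¹ x g ∈ E`. -/
def Stmt_TCE : Prop := ∀ (U : Type) [AddCommGroup U] (p : ℕ) (Z E : Subgroup (Un U)), En p Z E →
  (∀ s ∈ Z, Tc E s s) ∧ (∀ s ∈ Z, ∀ s' ∈ Z, Tc E s s' → Tc E s' s) ∧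
  (∀ s ∈ Z, ∀ s' ∈ Z, ∀ s'' ∈ Z, Tc E s s' → Tc E s' s'' → Tc E s s'') ∧
  (∀ g ∈ Z, ∀ s ∈ Z, ∀ s' ∈ Z, Tc E s s' → Tc E (g * s * g⁻¹) (g * s' * g⁻¹)) ∧
  (∀ s ∈ Z, Tc E s s⁻¹) ∧ (∀ x ∈ E, ∀ s ∈ Z, Tc E (x * s * x⁻¹) s) ∧
  (∀ g ∈ Z, ∀ s ∈ Z, ¬ Cn E s → ¬ Cn E (g * s * g⁻¹)) ∧ (∀ s ∈ Z, ¬ Cn E s → ¬ Cn E s⁻¹)

/-- BLOCK TCP (uses TCE): two transvections `s`, `s'` of `Z` not centralising `E`, with centres `e1`, `e2`
and functionals `f1`, `f2`.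
PROOF. `NE s E`, `NE s' E` from `nE`. (a) `tri0` (`Tv2.lean`) with `t = s'` (centre `e2`), `s = s` (functional
`f1`); the `x`, `y` with `t ≠ x t x⁻¹` come from `¬ Cn` (see the proof of `tri`). (b) If `s s'⁻¹ ∈ E`: `co`
gives `n` prime to `p` with ` (s s'⁻¹) ^ n = 1` and `pair` gives `f1 e2 * f2 e1 = -1`. If `s s' ∈ E` use
`TV.inv` for `s'`: `s'⁻¹` has centre `e2`, functional `-f2`. (c) (a) for ` (s, s')` and ` (s', s)` with the
symmetry of `Tc`; then commute as in `tri`. (d) if `s s' ≠ s' s` then `Tc` by (c), `s' ≠ s, s⁻¹`, and (b). -/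
def Stmt_TCP : Prop := ∀ (U : Type) [AddCommGroup U] (p : ℕ) [Fact p.Prime] [Module (ZMod p) U]
  (Z E : Subgroup (Un U)), En p Z E → ∀ (s s' : Un U) (e1 e2 : U) (f1 f2 : U →+ ZMod p),
  TV s e1 f1 → TV s' e2 f2 → s ∈ Z → s' ∈ Z → ¬ Cn E s → ¬ Cn E s' →
  (f1 e2 ≠ 0 → Tc E s s') ∧ (Tc E s s' → s' ≠ s → s' ≠ s⁻¹ → f1 e2 ≠ 0 ∧ f2 e1 ≠ 0) ∧
  (¬ Tc E s s' → f1 e2 = 0 ∧ f2 e1 = 0 ∧ s * s' = s' * s) ∧
  (s * s' ≠ s' * s → Tc E s s' ∧ f1 e2 ≠ 0 ∧ f2 e1 ≠ 0)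

/-- BLOCK TCN (uses TCE, TCP): a partner.
PROOF. `¬ Cn E s` gives `x ∈ E` with `s x ≠ x s`; `s' = x s x⁻¹` is a transvection with centre `x e` and
functional `f ∘ x⁻¹` (`TV.conj`), `s' ≠ s`, `Tc E s s'` (TCE), `¬ Cn E s'`. `s' ≠ s⁻¹`: otherwise
`s s = s s'⁻¹ ∈ E`; for `p = 2`, `s⁻¹ = s` (`TV.pow_p`) and `s' = s`; for `p = 3`, `s ^ 3 = 1` and
` (s s) ^ n = 1` with `n` prime to `3` give `s s = 1`, `s = 1`, against `TV.ne1`. Now TCP (b). -/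
def Stmt_TCN : Prop := ∀ (U : Type) [AddCommGroup U] (p : ℕ) [Fact p.Prime] [Module (ZMod p) U]
  (Z E : Subgroup (Un U)), En p Z E → ∀ (s : Un U) (e : U) (f : U →+ ZMod p), TV s e f → s ∈ Z →
  ¬ Cn E s → ∃ x ∈ E, f ((x : AddMonoid.End U) e) ≠ 0 ∧
    f (((x⁻¹ : Un U) : AddMonoid.End U) e) ≠ 0

/-- BLOCK TCL (uses TCE, TCP): three transvections of one class lie in a plane.
PROOF. Replacing `s'`, `s''` by their inverses (`TV.inv`: same centre, functional negated; `Cn` by TCE (8))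
we may assume `s' s⁻¹ ∈ E`, `s'' s⁻¹ ∈ E`. `s' ≠ s` as `f1 e2 ≠ 0` (`TV.uniq`, `fe`). If `s'' = s` or
`s'' = s'`: `TV.uniq`. Otherwise all three are different, `pair` gives the three products `-1`, and
`triple` with `t1 = s`, `t2 = s'`, `t3 = s''` gives `s'' = s' s s'⁻¹` or `s'' = s'⁻¹ s s'` (hypotheses `hy`,
`hy'`: `s'' (s' s s'⁻¹)⁻¹ ∈ E` because `s' s s'⁻¹ s⁻¹ ∈ E`; `co` gives exponents `n4`, `n5`, use `n4 * n5` as
in `orb`). Then `TV.conj` and `TV.uniq`: `e3` is a multiple of `s' e1 = e1 + f2 e1 • e2` (or of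
`s'⁻¹ e1 = e1 - f2 e1 • e2`), `f3` a multiple of `f1 ∘ s'⁻¹ = f1 - f1 e2 * f2` (or with `+`). Compare the proof
of `plane`. -/
def Stmt_TCL : Prop := ∀ (U : Type) [AddCommGroup U] (p : ℕ) [Fact p.Prime] [Module (ZMod p) U]
  (Z E : Subgroup (Un U)), En p Z E → ∀ (s s' s'' : Un U) (e1 e2 e3 : U)
  (f1 f2 f3 : U →+ ZMod p), TV s e1 f1 → TV s' e2 f2 → TV s'' e3 f3 → s ∈ Z → s' ∈ Z → s'' ∈ Z →
  ¬ Cn E s → ¬ Cn E s' → ¬ Cn E s'' → Tc E s s' → Tc E s s'' → f1 e2 ≠ 0 →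
  (∃ a b : ZMod p, e3 = a • e1 + b • e2) ∧ ∃ a b : ZMod p, ∀ v, f3 v = a * f1 v + b * f2 v

/-- BLOCK TCU (uses nothing): unipotent elements normalising a transvection group centralise it.
PROOF. `b s b⁻¹` is a transvection with centre `b e` and functional `f ∘ b⁻¹` (`TV.conj`). If it is `s`:
`TV.uniq` gives `c ≠ 0`, `b e = c • e`, `f v = c * f (b⁻¹ v)`. Then `b ^ (p ^ k) e = c ^ (p ^ k) • e = e`, so
`c ^ (p ^ k) = 1`; `c ^ p = c` in `ZMod p` (`ZMod.pow_card`), so `c = 1`. If it is `s⁻¹`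
(`TV.inv`: centre `e`, functional `-f`): `b e = c • e`, `-f v = c * f (b⁻¹ v)`, again `c = 1`; so
`f (b⁻¹ v) = - f v`, `f v = f (b ^ (-p ^ k) v) = (-1) ^ (p ^ k) f v`; if `p = 3` then `f v = -f v`, so
`f = 0`, contradiction to `f0`; if `p = 2` then `s⁻¹ = s` and we are in the first case. -/
def Stmt_TCU : Prop := ∀ (U : Type) [AddCommGroup U] (p : ℕ) [Fact p.Prime] [Module (ZMod p) U],
  p = 2 ∨ p = 3 → ∀ (s b : Un U) (e : U) (f : U →+ ZMod p), TV s e f → ∀ k : ℕ, b ^ p ^ k = 1 →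
  (b * s * b⁻¹ = s ∨ b * s * b⁻¹ = s⁻¹) →
  (b : AddMonoid.End U) e = e ∧ (∀ v, f ((b : AddMonoid.End U) v) = f v) ∧ b * s = s * b

/-- BLOCK TCF (uses TCE, TCP, TCU): unipotent elements fixing the centre and the class.
PROOF. `b s b⁻¹` is a transvection with centre `b e = e`. If it is different from `s` and `s⁻¹` then TCP (b)
(for `s`, `b s b⁻¹`; `¬ Cn` by TCE (7)) gives `f e ≠ 0`, against `TV.fe`. So TCU applies. -/
def Stmt_TCF : Prop := ∀ (U : Type) [AddCommGroup U] (p : ℕ) [Fact p.Prime] [Module (ZMod p) U]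
  (Z E : Subgroup (Un U)), En p Z E → ∀ (s b : Un U) (e : U) (f : U →+ ZMod p), TV s e f →
  s ∈ Z → b ∈ Z → ¬ Cn E s → ∀ k : ℕ, b ^ p ^ k = 1 → (b : AddMonoid.End U) e = e →
  Tc E (b * s * b⁻¹) s → b * s = s * b

/-- BLOCK MEL (uses TCE, TCP): `E` is generated by the conjugates of `t`, and every transvection which does
not centralise `E` belongs to the class of a conjugate.
PROOF. (1) `ED.EY`, `ME.YZ` etc. (2) `ed.nt`: if `Cn E t` then `t x t⁻¹ x⁻¹ = 1 ∈ D`. (3) Let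
`L = closure {g t g⁻¹ | g ∈ Z}`, normalised by `Z`. `E ⊓ L` is normalised by `Z` and lies in `E`, so by `ed.mn`
`E ⊓ L = E` or `E ⊓ L ≤ D`. In the second case `t x t⁻¹ x⁻¹ ∈ E ⊓ L ≤ D` for all `x ∈ E` (it is in `E`
since `E` is normal, in `L` since `x t⁻¹ x⁻¹ ∈ L`), against `ed.nt`. (4) If `s` commutes with all
`g t g⁻¹` then with `L ≥ E`. So some `g t g⁻¹` does not commute with `s`; TCP (d). -/
def Stmt_MEL : Prop := ∀ (U : Type) [AddCommGroup U] (p : ℕ) [Fact p.Prime] [Module (ZMod p) U]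
  (Y Z E D : Subgroup (Un U)) (t : Un U) (e : U) (f : U →+ ZMod p), ME p Y Z E D t e f →
  En p Z E ∧ ¬ Cn E t ∧ E ≤ Subgroup.closure {s | ∃ g ∈ Z, s = g * t * g⁻¹} ∧
  ∀ s ∈ Z, IsT p s → ¬ Cn E s → ∃ g ∈ Z, Tc E s (g * t * g⁻¹)

/-- BLOCK MQU (uses TCE, TCP, TCN, MEL): transvections in a good `p`-subgroup `Q`.
PROOF. (0) `s ∈ Tq p Q` does not centralise `E` (`MQ.fa`, `TV.ne1`) and lies in `Y ≤ Z`. (1) If `s s'⁻¹ ∈ E` (or
`s s' ∈ E`): this element of `E ⊓ Q` has order prime to `p` (`co`) and a power of `p` (`Qp`), so it is `1`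
(`one_of_coprime`). (2) For `g ∈ Z` there is a conjugate `g0 t g0⁻¹ ∈ Q` (`tQ`); `g g0⁻¹ = x * b` with
`x ∈ E`, `b ∈ Zq` (`fc`); `s = b (g0 t g0⁻¹) b⁻¹ ∈ Q` (`Zn`), and `g t g⁻¹ = x s x⁻¹`. (3) By MEL (4) and
(2). (4) `s' ∈ Z` a transvection, `¬ Cn E s'`: with MEL `s` is in the class of `g t g⁻¹`, `s'` in the class
of `k t k⁻¹`, `h = k g⁻¹ = x * b`; `h s h⁻¹` is in the class of `k t k⁻¹`, so of `s'`, and
`h s h⁻¹ = x (b s b⁻¹) x⁻¹` is in the class of `b s b⁻¹`. (5) (4) and (1) for `b s b⁻¹ ∈ Q`. (6) If `s' = s`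
or `s⁻¹`: `f1 e2` is a multiple of `f1 e1 = 0` (`TV.uniq`, `TV.inv`, `TV.fe`). Otherwise `¬ Tc E s s'` by (1)
and TCP (c). Commuting: the same. (7) If `s ∉ T` then `s⁻¹ ∉ T`. Take the partner `s' = x s x⁻¹`, `x ∈ E`
(TCN). For `s1 ∈ T`: `¬ Tc E s1 s` by (1), so `¬ Tc E s1 s'`, so `s'` commutes with `s1` (TCP (c)). Hence `s'`
commutes with `closure T ∋ s`. But `s' s = s s'` gives `s' e = e` up to a factor: precisely
`s' e - e = f (x⁻¹ e) • x e ≠ 0` while `s (s' e) = s' (s e) = s' e` gives `f (s' e) = 0`, so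
`f (x⁻¹ e) * f (x e) = 0`: contradiction to TCN. -/
def Stmt_MQU : Prop := ∀ (U : Type) [AddCommGroup U] (p : ℕ) [Fact p.Prime] [Module (ZMod p) U]
  (Y Z E D : Subgroup (Un U)) (t : Un U) (e : U) (f : U →+ ZMod p) (Q Zq : Subgroup (Un U)),
  ME p Y Z E D t e f → MQ p Y Z E t Q Zq →
  (∀ s ∈ Tq p Q, s ∈ Z ∧ ¬ Cn E s ∧ s⁻¹ ∈ Tq p Q) ∧
  (∀ s ∈ Tq p Q, ∀ s' ∈ Tq p Q, Tc E s s' → s' = s ∨ s' = s⁻¹) ∧
  (∀ g ∈ Z, ∃ s ∈ Tq p Q, Tc E s (g * t * g⁻¹)) ∧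
  (∀ s ∈ Z, IsT p s → ¬ Cn E s → ∃ s' ∈ Tq p Q, Tc E s s') ∧
  (∀ s ∈ Tq p Q, ∀ s' ∈ Z, IsT p s' → ¬ Cn E s' → ∃ b ∈ Zq, Tc E (b * s * b⁻¹) s') ∧
  (∀ s ∈ Tq p Q, ∀ s' ∈ Tq p Q, ∃ b ∈ Zq, b * s * b⁻¹ = s' ∨ b * s * b⁻¹ = s'⁻¹) ∧
  (∀ s ∈ Q, ∀ s' ∈ Q, ∀ (e1 e2 : U) (f1 f2 : U →+ ZMod p), TV s e1 f1 → TV s' e2 f2 →
    f1 e2 = 0 ∧ s * s' = s' * s) ∧
  (∀ T : Set (Un U), T ⊆ Tq p Q → (∀ s ∈ T, s⁻¹ ∈ T) → ∀ s ∈ Tq p Q, s ∈ Subgroup.closure T →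
    s ∈ T)

end Pool.Agent.Work.MP_6d7bb4.helper94.Sol
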