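import Pool.Agent.Work.MP_6d7bb4_S.Interface1

set_option autoImplicit false
set_option linter.unusedSectionVars false

/-!
# MP_6d7bb4: all soluble semiprimitive groups; interface, part 2

Part D: offenders are products of transvection groups. Part E: the semisimplification, extended. Part F:
the vertex environment.

The file of block `X` is `Pool/Agent/Work/MP_6d7bb4_S/B_X.lean`: `import` this file, namespace
`Pool.Agent.Work.MP_6d7bb4.helper94.Sol`, `theorem s_X (hA : Stmt_A) (hB : Stmt_B) .. : Stmt_X` with the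
blocks of the column uses as hypotheses in that order; private lemmas in `namespace X_X`.

In an environment `ME p Y Z E D t e f` the module `U` is finite: `have := h.fin`; so `Un U` and all its
subgroups are finite. `p • u = 0` for `u : U` because `U` is a `ZMod p`-module.
-/

namespace Pool.Agent.Work.MP_6d7bb4.helper94.Sol

open MulAction Tv Ff Ps
open scoped commutatorElement

/-! ## D. Offenders -/

/-- BLOCK OFF (uses OTV, TCE, TCP, TCN, TCL, TCU, MEL, MQU): abelian subgroups of `Q` and offenders.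
PROOF. It is enough to show, by strong induction on `|A|`: if `A ≤ Q` is abelian and
`|U| ≤ |A| |FxU A|` then `|A| |FxU A| = |U|` and `A = Pq p A`. (Then the first claim holds because
otherwise `|U| < |A| |FxU A|`.) `A = ⊥`: `FxU ⊥ = ⊤` and `Tq p ⊥ = ∅` (`TV.ne1`). Let `A ≠ ⊥`. OTV (`A ≤ Q ≤ Y`,
`Qp`) and `tv_of_rank` give `s ∈ A` with `TV s e1 f1`; `s ∈ Tq p Q`. Let `x ∈ E` be as in TCN for `s`,
`s' = x s x⁻¹`, `e2 = x e1`, `f2 = f1 ∘ x⁻¹`, so `TV s' e2 f2`, `f1 e2 ≠ 0`, `Tc E s s'`. Let `a ∈ A`; it commutes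
with `s` and has order a power of `p`, so TCU gives `a e1 = e1`, `f1 (a v) = f1 v`. The element
`a s' a⁻¹` is a transvection with centre `a e2`, in the class of `a s a⁻¹ = s` (TCE (4)), so TCL for `s`,
`s'`, `a s' a⁻¹` gives `a e2 = α • e1 + β • e2`, and `f1 (a e2) = f1 e2` gives `β = 1`. So
`a e2 = e2 + α • e1`. Let `A2 = {a ∈ A | a e2 = e2}`, a subgroup of `A` (closed under products and
inverses). For every `a ∈ A` some `s ^ m * a` is in `A2`: `s ^ m e2 = e2 + (m * f1 e2) • e1`, choose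
`m` with `m * f1 e2 = - α`. So `|A| = p |A2|`: the map `a ↦ α` induces a bijection
`A ⧸ A2 → ZMod p` (injective: if `a`, `a'` have the same `α` then `a⁻¹ a' ∈ A2`; surjective by the
powers of `s`); equivalently `A2.relIndex A = p`. Moreover
`FxU A = {u ∈ FxU A2 | f1 u = 0}` (`A` is generated by `s` and `A2`; `s u = u + f1 u • e1`), and
`f1` maps `FxU A2 ∋ e2` onto `ZMod p`, so `|FxU A2| = p |FxU A|`. Hence
`|A| |FxU A| = |A2| |FxU A2|`; `|A2| < |A|`, so by induction this is `|U|` and `A2 = Pq p A2 ≤ Pq p A`,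
`s ∈ Pq p A`, so `A = Pq p A`. -/
def Stmt_OFF : Prop := ∀ (U : Type) [AddCommGroup U] (p : ℕ) [Fact p.Prime] [Module (ZMod p) U]
  (Y Z E D : Subgroup (Un U)) (t : Un U) (e : U) (f : U →+ ZMod p) (Q Zq : Subgroup (Un U)),
  ME p Y Z E D t e f → MQ p Y Z E t Q Zq → ∀ A : Subgroup (Un U), A ≤ Q →
  (∀ a ∈ A, ∀ b ∈ A, a * b = b * a) → Nat.card A * Nat.card (FxU A) ≤ Nat.card U ∧
  (Nat.card A * Nat.card (FxU A) = Nat.card U → A = Pq p A)

/-- BLOCK GTR (uses MQU, OFF): groups generated by transvections of `Q`.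
PROOF. `closure T` is abelian (MQU (7) and `Subgroup.closure_induction`; or
`Subgroup.isMulCommutative_closure`) and lies in `Q`, so `≤` is OFF. `≥` by induction on the finite set
`T` (`Set.Finite.induction_on`, `Un U` is finite). `T = ∅`: `closure = ⊥`, `FxU ⊥ = ⊤`. For
`insert s T`, `A = closure T`: if `s ∈ A` then `closure (insert s T) = A`. Otherwise
`closure (insert s T) ≥ A ⊔ zpowers s`, `zpowers s` has order `p` (`TV.pow_p`, `TV.ne1`) and meets `A`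
trivially, so `|closure (insert s T)| ≥ p |A|` (the map `A × zpowers s → Un U`, ` (a, z) ↦ a * z`, is
injective). A point of `FxU A` with `f u = 0` (`f` the functional of `s`) is fixed by
`closure (insert s T)`, so `|FxU A| ≤ p |FxU (closure (insert s T))|` (the kernel of
`f : FxU A → ZMod p`, `card_le_ker` in `Semi.lean`). -/
def Stmt_GTR : Prop := ∀ (U : Type) [AddCommGroup U] (p : ℕ) [Fact p.Prime] [Module (ZMod p) U]
  (Y Z E D : Subgroup (Un U)) (t : Un U) (e : U) (f : U →+ ZMod p) (Q Zq : Subgroup (Un U)),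
  ME p Y Z E D t e f → MQ p Y Z E t Q Zq → ∀ T : Set (Un U), T ⊆ Tq p Q →
  (∀ a ∈ Subgroup.closure T, ∀ b ∈ Subgroup.closure T, a * b = b * a) ∧
  Nat.card (Subgroup.closure T) * Nat.card (FxU (Subgroup.closure T)) = Nat.card U

/-- BLOCK CEN (uses TCE, TCP, TCN, TCF, MQU, OFF, GTR): elements of `Q` which fix `FxU (Pq p Q)`.
PROOF. Let `P = Pq p Q`. (i) For `s ∈ Tq p Q` with `TV s e1 f1`: `e1 ∈ FxU P` (all `s' ∈ Tq p Q` fix `e1` by MQU
(7), so `P` does), so `b e1 = e1`. (ii) `b s b⁻¹ ∈ Tq p Q` is a transvection with centre `b e1 = e1`.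
`Tc E (b s b⁻¹) s`: otherwise let `s' = x s x⁻¹` be the partner of TCN, with functional `f2 = f1 ∘ x⁻¹`,
`f2 e1 ≠ 0`, `Tc E s s'`; then `¬ Tc E (b s b⁻¹) s'` (TCE) and TCP (c) gives `f2 e1 = 0`. So `b s = s b` by
TCF (`b ∈ Q` has order a power of `p`). (iii) So `b` commutes with `P`, and `A = P ⊔ zpowers b ≤ Q` is
abelian; `FxU A = FxU P`. By OFF and GTR `|A| |FxU A| ≤ |U| = |P| |FxU P|`, so `|A| ≤ |P|` and
`A = P ∋ b` (`Subgroup.eq_of_le_of_card_ge`). -/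
def Stmt_CEN : Prop := ∀ (U : Type) [AddCommGroup U] (p : ℕ) [Fact p.Prime] [Module (ZMod p) U]
  (Y Z E D : Subgroup (Un U)) (t : Un U) (e : U) (f : U →+ ZMod p) (Q Zq : Subgroup (Un U)),
  ME p Y Z E D t e f → MQ p Y Z E t Q Zq → ∀ b ∈ Q,
  (∀ u ∈ FxU (Pq p Q), (b : AddMonoid.End U) u = u) → b ∈ Pq p Q

/-- BLOCK INT (uses TCE, TCP, MEL, MQU): disjoint sets of transvections.
PROOF. Let `a` be in both groups. CLAIM: `a` commutes with `c = g t g⁻¹` for every `g ∈ Z`. By MQU (3) there is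
`s ∈ Tq p Q` with `Tc E s c`. If `s ∉ T` then for every `s1 ∈ T`: `¬ Tc E s1 s` (otherwise `s = s1` or
`s = s1⁻¹` by MQU (2), in `T`), so `¬ Tc E s1 c`, and TCP (c) says that `c` commutes with `s1`; so `c` commutes
with `closure T ∋ a`. If `s ∈ T` then `s ∉ T'`, and the same argument with `T'`. By MEL `a` commutes
with `E`, so `a = 1` by `MQ.fa` (`closure T ≤ Q`). -/
def Stmt_INT : Prop := ∀ (U : Type) [AddCommGroup U] (p : ℕ) [Fact p.Prime] [Module (ZMod p) U]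
  (Y Z E D : Subgroup (Un U)) (t : Un U) (e : U) (f : U →+ ZMod p) (Q Zq : Subgroup (Un U)),
  ME p Y Z E D t e f → MQ p Y Z E t Q Zq → ∀ T T' : Set (Un U), T ⊆ Tq p Q → T' ⊆ Tq p Q →
  (∀ s ∈ T, s⁻¹ ∈ T) → (∀ s ∈ T', s⁻¹ ∈ T') → (∀ s ∈ T, s ∉ T') →
  Subgroup.closure T ⊓ Subgroup.closure T' = ⊥

/-- BLOCK CLS (uses TCE, TCP, MQU): the group generated by the transvections of `Q` preserves the classes.
PROOF. Let `s ∈ Z` be a transvection, `¬ Cn E s`. The set of all `a ∈ Z` such that for ALL such `s`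
`Tc E (a s a⁻¹) s` is closed under products and inverses (TCE: (4), (3), (2); `a s a⁻¹` is again such a
transvection, `TV.conj`, TCE (7)). It contains `s1 ∈ Tq p Q`: if `¬ Tc E s1 s` then `s1` and `s` commute (TCP
(c)). If `Tc E s1 s` then `Tc E (s1 s s1⁻¹) (s1 s1 s1⁻¹) = Tc E (s1 s s1⁻¹) s1`, and transitivity.
Closure induction. -/
def Stmt_CLS : Prop := ∀ (U : Type) [AddCommGroup U] (p : ℕ) [Fact p.Prime] [Module (ZMod p) U]
  (Y Z E D : Subgroup (Un U)) (t : Un U) (e : U) (f : U →+ ZMod p) (Q Zq : Subgroup (Un U)),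
  ME p Y Z E D t e f → MQ p Y Z E t Q Zq → ∀ a ∈ Pq p Q, ∀ s ∈ Z, IsT p s → ¬ Cn E s →
  Tc E (a * s * a⁻¹) s

/-- BLOCK QDC (uses nothing): quadratic action of groups generated by transvections.
PROOF. Let `F = FxU (closure T')`. For `s ∈ T` with `TV s e1 f1`: every `s' ∈ T'` fixes `e1`
(`s' e1 = e1 + f2 e1 • e2`), so `e1 ∈ F` (`FxU` of a closure: closure induction). The set of all `a` with
`a u - u ∈ F` for all `u` is closed under products
(` (a b) u - u = a (b u - u) + (a u - u)` and `a w = w + (a w - w)`) and inverses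
(`a⁻¹ u - u = -(a (a⁻¹ u) - a⁻¹ u)`), and contains `T`. -/
def Stmt_QDC : Prop := ∀ (U : Type) [AddCommGroup U] (p : ℕ) [Fact p.Prime] [Module (ZMod p) U]
  (T T' : Set (Un U)), (∀ s ∈ T, IsT p s) → (∀ s ∈ T', IsT p s) →
  (∀ s ∈ T, ∀ s' ∈ T', ∀ (e1 e2 : U) (f1 f2 : U →+ ZMod p), TV s e1 f1 → TV s' e2 f2 →
    f2 e1 = 0) →
  ∀ a ∈ Subgroup.closure T, ∀ b ∈ Subgroup.closure T', ∀ u : U,
  (b : AddMonoid.End U) ((a : AddMonoid.End U) u - u) = (a : AddMonoid.End U) u - u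

/-- the span of the centres of the conjugates of `t` -/
def Sc {U : Type} [AddCommGroup U] (Z : Subgroup (Un U)) (e : U) : AddSubgroup U :=
  AddSubgroup.closure {u | ∃ g ∈ Z, u = (g : AddMonoid.End U) e}

/-- BLOCK MIN (uses TCE, TCP, TCN, TCL, MEL): the span `S` of the centres is a minimal invariant subgroup.
PROOF. (1) clear (closure induction). (3) Let `s ∈ Z` be a transvection, `¬ Cn E s`, centre `e3`. MEL gives
`g ∈ Z` with `Tc E s (g t g⁻¹)`; `r = g t g⁻¹` has centre `g e`; TCN gives `x ∈ E ≤ Z`, `r' = x r x⁻¹`, centre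
`x (g e)`, functional of `r` nonzero on it. TCL for `r`, `r'`, `s`: `e3` is a linear combination of `g e` and
`x (g e)`, so in `S` (a subgroup of `U` is closed under `ZMod p`-multiples: `c • u = c.val • u`). So
`s u - u ∈ S`; the set of all `a ∈ Z` with `a u - u ∈ S` for all `u` is closed under products and inverses
(`a (b u - u) ∈ S` by (1)). (2) Let `S' ≤ S` be invariant. If there are `u ∈ S'`, `g ∈ Z` with
`f (g⁻¹ u) ≠ 0` then ` (g t g⁻¹) u - u = f (g⁻¹ u) • g e ∈ S'`, so `g e ∈ S'` and `S ≤ S'`. Otherwise every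
`g t g⁻¹` fixes every `u ∈ S'`, so `E` does (MEL). Let `N u = ∑ x : E, x u`. (a) For `u ∈ S'`:
`N u = |E| • u`. (b) `N u = 0` for `u ∈ S`: let `A` be the subgroup generated by all `x v - v`, `x ∈ E`,
`v : U`; `N (x v - v) = 0` (reindex), so `N = 0` on `A`; `A` is invariant under `Z` (`g (x v - v) =
(g x g⁻¹) (g v) - g v`). With `x` from TCN for `t`: `w = x e - e ∈ A` and
`t w - w = f (x e - e) • e = f (x e) • e ∈ A`, so `e ∈ A` (`f e = 0`, `f (x e) ≠ 0`) and `S ≤ A`. So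
`|E| • u = 0` and `p • u = 0` for `u ∈ S'`; `|E|` is prime to `p` (`co`: an element of order `p` of `E` would
exist, `exists_prime_orderOf_dvd_card`), so `u = 0`, `S' = ⊥`. -/
def Stmt_MIN : Prop := ∀ (U : Type) [AddCommGroup U] (p : ℕ) [Fact p.Prime] [Module (ZMod p) U]
  (Y Z E D : Subgroup (Un U)) (t : Un U) (e : U) (f : U →+ ZMod p), ME p Y Z E D t e f →
  Iv Z (Sc Z e) ∧
  (∀ S' : AddSubgroup U, S' ≤ Sc Z e → Iv Z S' → S' = ⊥ ∨ S' = Sc Z e) ∧
  (∀ T : Set (Un U), (∀ s ∈ T, s ∈ Z ∧ IsT p s ∧ ¬ Cn E s) → ∀ a ∈ Subgroup.closure T, ∀ u : U,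
    (a : AddMonoid.End U) u - u ∈ Sc Z e)

/-! ## E. The semisimplification -/

/-- BLOCK SEM (uses nothing): semisimplification with the properties `tl`, `tt`.
PROOF. Copy the proof of `semi` (`Semi.lean`; everything with universe `0`) and add the two fields. Base
case (`V` trivial, `U = V`, `ψ = φ`): both fields are trivial. Step: `W` a maximal invariant subgroup,
`U = U_W × (V ⧸ W)`, `χ x (u1, u2) = (ψ x u1, qa hWi x u2)`. Let `A` be tight:
`|V| |Fx χ A| ≤ |U| |Fx φ A|`. We have `|V| = |V/W| |W|`, `|U| = |U_W| |V/W|`,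
`|Fx χ A| = |Fx ψ A| |Fx q A|`, `|Fx φ A| ≤ |Fx (ra) A| |I|` where `I ≤ Fx q A` is the image of `Fx φ A` in
`V/W` (kernel `Fx φ A ⊓ W = Fx (ra) A`), and `|U_W| |Fx (ra) A| ≤ |W| |Fx ψ A|` (`cd` of the induction
hypothesis). So
`|V/W| |W| |Fx ψ A| |Fx q A| ≤ |U_W| |V/W| |Fx (ra) A| |I| ≤ |V/W| |W| |Fx ψ A| |I|`, hence
(A1) `I = Fx q A`: every `A`-fixed element of `V/W` is the image of an `A`-fixed element of `V`, and
(A2) `|W| |Fx ψ A| ≤ |U_W| |Fx (ra) A|`: `A` is tight on `W`.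
`tl`: if `b` fixes `Fx φ A` then it fixes `Fx (ra) A`, so `Fx ψ A` by induction, and `I = Fx q A`, so
`Fx χ A`. `tt`: let `S` be as in `tt` for `χ`. CASE 1: `A` acts trivially on `V/W`. Then `V = Fx φ A + W` by
(A1), so `φ a v - v = φ a w - w` for some `w ∈ W`: we need the claim for `W`. Let
`S1 = {u | (u, 0) ∈ S}`: invariant, minimal (for `S' ≤ S1` take `S' × 0 ≤ S`; it is `⊥` or `S`), and all
hypotheses of `tt` for `W`, `ψ`, `S1` follow by inserting ` (u, 0)`; `A`, `A'` are tight on `W` by (A2).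
CASE 2: some `a0 ∈ A`, `v` with `q a0 v - v ≠ 0`. Then ` (0, q a0 v - v) = χ a0 (0, v) - (0, v)` is a nonzero
element of `S`, so the invariant subgroup `S ⊓ (0 × V/W)` is `S`: all first components of elements of `S` are
`0`. So ` (ψ b u - u, 0) = χ b (u, 0) - (u, 0) ∈ S` gives `ψ b u = u` for `b ∈ A'`: `Fx ψ A' = U_W`, and (A2) for
`A'` gives `Fx (ra) A' = W`: `A'` fixes `W`. Let `a ∈ A`, `v : V`. The second component of the last hypothesis
says that the image of `φ a v - v` in `V/W` is fixed by `A'`; by (A1) for `A'` there is `v0 ∈ Fx φ A'` with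
`φ a v - v - v0 ∈ W`, which is fixed by `A'`, so `φ a v - v` is fixed by `A'`. -/
def Stmt_SEM : Prop := ∀ (X : Type) [Group X] [Finite X] (p : ℕ) [Fact p.Prime] (V : Type)
  [AddCommGroup V] [Finite V] (φ : X →* AddMonoid.End V), (∀ v : V, p • v = 0) →
  ∃ (U : Type) (_ : AddCommGroup U) (_ : Finite U) (ψ : X →* AddMonoid.End U), Ss2 p φ ψ

/-- BLOCK MDX (uses SEM): the semisimple module of `V`, in group terms.
PROOF. Copy the proof of `mod_ex` (`Md.lean`), with SEM instead of `semi` (`hab`, `hexp` are the fields of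
`El p V`; `Fact.out : p.Prime`), and add the fields `isR` (there: `hIsR`), `qp` (the proof of the field `qd`
of `Md` for two elements), `cd`, `tl`, `tt`. For `A ≤ X` let `A1 = A.subgroupOf X`; with the model
`e : V ≃ W` one has `|Fx φ A1| = |Cw V A|` (`h3` there; `Cw V A` is by definition
`V ⊓ Subgroup.centralizer A`), `Fx ψ A1 = FxU (im ψ A)` (`h2` there), `|V| = |W|`; `b` fixes
`Fx φ A1` iff it commutes with all `v ∈ Cw V A` (`e (b v b⁻¹) = φ b (e v)`); invariance under `ψ.range`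
is `Inv ψ`; and `φ b (φ a (e v) - e v) = φ a (e v) - e v` iff
`b (a v a⁻¹ v⁻¹) b⁻¹ = a v a⁻¹ v⁻¹` as in the field `qd`. -/
def Stmt_MDX : Prop := ∀ (G : Type) [Group G] (p : ℕ) [Fact p.Prime] (X V : Subgroup G),
  Finite X → Finite V → Nm X V → El p V →
  ∃ (R : Subgroup G) (U : Type) (_ : AddCommGroup U) (_ : Finite U) (ψ : X →* Un U),
    Md2 p X V R ψ

/-! ## F. The vertex environment -/

/-- BLOCK FMB (uses nothing): families of subgroups.
PROOF. Generalisation of `VZ_cj`, `nm_VZ`, `centZ_not_tr`, `nc_lem`, `centZ_K` of `Zeta.lean` from systems `Zt` to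
families `Fm`; copy the proofs. (2) `VZ Γ ζ x` lies in `stabilizer G x` (`le`, `Qe_le_st`), which is finite
(`h.fin_le`). (3) is `centZ_not_tr`: if `C` is transitive then `ζ x y` is normalised by `stabilizer G x`
(`nm_st`; `C` commutes with it; `B x y` normalises it by `cj`) and by an inversion (`cm`), so it is trivial
(`P1`), against `ne`. (4) is `nc_lem` and (5) is `centZ_K`. -/
def Stmt_FMB : Prop := ∀ (V G : Type) [Group G] [MulAction G V] (Γ : SimpleGraph V) (d p : ℕ)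
  [Fact p.Prime] (ζ : V → V → Subgroup G), Loc G Γ d → Fm Γ p ζ →
  (∀ (g : G) x, VZ Γ ζ (g • x) = cj g (VZ Γ ζ x)) ∧
  (∀ x, VZ Γ ζ x ≤ stabilizer G x ∧ Nm (stabilizer G x) (VZ Γ ζ x) ∧
    Finite (VZ Γ ζ x : Subgroup G)) ∧
  (∀ x y, Γ.Adj x y → ∀ C : Subgroup G, C ≤ stabilizer G x →
    (∀ g ∈ C, ∀ v ∈ VZ Γ ζ x, g * v = v * g) →
    ¬ ∀ y y', Γ.Adj x y → Γ.Adj x y' → ∃ n ∈ C, n • y = y') ∧
  (∀ x y, Γ.Adj x y → ∀ R : Subgroup G, R ≤ stabilizer G x → Nm (stabilizer G x) R →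
    PAct p R (VZ Γ ζ x) → R ⊓ B x y ≤ K Γ x) ∧
  (∀ x y, Γ.Adj x y → ∀ b ∈ B x y, (∀ v ∈ VZ Γ ζ x, b * v = v * b) → b ∈ K Γ x)

/-- BLOCK VEX (uses FMB): existence of the vertex environment.
PROOF. Compare `cfg_of` in `Lc2.lean`; several parts can be copied. Write `X = stabilizer G x`, `Z = ψ.range`,
`Y = im ψ (Nh Γ p x)`. `ker` is `Md.ker`; `Rs` from `isR.le`; `RK`: FMB (4) with `isR.nm`, `isR.pa`. `QR`: `isR.mx`
for `Qv Γ p x` (`Qv_le_st`, `nm_Qv`; `PAct` because it is a `p`-group: ` (Qe_isP h x y).to_le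
(Qv_le_Qe h hxy)`). `t = ψ t0` with `t0 ∈ Qe p x y`; `t0 ∉ K Γ x`, since otherwise
`t0 ∈ Qv Γ p x ≤ R` (`Qv_eq`) and `t = 1`, against `TV.ne1`. `Y` is finite, normal in `Z`, `PSol p Y` by
`psol_range`, `psol_top` (see `cfg_of`); `np`: `Md.np`. `exists_E` gives `E`, `D` and `co`. `Et`: part `hNtr` of
`cfg_of`: `g1` (`Lc.lean`) for `L = pre (closure {conjugates of t} ⊔ E)`, `L0 = pre E`, `q = p`, where
`pre S = (S.comap ψ).map X.subtype`, or intersected with `Nh` as there. `tQ`: `y`, `t`. `fa`: let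
`y1 ~ x`, `s = ψ g`, `g ∈ Qe p x y1`, `Cn E s`. Let `T` be generated by all `ψ k s (ψ k)⁻¹`. For `k ∈ X`, `Et` gives
`n` with `ψ n ∈ E`, `n y1 = k⁻¹ y1`; then `b = k n ∈ B x y1`, `b g b⁻¹ ∈ Qe p x y1` (`nm_Qe`) and
`ψ (b g b⁻¹) = ψ k s (ψ k)⁻¹` because `ψ n` commutes with `s`. So `T ≤ im ψ (Qe p x y1)` is a `p`-group,
normalised by `Z`, so `T = ⊥` by `Md.np` and `s = 1` (compare `hT0` in `cfg_of`). -/
def Stmt_VEX : Prop := ∀ (V G : Type) [Group G] [MulAction G V] (Γ : SimpleGraph V) (d p : ℕ)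
  [Fact p.Prime] (ζ : V → V → Subgroup G), Loc G Γ d → p = 2 ∨ p = 3 →
  (∀ w, PSol p (Nh Γ p w : Subgroup G)) → Fm Γ p ζ → ∀ x y, Γ.Adj x y →
  ∀ (R : Subgroup G) (U : Type) [AddCommGroup U] [Finite U] [Module (ZMod p) U]
  (ψ : stabilizer G x →* Un U), Md2 p (stabilizer G x) (VZ Γ ζ x) R ψ →
  ∀ t ∈ im ψ (Qe p x y), ∀ (e : U) (f : U →+ ZMod p), TV t e f →
  ∃ E D : Subgroup (Un U), VE Γ p x R ψ E D t e f

/-- BLOCK VMQ (uses nothing): the groups `Qe p x y` give good `p`-subgroups.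
PROOF. `QY`: `Qe_le_Nh`. `Qp`: the image of a `p`-group (`Qe_isP`, `IsPGroup.map`, `comap_of_injective`; see
`hTp` in `cfg_of`). `fa`: `VE.fa`. `Zn`: `nm_Qe`. `ZZ`: clear. `fc`: `z = ψ g`; `Et` for `y`, `g y` gives `n` with
`ψ n ∈ E`, `n y = g y`; `b = n⁻¹ g ∈ B x y` and `z = ψ n * ψ b`. `tQ`: `t ∈ im ψ (Qe p x y0)`; `h.arc` gives
`g` with `g x = x`, `g y0 = y`, and `Qe_cj`. Second part: `Qe_cj`: `Qe p x (g y) = cj g (Qe p x y)`
(`g x = x`). -/
def Stmt_VMQ : Prop := ∀ (V G : Type) [Group G] [MulAction G V] (Γ : SimpleGraph V) (d p : ℕ)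
  [Fact p.Prime], Loc G Γ d → ∀ (x : V) (R : Subgroup G) (U : Type) [AddCommGroup U]
  [Module (ZMod p) U] (ψ : stabilizer G x →* Un U) (E D : Subgroup (Un U)) (t : Un U) (e : U)
  (f : U →+ ZMod p), VE Γ p x R ψ E D t e f → ∀ y, Γ.Adj x y →
  MQ p (im ψ (Nh Γ p x)) ψ.range E t (im ψ (Qe p x y)) (im ψ (B x y)) ∧
  ∀ (g : stabilizer G x) (s : Un U), s ∈ im ψ (Qe p x (g.1 • y)) ↔
    (ψ g)⁻¹ * s * ψ g ∈ im ψ (Qe p x y)

/-- BLOCK LBG (uses OTV, OFF, MDX, FMB, VEX, VMQ): the lower bound `|A : A ∩ Q_x| ≤ |V : C_V(A)|`.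
PROOF. `V = VZ Γ ζ x`; MDX (FMB (2), `Fm.el`, `h.fin x`) gives `R`, `U`, `ψ` with `Md2`; `ZMod p`-module by
`AddCommGroup.zmodModule hψ.ex`. `A' = im ψ A`, abelian, a `p`-group. STEP 1: `|A'| |FxU A'| ≤ |U|`. Suppose
not. `A' ≠ ⊥` (`FxU ⊥ = ⊤`). OTV (with `Y = im ψ (Nh Γ p x)`, `Z = ψ.range`; see the proof of VEX for its
hypotheses) and `tv_of_rank` give a transvection `t ∈ A'`, so VEX, VMQ, OFF give the inequality. STEP 2:
`A ⊓ R = A ⊓ Qv Γ p x`: `A ⊓ R ≤ B x y ⊓ R ≤ K Γ x` (FMB (4)), and `Qe ⊓ K = Qv` (`Qv_eq`); `Qv ≤ R` by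
`isR.mx` as in VEX. So `|A| = |A'| |A ⊓ Qv|` (kernel of `A → A'`; see `h4` in the proof of `mod_ex`).
STEP 3: `cd`: `|U| |Cw V A| ≤ |V| |FxU A'|`. So
`|A| |Cw V A| |U| ≤ |A'| |A ⊓ Qv| |V| |FxU A'| ≤ |A ⊓ Qv| |V| |U|`; cancel `|U|`. -/
def Stmt_LBG : Prop := ∀ (V G : Type) [Group G] [MulAction G V] (Γ : SimpleGraph V) (d p : ℕ)
  [Fact p.Prime] (ζ : V → V → Subgroup G), Loc G Γ d → p = 2 ∨ p = 3 →
  (∀ w, PSol p (Nh Γ p w : Subgroup G)) → Fm Γ p ζ → ∀ x y, Γ.Adj x y →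
  ∀ A : Subgroup G, A ≤ Qe p x y → (∀ a ∈ A, ∀ b ∈ A, a * b = b * a) →
  Nat.card A * Nat.card (Cw (VZ Γ ζ x) A) ≤
    Nat.card (VZ Γ ζ x : Subgroup G) * Nat.card (A ⊓ Qv Γ p x : Subgroup G)

end Pool.Agent.Work.MP_6d7bb4.helper94.Sol
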