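import Mathlib
import Pool.Agent.Work.MP_6d7bb4_S.All

/-!
# Discrete locally semiprimitive groups acting on trees: soluble local actions

Let `F` be semiprimitive on the finite set `Ω`, `d = |Ω|`. Suppose that for every prime `p` at least one
of the following holds.

* (A) Every normal `p`-subgroup of every point stabiliser of `F` has order at most `p`.
* (B) All normal `p`-subgroups of all point stabilisers of `F` lie in one `p`-soluble group `S` of
  permutations of `Ω`.

Then the discrete automorphism groups of the `d`-regular tree which act locally like `F` and contain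
an involutive inversion, or are just vertex-transitive, fall into finitely many conjugacy classes. Their
vertex stabilisers have order at most ` ((d + 1) ^ r)!`, where `r = 2 d (2 d + 1) + (d!) ^ (2 d + 1) + 2`.

In particular Q1 and the conjecture of Potocnik, Spiga and Verret hold for EVERY soluble semiprimitive
group `F` (take `S = F` for all primes), and for every semiprimitive `F` which is `p`-soluble for all
primes `p` such that some `O_p(F_ω)` has order greater than `p`.

Proof. The amalgam method for an arbitrary vertex valency. One has to find a vertex in a ball of bounded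
radius which is moved by a given element `z` of order `p` in the centre of `Q_e = O_p(H_e)`, `e` an edge.
Under (A) this is done by a bound for the length of a critical pair, under (B) for `p ≥ 5` by a
Hall-Higman argument. The new case is (B) for `p ∈ {2, 3}`, where the modules of a critical pair are
offenders of unbounded size on one another. 1. The Baumann subgroup `B_e = Q_e ∩ C(Ω_1 Z(J(Q_e)))` of
the edge and the module `W_x` generated by the groups `Z_e = Ω_1 Z(J(Q_e))`, `x ∈ e`, satisfy
`[W_x, B_e] ≤ Z_e` and `|W_x : Z_e| = |B_e : S_x| ≤ d!`, where `S_x` is the centraliser of `W_x` in `O_p`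
of the kernel at `x`. This uses that an abelian `p`-group which is an offender on the semisimplification
of `W_x` is a product of groups of transvections, one from each of several classes of transvections,
which are permuted transitively by the arc stabiliser. 2. The subgroups `P` between `S_x` and `B_e` with
`|P : S_x| = |W_x : C(P)|` form a Boolean lattice; a decomposition of `B_e` into complementary members
is compatible with the action on `W_x`, for all edges at `x` at the same time. 3. If `x`, `w` is a
critical pair then `W_w S_x` is such a subgroup. 4. This makes it possible to continue a critical pair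
to a bi-infinite path of critical pairs, whose length is bounded by the length of a chain of subgroups
of `W_x`; and `|W_x|` is at most ` (d!) ^ (2 d + 1)`.
-/

set_option autoImplicit false

namespace Pool.Agent.Results.MP_6d7bb4_al.SolubleSemiprimitive

/-- the radius `2 d (2 d + 1) + (d!) ^ (2 d + 1) + 2` -/
def radius (d : ℕ) : ℕ := 2 * d * (2 * d + 1) + d.factorial ^ (2 * d + 1) + 2

/-- For semiprimitive `F` on a finite set `Ω` satisfying (A) or (B) at every prime, and the
`|Ω|`-regular tree, the automorphism subgroups that are discrete, act locally like `F` at every vertex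
and contain an order-2 edge inversion or are vertex-transitive fall into finitely many conjugacy
classes, and their vertex stabilisers have order at most ` ((d + 1) ^ radius d)!`, `d = |Ω|`. -/
theorem result :
  ∀ (Ω : Type) [Fintype Ω] (F : Subgroup (Equiv.Perm Ω)),
    ((∀ a b : Ω, ∃ σ ∈ F, σ a = b) ∧
      ∀ N : Subgroup (Equiv.Perm Ω), N ≤ F →
        (∀ f ∈ F, ∀ n ∈ N, f * n * f⁻¹ ∈ N) →
        ((∀ a b : Ω, ∃ σ ∈ N, σ a = b) ∨ (∀ σ ∈ N, ∀ a : Ω, σ a = a → σ = 1))) →
    (∀ p : ℕ, p.Prime →
      -- (A) normal `p`-subgroups of point stabilisers have order at most `p`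
      (∀ ω : Ω, ∀ N : Subgroup (Equiv.Perm Ω), N ≤ F → (∀ n ∈ N, n ω = ω) →
        (∀ f ∈ F, f ω = ω → ∀ n ∈ N, f * n * f⁻¹ ∈ N) → IsPGroup p N → Nat.card N ≤ p) ∨
      -- (B) they lie in a `p`-soluble group `S`
      (∃ S : Subgroup (Equiv.Perm Ω),
        (∀ ω : Ω, ∀ N : Subgroup (Equiv.Perm Ω), N ≤ F → (∀ n ∈ N, n ω = ω) →
          (∀ f ∈ F, f ω = ω → ∀ n ∈ N, f * n * f⁻¹ ∈ N) → IsPGroup p N → N ≤ S) ∧
        (∀ L : Subgroup (Equiv.Perm Ω), L ≤ S → L ≠ ⊥ →
          ∃ N : Subgroup (Equiv.Perm Ω), N ≤ L ∧ N ≠ L ∧ (∀ l ∈ L, ∀ n ∈ N, l * n * l⁻¹ ∈ N) ∧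
            ((∃ k, N.relIndex L = p ^ k) ∨ ¬ p ∣ N.relIndex L)))) →
    ∀ (V : Type) (Γ : SimpleGraph V), Γ.IsTree →
      (∀ v : V, Nonempty (Γ.neighborSet v ≃ Ω)) →
      ∃ S : Finset (Subgroup (Γ ≃g Γ)),
        ∀ H : Subgroup (Γ ≃g Γ),
          (∀ v : V, {g : Γ ≃g Γ | g ∈ H ∧ g v = v}.Finite) →
          (∀ x : V, ∃ e : Γ.neighborSet x ≃ Ω, ∀ σ : Equiv.Perm Ω,
              σ ∈ F ↔ ∃ g ∈ H, g x = x ∧
                ∀ y : Γ.neighborSet x,
                  g (y : V) = ((e.symm (σ (e y)) : Γ.neighborSet x) : V)) →
          -- `H` contains an involutive inversion, or is vertex-transitive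
          ((∃ g ∈ H, ∃ x y : V, Γ.Adj x y ∧ g x = y ∧ g y = x ∧ g * g = 1) ∨
            (∀ x y : V, ∃ g ∈ H, g x = y)) →
          (∃ K ∈ S, ∃ a : Γ ≃g Γ, H = K.map (MulAut.conj a).toMonoidHom) ∧
          ∀ v : V, Nat.card {g : Γ ≃g Γ // g ∈ H ∧ g v = v} ≤
            ((Fintype.card Ω + 1) ^ radius (Fintype.card Ω)).factorial := by
  intro Ω _ F hF hF3 V Γ hT hreg
  exact Pool.Agent.Work.MP_6d7bb4.helper94.Sol.main_sol hF.1 hF.2 (fun p hp => by
    rcases hF3 p hp with hA | ⟨S, h1, h2⟩
    · exact Or.inl hA
    · exact Or.inr ⟨S, ⟨h1, h2⟩⟩) hT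

end Pool.Agent.Results.MP_6d7bb4_al.SolubleSemiprimitive
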